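import Pool.Agent.H30.LPT.Twf

/-!
# No look-ahead given the near path, the chain and one more place, at real windows

`NgX`, `NgW`: the statements at the indices and at the real windows with further quantities `QT`,
`QT₁`, `QU`. `ng_real`: from the indices to the real windows. `NrT`, `NtW`, `NtG`: the statement for
the jets over the chain and one more place, in small boxes around `g`.
-/

set_option autoImplicit false

namespace Pool.LPT30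

open Finset Real MvPolynomial
open Pool.Agent.H49.Ent Pool.Agent.H32.Dense Pool.STK Pool.KA Pool.KSAT Pool.K2S Pool.PB Pool.S6C
  Pool.GEN Pool.RCD Pool.LA91
open Pool.OWN83 (TwoRelS TRelS yX kn0_yX ae_shift)
open Pool.OWN68 (cl2_vg)
open Pool.AVG96 (fl fl_mem fl_mono le_fl whG)
open Pool.LP30 Pool.LPJ30

variable {m : ℕ} {S : PCl m}

/-- A pair whose second component is known. -/
theorem sw_pair {Ω A B C P Z : Type} [Fintype Ω] {q : Ω → ℝ} (h0 : ∀ ω, 0 ≤ q ω)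
    (u : Ω → A × C) (v : Ω → B) (pa : Ω → P) (zz : Ω → Z) :
    CH q u (fun ω => ((pa ω, (v ω, (u ω).2)), zz ω)) ≤
      CH q (fun ω => (u ω).1) (fun ω => ((pa ω, v ω), zz ω)) := by
  refine (ch_prt h0 (a := fun ω => (u ω).2) (b := fun ω => (u ω).1) (fun ω ω' _ _ hh => ?_)
    fun ω ω' _ _ hh => ?_).trans (CH_mono_cond h0 fun ω ω' _ _ hh => ?_)
  · have h1 := Prod.ext_iff.mp hh
    exact Prod.ext h1.2 h1.1
  · exact (Prod.ext_iff.mp (Prod.ext_iff.mp (Prod.ext_iff.mp hh).1).2).2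
  · have h1 := Prod.ext_iff.mp hh
    have h2 := Prod.ext_iff.mp h1.1
    exact Prod.ext (Prod.ext h2.1 (Prod.ext_iff.mp h2.2).1) h1.2

/-- The same, the other way round. -/
theorem sw_pair' {Ω A B C P Z : Type} [Fintype Ω] {q : Ω → ℝ} (h0 : ∀ ω, 0 ≤ q ω)
    (u : Ω → A × C) (v : Ω → B) (pa : Ω → P) (zz : Ω → Z) :
    CH q (fun ω => (v ω, (u ω).2)) (fun ω => ((pa ω, u ω), zz ω)) ≤
      CH q v (fun ω => ((pa ω, (u ω).1), zz ω)) := by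
  refine (ch_prt h0 (a := fun ω => (u ω).2) (b := v) (fun ω ω' _ _ hh => ?_)
    fun ω ω' _ _ hh => ?_).trans (CH_mono_cond h0 fun ω ω' _ _ hh => ?_)
  · have h1 := Prod.ext_iff.mp hh
    exact Prod.ext h1.2 h1.1
  · exact congrArg Prod.snd (Prod.ext_iff.mp (Prod.ext_iff.mp hh).1).2
  · have h1 := Prod.ext_iff.mp hh
    have h2 := Prod.ext_iff.mp h1.1
    exact Prod.ext (Prod.ext h2.1 (congrArg Prod.fst h2.2)) h1.2

/-- **No look-ahead given the near path**, between the windows `x ≤ y`, digits of `o`, further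
quantities. -/
def NgW (S : PCl m) (c : ℕ → Fin m) (d : ℕ) {n n' : ℕ} (k : Fin n → Fin m) (od : Fin n → ℕ)
    (kB : Fin n' → Fin m) (oB : Fin n' → ℕ) (sn : ℕ → ℝ → ℝ)
    (T : Fin n → ℝ → ℝ) (TB : Fin n' → ℝ → ℝ) (nH nV : ℕ → ℝ) (nB : Fin n' → ℝ)
    {U₁ U₂ U₃ : Type} (QT : Qt m U₁) (QT₁ : Qt m U₂) (QU : Qt m U₃) (b x y o κ : ℝ) : Prop :=
  ∃ κ₁ : ℝ, 0 < κ₁ ∧ ∃ e₀ : ℝ, 0 < e₀ ∧ ∀ K : ℕ, Bas S (fun J F A =>
    ∀ (V : Type) (z : F.Ω → V) (V' : Type) (z' : F.Ω → V'),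
    Mx (fun J F => ptr F J) (vg x) κ₁ F A z → Mx (fun J F => ptr F J) (vg y) κ₁ F A z' →
    ∀ u u₁ q pa, ((jtR m c d k od T b (fun i => T i o - od i * o)).prod QT).P K e₀ J F A u →
    ((jtR m c d k od T b (fun i => T i y - od i * y)).prod QT₁).P K e₀ J F A u₁ →
    ((jtR m c d kB oB TB b nB).prod QU).P K e₀ J F A q →
    (paQ m c d b (fun l => sn l b) nH nV).P K e₀ J F A pa →
    CH (Pool.Agent.H49.Ent.cond F.p A True) q (fun ω => (pa ω, (z ω, F.W ω))) ≤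
      CH (Pool.Agent.H49.Ent.cond F.p A True) q (fun ω => (pa ω, (z' ω, F.W ω))) + κ * J ∧
    CH (Pool.Agent.H49.Ent.cond F.p A True) u
        (fun ω => (u₁ ω, ((pa ω, q ω), (z ω, F.W ω)))) ≤
      CH (Pool.Agent.H49.Ent.cond F.p A True) u (fun ω => ((pa ω, q ω), (z' ω, F.W ω))) + κ * J)

/-- **The statement at the indices**: the records at `zw ≤ x` and `zv ≥ y`, the charts at `wc`,
digits `Po`, `Pv`, further quantities. -/
def NgX (S : PCl m) (c : ℕ → Fin m) (d : ℕ) {n n' : ℕ} (k : Fin n → Fin m) (od : Fin n → ℕ)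
    (kB : Fin n' → Fin m) (oB : Fin n' → ℕ) (sn : ℕ → ℝ → ℝ)
    (T : Fin n → ℝ → ℝ) (TB : Fin n' → ℝ → ℝ) (nH nV : ℕ → ℝ) (nB : Fin n' → ℝ)
    {U₁ U₂ U₃ : Type} (QT : Qt m U₁) (QT₁ : Qt m U₂) (QU : Qt m U₃)
    (wc zw zv : ℝ) (Pv Po : Fin n → ℝ) (κ : ℝ) : Prop :=
  ∀ ε : ℝ, 0 < ε → ∃ κ₁ : ℝ, 0 < κ₁ ∧ ∃ e₀ : ℝ, 0 < e₀ ∧ ∀ K : ℕ, Bas S (fun J F A =>
    ∀ (V : Type) (z : F.Ω → V) (V' : Type) (z' : F.Ω → V'),
    Mx (fun J F => ptr F J) (vg zw) κ₁ F A z → Mx (fun J F => ptr F J) (vg zv) κ₁ F A z' →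
    ∀ u u₁ q pa, ((jtR m c d k od T wc Po).prod QT).P K e₀ J F A u →
    ((jtR m c d k od T wc Pv).prod QT₁).P K e₀ J F A u₁ →
    ((jtR m c d kB oB TB wc nB).prod QU).P K e₀ J F A q →
    (paQ m c d wc (fun l => sn l wc) nH nV).P K e₀ J F A pa →
    CH (Pool.Agent.H49.Ent.cond F.p A True) q (fun ω => (pa ω, (z ω, F.W ω))) ≤
      CH (Pool.Agent.H49.Ent.cond F.p A True) q (fun ω => (pa ω, (z' ω, F.W ω))) + (κ + ε) * J ∧
    CH (Pool.Agent.H49.Ent.cond F.p A True) u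
        (fun ω => (u₁ ω, ((pa ω, q ω), (z ω, F.W ω)))) ≤
      CH (Pool.Agent.H49.Ent.cond F.p A True) u (fun ω => ((pa ω, q ω), (z' ω, F.W ω))) +
        (κ + ε) * J)

section

variable {sn : ℕ → ℝ → ℝ} {d n n' : ℕ} {T : Fin n → ℝ → ℝ} {G : Set ℝ} {nH nV lv : ℕ → ℝ}
  {b x y o wc vc oc E X Sg φ R κ₀ : ℝ}
variable {od : Fin n → ℕ} {oB : Fin n' → ℕ} {TB : Fin n' → ℝ → ℝ} {nB : Fin n' → ℝ} {Ob : ℝ}

/-- **From the indices to the real windows.** -/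
theorem ng_real {U₁ U₂ U₃ : Type} {QT : Qt m U₁} {QT₁ : Qt m U₂} {QU : Qt m U₃} {c : ℕ → Fin m} {k : Fin n → Fin m} {kB : Fin n' → Fin m} {C₀ : ℝ} (htm : TmC S C₀)
    (hpos : ∀ (τ : ℝ) (J : ℕ) (F : Fam m J) (A : F.Ω → Prop), S.St τ J F A → 0 < Pe F.p A)
    (hW : ChG S c d sn G)
    (att : ∀ i, ∀ w ∈ G, ∃ rk : ℝ, 0 ≤ rk ∧ Att S ((range d).image c) (k i) w (T i w) rk)
    (attB : ∀ i, ∀ w ∈ G, ∃ rk : ℝ, 0 ≤ rk ∧ Att S ((range d).image c) (kB i) w (TB i w) rk)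
    (h : BoxJ sn d T od oB TB G nH nV lv nB b x y o wc vc oc E X Sg Ob φ R κ₀) {zw zv κ E₂ : ℝ}
    (hzw : zw ≤ x) (hzv : y ≤ zv) (hzv1 : zv ≤ 1) (hE₂ : 0 ≤ E₂)
    (hη : ∃ η, RNum S (fun J F => ptr F J) (vg zw) η)
    (hη' : ∃ η, RNum S (fun J F => ptr F J) (vg zv) η) {Pv Po : Fin n → ℝ}
    (hPo1 : ∀ i, Po i ≤ T i o - od i * o + E₂) (hPo2 : ∀ i, T i o - od i * o ≤ Po i + E₂)
    (hPv : ∀ i, Pv i ≤ T i y - od i * y + E₂)
    (hni : NgX S c d k od kB oB sn T TB nH nV nB QT QT₁ QU wc zw zv Pv Po κ) {ε : ℝ}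
    (hε : 0 < ε) :
    NgW S c d k od kB oB sn T TB nH nV nB QT QT₁ QU b x y o (κ + 3 * (n * E₂) + ε) := by
  obtain ⟨δ, hδ, hδε⟩ : ∃ δ : ℝ, 0 < δ ∧ 8 * δ = ε := ⟨ε / 8, by positivity, by ring⟩
  have hb := h.bx
  obtain ⟨W, hWG, hWm, bW, wW, Wx⟩ := hb.mx
  have hfp : ∀ (J : ℕ) (F : Fam m J), ∃ χ : PtT F → PtT F, ∀ ω, ptr F J ω = χ (ptr F J ω) :=
    fun J F => ⟨fun x => x, fun _ => rfl⟩
  have nb := hb.nrB hWm bW Wx
  have nw := hb.nrW hWm wW Wx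
  have hi : HiW sn d lv (X / 2 / 2) G W := by
    have h1 := h.hi W hWm
    have h2 : X / 4 = X / 2 / 2 := by ring
    rwa [h2] at h1
  have hl2 : 0 < Real.log 2 := Real.log_pos one_lt_two
  have hl21 : Real.log 2 ≤ 1 := by
    have := Real.log_two_lt_d9
    linarith
  have hlog : ∀ {t : ℝ}, t ≤ E₂ → Real.log 2 * t ≤ E₂ := by
    intro t h1
    rcases le_total t 0 with h2 | h2
    · have : Real.log 2 * t ≤ 0 := mul_nonpos_of_nonneg_of_nonpos hl2.le h2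
      linarith
    · nlinarith
  have hx1 : x ≤ 1 := hb.hxy.trans (hzv.trans hzv1)
  have hxz : x ≤ zv := hb.hxy.trans hzv
  obtain ⟨pp3, pp4⟩ := hb.pp hWm Wx
  have pp3' : ∀ l < d, nH l + X / 2 ≤ min (sn l wc) (sn l b) + (1 - W) ∧
      nV l + W + X / 2 ≤ min (sn l wc) (sn l b) + (1 - W) := fun l hl => by
    rw [min_comm]
    exact pp3 l hl
  have pp4' : ∀ l < d, ∀ l' < l, nH l + X / 2 ≤ min (sn l wc) (sn l b) + lv l' ∧
      nV l + W + X / 2 ≤ min (sn l wc) (sn l b) + lv l' := fun l hl => by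
    rw [min_comm]
    exact pp4 l hl
  -- up
  have up : ∀ {U U' : Type} {Q : Qt m U} {Q' : Qt m U'} {a v : ℝ}, W ≤ v → v ≤ 1 →
      FewC S (fun J F => ptr F J) (vg W) (fun _ F => F.W) Q Q' a →
      FewC S (fun J F => ptr F J) (vg v) (fun _ F => F.W) Q Q' a := fun h1 h2 h3 =>
    FewC.up hpos (fun J F => ⟨fun x => x, fun _ => rfl⟩) (fun J F => vg_mono h1 h2 J F)
      (fun J F => ⟨fun x => x, fun _ => rfl⟩) h3
  -- the jets of the first kind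
  have q1 := up Wx hx1 (fewC_jt (f := fun J F => ptr F J) (y := fun _ F => F.W) htm hpos hW hfp kn_W
    hWG nb hi (k := k) (od := od) (w₁ := wc) (w₂ := b) (p₁ := fun i => T i wc) (p₂ := fun i => T i b)
    (N₁ := Po) (N₂ := fun i => T i o - od i * o)
    (M := fun i => min (Po i) (T i o - od i * o)) (c₀ := E₂) wW bW
    (fun i => min_le_left _ _) (fun i => min_le_right _ _) (fun i => by
      refine hlog ?_
      rcases min_choice (Po i) (T i o - od i * o) with h2 | h2 <;> rw [h2] <;> linarith [hPo2 i])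
    (fun i => by
      rw [min_comm (T i wc)]
      exact (h.tt hWm Wx i (Or.inl (min_le_right _ _))).1)
    (fun i => by
      rw [min_comm (T i wc)]
      exact (h.tt hWm Wx i (Or.inl (min_le_right _ _))).2))
  have q2 := up Wx hx1 (fewC_jt (f := fun J F => ptr F J) (y := fun _ F => F.W) htm hpos hW hfp kn_W
    hWG nb hi (k := k) (od := od) (w₁ := b) (w₂ := wc) (p₁ := fun i => T i b) (p₂ := fun i => T i wc)
    (N₁ := fun i => T i y - od i * y) (N₂ := Pv)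
    (M := fun i => min (T i y - od i * y) (Pv i)) (c₀ := E₂) bW wW
    (fun i => min_le_left _ _) (fun i => min_le_right _ _) (fun i => by
      refine hlog ?_
      rcases min_choice (T i y - od i * y) (Pv i) with h2 | h2 <;> rw [h2] <;> linarith [hPv i])
    (fun i => (h.tt hWm Wx i (Or.inr (min_le_left _ _))).1)
    (fun i => (h.tt hWm Wx i (Or.inr (min_le_left _ _))).2))
  have q6 := up (Wx.trans hxz) hzv1 (fewC_jt (f := fun J F => ptr F J) (y := fun _ F => F.W) htm hpos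
    hW hfp kn_W hWG nb hi (k := k) (od := od) (w₁ := b) (w₂ := wc) (p₁ := fun i => T i b)
    (p₂ := fun i => T i wc)
    (N₁ := fun i => T i o - od i * o) (N₂ := Po)
    (M := fun i => min (T i o - od i * o) (Po i)) (c₀ := E₂) bW wW
    (fun i => min_le_left _ _) (fun i => min_le_right _ _) (fun i => by
      refine hlog ?_
      rcases min_choice (T i o - od i * o) (Po i) with h2 | h2 <;> rw [h2] <;> linarith [hPo1 i])
    (fun i => (h.tt hWm Wx i (Or.inl (min_le_left _ _))).1)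
    (fun i => (h.tt hWm Wx i (Or.inl (min_le_left _ _))).2))
  -- the jets of the second kind
  have b1 := fewC_jt (f := fun J F => ptr F J) (y := fun _ F => F.W) htm hpos
    hW hfp kn_W hWG nb hi (k := kB) (od := oB) (w₁ := b) (w₂ := wc) (p₁ := fun i => TB i b)
    (p₂ := fun i => TB i wc) (N₁ := nB) (N₂ := nB) (M := nB) (c₀ := 0) bW wW
    (fun i => le_rfl) (fun i => le_rfl) (fun i => by rw [sub_self, mul_zero])
    (fun i => (h.tb hWm Wx i).1) (fun i => (h.tb hWm Wx i).2)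
  have b2 := fewC_jt (f := fun J F => ptr F J) (y := fun _ F => F.W) htm hpos
    hW hfp kn_W hWG nb hi (k := kB) (od := oB) (w₁ := wc) (w₂ := b) (p₁ := fun i => TB i wc)
    (p₂ := fun i => TB i b) (N₁ := nB) (N₂ := nB) (M := nB) (c₀ := 0) wW bW
    (fun i => le_rfl) (fun i => le_rfl) (fun i => by rw [sub_self, mul_zero])
    (fun i => by
      rw [min_comm]
      exact (h.tb hWm Wx i).1) (fun i => by
      rw [min_comm]
      exact (h.tb hWm Wx i).2)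
  have b3 := fewC_jt (f := fun J F => ptr F J) (y := fun _ F => F.W) htm hpos
    hW hfp kn_W hWG nw hi (k := kB) (od := oB) (w₁ := wc) (w₂ := b) (p₁ := fun i => TB i wc)
    (p₂ := fun i => TB i b) (N₁ := nB) (N₂ := nB) (M := nB) (c₀ := 0) wW bW
    (fun i => le_rfl) (fun i => le_rfl) (fun i => by rw [sub_self, mul_zero])
    (fun i => by
      rw [min_comm]
      exact (h.tb hWm Wx i).1) (fun i => by
      rw [min_comm]
      exact (h.tb hWm Wx i).2)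
  have B1 := up Wx hx1 b1
  have B1' := up (Wx.trans hxz) hzv1 b1
  have B2 := up Wx hx1 b2
  have B3' := up (Wx.trans hxz) hzv1 b3
  -- the near path
  have q3 := up Wx hx1 (few_paC (f := fun J F => ptr F J) (y := fun _ F => F.W) htm hpos hW hfp kn_W
    hWG nb wW pp3 pp4).fewC
  have q5 := up (Wx.trans hxz) hzv1 (few_paC (f := fun J F => ptr F J) (y := fun _ F => F.W) htm hpos
    hW hfp kn_W hWG nw bW pp3' pp4').fewC
  obtain ⟨k0, hk0, e0, he0, H0⟩ := hni δ hδ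
  obtain ⟨e1, he1, H1⟩ := q1.mx hpos δ hδ
  obtain ⟨e2, he2, H2⟩ := q2.mx hpos δ hδ
  obtain ⟨e3, he3, H3⟩ := q3.mx hpos (δ / 2) (half_pos hδ)
  obtain ⟨e5, he5, H5⟩ := q5.mx hpos (δ / 2) (half_pos hδ)
  obtain ⟨e6, he6, H6⟩ := q6.mx hpos δ hδ
  obtain ⟨f1, hf1, L1⟩ := B1.mx hpos (δ / 2) (half_pos hδ)
  obtain ⟨f2, hf2, L2⟩ := B2.mx hpos δ hδ
  obtain ⟨f3, hf3, L3⟩ := B3'.mx hpos (δ / 2) (half_pos hδ)
  obtain ⟨f4, hf4, L4⟩ := B1'.mx hpos δ hδ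
  obtain ⟨e₀, he₀, l0, l1, l2, l3, l5, l6, g1, g2, g3, g4⟩ : ∃ e₀ : ℝ, 0 < e₀ ∧ e₀ ≤ e0 ∧ e₀ ≤ e1 ∧
      e₀ ≤ e2 ∧ e₀ ≤ e3 ∧ e₀ ≤ e5 ∧ e₀ ≤ e6 ∧ e₀ ≤ f1 ∧ e₀ ≤ f2 ∧ e₀ ≤ f3 ∧ e₀ ≤ f4 := by
    refine ⟨min (min (min (min e0 e1) (min e2 e3)) (min e5 e6)) (min (min f1 f2) (min f3 f4)),
      by positivity, ?_, ?_, ?_, ?_, ?_, ?_, ?_, ?_, ?_, ?_⟩ <;> simp
  obtain ⟨κ₁, hκ₁, m1, m2⟩ : ∃ κ₁ : ℝ, 0 < κ₁ ∧ κ₁ ≤ k0 ∧ κ₁ ≤ δ / 4 :=
    ⟨min k0 (δ / 4), by positivity, min_le_left _ _, min_le_right _ _⟩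
  have xw : ∀ D : Fin n → ℝ, Exs S (jtR m c d k od T wc D) := fun D => exs_pi fun i => by
    obtain ⟨rk, r1, r2⟩ := att i wc hb.gw
    exact exs_jet r1 r2
  have xB : Exs S (jtR m c d kB oB TB wc nB) := exs_pi fun i => by
    obtain ⟨rk, r1, r2⟩ := attB i wc hb.gw
    exact exs_jet r1 r2
  obtain ⟨K₁, M₁, X1⟩ := xw Po e₀ he₀
  obtain ⟨K₂, M₂, X2⟩ := xw Pv e₀ he₀
  obtain ⟨K₃, M₃, X3⟩ := exs_pa hW hb.gw nH nV e₀ he₀
  obtain ⟨K₄, M₄, X4⟩ := xB e₀ he₀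
  obtain ⟨η, hη⟩ := hη
  obtain ⟨η', hη'⟩ := hη'
  refine ⟨κ₁, hκ₁, e₀, he₀, fun K => ?_⟩
  obtain ⟨L, hL0, hL1, hL2, hL3, hL4⟩ : ∃ L : ℕ, K ≤ L ∧ K₁ ≤ L ∧ K₂ ≤ L ∧ K₃ ≤ L ∧ K₄ ≤ L :=
    ⟨max (max (max K K₁) (max K₂ K₃)) K₄, by simp, by simp, by simp, by simp, by simp⟩
  refine Bas.mono 0 (((((H0 L).and (H1 L)).and ((H2 L).and (H3 L))).and
    (((H5 L).and (H6 L)).and (((L1 L).and (L2 L)).and ((L3 L).and (L4 L))))).and
    (((mx_ex hpos hη κ₁ hκ₁).and (mx_ex hpos hη' κ₁ hκ₁)).and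
      ((pos_bas hpos).and (X1.and (X2.and (X3.and X4)))))) ?_
  rintro J - F A ⟨⟨⟨⟨H0, H1⟩, H2, H3⟩, ⟨H5, H6⟩, ⟨L1, L2⟩, L3, L4⟩,
    ⟨⟨Vw, zq, hzq⟩, Vv, zr, hzr⟩, hA,
    ⟨v, hv, -⟩, ⟨v₁, hv₁, -⟩, ⟨pb, hpb, -⟩, qb, hqb, -⟩ V z V' z' hz hz' u u₁ q pa hu hu₁ hq hpa
  have hcl := isLaw_cond F.isLaw hA
  have hJ0 : (0 : ℝ) ≤ J := Nat.cast_nonneg J
  have hv := (jtR m c d k od T wc Po).mono hL1 le_rfl hv
  have hv₁ := (jtR m c d k od T wc Pv).mono hL2 le_rfl hv₁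
  have hpb := (paQ m c d wc (fun l => sn l wc) nH nV).mono hL3 le_rfl hpb
  have hqb := (jtR m c d kB oB TB wc nB).mono hL4 le_rfl hqb
  have hu := ((jtR m c d k od T b (fun i => T i o - od i * o)).prod QT).mono hL0 le_rfl hu
  have hu₁ := ((jtR m c d k od T b (fun i => T i y - od i * y)).prod QT₁).mono hL0 le_rfl hu₁
  have hpa := (paQ m c d b (fun l => sn l b) nH nV).mono hL0 le_rfl hpa
  have hq := ((jtR m c d kB oB TB b nB).prod QU).mono hL0 le_rfl hq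
  -- the records
  have hz2 := hz.le' (m2.trans (by linarith : δ / 4 ≤ δ / 2 / 2))
  have hzr2 := hzr.le' (m2.trans (by linarith : δ / 4 ≤ δ / 2 / 2))
  have hz3 := hz.le' (m2.trans (by linarith : δ / 4 ≤ δ / 2))
  have hzr3 := hzr.le' (m2.trans (by linarith : δ / 4 ≤ δ / 2))
  have r0 := H0 _ zq _ zr (hzq.le' m1) (hzr.le' m1) (fun ω => (v ω, (u ω).2))
    (fun ω => (v₁ ω, (u₁ ω).2)) (fun ω => (qb ω, (q ω).2)) pb
    ⟨(jtR m c d k od T wc Po).mono le_rfl l0 hv, QT.mono le_rfl l0 hu.2⟩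
    ⟨(jtR m c d k od T wc Pv).mono le_rfl l0 hv₁, QT₁.mono le_rfl l0 hu₁.2⟩
    ⟨(jtR m c d kB oB TB wc nB).mono le_rfl l0 hqb, QU.mono le_rfl l0 hq.2⟩
    ((paQ m c d _ _ nH nV).mono le_rfl l0 hpb)
  have r1₀ := H1 _ z hz3 (fun ω => (pa ω, v ω)) (fun ω => (u ω).1)
    ⟨(paQ m c d _ _ nH nV).mono le_rfl l1 hpa, (jtR m c d k od T wc Po).mono le_rfl l1 hv⟩
    ((jtR m c d k od T b _).mono le_rfl l1 hu.1)
  have r1 := (sw_pair hcl.nonneg u v pa (fun ω => (z ω, F.W ω))).trans r1₀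
  have r2₀ := H2 _ z hz3 (fun ω => (pa ω, (u₁ ω).1)) v₁
    ⟨(paQ m c d _ _ nH nV).mono le_rfl l2 hpa, (jtR m c d k od T b _).mono le_rfl l2 hu₁.1⟩
    ((jtR m c d k od T wc Pv).mono le_rfl l2 hv₁)
  have r2 := (sw_pair' hcl.nonneg u₁ v₁ pa (fun ω => (z ω, F.W ω))).trans r2₀
  have r3 := H3 _ z hz2 pa pb ((paQ m c d _ _ nH nV).mono le_rfl l3 hpa)
    ((paQ m c d _ _ nH nV).mono le_rfl l3 hpb)
  have r5 := H5 _ zr hzr2 pb pa ((paQ m c d _ _ nH nV).mono le_rfl l5 hpb)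
    ((paQ m c d _ _ nH nV).mono le_rfl l5 hpa)
  have r6₀ := H6 _ zr hzr3 (fun ω => (pa ω, (u ω).1)) v
    ⟨(paQ m c d _ _ nH nV).mono le_rfl l6 hpa, (jtR m c d k od T b _).mono le_rfl l6 hu.1⟩
    ((jtR m c d k od T wc Po).mono le_rfl l6 hv)
  have r6 := (sw_pair' hcl.nonneg u v pa (fun ω => (zr ω, F.W ω))).trans r6₀
  have s1₀ := L1 _ z hz2 (fun ω => (pa ω, (q ω).1)) qb
    ⟨(paQ m c d _ _ nH nV).mono le_rfl g1 hpa, (jtR m c d kB oB TB b nB).mono le_rfl g1 hq.1⟩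
    ((jtR m c d kB oB TB wc nB).mono le_rfl g1 hqb)
  have s1 := (sw_pair' hcl.nonneg q qb pa (fun ω => (z ω, F.W ω))).trans s1₀
  have s2₀ := L2 _ z hz3 (fun ω => (pa ω, qb ω)) (fun ω => (q ω).1)
    ⟨(paQ m c d _ _ nH nV).mono le_rfl g2 hpa, (jtR m c d kB oB TB wc nB).mono le_rfl g2 hqb⟩
    ((jtR m c d kB oB TB b nB).mono le_rfl g2 hq.1)
  have s2 := (sw_pair hcl.nonneg q qb pa (fun ω => (z ω, F.W ω))).trans s2₀
  have s3₀ := L3 _ zr hzr2 (fun ω => (pb ω, qb ω)) (fun ω => (q ω).1)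
    ⟨(paQ m c d _ _ nH nV).mono le_rfl g3 hpb, (jtR m c d kB oB TB wc nB).mono le_rfl g3 hqb⟩
    ((jtR m c d kB oB TB b nB).mono le_rfl g3 hq.1)
  have s3 := (sw_pair hcl.nonneg q qb pb (fun ω => (zr ω, F.W ω))).trans s3₀
  have s4₀ := L4 _ zr hzr3 (fun ω => (pa ω, (q ω).1)) qb
    ⟨(paQ m c d _ _ nH nV).mono le_rfl g4 hpa, (jtR m c d kB oB TB b nB).mono le_rfl g4 hq.1⟩
    ((jtR m c d kB oB TB wc nB).mono le_rfl g4 hqb)
  have s4 := (sw_pair' hcl.nonneg q qb pa (fun ω => (zr ω, F.W ω))).trans s4₀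
  have r4 := hz.2 _ zq (cl2_vg (f := fun J F => ptr F J) hzw hx1 hzq.1)
  have r7 := hzr.2 _ z' (cl2_vg (f := fun J F => ptr F J) hzv hzv1 hz'.1)
  simp only [mul_zero, zero_add] at s1 s2 s3 s4 r3 r5
  have hδJ : 0 ≤ δ * J := by positivity
  have hκJ : κ₁ * J ≤ δ * J := mul_le_mul_of_nonneg_right (by linarith) hJ0
  have h2J : δ / 2 * J = δ * J / 2 := by ring
  rw [h2J] at s1 s3 r3 r5
  -- the pairs
  have t3 : CH (Pool.Agent.H49.Ent.cond F.p A True) (fun ω => (pb ω, (qb ω, (q ω).2)))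
      (fun ω => ((pa ω, q ω), (z ω, F.W ω))) ≤ δ * J := by
    have h1 := CH_subadd hcl.nonneg pb (fun ω => (qb ω, (q ω).2))
      (fun ω => ((pa ω, q ω), (z ω, F.W ω)))
    have h2 : CH (Pool.Agent.H49.Ent.cond F.p A True) pb (fun ω => ((pa ω, q ω), (z ω, F.W ω))) ≤
        CH (Pool.Agent.H49.Ent.cond F.p A True) pb (fun ω => (pa ω, (z ω, F.W ω))) :=
      CH_mono_cond hcl.nonneg fun ω ω' _ _ hh => by
        have h3 := Prod.ext_iff.mp hh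
        exact Prod.ext (Prod.ext_iff.mp h3.1).1 h3.2
    linarith
  have t5 : CH (Pool.Agent.H49.Ent.cond F.p A True) (fun ω => (pa ω, q ω))
      (fun ω => ((pb ω, (qb ω, (q ω).2)), (zr ω, F.W ω))) ≤ δ * J := by
    have h1 := CH_subadd hcl.nonneg pa q (fun ω => ((pb ω, (qb ω, (q ω).2)), (zr ω, F.W ω)))
    have h2 : CH (Pool.Agent.H49.Ent.cond F.p A True) pa
        (fun ω => ((pb ω, (qb ω, (q ω).2)), (zr ω, F.W ω))) ≤
        CH (Pool.Agent.H49.Ent.cond F.p A True) pa (fun ω => (pb ω, (zr ω, F.W ω))) :=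
      CH_mono_cond hcl.nonneg fun ω ω' _ _ hh => by
        have h3 := Prod.ext_iff.mp hh
        exact Prod.ext (Prod.ext_iff.mp h3.1).1 h3.2
    linarith
  have dr : ∀ {U₁ U₂ : Type} (w₁ : F.Ω → U₁) (w₂ : F.Ω → U₂) (zz : F.Ω → V),
      CH (Pool.Agent.H49.Ent.cond F.p A True) w₁ (fun ω => (((pa ω, q ω), w₂ ω), (zz ω, F.W ω))) ≤
        CH (Pool.Agent.H49.Ent.cond F.p A True) w₁ (fun ω => ((pa ω, w₂ ω), (zz ω, F.W ω))) :=
    fun w₁ w₂ zz => CH_mono_cond hcl.nonneg fun ω ω' _ _ hh => by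
      simp only [Prod.mk.injEq] at hh ⊢
      tauto
  have dr' : CH (Pool.Agent.H49.Ent.cond F.p A True) (fun ω => (v ω, (u ω).2))
      (fun ω => (((pa ω, q ω), u ω), (zr ω, F.W ω))) ≤
      CH (Pool.Agent.H49.Ent.cond F.p A True) (fun ω => (v ω, (u ω).2))
        (fun ω => ((pa ω, u ω), (zr ω, F.W ω))) :=
    CH_mono_cond hcl.nonneg fun ω ω' _ _ hh => by
      simp only [Prod.mk.injEq] at hh ⊢
      tauto
  have hk3 : δ * J / 2 ≤ δ * J := by linarith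
  refine ⟨?_, ?_⟩
  · have r0' : CH (Pool.Agent.H49.Ent.cond F.p A True) (fun ω => (qb ω, (q ω).2))
        (fun ω => ((), (pb ω, (zq ω, F.W ω)))) ≤
        CH (Pool.Agent.H49.Ent.cond F.p A True) (fun ω => (qb ω, (q ω).2))
          (fun ω => (pb ω, (zr ω, F.W ω))) +
          (κ + δ) * J := by
      refine le_trans (CH_mono_cond hcl.nonneg fun ω ω' _ _ hh => ?_) r0.1
      exact (Prod.ext_iff.mp hh).2
    have hu0 : CH (Pool.Agent.H49.Ent.cond F.p A True) (fun _ : F.Ω => ())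
        (fun ω => ((pa ω, ()), (z ω, F.W ω))) ≤ 0 :=
      (CH_eq_zero hcl.nonneg fun _ _ _ _ _ => rfl).le
    have key := ni_swap hcl.nonneg (q := Pool.Agent.H49.Ent.cond F.p A True) (u := q)
      (u₁ := fun _ => ()) (v := fun ω => (qb ω, (q ω).2)) (v₁ := fun _ => ()) (pa := pa) (pb := pb) (w := F.W) (x := z)
      (x' := z') (z := zq) (z' := zr) r0' s2 hu0 (r3.trans hk3) (r4.trans hκJ) (r5.trans hk3) s4
      (r7.trans hκJ)
    have key' : CH (Pool.Agent.H49.Ent.cond F.p A True) q (fun ω => (pa ω, (z ω, F.W ω))) ≤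
        CH (Pool.Agent.H49.Ent.cond F.p A True) q (fun ω => ((), (pa ω, (z ω, F.W ω)))) :=
      CH_mono_cond hcl.nonneg fun ω ω' _ _ hh => Prod.ext rfl hh
    refine (key'.trans key).trans ?_
    have h5 : 0 ≤ (3 * (n * E₂)) * J := by positivity
    have h6 : (κ + 3 * (n * E₂) + ε) * J = κ * J + 3 * (n * E₂) * J + 8 * (δ * J) := by
      rw [← hδε]
      ring
    rw [h6]
    linarith
  · have key := ni_swap hcl.nonneg (q := Pool.Agent.H49.Ent.cond F.p A True) (u := u) (u₁ := u₁)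
      (v := fun ω => (v ω, (u ω).2)) (v₁ := fun ω => (v₁ ω, (u₁ ω).2))
      (pa := fun ω => (pa ω, q ω)) (pb := fun ω => (pb ω, (qb ω, (q ω).2))) (w := F.W)
      (x := z) (x' := z') (z := zq) (z' := zr)
      r0.2 ((dr u (fun ω => (v ω, (u ω).2)) z).trans r1)
      ((dr (fun ω => (v₁ ω, (u₁ ω).2)) u₁ z).trans r2) t3 (r4.trans hκJ) t5 (dr'.trans r6)
      (r7.trans hκJ)
    refine key.trans (le_of_eq ?_)
    rw [← hδε]
    ring

end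

/-- **The digits** of the near path, of the near jets of the second kind over the charts of `b`, and
of the jets over the chain and one more place over the charts of `bt`, for windows up to `o`. -/
structure NrT (sn : ℕ → ℝ → ℝ) (d : ℕ) {n n' nT nU : ℕ} (T : Fin n → ℝ → ℝ) (oB : Fin n' → ℕ)
    (TB : Fin n' → ℝ → ℝ) (oT : Fin nT → ℕ) (TT : Fin nT → ℝ → ℝ) (oU : Fin nU → ℕ)
    (TU : Fin nU → ℝ → ℝ) (a₀ : ℝ) (nH nV lv : ℕ → ℝ) (nB : Fin n' → ℝ) (nW : Fin nU → ℝ)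
    (b bt x o τ κ₀ : ℝ) : Prop where
  nr : NrJ sn d T oB TB nH nV lv nB b o τ κ₀
  u : ∀ l < d, a₀ * (o - bt) + τ ≤ lv l
  x0 : bt + τ ≤ x
  T : ∀ i, TT i o - oT i * o + oT i * x + τ ≤ TT i bt + a₀ * (x - bt)
  U : ∀ i, nW i + oU i * x + τ ≤ TU i bt + a₀ * (x - bt)

/-- **No look-ahead given the near path**, between the windows `x ≤ y`, digits of `o`, jets over the
chain (charts of `b`) and over the chain and one more place (charts of `bt`). -/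
def NtW (S : PCl m) (c : ℕ → Fin m) (d : ℕ) {n n' nT nU : ℕ} (k : Fin n → Fin m) (od : Fin n → ℕ)
    (kB : Fin n' → Fin m) (oB : Fin n' → ℕ) (sn : ℕ → ℝ → ℝ)
    (T : Fin n → ℝ → ℝ) (TB : Fin n' → ℝ → ℝ) (kT : Fin nT → Fin m) (oT : Fin nT → ℕ)
    (TT : Fin nT → ℝ → ℝ) (kU : Fin nU → Fin m) (oU : Fin nU → ℕ) (TU : Fin nU → ℝ → ℝ)
    (nH nV : ℕ → ℝ) (nB : Fin n' → ℝ) (nW : Fin nU → ℝ) (b bt x y o κ : ℝ) : Prop :=
  NgW S c d k od kB oB sn T TB nH nV nB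
    (twQ m c d kT oT TT (fun i => TT i o - oT i * o) bt)
    (twQ m c d kT oT TT (fun i => TT i y - oT i * y) bt)
    (twQ m c d kU oU TU nW bt) b x y o κ

/-- **No look-ahead given the near path**, in small boxes around `g`, jets over the chain and over
the chain and one more place. -/
def NtG (S : PCl m) (c : ℕ → Fin m) (d : ℕ) {n n' nT nU : ℕ} (k : Fin n → Fin m) (od : Fin n → ℕ)
    (kB : Fin n' → Fin m) (oB : Fin n' → ℕ) (sn : ℕ → ℝ → ℝ)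
    (T : Fin n → ℝ → ℝ) (TB : Fin n' → ℝ → ℝ) (kT : Fin nT → Fin m) (oT : Fin nT → ℕ)
    (TT : Fin nT → ℝ → ℝ) (kU : Fin nU → Fin m) (oU : Fin nU → ℕ) (TU : Fin nU → ℝ → ℝ)
    (a₀ : ℝ) (G : Set ℝ) (g : ℝ) : Prop :=
  ∀ e : ℝ, 0 < e → ∃ κ₀ : ℝ, 0 < κ₀ ∧ ∃ r₀ : ℝ, 0 < r₀ ∧ ∀ r : ℝ, 0 < r → r < r₀ →
    ∀ b ∈ G, ∀ bt ∈ G, ∀ x y o : ℝ, g - r ≤ b → g - r ≤ bt → b ≤ x → x ≤ y → y ≤ o → o ≤ g + r →
    ∀ (nH nV lv : ℕ → ℝ) (nB : Fin n' → ℝ) (nW : Fin nU → ℝ),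
      NrT sn d T oB TB oT TT oU TU a₀ nH nV lv nB nW b bt x o (e * r) κ₀ →
      NtW S c d k od kB oB sn T TB kT oT TT kU oU TU nH nV nB nW b bt x y o (e * r)

theorem NgW.sub {S' : PCl m} (hs : ∀ (τ : ℝ) (J : ℕ) (F : Fam m J) (A : F.Ω → Prop),
    S'.St τ J F A → S.St τ J F A) {c : ℕ → Fin m} {d n n' : ℕ} {k : Fin n → Fin m}
    {od : Fin n → ℕ} {kB : Fin n' → Fin m} {oB : Fin n' → ℕ}
    {sn : ℕ → ℝ → ℝ} {T : Fin n → ℝ → ℝ} {TB : Fin n' → ℝ → ℝ} {nH nV : ℕ → ℝ} {nB : Fin n' → ℝ}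
    {U₁ U₂ U₃ : Type} {QT : Qt m U₁} {QT₁ : Qt m U₂} {QU : Qt m U₃}
    {b x y o κ : ℝ} (h : NgW S c d k od kB oB sn T TB nH nV nB QT QT₁ QU b x y o κ) :
    NgW S' c d k od kB oB sn T TB nH nV nB QT QT₁ QU b x y o κ := by
  obtain ⟨k₁, hk, e, he, H⟩ := h
  exact ⟨k₁, hk, e, he, fun K => (H K).sub hs⟩

theorem NtG.sub {S' : PCl m} (hs : ∀ (τ : ℝ) (J : ℕ) (F : Fam m J) (A : F.Ω → Prop),
    S'.St τ J F A → S.St τ J F A) {c : ℕ → Fin m} {d n n' nT nU : ℕ} {k : Fin n → Fin m}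
    {od : Fin n → ℕ} {kB : Fin n' → Fin m} {oB : Fin n' → ℕ}
    {sn : ℕ → ℝ → ℝ} {T : Fin n → ℝ → ℝ} {TB : Fin n' → ℝ → ℝ} {kT : Fin nT → Fin m}
    {oT : Fin nT → ℕ} {TT : Fin nT → ℝ → ℝ} {kU : Fin nU → Fin m} {oU : Fin nU → ℕ}
    {TU : Fin nU → ℝ → ℝ} {a₀ : ℝ} {G : Set ℝ} {g : ℝ}
    (h : NtG S c d k od kB oB sn T TB kT oT TT kU oU TU a₀ G g) :
    NtG S' c d k od kB oB sn T TB kT oT TT kU oU TU a₀ G g := by
  intro e he
  obtain ⟨κ₀, hκ, r₀, hr, H⟩ := h e he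
  exact ⟨κ₀, hκ, r₀, hr, fun r h1 h2 b hb bt hbt x y o a1 a1' a2 a3 a4 a5 nH nV lv nB nW hN =>
    NgW.sub hs (H r h1 h2 b hb bt hbt x y o a1 a1' a2 a3 a4 a5 nH nV lv nB nW hN)⟩

theorem NgW.mono {c : ℕ → Fin m} {d n n' : ℕ} {k : Fin n → Fin m}
    {od : Fin n → ℕ} {kB : Fin n' → Fin m} {oB : Fin n' → ℕ}
    {sn : ℕ → ℝ → ℝ} {T : Fin n → ℝ → ℝ} {TB : Fin n' → ℝ → ℝ} {nH nV : ℕ → ℝ} {nB : Fin n' → ℝ}
    {U₁ U₂ U₃ : Type} {QT : Qt m U₁} {QT₁ : Qt m U₂} {QU : Qt m U₃}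
    {b x y o κ κ' : ℝ} (hκ : κ ≤ κ')
    (h : NgW S c d k od kB oB sn T TB nH nV nB QT QT₁ QU b x y o κ) :
    NgW S c d k od kB oB sn T TB nH nV nB QT QT₁ QU b x y o κ' := by
  obtain ⟨κ₁, hκ₁, e₀, he₀, H⟩ := h
  refine ⟨κ₁, hκ₁, e₀, he₀, fun K => Bas.mono 0 (H K) ?_⟩
  intro J _ F A H V z V' z' hz hz' u u₁ q pa hu hu₁ hq hpa
  have h1 := H V z V' z' hz hz' u u₁ q pa hu hu₁ hq hpa
  have h2 : κ * J ≤ κ' * J := mul_le_mul_of_nonneg_right hκ (Nat.cast_nonneg J)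
  exact ⟨by linarith [h1.1], by linarith [h1.2]⟩

end Pool.LPT30
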