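import Pool.Agent.H30.LPT.Twi

/-!
# The levels near a point from the derivatives, and the windows of a small interval
-/

set_option autoImplicit false

namespace Pool.LPT30

open Finset Real MvPolynomial MeasureTheory
open Pool.Agent.H49.Ent Pool.Agent.H32.Dense Pool.STK Pool.KA Pool.KSAT Pool.K2S Pool.PB Pool.S6C
  Pool.GEN Pool.RCD Pool.LA91
open Pool.LP30 Pool.LPJ30

/-- A derivative controls the differences in small boxes. -/
theorem der_bx {f : ℝ → ℝ} {s g : ℝ} (h : HasDerivAt f s g) {η : ℝ} (hη : 0 < η) :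
    ∃ ρ : ℝ, 0 < ρ ∧ ∀ t : ℝ, 0 < t → t < ρ → ∀ w v : ℝ, g - t ≤ w → w ≤ v → v ≤ g + t →
      |f v - f w - s * (v - w)| ≤ η * t := by
  have h1 := (hasDerivAt_iff_isLittleO.1 h).def (half_pos hη)
  obtain ⟨ρ, hρ, h2⟩ := Metric.mem_nhds_iff.1 h1
  refine ⟨ρ, hρ, fun t ht htρ w v a b c => ?_⟩
  have key : ∀ x, g - t ≤ x → x ≤ g + t → |f x - f g - (x - g) * s| ≤ η / 2 * t := by
    intro x b1 b2
    have h3 : |x - g| ≤ t := by
      rw [abs_le]
      constructor <;> linarith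
    have h4 : ‖f x - f g - (x - g) • s‖ ≤ η / 2 * ‖x - g‖ :=
      h2 (by rw [Metric.mem_ball, Real.dist_eq]; linarith)
    simp only [smul_eq_mul, Real.norm_eq_abs] at h4
    exact h4.trans (mul_le_mul_of_nonneg_left h3 (by positivity))
  have k1 := abs_le.mp (key w a (by linarith))
  have k2 := abs_le.mp (key v (by linarith) c)
  rw [abs_le]
  constructor <;> linarith [k1.1, k1.2, k2.1, k2.2]

/-- Finitely many properties of small scales. -/
theorem fin_evn {D : ℕ} {Pr : ℕ → ℝ → Prop}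
    (h : ∀ l < D, ∃ ρ : ℝ, 0 < ρ ∧ ∀ t : ℝ, 0 < t → t < ρ → Pr l t) :
    ∃ ρ : ℝ, 0 < ρ ∧ ∀ t : ℝ, 0 < t → t < ρ → ∀ l < D, Pr l t := by
  induction D with
  | zero => exact ⟨1, one_pos, fun t _ _ l hl => absurd hl (Nat.not_lt_zero l)⟩
  | succ D ih =>
    obtain ⟨ρ₁, h1, h2⟩ := ih fun l hl => h l (by omega)
    obtain ⟨ρ₂, h3, h4⟩ := h D (Nat.lt_succ_self D)
    refine ⟨min ρ₁ ρ₂, lt_min h1 h3, fun t ht htρ l hl => ?_⟩
    rcases Nat.lt_succ_iff_lt_or_eq.1 hl with hl | rfl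
    · exact h2 t ht (htρ.trans_le (min_le_left _ _)) l hl
    · exact h4 t ht (htρ.trans_le (min_le_right _ _))

variable {sn : ℕ → ℝ → ℝ} {d n n' nT nU : ℕ} {T : ℝ → ℝ} {G : Set ℝ} {g s b Sg : ℝ}

/-- **The windows are dense at `g`.** -/
def GpB (G : Set ℝ) (g : ℝ) : Prop :=
  ∀ η : ℝ, 0 < η → ∃ ρ : ℝ, 0 < ρ ∧ ∀ t : ℝ, 0 < t → t < ρ → ∀ x : ℝ, g - t ≤ x →
    x ≤ g + t → ∃ u ∈ G, x - η * t ≤ u ∧ u ≤ x

/-- The windows of a small interval are dense as well. -/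
theorem GpB.icc (h : GpB G g) {α β : ℝ} (h1 : α < g) (h2 : g < β) :
    GpB (G ∩ Set.Icc α β) g := by
  intro η hη
  obtain ⟨ρ, hρ, H⟩ := h (min η 1) (lt_min hη one_pos)
  refine ⟨min ρ (min ((g - α) / 2) (β - g)), lt_min hρ (lt_min (by linarith) (by linarith)),
    fun t ht htρ x x1 x2 => ?_⟩
  have t1 : t < ρ := htρ.trans_le (min_le_left _ _)
  have t2 : t < (g - α) / 2 := htρ.trans_le ((min_le_right _ _).trans (min_le_left _ _))
  have t3 : t < β - g := htρ.trans_le ((min_le_right _ _).trans (min_le_right _ _))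
  obtain ⟨u, hu, u1, u2⟩ := H t ht t1 x x1 x2
  have e1 : min η 1 * t ≤ η * t := mul_le_mul_of_nonneg_right (min_le_left _ _) ht.le
  have e2 : min η 1 * t ≤ 1 * t := mul_le_mul_of_nonneg_right (min_le_right _ _) ht.le
  exact ⟨u, ⟨hu, by linarith, by linarith⟩, by linarith, u2⟩

/-- **The levels near a point**, from the derivatives. -/
theorem slB_der (hd : ∀ l < d, HasDerivAt (fun x => sn l x) 1 g) (hT : HasDerivAt T s g)
    (hs : s ≤ Sg) (gap : GpB G g) : SlB sn d (fun (_ : Fin n) w => T w) G g Sg := by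
  intro η hη
  obtain ⟨ρ₁, h1, H1⟩ := fin_evn (D := d) (Pr := fun l t => ∀ w v : ℝ, g - t ≤ w → w ≤ v →
    v ≤ g + t → |sn l v - sn l w - 1 * (v - w)| ≤ η * t) fun l hl => der_bx (hd l hl) hη
  obtain ⟨ρ₂, h2, H2⟩ := der_bx hT hη
  obtain ⟨ρ₃, h3, H3⟩ := gap η hη
  refine ⟨min ρ₁ (min ρ₂ ρ₃), lt_min h1 (lt_min h2 h3), fun t ht htρ => ?_⟩
  have t1 : t < ρ₁ := htρ.trans_le (min_le_left _ _)
  have t2 : t < ρ₂ := htρ.trans_le ((min_le_right _ _).trans (min_le_left _ _))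
  have t3 : t < ρ₃ := htρ.trans_le ((min_le_right _ _).trans (min_le_right _ _))
  refine ⟨fun w _ v _ a b e l hl => ?_, fun w _ v _ a b e _ => ?_, H3 t ht t3⟩
  · have := H1 t ht t1 l hl w v a b e
    rwa [one_mul] at this
  · have e1 := (abs_le.1 (H2 t ht t2 w v a b e)).2
    have e2 : s * (v - w) ≤ Sg * (v - w) := mul_le_mul_of_nonneg_right hs (by linarith)
    linarith

/-- **The levels of the target near a point.** -/
theorem tgB_der (hT : HasDerivAt T s g) (h1 : 1 ≤ s) (hs : s ≤ Sg) :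
    TgB (fun (_ : Fin n) w => T w) g Sg := by
  intro η hη
  obtain ⟨ρ₂, h2, H2⟩ := der_bx hT hη
  refine ⟨ρ₂, h2, fun t ht htρ _ w v a b e => ?_⟩
  have e1 := abs_le.1 (H2 t ht htρ w v a b e)
  have e2 : s * (v - w) ≤ Sg * (v - w) := mul_le_mul_of_nonneg_right hs (by linarith)
  have e3 : 1 * (v - w) ≤ s * (v - w) := mul_le_mul_of_nonneg_right h1 (by linarith)
  simp only
  constructor <;> linarith [e1.1, e1.2]

/-- Exact slope from the derivative. -/
theorem slE_der (hT : HasDerivAt T s g) : SlE T s G g := by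
  intro η hη
  obtain ⟨ρ, h1, H⟩ := der_bx hT hη
  exact ⟨ρ, h1, fun t ht htρ w _ v _ e1 e2 e3 => H t ht htρ w v e1 e2 e3⟩

/-- Exact slopes of the targets of the second kind. -/
theorem slK_der {oB : Fin n' → ℕ} (hT : HasDerivAt T s g) (h : ∀ i, (oB i : ℝ) = s) :
    SlK oB (fun (_ : Fin n') w => T w) G g := by
  intro η hη
  obtain ⟨ρ, h1, H⟩ := der_bx hT hη
  refine ⟨ρ, h1, fun t ht htρ w _ v _ e1 e2 e3 i => ?_⟩
  rw [h i]
  exact H t ht htρ w v e1 e2 e3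

/-- **Natural digits do not decrease**: order at most one, or smaller than the slope. -/
theorem loB_der {od : Fin n → ℕ} (hT : HasDerivAt T s g)
    (hm : ∀ u ∈ G, ∀ v ∈ G, u ≤ v → T u - u ≤ T v - v) (h : ∀ i, (od i : ℝ) < s ∨ od i ≤ 1) :
    LoB od (fun (_ : Fin n) w => T w) G g := by
  refine lo_of fun i => ?_
  rcases h i with h1 | h1
  · right
    refine ⟨s - od i, by linarith, fun η hη => ?_⟩
    obtain ⟨ρ, h2, H⟩ := der_bx hT hη
    refine ⟨ρ, h2, fun t ht htρ w _ v _ e1 e2 e3 => ?_⟩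
    have := (abs_le.1 (H t ht htρ w v e1 e2 e3)).1
    have e4 : ((od i : ℝ) + (s - od i)) * (v - w) = s * (v - w) := by ring
    linarith
  · left
    intro u hu v hv huv
    have e1 : (od i : ℝ) ≤ 1 := by exact_mod_cast h1
    have e2 : (od i : ℝ) * (v - u) ≤ 1 * (v - u) := mul_le_mul_of_nonneg_right e1 (by linarith)
    have := hm u hu v hv huv
    linarith

/-- **The slopes of the tower.** -/
theorem twG_der {oT : Fin nT → ℕ} {oU : Fin nU → ℕ} {TT : ℝ → ℝ} (hu : HasDerivAt (sn d) s g)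
    (hT : HasDerivAt TT b g) (s0 : 0 ≤ s) (h1 : ∀ i, (oT i : ℝ) < b ∧ b < s)
    (h2 : ∀ i, (oU i : ℝ) = b ∧ b < s) :
    TwG sn d oT (fun _ w => TT w) oU (fun _ w => TT w) G g s (fun _ => b) where
  u := slE_der hu
  T := fun _ => slE_der hT
  U := fun i => by
    rw [(h2 i).1]
    exact slE_der hT
  a0 := s0
  T1 := fun i => (h1 i).1
  T2 := fun i => (h1 i).2
  U2 := fun i => by
    rw [(h2 i).1]
    exact (h2 i).2

/-- **From a small interval to all windows.** -/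
theorem NtG.of_icc {m : ℕ} {S : PCl m} {c : ℕ → Fin m} {d n n' nT nU : ℕ} {k : Fin n → Fin m}
    {od : Fin n → ℕ} {kB : Fin n' → Fin m} {oB : Fin n' → ℕ}
    {sn : ℕ → ℝ → ℝ} {T : Fin n → ℝ → ℝ} {TB : Fin n' → ℝ → ℝ} {kT : Fin nT → Fin m}
    {oT : Fin nT → ℕ} {TT : Fin nT → ℝ → ℝ} {kU : Fin nU → Fin m} {oU : Fin nU → ℕ}
    {TU : Fin nU → ℝ → ℝ} {a₀ : ℝ} {G : Set ℝ} {g α β : ℝ} (h1 : α < g) (h2 : g < β)
    (h : NtG S c d k od kB oB sn T TB kT oT TT kU oU TU a₀ (G ∩ Set.Icc α β) g) :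
    NtG S c d k od kB oB sn T TB kT oT TT kU oU TU a₀ G g := by
  intro e he
  obtain ⟨κ₀, hκ, r₀, hr, H⟩ := h e he
  refine ⟨κ₀, hκ, min r₀ (min (g - α) (β - g)), lt_min hr (lt_min (by linarith) (by linarith)),
    fun r r0 rr b hb bt hbt x y o a1 a1' a2 a3 a4 a5 nH nV lv nB nW hN => ?_⟩
  have t1 : r < r₀ := rr.trans_le (min_le_left _ _)
  have t2 : r < g - α := rr.trans_le ((min_le_right _ _).trans (min_le_left _ _))
  have t3 : r < β - g := rr.trans_le ((min_le_right _ _).trans (min_le_right _ _))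
  have hE : 0 < e * r := by positivity
  have hx0 := hN.x0
  exact H r r0 t1 b ⟨hb, by linarith, by linarith⟩ bt ⟨hbt, by linarith, by linarith⟩ x y o a1 a1'
    a2 a3 a4 a5 nH nV lv nB nW hN

end Pool.LPT30
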