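import Mathlib

set_option autoImplicit false

namespace Pool.PN18

open Finset Real

/-- One step `Σ_{k' < M n} f k' = Σ_{k < n} Σ_{j < M} f (k M + j)`. -/
theorem sum_mul_range (M : ℕ) (f : ℕ → ℝ) (n : ℕ) :
    ∑ k ∈ range (n * M), f k = ∑ k ∈ range n, ∑ j ∈ range M, f (k * M + j) := by
  induction n with
  | zero => simp
  | succ n ih =>
    rw [Nat.succ_mul, sum_range_add, ih, sum_range_succ]

/-- A chain of blocks, context `y`. -/
theorem chain_le {ψ : ℕ → ℕ → ℕ → ℝ} {T : ℕ} {η : ℝ} (hη : 0 ≤ η)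
    (h1 : ∀ y y' x o, y ≤ y' → y' ≤ x → x ≤ o → o ≤ T → ψ y' x o ≤ ψ y x o + η)
    (h2 : ∀ y x x' o, y ≤ x → x ≤ x' → x' ≤ o → o ≤ T → ψ y x x' + ψ y x' o ≤ ψ y x o + η)
    (h3 : ∀ y x o, y ≤ x → x ≤ o → o ≤ T → 0 ≤ ψ y x o)
    (l u y a d : ℕ) (hy : y ≤ l + a * u) (hT : l + (a + d) * u ≤ T) :
    ∑ j ∈ range d, ψ (l + (a + j) * u) (l + (a + j) * u) (l + (a + j + 1) * u) ≤
      ψ y (l + a * u) (l + (a + d) * u) + 2 * d * η := by
  induction d with
  | zero =>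
    simp only [range_zero, sum_empty, add_zero, Nat.cast_zero, mul_zero, zero_mul]
    exact h3 _ _ _ hy le_rfl (by simpa using hT)
  | succ d ih =>
    have hT' : l + (a + d) * u ≤ T := le_trans (by gcongr; omega) hT
    have ha : l + a * u ≤ l + (a + d) * u := by gcongr; omega
    have hb : l + (a + d) * u ≤ l + (a + (d + 1)) * u := by gcongr; omega
    have h4 := ih hT'
    have h5 := h1 y (l + (a + d) * u) (l + (a + d) * u) (l + (a + (d + 1)) * u)
      (hy.trans ha) le_rfl hb hT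
    have h6 := h2 y (l + a * u) (l + (a + d) * u) (l + (a + (d + 1)) * u) hy ha hb hT
    rw [sum_range_succ]
    have h7 : l + (a + d + 1) * u = l + (a + (d + 1)) * u := by ring
    rw [h7]
    push_cast
    nlinarith [h4, h5, h6]

/-- A box, no violation. -/
theorem box_le {ψ : ℕ → ℕ → ℕ → ℝ} {T : ℕ} {η : ℝ} (hη : 0 ≤ η)
    (h1 : ∀ y y' x o, y ≤ y' → y' ≤ x → x ≤ o → o ≤ T → ψ y' x o ≤ ψ y x o + η)
    (h2 : ∀ y x x' o, y ≤ x → x ≤ x' → x' ≤ o → o ≤ T → ψ y x x' + ψ y x' o ≤ ψ y x o + η)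
    (h3 : ∀ y x o, y ≤ x → x ≤ o → o ≤ T → 0 ≤ ψ y x o)
    (l u M : ℕ) (hT : l + M * u ≤ T) :
    ∑ j ∈ range M, ψ (l + j * u) (l + j * u) (l + (j + 1) * u) ≤
      ψ l l (l + M * u) + 2 * M * η := by
  have h := chain_le hη h1 h2 h3 l u l 0 M (by simp) (by simpa using hT)
  simpa using h

/-- A box with a violation. -/
theorem box_lt {ψ : ℕ → ℕ → ℕ → ℝ} {T : ℕ} {η : ℝ} (hη : 0 ≤ η)
    (h1 : ∀ y y' x o, y ≤ y' → y' ≤ x → x ≤ o → o ≤ T → ψ y' x o ≤ ψ y x o + η)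
    (h2 : ∀ y x x' o, y ≤ x → x ≤ x' → x' ≤ o → o ≤ T → ψ y x x' + ψ y x' o ≤ ψ y x o + η)
    (h3 : ∀ y x o, y ≤ x → x ≤ o → o ≤ T → 0 ≤ ψ y x o)
    (l u M : ℕ) (hT : l + M * u ≤ T) {α β γ : ℕ} (hab : α ≤ β) (hbc : β ≤ γ) (hcM : γ ≤ M)
    {e : ℝ} (hv : ψ (l + α * u) (l + α * u) (l + β * u) + ψ (l + α * u) (l + β * u) (l + γ * u) +
      e < ψ (l + α * u) (l + α * u) (l + γ * u)) :
    ∑ j ∈ range M, ψ (l + j * u) (l + j * u) (l + (j + 1) * u) ≤
      ψ l l (l + M * u) - e + (2 * M + 3) * η := by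
  obtain ⟨b, rfl⟩ := Nat.exists_eq_add_of_le hab
  obtain ⟨c, rfl⟩ := Nat.exists_eq_add_of_le hbc
  obtain ⟨d, rfl⟩ := Nat.exists_eq_add_of_le hcM
  have k1 : l + α * u ≤ l + (α + b) * u :=
    Nat.add_le_add_left (Nat.mul_le_mul_right u (by omega)) l
  have k2 : l + (α + b) * u ≤ l + (α + b + c) * u :=
    Nat.add_le_add_left (Nat.mul_le_mul_right u (by omega)) l
  have k3 : l + (α + b + c) * u ≤ l + (α + b + c + d) * u :=
    Nat.add_le_add_left (Nat.mul_le_mul_right u (by omega)) l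
  have q1 := chain_le hη h1 h2 h3 l u l 0 α (by simp) (by simpa using (k1.trans (k2.trans (k3.trans hT))))
  have q2 := chain_le hη h1 h2 h3 l u (l + α * u) α b le_rfl (k2.trans (k3.trans hT))
  have q3 := chain_le hη h1 h2 h3 l u (l + α * u) (α + b) c k1 (k3.trans hT)
  have q4 := chain_le hη h1 h2 h3 l u l (α + b + c) d (by omega) hT
  have r1 := h1 l (l + α * u) (l + α * u) (l + (α + b + c) * u) (by omega) le_rfl (k1.trans k2)
    (k3.trans hT)
  have r2 := h2 l l (l + α * u) (l + (α + b + c) * u) le_rfl (by omega) (k1.trans k2) (k3.trans hT)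
  have r3 := h2 l l (l + (α + b + c) * u) (l + (α + b + c + d) * u) le_rfl (by omega) k3 hT
  simp only [zero_add, zero_mul, add_zero] at q1
  rw [sum_range_add, sum_range_add, sum_range_add]
  have e2 : ∑ x ∈ range b, ψ (l + (α + x) * u) (l + (α + x) * u) (l + (α + x + 1) * u) ≤
      ψ (l + α * u) (l + α * u) (l + (α + b) * u) + 2 * b * η := q2
  have e3 : ∑ x ∈ range c, ψ (l + (α + b + x) * u) (l + (α + b + x) * u)
      (l + (α + b + x + 1) * u) ≤
      ψ (l + α * u) (l + (α + b) * u) (l + (α + b + c) * u) + 2 * c * η := q3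
  have e4 : ∑ x ∈ range d, ψ (l + (α + b + c + x) * u) (l + (α + b + c + x) * u)
      (l + (α + b + c + x + 1) * u) ≤
      ψ l (l + (α + b + c) * u) (l + (α + b + c + d) * u) + 2 * d * η := q4
  push_cast
  nlinarith [q1, e2, e3, e4, r1, r2, r3, hv]

/-- **A sub-box without look-ahead**, numbers (the hypothesis with `1 / 2`). -/
theorem subbox' (M : ℕ) (hM : 2 ≤ M) (n p : ℕ) : ∃ η : ℝ, 0 < η ∧
    ∀ (ψ : Fin p → ℕ → ℕ → ℕ → ℝ) (ρ : ℕ → ℕ → ℕ → ℝ) (C₁ C₂ ε₁ : ℝ), 0 ≤ C₁ → 0 ≤ C₂ → 0 < ε₁ →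
    (∀ i y y' x o, y ≤ y' → y' ≤ x → x ≤ o → o ≤ M ^ n → ψ i y' x o ≤ ψ i y x o + η) →
    (∀ i y x x' o, y ≤ x → x ≤ x' → x' ≤ o → o ≤ M ^ n →
      ψ i y x x' + ψ i y x' o ≤ ψ i y x o + η) →
    (∀ i y x o, y ≤ x → x ≤ o → o ≤ M ^ n → 0 ≤ ψ i y x o) →
    (∀ i, ψ i 0 0 (M ^ n) ≤ C₁) →
    (∀ s < n, ∀ y y' x x', y ≤ y' → y' ≤ x' → y ≤ x → x ≤ x' → x' ≤ M ^ n →
      ρ s y' x' ≤ ρ s y x + η) →
    (∀ s < n, ∀ y x, y ≤ x → x ≤ M ^ n → 0 ≤ ρ s y x) →
    (∀ s < n, ρ s 0 0 ≤ C₂ / (M : ℝ) ^ s) →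
    p * C₁ + 2 * C₂ + 1 / 2 ≤ ε₁ * n →
    ∃ s < n, ∃ k < M ^ s, ∀ l u, l = k * M ^ (n - s) → u = M ^ (n - s - 1) →
      ∀ α β γ, α ≤ β → β ≤ γ → γ ≤ M →
      (∀ i, ψ i (l + α * u) (l + α * u) (l + γ * u) ≤ ψ i (l + α * u) (l + α * u) (l + β * u) +
        ψ i (l + α * u) (l + β * u) (l + γ * u) + ε₁ / (M : ℝ) ^ s) ∧
      ρ s (l + α * u) (l + α * u) ≤ ρ s (l + α * u) (l + β * u) + ε₁ / (M : ℝ) ^ s := by
  have hM0 : (0 : ℝ) < M := by exact_mod_cast (show 0 < M by omega)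
  obtain ⟨c, hc⟩ : ∃ c : ℝ, c = 4 * p * M + 2 := ⟨_, rfl⟩
  have hc0 : 0 < c := by rw [hc]; positivity
  obtain ⟨η, hη⟩ : ∃ η : ℝ, η = 1 / (2 * (n + 1) * (M : ℝ) ^ n * c) := ⟨_, rfl⟩
  have hη0 : 0 < η := by rw [hη]; positivity
  refine ⟨η, hη0, ?_⟩
  intro ψ ρ C₁ C₂ ε₁ hC1 hC2 hε h1 h2 h3 h4 h5 h6 h7 hsum
  by_contra hcon
  push Not at hcon
  obtain ⟨Φ, hΦ⟩ : ∃ Φ : ℕ → ℝ, Φ = fun s => ∑ k ∈ range (M ^ s), ∑ i : Fin p,
    ψ i (k * M ^ (n - s)) (k * M ^ (n - s)) ((k + 1) * M ^ (n - s)) := ⟨_, rfl⟩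
  have hstep : ∀ s < n, Φ (s + 1) ≤ Φ s + C₂ / (M : ℝ) ^ s - ε₁ + (M : ℝ) ^ n * (c * η) := by
    intro s hs
    obtain ⟨u, hu⟩ : ∃ u : ℕ, u = M ^ (n - s - 1) := ⟨_, rfl⟩
    have hL : M ^ (n - s) = M * u := by
      rw [hu, ← pow_succ']
      congr 1
      omega
    have hu' : M ^ (n - (s + 1)) = u := by
      rw [hu]
      congr 1
    have hkT : ∀ k < M ^ s, k * M ^ (n - s) + M * u ≤ M ^ n := by
      intro k hk
      have e1 : k * M ^ (n - s) + M * u = (k + 1) * M ^ (n - s) := by rw [hL]; ring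
      rw [e1]
      calc (k + 1) * M ^ (n - s) ≤ M ^ s * M ^ (n - s) := by gcongr; omega
        _ = M ^ n := by rw [← pow_add]; congr 1; omega
    have hbox : ∀ k < M ^ s, ε₁ / (M : ℝ) ^ s - c * η ≤
        (∑ i : Fin p, ψ i (k * M ^ (n - s)) (k * M ^ (n - s)) ((k + 1) * M ^ (n - s))) -
        (∑ j ∈ range M, ∑ i : Fin p, ψ i ((k * M + j) * u) ((k * M + j) * u)
          ((k * M + j + 1) * u)) +
        (ρ s (k * M ^ (n - s)) (k * M ^ (n - s)) -
          ρ s ((k + 1) * M ^ (n - s)) ((k + 1) * M ^ (n - s))) := by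
      intro k hk
      have hT := hkT k hk
      obtain ⟨l, hl⟩ : ∃ l : ℕ, l = k * M ^ (n - s) := ⟨_, rfl⟩
      have e1 : (k + 1) * M ^ (n - s) = l + M * u := by rw [hl, hL]; ring
      have e2 : ∀ j, (k * M + j) * u = l + j * u := fun j => by rw [hl, hL]; ring
      have e3 : ∀ j, (k * M + j + 1) * u = l + (j + 1) * u := fun j => by rw [hl, hL]; ring
      rw [← hl] at hT ⊢
      simp only [e1, e2, e3]
      rw [sum_comm]
      have hρ : -η ≤ ρ s l l - ρ s (l + M * u) (l + M * u) := by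
        have := h5 s hs l (l + M * u) l (l + M * u) (by omega) le_rfl le_rfl (by omega) hT
        linarith
      have hψ : ∀ i, ∑ j ∈ range M, ψ i (l + j * u) (l + j * u) (l + (j + 1) * u) ≤
          ψ i l l (l + M * u) + 2 * M * η := fun i =>
        box_le hη0.le (h1 i) (h2 i) (h3 i) l u M hT
      have hψs : ∑ i : Fin p, ∑ j ∈ range M, ψ i (l + j * u) (l + j * u) (l + (j + 1) * u) ≤
          ∑ i : Fin p, ψ i l l (l + M * u) + p * (2 * M * η) := by
        calc _ ≤ ∑ i : Fin p, (ψ i l l (l + M * u) + 2 * M * η) := sum_le_sum fun i _ => hψ i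
          _ = _ := by rw [sum_add_distrib]; simp
      obtain ⟨l', u', hl', hu'', α, β, γ, hab, hbc, hcM, hbad⟩ := hcon s hs k hk
      rw [← hl] at hl'
      rw [← hu] at hu''
      subst hl' hu''
      by_cases hi : ∀ i, ψ i (l' + α * u') (l' + α * u') (l' + γ * u') ≤
          ψ i (l' + α * u') (l' + α * u') (l' + β * u') +
          ψ i (l' + α * u') (l' + β * u') (l' + γ * u') + ε₁ / (M : ℝ) ^ s
      · have hb := hbad hi
        have k1 : l' + α * u' ≤ l' + β * u' := by gcongr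
        have k2 : l' + β * u' ≤ l' + M * u' := by gcongr; omega
        have r1 := h5 s hs l' (l' + α * u') l' (l' + α * u') (by omega) le_rfl le_rfl (by omega)
          (k1.trans (k2.trans hT))
        have r2 := h5 s hs (l' + α * u') (l' + M * u') (l' + β * u') (l' + M * u') (k1.trans k2)
          le_rfl k1 k2 hT
        have : c * η = 2 * (p * (2 * M * η)) + 2 * η := by rw [hc]; ring
        have h0 : 0 ≤ (p : ℝ) * (2 * M * η) := by positivity
        linarith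
      · push Not at hi
        obtain ⟨i, hi⟩ := hi
        have hv := box_lt hη0.le (h1 i) (h2 i) (h3 i) l' u' M hT hab hbc hcM hi
        have hs2 : ∑ i : Fin p, ∑ j ∈ range M, ψ i (l' + j * u') (l' + j * u')
            (l' + (j + 1) * u') ≤
            ∑ i : Fin p, ψ i l' l' (l' + M * u') + p * (2 * M * η) - ε₁ / (M : ℝ) ^ s +
            3 * η := by
          have q1 := sum_erase_add (univ : Finset (Fin p)) (fun i => ∑ j ∈ range M,
            ψ i (l' + j * u') (l' + j * u') (l' + (j + 1) * u')) (mem_univ i)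
          have q2 := sum_erase_add (univ : Finset (Fin p)) (fun i =>
            ψ i l' l' (l' + M * u') + 2 * M * η) (mem_univ i)
          have q3 : ∑ i ∈ univ.erase i, ∑ j ∈ range M, ψ i (l' + j * u') (l' + j * u')
              (l' + (j + 1) * u') ≤ ∑ i ∈ univ.erase i, (ψ i l' l' (l' + M * u') + 2 * M * η) :=
            sum_le_sum fun i _ => hψ i
          have q4 : ∑ i : Fin p, (ψ i l' l' (l' + M * u') + 2 * M * η) =
              ∑ i : Fin p, ψ i l' l' (l' + M * u') + p * (2 * M * η) := by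
            rw [sum_add_distrib]; simp
          rw [← q1, ← q4, ← q2]
          linarith
        have hp1 : (1 : ℝ) ≤ p := by
          have : 0 < p := i.pos
          exact_mod_cast this
        have hM2 : (2 : ℝ) ≤ M := by exact_mod_cast hM
        have : c * η = 2 * (p * (2 * M * η)) + 2 * η := by rw [hc]; ring
        have h0 : 2 * η ≤ (p : ℝ) * (2 * M * η) := by
          have : 1 * 1 * (2 * η) ≤ p * M * (2 * η) := by
            gcongr
            linarith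
          nlinarith
        linarith
    have hsum2 := sum_le_sum (s := range (M ^ s)) fun k hk => hbox k (mem_range.1 hk)
    rw [sum_add_distrib] at hsum2
    rw [sum_sub_distrib (fun k => ∑ i : Fin p, ψ i (k * M ^ (n - s)) (k * M ^ (n - s))
      ((k + 1) * M ^ (n - s))) (fun k => ∑ j ∈ range M, ∑ i : Fin p, ψ i ((k * M + j) * u)
        ((k * M + j) * u) ((k * M + j + 1) * u))] at hsum2
    have htel : ∑ k ∈ range (M ^ s), (ρ s (k * M ^ (n - s)) (k * M ^ (n - s)) -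
        ρ s ((k + 1) * M ^ (n - s)) ((k + 1) * M ^ (n - s))) =
        ρ s 0 0 - ρ s (M ^ n) (M ^ n) := by
      rw [sum_range_sub' (fun k => ρ s (k * M ^ (n - s)) (k * M ^ (n - s)))]
      have : M ^ s * M ^ (n - s) = M ^ n := by rw [← pow_add]; congr 1; omega
      simp only [zero_mul, this]
    rw [htel] at hsum2
    have hΦs : ∑ k ∈ range (M ^ s), ∑ j ∈ range M, ∑ i : Fin p, ψ i ((k * M + j) * u)
        ((k * M + j) * u) ((k * M + j + 1) * u) = Φ (s + 1) := by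
      rw [hΦ]
      simp only [hu']
      rw [pow_succ M s, sum_mul_range M]
    rw [hΦs] at hsum2
    have hl : ∑ k ∈ range (M ^ s), (ε₁ / (M : ℝ) ^ s - c * η) =
        ε₁ - (M : ℝ) ^ s * (c * η) := by
      rw [sum_const, card_range, nsmul_eq_mul]
      push_cast
      field_simp
    rw [hl] at hsum2
    have h8 := h7 s hs
    have h9 := h6 s hs (M ^ n) (M ^ n) le_rfl le_rfl
    have h10 : (M : ℝ) ^ s * (c * η) ≤ (M : ℝ) ^ n * (c * η) := by
      have : (M : ℝ) ^ s ≤ (M : ℝ) ^ n := pow_le_pow_right₀ (by linarith [show (2 : ℝ) ≤ M by exact_mod_cast hM]) hs.le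
      gcongr
    have h11 : Φ s = ∑ k ∈ range (M ^ s), ∑ i : Fin p,
      ψ i (k * M ^ (n - s)) (k * M ^ (n - s)) ((k + 1) * M ^ (n - s)) := by rw [hΦ]
    linarith
  have hind : ∀ s ≤ n, Φ s ≤ Φ 0 + C₂ * (2 - 2 / (M : ℝ) ^ s) - s * ε₁ +
      s * ((M : ℝ) ^ n * (c * η)) := by
    intro s
    induction s with
    | zero => intro _; simp
    | succ s ih =>
      intro hs
      have a1 := ih (by omega)
      have a2 := hstep s (by omega)
      have a3 : C₂ / (M : ℝ) ^ s + C₂ * (2 - 2 / (M : ℝ) ^ s) ≤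
          C₂ * (2 - 2 / (M : ℝ) ^ (s + 1)) := by
        have hM2 : (2 : ℝ) ≤ M := by exact_mod_cast hM
        have b1 : 2 / (M : ℝ) ^ (s + 1) ≤ 1 / (M : ℝ) ^ s := by
          rw [pow_succ, div_le_div_iff₀ (by positivity) (by positivity)]
          have : 0 < (M : ℝ) ^ s := by positivity
          nlinarith
        have b2 : C₂ / (M : ℝ) ^ s = C₂ * (1 / (M : ℝ) ^ s) := by ring
        have b3 : 2 / (M : ℝ) ^ s = 2 * (1 / (M : ℝ) ^ s) := by ring
        rw [b2, b3, ← mul_add]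
        apply mul_le_mul_of_nonneg_left _ hC2
        linarith
      push_cast
      linarith
  have hfin := hind n le_rfl
  have hΦn : 0 ≤ Φ n := by
    rw [hΦ]
    refine sum_nonneg fun k hk => sum_nonneg fun i _ => ?_
    refine h3 i _ _ _ le_rfl (by gcongr; omega) ?_
    have : k < M ^ n := mem_range.1 hk
    simp only [Nat.sub_self, pow_zero, mul_one]
    omega
  have hΦ0 : Φ 0 ≤ p * C₁ := by
    rw [hΦ]
    simp only [pow_zero, range_one, sum_singleton, zero_mul, Nat.sub_zero, zero_add, one_mul]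
    calc _ ≤ ∑ _i : Fin p, C₁ := sum_le_sum fun i _ => h4 i
      _ = _ := by simp
  have hη1 : (n : ℝ) * ((M : ℝ) ^ n * (c * η)) < 1 / 2 := by
    have : (n : ℝ) * ((M : ℝ) ^ n * (c * η)) = n / (2 * (n + 1)) := by
      rw [hη]
      field_simp
    rw [this, div_lt_div_iff₀ (by positivity) (by norm_num)]
    linarith
  have hC : C₂ * (2 - 2 / (M : ℝ) ^ n) ≤ 2 * C₂ := by
    have : 0 ≤ 2 / (M : ℝ) ^ n := by positivity
    nlinarith
  nlinarith

end Pool.PN18
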