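import Pool.Agent.H91.LA.Rel
import Pool.Agent.H92.D2.FreeN

/-!
# Relative numbers: context, cost, own digits

`NN.ranti`: the relative numbers decrease with the record and with the condition. `NN.rsuperC`: they
are superadditive up to the cost of the own digits. `NN.rle`: they are at most the cost.
-/

set_option autoImplicit false

namespace Pool.LA91

open Finset Real
open Pool.Agent.H49.Ent Pool.Agent.H32.Dense Pool.STK Pool.KA Pool.KSAT Pool.K2S Pool.PB Pool.S6C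
  Pool.GEN Pool.RCD

variable {m : ℕ} {U₀ U₀' U U₁ U₂ : Type} {α β γ α' β' : ∀ J : ℕ, Fam m J → Type}
  {f : ∀ (J : ℕ) (F : Fam m J), F.Ω → α J F} {g : ∀ (J : ℕ) (F : Fam m J), F.Ω → β J F}
  {f' : ∀ (J : ℕ) (F : Fam m J), F.Ω → α' J F} {g' : ∀ (J : ℕ) (F : Fam m J), F.Ω → β' J F}
  {y : ∀ (J : ℕ) (F : Fam m J), F.Ω → γ J F} {S : PCl m}

/-- **The relative numbers decrease** with the record and with the condition. -/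
theorem NN.ranti (hS : S.Ne)
    (hpos : ∀ (τ : ℝ) (J : ℕ) (F : Fam m J) (A : F.Ω → Prop), S.St τ J F A → 0 < Pe F.p A)
    (hf : ∀ (J : ℕ) (F : Fam m J), ∃ φ : α' J F → α J F, ∀ ω, f J F ω = φ (f' J F ω))
    (hg : ∀ (J : ℕ) (F : Fam m J), ∃ φ : β' J F → β J F, ∀ ω, g J F ω = φ (g' J F ω))
    {η η' : ℝ} (hη : RNum S f g η) (hη' : RNum S f' g' η')
    {Qa Qb : Qt m U₀} {Q : Qt m U} {Q₂ : Qt m U₂} {θa θ θb θ₂ : ℝ}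
    (Na : NN S f g y Qa θa) (N : NN S f g y (Qa.prod Q) θ)
    (Nb : NN S f' g' y Qb θb) (N₂ : NN S f' g' y (Qb.prod Q₂) θ₂) (xa : Exs S Qa)
    (x : Exs S Q) (xb : Exs S Qb) (x₂ : Exs S Q₂) (t : Few S f' g' y Qb Qa)
    (i : Few S f' g' y (Qa.prod Q) Q₂) : θ₂ - θb ≤ θ - θa := by
  refine le_of_bas hS fun h hh => ?_
  obtain ⟨k1, hk1, e1, he1, H1⟩ := NN.cond hpos N Na (h / 4) (by positivity)
  obtain ⟨k2, hk2, e2, he2, H2⟩ := NN.late hpos Nb N₂ xb x₂ t i (h / 4) (by positivity)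
  obtain ⟨e₀, he₀, l1, l2⟩ : ∃ e₀ : ℝ, 0 < e₀ ∧ e₀ ≤ e1 ∧ e₀ ≤ e2 :=
    ⟨min e1 e2, by positivity, min_le_left _ _, min_le_right _ _⟩
  obtain ⟨k, hk, m1, m2⟩ : ∃ k : ℝ, 0 < k ∧ k ≤ k1 ∧ k ≤ k2 :=
    ⟨min k1 k2, by positivity, min_le_left _ _, min_le_right _ _⟩
  obtain ⟨K₀, M₀, hx0⟩ := xa e₀ he₀
  obtain ⟨K₁, M₁, hx1⟩ := x e₀ he₀
  refine Bas.mono 0 (((H1 (max K₀ K₁)).and (H2 (max K₀ K₁))).and ((hx0.and hx1).and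
    (((mx_ex hpos hη k hk).and (mx_ex hpos hη' k hk)).and (pos_bas hpos)))) ?_
  rintro J - F A ⟨⟨H1, H2⟩, ⟨⟨u₀, hu₀, -⟩, u, hu, -⟩, ⟨⟨V, z, hz⟩, V', z₀', hz₀'⟩, hA⟩
  have hcl := isLaw_cond F.isLaw hA
  have hJ0 : (0 : ℝ) ≤ J := Nat.cast_nonneg J
  have hz' := hz.join hA (hf J F) (hg J F) hz₀'
  have a1 := (abs_le.1 (H1 V z (hz.le' m1) u₀ u (Qa.mono (le_max_left _ _) l1 hu₀)
    (Q.mono (le_max_right _ _) l1 hu))).2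
  have a2 := H2 _ _ (hz'.le' m2) u₀ u (Qa.mono (le_max_left _ _) l2 hu₀)
    (Q.mono (le_max_right _ _) l2 hu)
  have s2 : CH (Pool.Agent.H49.Ent.cond F.p A True) u
      (fun ω => (u₀ ω, ((z ω, z₀' ω), y J F ω))) ≤
      CH (Pool.Agent.H49.Ent.cond F.p A True) u (fun ω => (u₀ ω, (z ω, y J F ω))) := by
    refine CH_mono_cond hcl.nonneg fun ω ω' _ _ hh => ?_
    simp only [Prod.mk.injEq] at hh ⊢
    exact ⟨hh.1, hh.2.1.1, hh.2.2⟩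
  have s3 : 0 ≤ h * J := by positivity
  nlinarith

/-- **The relative numbers are superadditive**, up to the cost of the own digits. -/
theorem NN.rsuperC (hS : S.Ne)
    (hpos : ∀ (τ : ℝ) (J : ℕ) (F : Fam m J) (A : F.Ω → Prop), S.St τ J F A → 0 < Pe F.p A)
    (hf : ∀ (J : ℕ) (F : Fam m J), ∃ φ : α' J F → α J F, ∀ ω, f J F ω = φ (f' J F ω))
    (hg : ∀ (J : ℕ) (F : Fam m J), ∃ φ : β' J F → β J F, ∀ ω, g J F ω = φ (g' J F ω))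
    {η η' : ℝ} (hη : RNum S f g η) (hη' : RNum S f' g' η')
    {Qa Qb : Qt m U₀} {Q : Qt m U} {Q₁ : Qt m U₁} {Q₂ : Qt m U₂} {θa θ θ₁ θb θ₂ c : ℝ}
    (Na : NN S f g y Qa θa) (N : NN S f g y (Qa.prod Q) θ) (N₁ : NN S f g y (Qa.prod Q₁) θ₁)
    (Nb : NN S f' g' y Qb θb) (N₂ : NN S f' g' y (Qb.prod Q₂) θ₂) (xa : Exs S Qa)
    (x : Exs S Q) (x₁ : Exs S Q₁) (xb : Exs S Qb) (x₂ : Exs S Q₂)
    (r : Few S f g y (Qa.prod Q) Q₁) (t : Few S f' g' y Qb Qa)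
    (d : FewC S f' g' y Qa Q₁ c) (i : Few S f' g' y (Qa.prod Q) Q₂) :
    (θ₁ - θa) + (θ₂ - θb) ≤ θ - θa + c := by
  refine le_of_bas hS fun h hh => ?_
  obtain ⟨k1, hk1, e1, he1, H1⟩ := NN.early hpos Na N N₁ r (h / 4) (by positivity)
  obtain ⟨k2, hk2, e2, he2, H2⟩ := NN.late hpos Nb N₂ xb x₂ t i (h / 4) (by positivity)
  obtain ⟨e3, he3, H3⟩ := d.mx hpos (h / 4) (by positivity)
  obtain ⟨e₀, he₀, l1, l2, l3⟩ : ∃ e₀ : ℝ, 0 < e₀ ∧ e₀ ≤ e1 ∧ e₀ ≤ e2 ∧ e₀ ≤ e3 :=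
    ⟨min e1 (min e2 e3), by positivity, min_le_left _ _,
      (min_le_right _ _).trans (min_le_left _ _), (min_le_right _ _).trans (min_le_right _ _)⟩
  obtain ⟨k, hk, m1, m2, m3⟩ : ∃ k : ℝ, 0 < k ∧ k ≤ k1 ∧ k ≤ k2 ∧ k ≤ h / 4 / 2 :=
    ⟨min k1 (min k2 (h / 4 / 2)), by positivity, min_le_left _ _,
      (min_le_right _ _).trans (min_le_left _ _), (min_le_right _ _).trans (min_le_right _ _)⟩
  obtain ⟨K₀, M₀, hx0⟩ := xa e₀ he₀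
  obtain ⟨K₁, M₁, hx1⟩ := x₁ e₀ he₀
  obtain ⟨K₂, M₂, hx2⟩ := x e₀ he₀
  obtain ⟨K, hK⟩ : ∃ K, K = max K₀ (max K₁ K₂) := ⟨_, rfl⟩
  have n0 : K₀ ≤ K := by rw [hK]; exact le_max_left _ _
  have n1 : K₁ ≤ K := by rw [hK]; exact (le_max_left _ _).trans (le_max_right _ _)
  have n2 : K₂ ≤ K := by rw [hK]; exact (le_max_right _ _).trans (le_max_right _ _)
  refine Bas.mono 0 ((((H1 K).and (H2 K)).and (H3 K)).and
    (((hx0.and hx1).and hx2).and (((mx_ex hpos hη k hk).and (mx_ex hpos hη' k hk)).and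
      (pos_bas hpos)))) ?_
  rintro J - F A ⟨⟨⟨H1, H2⟩, H3⟩, ⟨⟨⟨u₀, hu₀, -⟩, u₁, hu₁, -⟩, u, hu, -⟩,
    ⟨⟨V, z, hz⟩, V', z₀', hz₀'⟩, hA⟩
  have hcl := isLaw_cond F.isLaw hA
  have hJ0 : (0 : ℝ) ≤ J := Nat.cast_nonneg J
  have hz' := hz.join hA (hf J F) (hg J F) hz₀'
  obtain ⟨z', hze⟩ : ∃ z' : F.Ω → V × V', z' = fun ω => (z ω, z₀' ω) := ⟨_, rfl⟩
  rw [← hze] at hz'
  have a1 := H1 V z (hz.le' m1) u₀ u u₁ (Qa.mono n0 l1 hu₀) (Q.mono n2 l1 hu)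
    (Q₁.mono n1 l1 hu₁)
  have a2 := H2 _ z' (hz'.le' m2) u₀ u (Qa.mono n0 l2 hu₀) (Q.mono n2 l2 hu)
  have a3 := H3 _ z' (hz'.le' m3) u₀ u₁ (Qa.mono n0 l3 hu₀) (Q₁.mono n1 l3 hu₁)
  have s1 := CH_le_add hcl.nonneg u u₁ (fun ω => (u₀ ω, (z' ω, y J F ω)))
  have s2 : CH (Pool.Agent.H49.Ent.cond F.p A True) u
      (fun ω => (u₁ ω, (u₀ ω, (z' ω, y J F ω)))) ≤
      CH (Pool.Agent.H49.Ent.cond F.p A True) u (fun ω => (u₁ ω, (u₀ ω, (z ω, y J F ω)))) := by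
    refine CH_mono_cond hcl.nonneg fun ω ω' _ _ hh => ?_
    rw [hze] at hh
    simp only [Prod.mk.injEq] at hh ⊢
    exact ⟨hh.1, hh.2.1, hh.2.2.1.1, hh.2.2.2⟩
  have s3 : 0 ≤ h * J := by positivity
  nlinarith

/-- The relative numbers are at most the cost. -/
theorem NN.rle (hS : S.Ne)
    (hpos : ∀ (τ : ℝ) (J : ℕ) (F : Fam m J) (A : F.Ω → Prop), S.St τ J F A → 0 < Pe F.p A)
    {η : ℝ} (hη : RNum S f g η) {Qa : Qt m U₀} {Q : Qt m U} {θa θ c : ℝ}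
    (Na : NN S f g y Qa θa) (N : NN S f g y (Qa.prod Q) θ) (xa : Exs S Qa) (x : Exs S Q)
    (hc : FewC S f g y Qa Q c) : θ - θa ≤ c := by
  refine le_of_bas hS fun h hh => ?_
  obtain ⟨k1, hk1, e1, he1, H1⟩ := NN.cond hpos N Na (h / 4) (by positivity)
  obtain ⟨e2, he2, H2⟩ := hc.mx hpos (h / 4) (by positivity)
  obtain ⟨e₀, he₀, l1, l2⟩ : ∃ e₀ : ℝ, 0 < e₀ ∧ e₀ ≤ e1 ∧ e₀ ≤ e2 :=
    ⟨min e1 e2, by positivity, min_le_left _ _, min_le_right _ _⟩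
  obtain ⟨k, hk, m1, m2⟩ : ∃ k : ℝ, 0 < k ∧ k ≤ k1 ∧ k ≤ h / 4 / 2 :=
    ⟨min k1 (h / 4 / 2), by positivity, min_le_left _ _, min_le_right _ _⟩
  obtain ⟨K₀, M₀, hx0⟩ := xa e₀ he₀
  obtain ⟨K₁, M₁, hx1⟩ := x e₀ he₀
  refine Bas.mono 0 (((H1 (max K₀ K₁)).and (H2 (max K₀ K₁))).and ((hx0.and hx1).and
    ((mx_ex hpos hη k hk).and (pos_bas hpos)))) ?_
  rintro J - F A ⟨⟨H1, H2⟩, ⟨⟨u₀, hu₀, -⟩, u, hu, -⟩, ⟨V, z, hz⟩, hA⟩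
  have hJ0 : (0 : ℝ) ≤ J := Nat.cast_nonneg J
  have a1 := (abs_le.1 (H1 V z (hz.le' m1) u₀ u (Qa.mono (le_max_left _ _) l1 hu₀)
    (Q.mono (le_max_right _ _) l1 hu))).1
  have a2 := H2 V z (hz.le' m2) u₀ u (Qa.mono (le_max_left _ _) l2 hu₀)
    (Q.mono (le_max_right _ _) l2 hu)
  have s3 : 0 ≤ h * J := by positivity
  nlinarith

end Pool.LA91
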