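import Pool.Agent.H99.D2.Fzd
import Pool.Agent.H30.LPT.Sba
import Pool.Agent.H30.LPT.Sbb

/-!
# No look-ahead in a sub-box

`subbox`: superadditive numbers which decrease with the context, and decreasing numbers: a sub-box
in which they are additive and constant. `subbox_cls`: a sub-box of windows in which a subclass has
no look-ahead.
-/

set_option autoImplicit false

namespace Pool.PN18

open Finset Real MvPolynomial
open Pool.Agent.H49.Ent Pool.Agent.H32.Dense Pool.STK Pool.KA Pool.KSAT Pool.K2S Pool.PB Pool.GEN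
open Pool.S6C Pool.RCD Pool.LA91 Pool.OWN68 Pool.AJW Pool.AJX Pool.CHT Pool.LP30
open Pool.GRD (LbP)
open Pool.ALT (Fml DpI)

/-- Superadditive numbers which decrease with the context, and decreasing numbers:
a sub-box in which they are additive and constant. -/
theorem subbox (M : ℕ) (hM : 2 ≤ M) (n p : ℕ) : ∃ η : ℝ, 0 < η ∧
    ∀ (ψ : Fin p → ℕ → ℕ → ℕ → ℝ) (ρ : ℕ → ℕ → ℕ → ℝ) (C₁ C₂ ε₁ : ℝ), 0 ≤ C₁ → 0 ≤ C₂ → 0 < ε₁ →
    (∀ i y y' x o, y ≤ y' → y' ≤ x → x ≤ o → o ≤ M ^ n → ψ i y' x o ≤ ψ i y x o + η) →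
    (∀ i y x x' o, y ≤ x → x ≤ x' → x' ≤ o → o ≤ M ^ n →
      ψ i y x x' + ψ i y x' o ≤ ψ i y x o + η) →
    (∀ i y x o, y ≤ x → x ≤ o → o ≤ M ^ n → 0 ≤ ψ i y x o) →
    (∀ i, ψ i 0 0 (M ^ n) ≤ C₁) →
    (∀ s y y' x x', y ≤ y' → y' ≤ x' → y ≤ x → x ≤ x' → x' ≤ M ^ n →
      ρ s y' x' ≤ ρ s y x + η) →
    (∀ s y x, y ≤ x → x ≤ M ^ n → 0 ≤ ρ s y x) → (∀ s < n, ρ s 0 0 ≤ C₂ / (M : ℝ) ^ s) →
    p * C₁ + 2 * C₂ + 1 ≤ ε₁ * n →
    ∃ s < n, ∃ k < M ^ s, ∀ l u, l = k * M ^ (n - s) → u = M ^ (n - s - 1) →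
      ∀ α β γ, α ≤ β → β ≤ γ → γ ≤ M →
      (∀ i, ψ i (l + α * u) (l + α * u) (l + γ * u) ≤ ψ i (l + α * u) (l + α * u) (l + β * u) +
        ψ i (l + α * u) (l + β * u) (l + γ * u) + ε₁ / (M : ℝ) ^ s) ∧
      ρ s (l + α * u) (l + α * u) ≤ ρ s (l + α * u) (l + β * u) + ε₁ / (M : ℝ) ^ s := by
  obtain ⟨η, hη, H⟩ := subbox' M hM n p
  refine ⟨η, hη, fun ψ ρ C₁ C₂ ε₁ hC₁ hC₂ hε h1 h2 h3 h4 h5 h6 h7 h8 => ?_⟩
  exact H ψ ρ C₁ C₂ ε₁ hC₁ hC₂ hε h1 h2 h3 h4 (fun s _ => h5 s) (fun s _ => h6 s) h7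
    (by linarith)

/-- A sub-box of windows in which a subclass has no look-ahead. -/
theorem subbox_cls (M : ℕ) (hM : 2 ≤ M) (n p : ℕ) : ∃ η : ℝ, 0 < η ∧
    ∀ {m : ℕ} {S : PCl m}, S.Ne →
    (∀ (τ : ℝ) (J : ℕ) (F : Fam m J) (A : F.Ω → Prop), S.St τ J F A → 0 < Pe F.p A) →
    ∀ (g : ℕ → ℝ), (∀ x y, x ≤ y → y ≤ M ^ n → g x ≤ g y) → 0 ≤ g 0 → g (M ^ n) ≤ 1 →
    (∀ x ≤ M ^ n, ∃ ηx : ℝ, RNum S (fun J F => ptr F J) (vg (g x)) ηx) →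
    ∀ {U U₁ U₂ : Type} (E : ℕ → Qt m U) (Qf : Fin p → ℕ → Qt m U₁) (Qs : ℕ → Qt m U₂)
      (q C₁ C₂ ε₁ : ℝ), 0 < q → 0 ≤ C₁ → 0 ≤ C₂ → 0 < ε₁ →
    (∀ y ≤ M ^ n, Exs S (E y)) → (∀ i, ∀ o ≤ M ^ n, Exs S (Qf i o)) → (∀ s < n, Exs S (Qs s)) →
    (∀ y y' x, y ≤ y' → y' ≤ x → x ≤ M ^ n →
      Few S (fun J F => ptr F J) (vg (g x)) (fun _ F => F.W) (E y') (E y)) →
    (∀ i y x o' o, y ≤ x → x ≤ o' → o' ≤ o → o ≤ M ^ n →
      Few S (fun J F => ptr F J) (vg (g x)) (fun _ F => F.W) ((E y).prod (Qf i o)) (Qf i o')) →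
    (∀ s < n, ∀ y x, y ≤ x → x ≤ M ^ n →
      Few S (fun J F => ptr F J) (vg (g x)) (fun _ F => F.W) ((E y).prod (Qs s)) (Qs s)) →
    (∀ i y x, y ≤ x → x ≤ M ^ n →
      FewC S (fun J F => ptr F J) (vg (g x)) (fun _ F => F.W) (E y) (Qf i x) (η * q)) →
    (∀ i, FewC S (fun J F => ptr F J) (vg (g 0)) (fun _ F => F.W) (E 0) (Qf i (M ^ n))
      (C₁ * q)) →
    (∀ s < n, FewC S (fun J F => ptr F J) (vg (g 0)) (fun _ F => F.W) (E 0) (Qs s)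
      (C₂ / (M : ℝ) ^ s * q)) →
    p * C₁ + 2 * C₂ + 1 ≤ ε₁ * n →
    ∃ S' : PCl m, S'.Ne ∧
      (∀ (τ : ℝ) (J : ℕ) (F : Fam m J) (A : F.Ω → Prop), S'.St τ J F A → S.St τ J F A) ∧
      ∃ s < n, ∃ k < M ^ s, ∀ l u, l = k * M ^ (n - s) → u = M ^ (n - s - 1) →
      ∀ α β γ, α ≤ β → β ≤ γ → γ ≤ M →
      (∀ i, Nla S' (E (l + α * u)) (Qf i (l + γ * u)) (Qf i (l + β * u)) (g (l + α * u))
        (g (l + β * u)) (ε₁ / (M : ℝ) ^ s * q)) ∧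
      Nlb S' (E (l + α * u)) (Qs s) (g (l + α * u)) (g (l + β * u))
        (ε₁ / (M : ℝ) ^ s * q) := by
  classical
  obtain ⟨η, hη, HA⟩ := subbox' M hM n p
  refine ⟨η, hη, ?_⟩
  intro m S hS hpos g hg hg0 hg1 hrn U U₁ U₂ E Qf Qs q C₁ C₂ ε₁ hq hC₁ hC₂ hε xE xF xS F1 F2 F3
    G1 G2 G3 hsum
  have hM0 : (0 : ℝ) < M := by exact_mod_cast (show 0 < M by omega)
  have hn0 : 0 < n := by
    rcases Nat.eq_zero_or_pos n with h | h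
    · subst h
      have : 0 ≤ (p : ℝ) * C₁ := by positivity
      simp only [Nat.cast_zero, mul_zero] at hsum
      linarith
    · exact h
  have hn0' : (0 : ℝ) < n := by exact_mod_cast hn0
  -- the numbers
  obtain ⟨S₁, a1, a2, a3⟩ := nn_ext_ct hS hpos (ι := {x : ℕ × ℕ // x.1 ≤ x.2 ∧ x.2 ≤ M ^ n})
    (fun _ => U) (fun _ J F => PtT F) (fun _ J F => LnT F) _
    (fun _ J F => ptr F J) (fun x => vg (g x.1.2)) (fun _ _ F => F.W) (fun x => E x.1.1)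
    (fun x => xE _ (x.2.1.trans x.2.2)) (fun x => F1 _ _ _ le_rfl x.2.1 x.2.2)
  have hpos₁ : ∀ (τ : ℝ) (J : ℕ) (F : Fam m J) (A : F.Ω → Prop), S₁.St τ J F A → 0 < Pe F.p A :=
    fun τ J F A h => hpos τ J F A (a2 τ J F A h)
  obtain ⟨S₂, b1, b2, b3⟩ := nn_ext_ct a1 hpos₁
    (ι := {x : Fin p × ℕ × ℕ × ℕ // x.2.1 ≤ x.2.2.1 ∧ x.2.2.1 ≤ x.2.2.2 ∧ x.2.2.2 ≤ M ^ n})
    (fun _ => U × U₁) (fun _ J F => PtT F) (fun _ J F => LnT F) _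
    (fun _ J F => ptr F J) (fun x => vg (g x.1.2.2.1)) (fun _ _ F => F.W)
    (fun x => (E x.1.2.1).prod (Qf x.1.1 x.1.2.2.2))
    (fun x => ((xE _ (x.2.1.trans (x.2.2.1.trans x.2.2.2))).prod (xF _ _ x.2.2.2)).sub a2)
    (fun x => Few.sub a2 (Few.pair hpos (Few.fst hpos
      (F1 _ _ _ le_rfl x.2.1 (x.2.2.1.trans x.2.2.2)))
      (F2 _ _ _ _ _ x.2.1 x.2.2.1 le_rfl x.2.2.2)))
  have hpos₂ : ∀ (τ : ℝ) (J : ℕ) (F : Fam m J) (A : F.Ω → Prop), S₂.St τ J F A → 0 < Pe F.p A :=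
    fun τ J F A h => hpos₁ τ J F A (b2 τ J F A h)
  obtain ⟨S₃, c1, c2, c3⟩ := nn_ext_ct b1 hpos₂
    (ι := {x : ℕ × ℕ × ℕ // x.1 < n ∧ x.2.1 ≤ x.2.2 ∧ x.2.2 ≤ M ^ n})
    (fun _ => U × U₂) (fun _ J F => PtT F) (fun _ J F => LnT F) _
    (fun _ J F => ptr F J) (fun x => vg (g x.1.2.2)) (fun _ _ F => F.W)
    (fun x => (E x.1.2.1).prod (Qs x.1.1))
    (fun x => (((xE _ (x.2.2.1.trans x.2.2.2)).prod (xS _ x.2.1)).sub a2).sub b2)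
    (fun x => Few.sub b2 (Few.sub a2 (Few.pair hpos (Few.fst hpos
      (F1 _ _ _ le_rfl x.2.2.1 x.2.2.2)) (F3 _ x.2.1 _ _ x.2.2.1 x.2.2.2))))
  have hpos₃ : ∀ (τ : ℝ) (J : ℕ) (F : Fam m J) (A : F.Ω → Prop), S₃.St τ J F A → 0 < Pe F.p A :=
    fun τ J F A h => hpos₂ τ J F A (c2 τ J F A h)
  have hs : ∀ (τ : ℝ) (J : ℕ) (F : Fam m J) (A : F.Ω → Prop), S₃.St τ J F A → S.St τ J F A :=
    fun τ J F A h => a2 τ J F A (b2 τ J F A (c2 τ J F A h))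
  obtain ⟨θE, hθE⟩ : ∃ θE : ℕ → ℕ → ℝ, ∀ y x, y ≤ x → x ≤ M ^ n →
      NN S₃ (fun J F => ptr F J) (vg (g x)) (fun _ F => F.W) (E y) (θE y x) := by
    choose θ hθ using a3
    refine ⟨fun y x => if h : y ≤ x ∧ x ≤ M ^ n then θ ⟨(y, x), h⟩ else 0, fun y x h1 h2 => ?_⟩
    have hx : y ≤ x ∧ x ≤ M ^ n := ⟨h1, h2⟩
    simp only [hx, and_self, dif_pos]
    exact ((hθ ⟨(y, x), hx⟩).sub b2).sub c2
  obtain ⟨θF, hθF⟩ : ∃ θF : Fin p → ℕ → ℕ → ℕ → ℝ, ∀ i y x o, y ≤ x → x ≤ o → o ≤ M ^ n →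
      NN S₃ (fun J F => ptr F J) (vg (g x)) (fun _ F => F.W) ((E y).prod (Qf i o))
        (θF i y x o) := by
    choose θ hθ using b3
    refine ⟨fun i y x o => if h : y ≤ x ∧ x ≤ o ∧ o ≤ M ^ n then θ ⟨(i, y, x, o), h⟩ else 0,
      fun i y x o h1 h2 h3 => ?_⟩
    have hx : y ≤ x ∧ x ≤ o ∧ o ≤ M ^ n := ⟨h1, h2, h3⟩
    simp only [hx, and_self, dif_pos]
    exact (hθ ⟨(i, y, x, o), hx⟩).sub c2
  obtain ⟨θS, hθS⟩ : ∃ θS : ℕ → ℕ → ℕ → ℝ, ∀ s < n, ∀ y x, y ≤ x → x ≤ M ^ n →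
      NN S₃ (fun J F => ptr F J) (vg (g x)) (fun _ F => F.W) ((E y).prod (Qs s))
        (θS s y x) := by
    choose θ hθ using c3
    refine ⟨fun s y x => if h : s < n ∧ y ≤ x ∧ x ≤ M ^ n then θ ⟨(s, y, x), h⟩ else 0,
      fun s h1 y x h2 h3 => ?_⟩
    have hx : s < n ∧ y ≤ x ∧ x ≤ M ^ n := ⟨h1, h2, h3⟩
    simp only [hx, and_self, dif_pos]
    exact hθ ⟨(s, y, x), hx⟩
  -- monotone windows
  have hgle : ∀ x ≤ M ^ n, g x ≤ 1 := fun x hx => (hg x _ hx le_rfl).trans hg1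
  have hvg : ∀ x x', x ≤ x' → x' ≤ M ^ n → ∀ (J : ℕ) (F : Fam m J), ∃ φ : LnT F → LnT F,
      ∀ ω, vg (g x) J F ω = φ (vg (g x') J F ω) := fun x x' h1 h2 J F =>
    vg_mono (hg x x' h1 h2) (hgle x' h2) J F
  have hid : ∀ (J : ℕ) (F : Fam m J), ∃ φ : PtT F → PtT F, ∀ ω, ptr F J ω = φ (ptr F J ω) :=
    fun J F => ⟨fun x => x, fun _ => rfl⟩
  -- the hypotheses in the subclass
  have xE' : ∀ y ≤ M ^ n, Exs S₃ (E y) := fun y hy => (xE y hy).sub hs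
  have xF' : ∀ i, ∀ o ≤ M ^ n, Exs S₃ (Qf i o) := fun i o ho => (xF i o ho).sub hs
  have xS' : ∀ s < n, Exs S₃ (Qs s) := fun s h => (xS s h).sub hs
  have key1 : ∀ i y y' x o, y ≤ y' → y' ≤ x → x ≤ o → o ≤ M ^ n →
      θF i y' x o - θE y' x ≤ θF i y x o - θE y x := by
    intro i y y' x o h1 h2 h3 h4
    obtain ⟨ηx, hηx⟩ := hrn x (h3.trans h4)
    exact NN.ranti c1 hpos₃ hid (hvg x x le_rfl (h3.trans h4)) (hηx.sub hs) (hηx.sub hs)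
      (hθE y x (h1.trans h2) (h3.trans h4)) (hθF i y x o (h1.trans h2) h3 h4)
      (hθE y' x h2 (h3.trans h4)) (hθF i y' x o h2 h3 h4)
      (xE' y (h1.trans (h2.trans (h3.trans h4)))) (xF' i o h4)
      (xE' y' (h2.trans (h3.trans h4))) (xF' i o h4)
      (Few.sub hs (F1 y y' x h1 h2 (h3.trans h4)))
      (Few.sub hs (F2 i y x o o (h1.trans h2) h3 le_rfl h4))
  have key2 : ∀ i y x x' o, y ≤ x → x ≤ x' → x' ≤ o → o ≤ M ^ n →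
      (θF i y x x' - θE y x) + (θF i y x' o - θE y x') ≤ θF i y x o - θE y x + η * q := by
    intro i y x x' o h1 h2 h3 h4
    obtain ⟨ηx, hηx⟩ := hrn x (h2.trans (h3.trans h4))
    obtain ⟨ηx', hηx'⟩ := hrn x' (h3.trans h4)
    exact NN.rsuperC c1 hpos₃ hid (hvg x x' h2 (h3.trans h4)) (hηx.sub hs) (hηx'.sub hs)
      (hθE y x h1 (h2.trans (h3.trans h4))) (hθF i y x o h1 (h2.trans h3) h4)
      (hθF i y x x' h1 h2 (h3.trans h4)) (hθE y x' (h1.trans h2) (h3.trans h4))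
      (hθF i y x' o (h1.trans h2) h3 h4)
      (xE' y (h1.trans (h2.trans (h3.trans h4)))) (xF' i o h4) (xF' i x' (h3.trans h4))
      (xE' y (h1.trans (h2.trans (h3.trans h4)))) (xF' i o h4)
      (Few.sub hs (F2 i y x x' o h1 h2 h3 h4))
      (Few.sub hs (F1 y y x' le_rfl (h1.trans h2) (h3.trans h4)))
      ((G1 i y x' (h1.trans h2) (h3.trans h4)).sub hs)
      (Few.sub hs (F2 i y x' o o (h1.trans h2) h3 le_rfl h4))
  have key3 : ∀ i y x o, y ≤ x → x ≤ o → o ≤ M ^ n → 0 ≤ θF i y x o - θE y x := by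
    intro i y x o h1 h2 h3
    obtain ⟨ηx, hηx⟩ := hrn x (h2.trans h3)
    exact NN.rnonneg c1 hpos₃ (hηx.sub hs) (hθE y x h1 (h2.trans h3)) (hθF i y x o h1 h2 h3)
      (xE' y (h1.trans (h2.trans h3))) (xF' i o h3)
  have key4 : ∀ i, θF i 0 0 (M ^ n) - θE 0 0 ≤ C₁ * q := by
    intro i
    obtain ⟨ηx, hηx⟩ := hrn 0 (Nat.zero_le _)
    exact NN.rle c1 hpos₃ (hηx.sub hs) (hθE 0 0 le_rfl (Nat.zero_le _))
      (hθF i 0 0 _ le_rfl (Nat.zero_le _) le_rfl) (xE' 0 (Nat.zero_le _)) (xF' i _ le_rfl)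
      ((G2 i).sub hs)
  have key5 : ∀ s < n, ∀ y y' x x', y ≤ y' → y' ≤ x' → y ≤ x → x ≤ x' → x' ≤ M ^ n →
      θS s y' x' - θE y' x' ≤ θS s y x - θE y x := by
    intro s hsn y y' x x' h1 h2 h3 h4 h5
    obtain ⟨ηx, hηx⟩ := hrn x (h4.trans h5)
    obtain ⟨ηx', hηx'⟩ := hrn x' h5
    exact NN.ranti c1 hpos₃ hid (hvg x x' h4 h5) (hηx.sub hs) (hηx'.sub hs)
      (hθE y x h3 (h4.trans h5)) (hθS s hsn y x h3 (h4.trans h5))
      (hθE y' x' h2 h5) (hθS s hsn y' x' h2 h5)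
      (xE' y (h1.trans (h2.trans h5))) (xS' s hsn) (xE' y' (h2.trans h5)) (xS' s hsn)
      (Few.sub hs (F1 y y' x' h1 h2 h5))
      (Few.sub hs (F3 s hsn y x' (h1.trans h2) h5))
  have key6 : ∀ s < n, ∀ y x, y ≤ x → x ≤ M ^ n → 0 ≤ θS s y x - θE y x := by
    intro s hsn y x h1 h2
    obtain ⟨ηx, hηx⟩ := hrn x h2
    exact NN.rnonneg c1 hpos₃ (hηx.sub hs) (hθE y x h1 h2) (hθS s hsn y x h1 h2)
      (xE' y (h1.trans h2)) (xS' s hsn)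
  have key7 : ∀ s < n, θS s 0 0 - θE 0 0 ≤ C₂ / (M : ℝ) ^ s * q := by
    intro s hsn
    obtain ⟨ηx, hηx⟩ := hrn 0 (Nat.zero_le _)
    exact NN.rle c1 hpos₃ (hηx.sub hs) (hθE 0 0 le_rfl (Nat.zero_le _))
      (hθS s hsn 0 0 le_rfl (Nat.zero_le _)) (xE' 0 (Nat.zero_le _)) (xS' s hsn)
      ((G3 s hsn).sub hs)
  -- the numbers divided by `q`
  obtain ⟨ε₂, hε₂⟩ : ∃ ε₂ : ℝ, ε₂ = ε₁ - 1 / (2 * n) := ⟨_, rfl⟩
  have hε₂n : ε₂ * n = ε₁ * n - 1 / 2 := by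
    rw [hε₂]
    field_simp
  have hε₂1 : ε₂ < ε₁ := by
    rw [hε₂]
    have : 0 < 1 / (2 * (n : ℝ)) := by positivity
    linarith
  have hpC : 0 ≤ (p : ℝ) * C₁ := by positivity
  have hε₂0 : 0 < ε₂ := by
    by_contra hcon
    push Not at hcon
    have : ε₂ * n ≤ 0 := mul_nonpos_of_nonpos_of_nonneg hcon hn0'.le
    linarith
  obtain ⟨s, hsn, k, hk, H⟩ := HA (fun i y x o => (θF i y x o - θE y x) / q)
    (fun s y x => (θS s y x - θE y x) / q) C₁ C₂ ε₂ hC₁ hC₂ hε₂0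
    (by
      intro i y y' x o h1 h2 h3 h4
      have := key1 i y y' x o h1 h2 h3 h4
      have h5 := div_le_div_of_nonneg_right this hq.le
      linarith)
    (by
      intro i y x x' o h1 h2 h3 h4
      have := key2 i y x x' o h1 h2 h3 h4
      have h5 := div_le_div_of_nonneg_right this hq.le
      rw [add_div, add_div, mul_div_assoc, div_self hq.ne', mul_one] at h5
      exact h5)
    (fun i y x o h1 h2 h3 => div_nonneg (key3 i y x o h1 h2 h3) hq.le)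
    (fun i => by
      have := key4 i
      rw [div_le_iff₀ hq]
      exact this)
    (by
      intro s hsn y y' x x' h1 h2 h3 h4 h5
      have := key5 s hsn y y' x x' h1 h2 h3 h4 h5
      have h6 := div_le_div_of_nonneg_right this hq.le
      linarith)
    (fun s hsn y x h1 h2 => div_nonneg (key6 s hsn y x h1 h2) hq.le)
    (fun s hsn => by
      have := key7 s hsn
      rw [div_le_iff₀ hq]
      exact this)
    (by rw [hε₂n]; linarith)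
  refine ⟨S₃, c1, hs, s, hsn, k, hk, ?_⟩
  intro l u hl hu α β γ hab hbc hcM
  obtain ⟨HF, HS⟩ := H l u hl hu α β γ hab hbc hcM
  have hT : l + γ * u ≤ M ^ n := by
    have e1 : M ^ (n - s) = M * u := by
      rw [hu, ← pow_succ']
      congr 1
      omega
    calc l + γ * u ≤ k * M ^ (n - s) + M * u := by rw [hl]; gcongr
      _ = (k + 1) * M ^ (n - s) := by rw [e1]; ring
      _ ≤ M ^ s * M ^ (n - s) := by gcongr; omega
      _ = M ^ n := by rw [← pow_add]; congr 1; omega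
  obtain ⟨a, ha⟩ : ∃ a, a = l + α * u := ⟨_, rfl⟩
  obtain ⟨b, hb⟩ : ∃ b, b = l + β * u := ⟨_, rfl⟩
  obtain ⟨o, ho⟩ : ∃ o, o = l + γ * u := ⟨_, rfl⟩
  have hab' : a ≤ b := by rw [ha, hb]; gcongr
  have hbo : b ≤ o := by rw [hb, ho]; gcongr
  rw [← ha, ← hb] at HS ⊢
  rw [← ho] at hT ⊢
  have hMs : 0 < (M : ℝ) ^ s := by positivity
  obtain ⟨h, hh⟩ : ∃ h : ℝ, h = (ε₁ - ε₂) / (M : ℝ) ^ s * q := ⟨_, rfl⟩
  have hh0 : 0 < h := by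
    rw [hh]
    have : 0 < ε₁ - ε₂ := by linarith
    positivity
  have hsplit : ε₁ / (M : ℝ) ^ s * q = ε₂ / (M : ℝ) ^ s * q + h := by
    rw [hh]
    ring
  constructor
  · intro i
    have e1 := HF i
    rw [← ha, ← hb, ← ho] at e1
    have e2 : (θF i a a o - θE a a) - (θF i a a b - θE a a) - (θF i a b o - θE a b) ≤
        ε₂ / (M : ℝ) ^ s * q := by
      have e3 := mul_le_mul_of_nonneg_right e1 hq.le
      simp only [add_mul, div_mul_cancel₀ _ hq.ne'] at e3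
      linarith
    obtain ⟨κ, hκ, e₀, he₀, H1⟩ := NN.rla hpos₃ (hθE a a le_rfl (hab'.trans (hbo.trans hT)))
      (hθF i a a o le_rfl (hab'.trans hbo) hT) (hθF i a a b le_rfl hab' (hbo.trans hT))
      (hθE a b hab' (hbo.trans hT)) (hθF i a b o hab' hbo hT)
      (xE' a (hab'.trans (hbo.trans hT))) (xF' i o hT)
      (Few.sub hs (F2 i a a b o le_rfl hab' hbo hT))
      (Few.sub hs (F1 a a b le_rfl hab' (hbo.trans hT)))
      (Few.sub hs (F2 i a b o o hab' hbo le_rfl hT)) h hh0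
    refine ⟨κ, hκ, e₀, he₀, fun K => Bas.mono 0 (H1 K) ?_⟩
    rintro J - F A H1 V z V' z' hz hz' u u₁ pa hu hu₁ hpa
    have h5 := H1 V z V' z' hz hz' pa u u₁ hpa hu hu₁
    have hJ0 : (0 : ℝ) ≤ J := Nat.cast_nonneg J
    refine h5.trans (add_le_add le_rfl (mul_le_mul_of_nonneg_right ?_ hJ0))
    rw [hsplit]
    linarith
  · have e2 : (θS s a a - θE a a) - (θS s a b - θE a b) ≤ ε₂ / (M : ℝ) ^ s * q := by
      have e3 := mul_le_mul_of_nonneg_right HS hq.le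
      simp only [add_mul, div_mul_cancel₀ _ hq.ne'] at e3
      linarith
    have hbT := hbo.trans hT
    obtain ⟨k1, hk1, e₁, he₁, H1⟩ := NN.cond hpos₃ (hθS s hsn a a le_rfl (hab'.trans hbT))
      (hθE a a le_rfl (hab'.trans hbT)) (h / 2) (half_pos hh0)
    obtain ⟨k2, hk2, e₂, he₂, H2⟩ := NN.cond hpos₃ (hθS s hsn a b hab' hbT)
      (hθE a b hab' hbT) (h / 2) (half_pos hh0)
    refine ⟨min k1 k2, lt_min hk1 hk2, min e₁ e₂, lt_min he₁ he₂, fun K =>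
      Bas.mono 0 ((H1 K).and (H2 K)) ?_⟩
    rintro J - F A ⟨H1, H2⟩ V z V' z' hz hz' u pa hu hpa
    have hJ0 : (0 : ℝ) ≤ J := Nat.cast_nonneg J
    have a1 := (abs_le.1 (H1 V z (hz.le' (min_le_left _ _)) pa u
      ((E a).mono le_rfl (min_le_left _ _) hpa) ((Qs s).mono le_rfl (min_le_left _ _) hu))).2
    have a2 := (abs_le.1 (H2 V' z' (hz'.le' (min_le_right _ _)) pa u
      ((E a).mono le_rfl (min_le_right _ _) hpa) ((Qs s).mono le_rfl (min_le_right _ _) hu))).1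
    have a3 := mul_le_mul_of_nonneg_right e2 hJ0
    rw [hsplit]
    linarith

end Pool.PN18
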