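import Pool.Agent.H30.LPJ.Nja

/-!
# Jets over a chain and one more place: change of the charts

The last place `c d` of the chain is known only to the natural digits. `few_step`: a jet of a
coordinate over the `d + 1` places, from the charts of `w₁` to the charts of `w₂`, both before the
window `B ≤ v`, record at `v`, all jets of the first `d` places known at `v`: few bits if
`N₂ + j v ≤ min p₁ p₂ + (sn d v - sn d B)`. `few_tel`: the same along a finite sequence of windows.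
-/

set_option autoImplicit false

namespace Pool.LPT30

open Finset Real MvPolynomial
open Pool.Agent.H49.Ent Pool.Agent.H32.Dense Pool.STK Pool.KA Pool.KSAT Pool.K2S Pool.PB Pool.S6C
  Pool.GEN Pool.RCD Pool.LA91
open Pool.AVG96 (few_cut)
open Pool.LP30 Pool.LPJ30

variable {m : ℕ} {U U' : Type} {α β γ : ∀ J : ℕ, Fam m J → Type}
  {f : ∀ (J : ℕ) (F : Fam m J), F.Ω → α J F} {g : ∀ (J : ℕ) (F : Fam m J), F.Ω → β J F}
  {y : ∀ (J : ℕ) (F : Fam m J), F.Ω → γ J F} {S : PCl m}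

/-- **The levels of the places** at a window. -/
structure LvR (d : ℕ) (lv : ℕ → ℝ) (σ₀ v : ℝ) : Prop where
  σ0 : 0 < σ₀
  pos : ∀ l < d, 0 < lv l
  room : ∀ l < d, lv l + σ₀ ≤ 1 - v
  dec : ∀ l < d, ∀ l' < l, lv l + σ₀ ≤ lv l'

theorem LvR.of_hi {d : ℕ} {sn : ℕ → ℝ → ℝ} {lv : ℕ → ℝ} {σ₀ v : ℝ} {G : Set ℝ}
    (h : HiW sn d lv σ₀ G v) (hσ : 0 < σ₀) (hlv : ∀ l < d, 0 < lv l) : LvR d lv σ₀ v :=
  ⟨hσ, hlv, h.room, fun _ hl _ hl' => h.dec hσ hl hl'⟩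

/-- Few bits from small costs. -/
theorem few_small {Q : Qt m U} {Q' : Qt m U'} (h : ∀ c : ℝ, 0 < c → FewC S f g y Q Q' c) :
    Few S f g y Q Q' := by
  intro c hc
  obtain ⟨e, he, H⟩ := h (c / 2) (half_pos hc) (c / 2) (half_pos hc)
  refine ⟨e, he, fun K => Bas.mono 0 (H K) ?_⟩
  rintro J - F A H u u' hu hu'
  obtain ⟨V, z, hz, h1⟩ := H u u' hu hu'
  refine ⟨V, z, hz, ?_⟩
  rw [add_halves] at h1
  exact h1

section

variable {c : ℕ → Fin m} {d : ℕ} {sn : ℕ → ℝ → ℝ} {G : Set ℝ} {v B σ₀ : ℝ} {lv : ℕ → ℝ}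

/-- **Change of the charts** for a jet of any order over the first `i` places. -/
theorem few_tgR {C₀ : ℝ} (htm : TmC S C₀) (hW : ChG S c d sn G)
    (hf : ∀ (J : ℕ) (F : Fam m J), ∃ φ : α J F → PtT F, ∀ ω, ptr F J ω = φ (f J F ω))
    (hy : Kn ((range 0).image c) 1 1 y) (av : v ∈ G) {i : ℕ} (hid : i ≤ d)
    (hL : LvR i lv σ₀ v) {j : ℕ} {k : Fin m}
    {w₁ w₂ p₁ p₂ N₁ N₂ : ℝ} (h1 : w₁ ≤ v) (h2 : w₂ ≤ v) (hN : N₂ ≤ N₁)
    (t1 : N₂ + j * v + σ₀ ≤ min p₁ p₂ + (1 - v))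
    (t2 : ∀ l < i, N₂ + j * v + σ₀ ≤ min p₁ p₂ + lv l) :
    Few S f (vg v) y ((vpQ m c sn lv σ₀ v i j).prod
      (qJet m ((range i).image c) k j w₁ p₁ N₁)) (qJet m ((range i).image c) k j w₂ p₂ N₂) := by
  obtain ⟨u₁, rd, hrd, hch⟩ := hW.ch v av
  have e0 : min (1 : ℝ) (1 - v) = 1 - v := min_eq_right (by linarith [hch.w0])
  refine few_jetN (f := f) (y := y) htm (hch.take (Nat.zero_le i) hid) (k := k) (j := j)
    (wv := fun _ _ => v) (pv := fun l _ => sn l v)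
    (Nv := fun l j' => sn l v + lv l + σ₀ - (j' : ℕ) * v) (lv := lv)
    (w₁ := w₁) (w₂ := w₂) (p₁ := p₁) (p₂ := p₂) (N₁ := N₁) (N₂ := N₂) (p₀ := 1) (lam := 1)
    (σ₀ := σ₀) (fun _ _ _ _ _ => le_rfl) h1 h2 hch.u0 le_rfl one_pos hL.σ0
    (fun l _ hl => hL.pos l hl) (fun l _ hl j' hj' => ?_) (fun l _ hl j' hj' => ?_)
    (fun l _ hl j' hj' l' _ hl' => ?_) hN ?_ (fun l _ hl => t2 l hl) hf hy
  · linarith
  · rw [e0, min_self]
    linarith [hL.room l hl]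
  · rw [min_self]
    linarith [hL.dec l hl l' hl']
  · rw [e0]
    exact t1

/-- **All jets over the charts of an earlier window.** -/
theorem few_vpB {C₀ : ℝ} (htm : TmC S C₀)
    (hpos : ∀ (τ : ℝ) (J : ℕ) (F : Fam m J) (A : F.Ω → Prop), S.St τ J F A → 0 < Pe F.p A)
    (hW : ChG S c d sn G)
    (hf : ∀ (J : ℕ) (F : Fam m J), ∃ φ : α J F → PtT F, ∀ ω, ptr F J ω = φ (f J F ω))
    (hy : Kn ((range 0).image c) 1 1 y) (av : v ∈ G) {i : ℕ} (hid : i ≤ d)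
    (hL : LvR i lv σ₀ v) (hBv : B ≤ v) (mn : ∀ l < i, sn l B ≤ sn l v) (σ₁ : ℝ) (j : ℕ) :
    Few S f (vg v) y (vpQ m c sn lv σ₀ v i j)
      (vpQ m c sn (fun l => lv l - j * (v - B) - σ₁) σ₁ B i j) := by
  refine few_qjets hpos fun l _ hl j' hj' => ?_
  have hjj : (j' : ℝ) * (v - B) ≤ j * (v - B) :=
    mul_le_mul_of_nonneg_right (by exact_mod_cast hj') (by linarith)
  have hσ := hL.σ0
  refine Few.pre hpos (fun u : ℕ → ℕ → ℤ =>
    ((fun l' j'' => if 0 ≤ l' ∧ l' < l ∧ j'' ≤ j' then u l' j'' else 0), u l j')) ?_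
    (few_tgR htm hW hf hy av (i := l) (by omega)
      ⟨hσ, fun l' h => hL.pos l' (by omega), fun l' h => hL.room l' (by omega),
        fun l' h l'' h' => hL.dec l' (by omega) l'' h'⟩ (j := j') (k := c l)
      (w₁ := v) (w₂ := B) (p₁ := sn l v) (p₂ := sn l B)
      (N₁ := sn l v + lv l + σ₀ - (j' : ℕ) * v) le_rfl hBv ?_ ?_ (fun l' hl' => ?_))
  · intro K e J F A u hu
    exact ⟨qJets_take hl.le hj' hu, hu.1 l (Nat.zero_le _) hl j' hj'⟩
  · linarith [mn l hl]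
  · rw [min_eq_right (mn l hl)]
    linarith [hL.room l hl]
  · rw [min_eq_right (mn l hl)]
    linarith [hL.dec l hl l' hl']

/-- **The jets of the last place** over the charts of an earlier window, to the natural digits. -/
theorem few_uB {C₀ : ℝ} (htm : TmC S C₀)
    (hpos : ∀ (τ : ℝ) (J : ℕ) (F : Fam m J) (A : F.Ω → Prop), S.St τ J F A → 0 < Pe F.p A)
    (hW : ChG S c (d + 1) sn G)
    (hf : ∀ (J : ℕ) (F : Fam m J), ∃ φ : α J F → PtT F, ∀ ω, ptr F J ω = φ (f J F ω))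
    (hy : Kn ((range 0).image c) 1 1 y) (av : v ∈ G) (aB : B ∈ G) (hL : LvR d lv σ₀ v)
    (hBv : B ≤ v) (mn : sn d B ≤ sn d v) {j : ℕ}
    (r1 : sn d v - sn d B + σ₀ ≤ 1 - v) (r2 : ∀ l < d, sn d v - sn d B + σ₀ ≤ lv l) {j' : ℕ}
    (hj' : j' ≤ j) :
    Few S f (vg v) y (vpQ m c sn lv σ₀ v d j)
      (qJet m ((range d).image c) (c d) j' B (sn d B)
        (sn d B + max 0 (sn d v - sn d B - j * (v - B)) - j' * B)) := by
  have hjj : (j' : ℝ) * (v - B) ≤ j * (v - B) :=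
    mul_le_mul_of_nonneg_right (by exact_mod_cast hj') (by linarith)
  obtain ⟨u₁, rd, hrd, hch⟩ := hW.ch v av
  obtain ⟨u₂, rd₂, hrd₂, hch₂⟩ := hW.ch B aB
  rcases le_total (sn d v - sn d B - j * (v - B)) 0 with h0 | h0
  · rw [max_eq_left h0]
    exact Few0.few hpos (few0_jet htm hch₂.w0 hch₂.u0 (by linarith) _ _ _)
  · rw [max_eq_right h0]
    refine few0_cut hpos (exs_jet (N := sn d v - j' * v) (j := j') (hrd d (by omega))
      (hch.att d (Nat.zero_le d) (by omega)))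
      (few0_jet htm hch.w0 hch.u0 (by linarith) _ _ _) ?_
    refine Few.pre hpos (fun u : (ℕ → ℕ → ℤ) × ℤ =>
      ((fun l' j'' => if 0 ≤ l' ∧ l' < d ∧ j'' ≤ j' then u.1 l' j'' else 0), u.2)) ?_
      (few_tgR htm hW hf hy av (i := d) (by omega) hL (j := j') (k := c d)
        (w₁ := v) (w₂ := B) (p₁ := sn d v) (p₂ := sn d B) (N₁ := sn d v - j' * v) le_rfl hBv
        ?_ ?_ (fun l' hl' => ?_))
    · intro K e J F A u hu
      exact ⟨qJets_take le_rfl hj' hu.1, hu.2⟩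
    · linarith
    · rw [min_eq_right mn]
      linarith
    · rw [min_eq_right mn]
      linarith [r2 l' hl']

/-- **Change of the charts** for a jet over the chain and the last place, exact. -/
theorem few_step {C₀ : ℝ} (htm : TmC S C₀)
    (hpos : ∀ (τ : ℝ) (J : ℕ) (F : Fam m J) (A : F.Ω → Prop), S.St τ J F A → 0 < Pe F.p A)
    (hW : ChG S c (d + 1) sn G)
    (hf : ∀ (J : ℕ) (F : Fam m J), ∃ φ : α J F → PtT F, ∀ ω, ptr F J ω = φ (f J F ω))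
    (hy : Kn ((range 0).image c) 1 1 y) (av : v ∈ G) (aB : B ∈ G) (hL : LvR d lv σ₀ v)
    (hBv : B ≤ v) (mn : ∀ l ≤ d, sn l B ≤ sn l v) {j : ℕ}
    (r1 : sn d v - sn d B + 2 * σ₀ ≤ 1 - v) (r2 : ∀ l < d, sn d v - sn d B + 2 * σ₀ ≤ lv l)
    (r3 : j * (v - B) + 2 * σ₀ ≤ 1 - v) (r4 : ∀ l < d, j * (v - B) + 2 * σ₀ ≤ lv l)
    {Q : Qt m U} (hQ : Few S f (vg v) y Q (vpQ m c sn lv σ₀ v d j)) {k : Fin m}
    {w₁ w₂ p₁ p₂ N₁ N₂ : ℝ} (h1 : w₁ ≤ B) (h2 : w₂ ≤ B) (hN : N₂ ≤ N₁)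
    (hC : N₂ + j * v ≤ min p₁ p₂ + (sn d v - sn d B)) :
    Few S f (vg v) y (Q.prod (qJet m ((range (d + 1)).image c) k j w₁ p₁ N₁))
      (qJet m ((range (d + 1)).image c) k j w₂ p₂ N₂) := by
  have hσ := hL.σ0
  have hl2 : 0 < Real.log 2 := Real.log_pos one_lt_two
  obtain ⟨u₁, rd, hrd, hch⟩ := hW.ch v av
  obtain ⟨u₂, rd₂, hrd₂, hch₂⟩ := hW.ch B aB
  have hv1 := hch.u0
  refine few_small fun ε hε => ?_
  obtain ⟨σ₁, hσ₁, hσ₁0, hσε⟩ : ∃ σ₁ : ℝ, 0 < σ₁ ∧ 3 * σ₁ ≤ σ₀ ∧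
      ((j + 1 : ℕ) : ℝ) * (Real.log 2 * (2 * σ₁)) ≤ ε := by
    refine ⟨min (σ₀ / 3) (ε / (((j + 1 : ℕ) : ℝ) * (Real.log 2 * 2))), by positivity, ?_, ?_⟩
    · linarith [min_le_left (σ₀ / 3) (ε / (((j + 1 : ℕ) : ℝ) * (Real.log 2 * 2)))]
    · have e1 := min_le_right (σ₀ / 3) (ε / (((j + 1 : ℕ) : ℝ) * (Real.log 2 * 2)))
      rw [le_div_iff₀ (by positivity)] at e1
      linarith
  obtain ⟨M, hM⟩ : ∃ M : ℝ, M = max 0 (sn d v - sn d B - j * (v - B)) := ⟨_, rfl⟩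
  have hM0 : 0 ≤ M := by rw [hM]; exact le_max_left _ _
  have hMr : ∀ x : ℝ, sn d v - sn d B + 2 * σ₀ ≤ x → j * (v - B) + 2 * σ₀ ≤ x →
      M + j * (v - B) + 2 * σ₀ ≤ x := by
    intro x hx hx'
    rw [hM]
    rcases max_choice 0 (sn d v - sn d B - j * (v - B)) with h | h <;> rw [h] <;> linarith
  have hMC : sn d v - sn d B - j * (v - B) ≤ M := by rw [hM]; exact le_max_right _ _
  have hjv : 0 ≤ (j : ℝ) * (v - B) := mul_nonneg (Nat.cast_nonneg _) (by linarith)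
  -- the jets of the last place
  have hu : ∀ j' : Fin (j + 1), FewC S f (vg v) y Q (qJet m ((range d).image c) (c d) j' B
      (sn d B) (sn d B + M - (j' : ℕ) * B + 2 * σ₁)) (Real.log 2 * (2 * σ₁)) := by
    intro j'
    have h3 := few_uB (j := j) htm hpos hW hf hy av aB hL hBv (mn d le_rfl) (by linarith)
      (fun l hl => by linarith [r2 l hl]) (j' := j') (by have := j'.2; omega)
    rw [← hM] at h3
    have h4 := few_more hpos (N := sn d B + M - (j' : ℕ) * B)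
      (N' := sn d B + M - (j' : ℕ) * B + 2 * σ₁) (by linarith)
      (few_cut hpos (exs_vp hW av (Nat.le_succ d) j) hQ (few_sndQ hpos h3))
    refine h4.mono (le_of_eq ?_)
    ring
  have hU := fewC_pi hpos hu
  have hUc : ∑ _j' : Fin (j + 1), Real.log 2 * (2 * σ₁) ≤ ε := by
    rw [Finset.sum_const, Finset.card_univ, Fintype.card_fin, nsmul_eq_mul]
    exact hσε
  have xU : Exs S (Qt.pi fun j' : Fin (j + 1) => qJet m ((range d).image c) (c d) j' B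
      (sn d B) (sn d B + M - (j' : ℕ) * B + 2 * σ₁)) :=
    exs_pi fun j' => exs_jet (hrd₂ d (by omega)) (hch₂.att d (Nat.zero_le d) (by omega))
  -- the levels at `B`
  obtain ⟨lB, hlB⟩ : ∃ lB : ℕ → ℝ, lB = fun l => if l = d then M + σ₁ else
      lv l - j * (v - B) - σ₁ := ⟨_, rfl⟩
  have lBd : lB d = M + σ₁ := by rw [hlB]; simp
  have lBl : ∀ l < d, lB l = lv l - j * (v - B) - σ₁ := fun l hl => by
    rw [hlB]
    simp [hl.ne]
  have hMl : ∀ l < d, M + j * (v - B) + 2 * σ₀ ≤ lv l := fun l hl => hMr _ (r2 l hl) (r4 l hl)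
  have hM1 := hMr _ r1 r3
  have hLB : LvR (d + 1) lB σ₁ B := by
    refine ⟨hσ₁, fun l hl => ?_, fun l hl => ?_, fun l hl l' hl' => ?_⟩
    · rcases Nat.lt_succ_iff_lt_or_eq.1 hl with h | rfl
      · rw [lBl l h]
        linarith [hMl l h]
      · rw [lBd]
        linarith
    · rcases Nat.lt_succ_iff_lt_or_eq.1 hl with h | rfl
      · rw [lBl l h]
        linarith [hL.room l h]
      · rw [lBd]
        linarith
    · rcases Nat.lt_succ_iff_lt_or_eq.1 hl with h | rfl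
      · rw [lBl l h, lBl l' (by omega)]
        linarith [hL.dec l h l' hl']
      · rw [lBd, lBl l' hl']
        linarith [hMl l' hl']
  have hLd : LvR d lB σ₁ B := ⟨hσ₁, fun l hl => hLB.pos l (by omega),
    fun l hl => hLB.room l (by omega), fun l hl l' hl' => hLB.dec l (by omega) l' hl'⟩
  have up : ∀ {V V' : Type} {Q₁ : Qt m V} {Q₂ : Qt m V'}, Few S f (vg B) y Q₁ Q₂ →
      Few S f (vg v) y Q₁ Q₂ := fun h3 =>
    Few.up hpos (fun J F => ⟨fun x => x, fun _ => rfl⟩) (fun J F => vg_mono hBv hv1.le J F)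
      (fun J F => ⟨fun x => x, fun _ => rfl⟩) h3
  have hV0 : Few S f (vg v) y Q (vpQ m c sn lB σ₁ B d j) := by
    refine few_cut hpos (exs_vp hW av (Nat.le_succ d) j) hQ (few_sndQ hpos ?_)
    have h3 := few_vpB htm hpos hW hf hy av (Nat.le_succ d) hL hBv (fun l hl => mn l hl.le) σ₁ j
    intro h hh
    obtain ⟨e, he, H⟩ := h3 h hh
    refine ⟨e, he, fun K => Bas.mono 0 (H K) ?_⟩
    rintro J - F A H u u' hu hu'
    refine H u u' hu ⟨fun l l0 hl j' hj' => ?_, hu'.2⟩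
    have h5 := hu'.1 l l0 hl j' hj'
    simp only [lBl l hl] at h5
    exact h5
  have hV : Few S f (vg v) y (Q.prod (Qt.pi fun j' : Fin (j + 1) =>
      qJet m ((range d).image c) (c d) j' B (sn d B) (sn d B + M - (j' : ℕ) * B + 2 * σ₁)))
      (vpQ m c sn lB σ₁ B (d + 1) j) := by
    refine few_qjets hpos fun l _ hl j' hj' => ?_
    rcases Nat.lt_succ_iff_lt_or_eq.1 hl with h | rfl
    · refine few_fstQ hpos (few_cut hpos (exs_vp hW aB (Nat.le_succ d) j) hV0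
        (few_sndQ hpos (up ?_)))
      refine Few.pre hpos (fun u : ℕ → ℕ → ℤ =>
        ((fun l' j'' => if 0 ≤ l' ∧ l' < l ∧ j'' ≤ j' then u l' j'' else 0), u l j')) ?_
        (few_tgR htm hW hf hy aB (i := l) (by omega)
          ⟨hσ₁, fun l' h => hLB.pos l' (by omega), fun l' h => hLB.room l' (by omega),
            fun l' h l'' h' => hLB.dec l' (by omega) l'' h'⟩ (j := j') (k := c l)
          (w₁ := B) (w₂ := B) (p₁ := sn l B) (p₂ := sn l B)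
          (N₁ := sn l B + lB l + σ₁ - (j' : ℕ) * B) le_rfl le_rfl le_rfl ?_
          (fun l' hl' => ?_))
      · intro K e J F A u hu
        exact ⟨qJets_take h.le hj' hu, hu.1 l (Nat.zero_le _) h j' hj'⟩
      · rw [min_self, lBl l h]
        linarith [hL.room l h]
      · rw [min_self, lBl l h, lBl l' (by omega)]
        linarith [hL.dec l h l' hl']
    · refine few_cut hpos (exs_vp hW aB (Nat.le_succ l) j) (few_fstQ hpos hV0) (up ?_)
      refine Few.pre hpos (fun u : (U × (Fin (j + 1) → ℤ)) × (ℕ → ℕ → ℤ) =>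
        ((fun l' j'' => if 0 ≤ l' ∧ l' < l ∧ j'' ≤ j' then u.2 l' j'' else 0),
          u.1.2 ⟨j', by omega⟩)) ?_
        (few_tgR htm hW hf hy aB (i := l) (by omega) hLd (j := j') (k := c l)
          (w₁ := B) (w₂ := B) (p₁ := sn l B) (p₂ := sn l B)
          (N₁ := sn l B + M - (j' : ℕ) * B + 2 * σ₁) le_rfl le_rfl ?_ ?_
          (fun l' hl' => ?_))
      · intro K e J F A u hu
        exact ⟨qJets_take le_rfl hj' hu.2, hu.1.2 ⟨j', by omega⟩⟩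
      · rw [lBd]
        linarith
      · rw [min_self, lBd]
        linarith
      · rw [min_self, lBd, lBl l' hl']
        linarith [hMl l' hl']
  -- the target
  have key : Few S f (vg v) y ((Q.prod (qJet m ((range (d + 1)).image c) k j w₁ p₁ N₁)).prod
      (Qt.pi fun j' : Fin (j + 1) =>
      qJet m ((range d).image c) (c d) j' B (sn d B) (sn d B + M - (j' : ℕ) * B + 2 * σ₁)))
      (qJet m ((range (d + 1)).image c) k j w₂ p₂ N₂) := by
    have h5 : Few S f (vg v) y ((Q.prod (qJet m ((range (d + 1)).image c) k j w₁ p₁ N₁)).prod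
        (Qt.pi fun j' : Fin (j + 1) =>
        qJet m ((range d).image c) (c d) j' B (sn d B) (sn d B + M - (j' : ℕ) * B + 2 * σ₁)))
        (vpQ m c sn lB σ₁ B (d + 1) j) :=
      Few.pre hpos (fun u : (U × ℤ) × (Fin (j + 1) → ℤ) => (u.1.1, u.2))
        (fun K e J F A u hu => by exact ⟨hu.1.1, hu.2⟩) hV
    refine few_cut hpos (exs_vp hW aB le_rfl j) h5 (up ?_)
    refine Few.pre hpos (fun u : ((U × ℤ) × (Fin (j + 1) → ℤ)) × (ℕ → ℕ → ℤ) =>
      (u.2, u.1.1.2)) (fun K e J F A u hu => by exact ⟨hu.2, hu.1.1.2⟩)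
      (few_tgR htm hW hf hy aB le_rfl hLB h1 h2 hN ?_ (fun l hl => ?_))
    · linarith
    · rcases Nat.lt_succ_iff_lt_or_eq.1 hl with h | rfl
      · rw [lBl l h]
        linarith [hMl l h]
      · rw [lBd]
        linarith
  exact (FewC.cut hpos xU (hU.mono hUc |> fun h3 => FewC.pre hpos (fun u : U × ℤ => u.1)
    (fun K e J F A u hu => by exact hu.1) h3) key.fewC).mono (by linarith)

/-! ### Along a finite sequence of windows -/

/-- **The class data of a target over the chain and the last place.** -/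
structure TwT (S : PCl m) (c : ℕ → Fin m) (d : ℕ) (sn : ℕ → ℝ → ℝ) (G : Set ℝ) (k : Fin m)
    (T : ℝ → ℝ) : Prop where
  ex : ∀ w ∈ G, ∀ (j : ℕ) (N : ℝ), Exs S (qJet m ((range (d + 1)).image c) k j w (T w) N)
  mono : ∀ w ∈ G, ∀ v ∈ G, w ≤ v → T w ≤ T v

theorem TwT.exs {k : Fin m} {T : ℝ → ℝ} (h : TwT S c d sn G k T) {w : ℝ} (hw : w ∈ G) (j : ℕ)
    (N : ℝ) : Exs S (qJet m ((range (d + 1)).image c) k j w (T w) N) := h.ex w hw j N

theorem TwT.of_att {k : Fin m} {T : ℝ → ℝ}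
    (h : ∀ w ∈ G, ∃ rk : ℝ, 0 ≤ rk ∧ Att S ((range (d + 1)).image c) k w (T w) rk)
    (mono : ∀ w ∈ G, ∀ v ∈ G, w ≤ v → T w ≤ T v) : TwT S c d sn G k T where
  ex := fun w hw _ _ => by
    obtain ⟨rk, h1, h2⟩ := h w hw
    exact exs_jet h1 h2
  mono := mono

/-- **A finite sequence of windows** from `Bs 0` to `Bs M`, steps small enough. -/
structure TelC (sn : ℕ → ℝ → ℝ) (d : ℕ) (T : ℝ → ℝ) (G : Set ℝ) (Bs : ℕ → ℝ) (M j : ℕ)
    (N v : ℝ) : Prop where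
  mem : ∀ i ≤ M, Bs i ∈ G
  mono : ∀ i < M, Bs i ≤ Bs (i + 1)
  le : Bs M ≤ v
  c0 : N + j * v ≤ T (Bs 0) + (sn d v - sn d (Bs 0))
  c1 : ∀ i < M, N + j * v ≤ T (Bs i) + (sn d v - sn d (Bs (i + 1)))

theorem TelC.le0 {T : ℝ → ℝ} {Bs : ℕ → ℝ} {M j : ℕ} {N : ℝ} (h : TelC sn d T G Bs M j N v) :
    ∀ i ≤ M, Bs 0 ≤ Bs i := by
  intro i
  induction i with
  | zero => exact fun _ => le_rfl
  | succ i ih => exact fun hi => (ih (by omega)).trans (h.mono i (by omega))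

theorem TelC.take {T : ℝ → ℝ} {Bs : ℕ → ℝ} {M j : ℕ} {N : ℝ}
    (h : TelC sn d T G Bs (M + 1) j N v) : TelC sn d T G Bs M j N v :=
  ⟨fun i hi => h.mem i (by omega), fun i hi => h.mono i (by omega),
    (h.mono M (by omega)).trans h.le, h.c0, fun i hi => h.c1 i (by omega)⟩

/-- **The room** for the windows between `B` and `v`. -/
structure TelR (sn : ℕ → ℝ → ℝ) (d : ℕ) (lv : ℕ → ℝ) (σ₀ : ℝ) (j : ℕ) (B v : ℝ) : Prop where
  r1 : sn d v - sn d B + 2 * σ₀ ≤ 1 - v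
  r2 : ∀ l < d, sn d v - sn d B + 2 * σ₀ ≤ lv l
  r3 : j * (v - B) + 2 * σ₀ ≤ 1 - v
  r4 : ∀ l < d, j * (v - B) + 2 * σ₀ ≤ lv l

theorem TelR.up {j : ℕ} {B' : ℝ} (h : TelR sn d lv σ₀ j B v) (h1 : B ≤ B')
    (h2 : sn d B ≤ sn d B') : TelR sn d lv σ₀ j B' v := by
  have h3 : (j : ℝ) * (v - B') ≤ j * (v - B) :=
    mul_le_mul_of_nonneg_left (by linarith) (Nat.cast_nonneg _)
  exact ⟨by linarith [h.r1], fun l hl => by linarith [h.r2 l hl], by linarith [h.r3],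
    fun l hl => by linarith [h.r4 l hl]⟩

/-- **One step**, the class data of the target. -/
theorem few_stepT {C₀ : ℝ} (htm : TmC S C₀)
    (hpos : ∀ (τ : ℝ) (J : ℕ) (F : Fam m J) (A : F.Ω → Prop), S.St τ J F A → 0 < Pe F.p A)
    (hW : ChG S c (d + 1) sn G)
    (hf : ∀ (J : ℕ) (F : Fam m J), ∃ φ : α J F → PtT F, ∀ ω, ptr F J ω = φ (f J F ω))
    (hy : Kn ((range 0).image c) 1 1 y)
    (hmn : ∀ l ≤ d, ∀ w ∈ G, ∀ v ∈ G, w ≤ v → sn l w ≤ sn l v) (av : v ∈ G)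
    (hL : LvR d lv σ₀ v) {j : ℕ} {Q : Qt m U}
    (hQ : Few S f (vg v) y Q (vpQ m c sn lv σ₀ v d j)) {B₀ : ℝ} (aB₀ : B₀ ∈ G) (hB₀ : B₀ ≤ B)
    (aB : B ∈ G) (hBv : B ≤ v) (hR : TelR sn d lv σ₀ j B₀ v) {k : Fin m} {w₁ w₂ p₁ p₂ N₁ N₂ : ℝ}
    (h1 : w₁ ≤ B) (h2 : w₂ ≤ B) (hN : N₂ ≤ N₁)
    (hC : N₂ + j * v ≤ min p₁ p₂ + (sn d v - sn d B)) :
    Few S f (vg v) y (Q.prod (qJet m ((range (d + 1)).image c) k j w₁ p₁ N₁))
      (qJet m ((range (d + 1)).image c) k j w₂ p₂ N₂) := by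
  have hR' := hR.up hB₀ (hmn d le_rfl _ aB₀ _ aB hB₀)
  exact few_step htm hpos hW hf hy av aB hL hBv (fun l hl => hmn l hl _ aB _ av hBv) hR'.r1 hR'.r2
    hR'.r3 hR'.r4 hQ h1 h2 hN hC

/-- **Along the sequence**, upwards. -/
theorem few_telU {C₀ : ℝ} (htm : TmC S C₀)
    (hpos : ∀ (τ : ℝ) (J : ℕ) (F : Fam m J) (A : F.Ω → Prop), S.St τ J F A → 0 < Pe F.p A)
    (hW : ChG S c (d + 1) sn G)
    (hf : ∀ (J : ℕ) (F : Fam m J), ∃ φ : α J F → PtT F, ∀ ω, ptr F J ω = φ (f J F ω))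
    (hy : Kn ((range 0).image c) 1 1 y)
    (hmn : ∀ l ≤ d, ∀ w ∈ G, ∀ v ∈ G, w ≤ v → sn l w ≤ sn l v) (av : v ∈ G)
    (hL : LvR d lv σ₀ v) {j : ℕ} {Q : Qt m U}
    (hQ : Few S f (vg v) y Q (vpQ m c sn lv σ₀ v d j)) {k : Fin m} {T : ℝ → ℝ}
    (hT : TwT S c d sn G k T) {Bs : ℕ → ℝ} {M : ℕ} {N₁ N₂ : ℝ} (hN : N₂ ≤ N₁)
    (hB : TelC sn d T G Bs M j N₂ v) (hR : TelR sn d lv σ₀ j (Bs 0) v) :
    Few S f (vg v) y (Q.prod (qJet m ((range (d + 1)).image c) k j (Bs 0) (T (Bs 0)) N₁))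
      (qJet m ((range (d + 1)).image c) k j (Bs M) (T (Bs M)) N₂) := by
  induction M with
  | zero =>
    refine few_stepT htm hpos hW hf hy hmn av hL hQ (hB.mem 0 le_rfl) le_rfl (hB.mem 0 le_rfl)
      hB.le hR le_rfl le_rfl hN ?_
    rw [min_self]
    exact hB.c0
  | succ M ih =>
    refine few_cut hpos (hT.exs (hB.mem M (by omega)) j N₂) (ih hB.take) ?_
    refine Few.pre hpos (fun u : (U × ℤ) × ℤ => (u.1.1, u.2)) ?_
      (few_stepT htm hpos hW hf hy hmn av hL hQ (hB.mem 0 (by omega))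
        (hB.le0 (M + 1) le_rfl) (hB.mem (M + 1) le_rfl) hB.le hR (w₁ := Bs M)
        (w₂ := Bs (M + 1)) (p₁ := T (Bs M)) (p₂ := T (Bs (M + 1))) (N₁ := N₂) (N₂ := N₂)
        (hB.mono M (by omega)) le_rfl le_rfl ?_)
    · exact fun K e J F A u hu => ⟨hu.1.1, hu.2⟩
    · rw [min_eq_left (hT.mono _ (hB.mem M (by omega)) _ (hB.mem (M + 1) le_rfl)
        (hB.mono M (by omega)))]
      exact hB.c1 M (by omega)

/-- **Along the sequence**, downwards. -/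
theorem few_telD {C₀ : ℝ} (htm : TmC S C₀)
    (hpos : ∀ (τ : ℝ) (J : ℕ) (F : Fam m J) (A : F.Ω → Prop), S.St τ J F A → 0 < Pe F.p A)
    (hW : ChG S c (d + 1) sn G)
    (hf : ∀ (J : ℕ) (F : Fam m J), ∃ φ : α J F → PtT F, ∀ ω, ptr F J ω = φ (f J F ω))
    (hy : Kn ((range 0).image c) 1 1 y)
    (hmn : ∀ l ≤ d, ∀ w ∈ G, ∀ v ∈ G, w ≤ v → sn l w ≤ sn l v) (av : v ∈ G)
    (hL : LvR d lv σ₀ v) {j : ℕ} {Q : Qt m U}
    (hQ : Few S f (vg v) y Q (vpQ m c sn lv σ₀ v d j)) {k : Fin m} {T : ℝ → ℝ}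
    (hT : TwT S c d sn G k T) {Bs : ℕ → ℝ} {M : ℕ} {N₁ N₂ : ℝ} (hN : N₂ ≤ N₁)
    (hB : TelC sn d T G Bs M j N₂ v) (hR : TelR sn d lv σ₀ j (Bs 0) v) :
    Few S f (vg v) y (Q.prod (qJet m ((range (d + 1)).image c) k j (Bs M) (T (Bs M)) N₁))
      (qJet m ((range (d + 1)).image c) k j (Bs 0) (T (Bs 0)) N₂) := by
  induction M generalizing N₁ with
  | zero =>
    refine few_stepT htm hpos hW hf hy hmn av hL hQ (hB.mem 0 le_rfl) le_rfl (hB.mem 0 le_rfl)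
      hB.le hR le_rfl le_rfl hN ?_
    rw [min_self]
    exact hB.c0
  | succ M ih =>
    refine few_cut hpos (hT.exs (hB.mem M (by omega)) j N₂)
      (few_stepT htm hpos hW hf hy hmn av hL hQ (hB.mem 0 (by omega))
        (hB.le0 (M + 1) le_rfl) (hB.mem (M + 1) le_rfl) hB.le hR (w₁ := Bs (M + 1))
        (w₂ := Bs M) (p₁ := T (Bs (M + 1))) (p₂ := T (Bs M)) (N₁ := N₁) (N₂ := N₂) le_rfl
        (hB.mono M (by omega)) hN ?_) ?_
    · rw [min_eq_right (hT.mono _ (hB.mem M (by omega)) _ (hB.mem (M + 1) le_rfl)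
        (hB.mono M (by omega)))]
      exact hB.c1 M (by omega)
    · refine Few.pre hpos (fun u : (U × ℤ) × ℤ => (u.1.1, u.2)) ?_
        (ih (N₁ := N₂) le_rfl hB.take)
      exact fun K e J F A u hu => ⟨hu.1.1, hu.2⟩

/-- **The natural digits** over the charts of `Bs 0`, a sequence up to the window `v`. -/
theorem few_ownT {C₀ : ℝ} (htm : TmC S C₀)
    (hpos : ∀ (τ : ℝ) (J : ℕ) (F : Fam m J) (A : F.Ω → Prop), S.St τ J F A → 0 < Pe F.p A)
    (hW : ChG S c (d + 1) sn G)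
    (hf : ∀ (J : ℕ) (F : Fam m J), ∃ φ : α J F → PtT F, ∀ ω, ptr F J ω = φ (f J F ω))
    (hy : Kn ((range 0).image c) 1 1 y)
    (hmn : ∀ l ≤ d, ∀ w ∈ G, ∀ v ∈ G, w ≤ v → sn l w ≤ sn l v) (av : v ∈ G)
    (hL : LvR d lv σ₀ v) {j : ℕ} {Q : Qt m U}
    (hQ : Few S f (vg v) y Q (vpQ m c sn lv σ₀ v d j)) {k : Fin m} {T : ℝ → ℝ}
    (hT : TwT S c d sn G k T) {B₀ P : ℝ} (hR : TelR sn d lv σ₀ j B₀ v) (hP : P + j * v ≤ T v)
    (hB : ∀ N : ℝ, N < P → ∃ (Bs : ℕ → ℝ) (M : ℕ), Bs 0 = B₀ ∧ Bs M = v ∧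
      TelC sn d T G Bs M j N v) :
    Few S f (vg v) y Q (qJet m ((range (d + 1)).image c) k j B₀ (T B₀) P) := by
  have hl2 : 0 < Real.log 2 := Real.log_pos one_lt_two
  obtain ⟨u₁, rd, hrd, hch⟩ := hW.ch v av
  refine few_small fun ε hε => ?_
  obtain ⟨Bs, M, rfl, hM, hB⟩ := hB (P - ε / Real.log 2) (by
    have : 0 < ε / Real.log 2 := by positivity
    linarith)
  have h0 : 0 < ε / Real.log 2 := by positivity
  have h1 : Few S f (vg v) y Q (qJet m ((range (d + 1)).image c) k j (Bs 0) (T (Bs 0))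
      (P - ε / Real.log 2)) := by
    refine few0_cut hpos (hT.exs (hB.mem M le_rfl) j (P - ε / Real.log 2))
      (few0_jet htm ?_ ?_ ?_ _ _ _)
      (few_telD htm hpos hW hf hy hmn av hL hQ hT le_rfl hB hR)
    · rw [hM]; exact hch.w0
    · rw [hM]; exact hch.u0
    · rw [hM]; linarith
  refine (few_more hpos (by linarith) h1).mono (le_of_eq ?_)
  field_simp
  ring

end

end Pool.LPT30
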