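import Pool.Agent.H30.LPT.Twa

/-!
# Jets over the chain and one more place: indices

The charts of the index `w` are those of the window `wh (w - lp)`. `TwI`: the class data. `TwD`: the
steps. `JtT`: the digits of the jets of the first kind. `rel_T`: the jets of the first kind are a
relative family over the condition `cdT`. `T_anti`, `T_le`: the number of the condition.
-/

set_option autoImplicit false

namespace Pool.LPT30

open Finset Real MvPolynomial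
open Pool.Agent.H49.Ent Pool.Agent.H32.Dense Pool.STK Pool.KA Pool.KSAT Pool.K2S Pool.PB Pool.S6C
  Pool.GEN Pool.RCD Pool.LA91
open Pool.OWN83 (TwoRelS TRelS)
open Pool.AVG96 (few_cut)
open Pool.LP30 Pool.LPJ30

variable {m : ℕ} {U U' : Type} {α β γ : ∀ J : ℕ, Fam m J → Type}
  {f : ∀ (J : ℕ) (F : Fam m J), F.Ω → α J F} {g : ∀ (J : ℕ) (F : Fam m J), F.Ω → β J F}
  {y : ∀ (J : ℕ) (F : Fam m J), F.Ω → γ J F} {S : PCl m}

/-- **Jets of coordinates over the chain and the last place**: charts of the window `B`, digits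
`D i`. -/
noncomputable def twQ (m : ℕ) (c : ℕ → Fin m) (d : ℕ) {n : ℕ} (k : Fin n → Fin m)
    (od : Fin n → ℕ) (T : Fin n → ℝ → ℝ) (D : Fin n → ℝ) (B : ℝ) : Qt m (Fin n → ℤ) :=
  Qt.pi fun i : Fin n => qJet m ((range (d + 1)).image c) (k i) (od i) B (T i B) (D i)

/-- **The class data.** -/
structure TwI (S : PCl m) (c : ℕ → Fin m) (d : ℕ) (sn : ℕ → ℝ → ℝ) (G : Set ℝ) {nT nU : ℕ}
    (kT : Fin nT → Fin m) (TT : Fin nT → ℝ → ℝ) (kU : Fin nU → Fin m) (TU : Fin nU → ℝ → ℝ) :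
    Prop where
  ch : ChG S c (d + 1) sn G
  mn : ∀ l ≤ d, ∀ w ∈ G, ∀ v ∈ G, w ≤ v → sn l w ≤ sn l v
  tT : ∀ i, TwT S c d sn G (kT i) (TT i)
  tU : ∀ i, TwT S c d sn G (kU i) (TU i)

/-- **The steps**, charts of `wh (w - lp)`, digits `DU` of the jets of the second kind. -/
structure TwD (wh : ℚ → ℝ) (sn : ℕ → ℝ → ℝ) (d : ℕ) (lv : ℕ → ℝ) (σ₀ : ℝ) (lp : ℚ)
    (a b lam : ℝ) {nT nU : ℕ} (oT : Fin nT → ℕ) (TT : Fin nT → ℝ → ℝ) (oU : Fin nU → ℕ)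
    (TU : Fin nU → ℝ → ℝ) (DU : Fin nU → ℝ) : Prop where
  lp0 : 0 ≤ lp
  RT : ∀ w v : ℚ, a < w → w ≤ v → (v : ℝ) < b → (v : ℝ) < w + lam → ∀ i,
    TelR sn d lv σ₀ (oT i) (wh (w - lp)) (wh v)
  RU : ∀ w v : ℚ, a < w → w ≤ v → (v : ℝ) < b → (v : ℝ) < w + lam → ∀ i,
    TelR sn d lv σ₀ (oU i) (wh (w - lp)) (wh v)
  cT : ∀ w v o : ℚ, a < w → w ≤ v → v ≤ o → (o : ℝ) < b → (o : ℝ) < w + lam → ∀ i,
    TT i (wh o) ≤ TT i (wh (w - lp)) + (sn d (wh v) - sn d (wh (v - lp)))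
  cU : ∀ w v : ℚ, a < w → w ≤ v → (v : ℝ) < b → (v : ℝ) < w + lam → ∀ i,
    DU i + oU i * wh v ≤ TU i (wh (w - lp)) + (sn d (wh v) - sn d (wh (v - lp)))

/-- **The digits of the jets of the first kind.** -/
structure JtT (sn : ℕ → ℝ → ℝ) (d : ℕ) (G : Set ℝ) (wh : ℚ → ℝ) (lp : ℚ) (a b lam : ℝ) {n : ℕ}
    (od : Fin n → ℕ) (T : Fin n → ℝ → ℝ) (P : Fin n → ℚ → ℝ) : Prop where
  mono : ∀ i, ∀ w v : ℚ, a < w → w ≤ v → (v : ℝ) < b → P i w ≤ P i v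
  le : ∀ i, ∀ w : ℚ, a < w → (w : ℝ) < b → P i w + od i * wh w ≤ T i (wh w)
  own : ∀ i, ∀ w v : ℚ, a < w → w ≤ v → (v : ℝ) < b → (v : ℝ) < w + lam → ∀ N : ℝ, N < P i v →
    ∃ (Bs : ℕ → ℝ) (M : ℕ), Bs 0 = wh (w - lp) ∧ Bs M = wh v ∧
      TelC sn d (T i) G Bs M (od i) N (wh v)

/-- **Own digits of the jets of the second kind.** -/
structure BdT (sn : ℕ → ℝ → ℝ) (d : ℕ) (G : Set ℝ) (wh : ℚ → ℝ) (lp : ℚ) (a b : ℝ) {n : ℕ}
    (od : Fin n → ℕ) (T : Fin n → ℝ → ℝ) (D P : Fin n → ℝ) : Prop where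
  PD : ∀ i, P i ≤ D i
  le : ∀ i, ∀ w : ℚ, a < w → (w : ℝ) < b → P i + od i * wh w ≤ T i (wh w)
  own : ∀ i, ∀ w : ℚ, a < w → (w : ℝ) < b → ∀ N : ℝ, N < P i →
    ∃ (Bs : ℕ → ℝ) (M : ℕ), Bs 0 = wh (w - lp) ∧ Bs M = wh w ∧
      TelC sn d (T i) G Bs M (od i) N (wh w)

section

variable {c : ℕ → Fin m} {d : ℕ} {s a₀ a b lam : ℝ} {wh : ℚ → ℝ} {sn : ℕ → ℝ → ℝ} {G : Set ℝ}
  {N lv : ℕ → ℝ} {σ₀ : ℝ} {lp : ℚ} {nT nU : ℕ} {kT : Fin nT → Fin m} {oT : Fin nT → ℕ}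
  {TT : Fin nT → ℝ → ℝ} {kU : Fin nU → Fin m} {oU : Fin nU → ℕ} {TU : Fin nU → ℝ → ℝ}
  {DU : Fin nU → ℝ}

theorem TwI.sub {S' : PCl m} (hs : ∀ (τ : ℝ) (J : ℕ) (F : Fam m J) (A : F.Ω → Prop),
    S'.St τ J F A → S.St τ J F A) (h : TwI S c d sn G kT TT kU TU) :
    TwI S' c d sn G kT TT kU TU where
  ch := h.ch.sub hs
  mn := h.mn
  tT i := ⟨fun w hw j N => ((h.tT i).ex w hw j N).sub hs, (h.tT i).mono⟩
  tU i := ⟨fun w hw j N => ((h.tU i).ex w hw j N).sub hs, (h.tU i).mono⟩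

/-- The window of the charts. -/
theorem wlp (h : VCh S f y c d s a₀ b wh sn G) (lp0 : 0 ≤ lp) (ha : a₀ < a - lp) {w v : ℚ}
    (hw : a < w) (hwv : w ≤ v) (hv : (v : ℝ) < b) : wh (w - lp) ∈ G ∧
      wh (w - lp) ≤ wh (v - lp) ∧ wh (v - lp) ≤ wh v := by
  have h2 : (w : ℝ) ≤ v := by exact_mod_cast hwv
  have h3 : (0 : ℝ) ≤ lp := by exact_mod_cast lp0
  have h4 : a₀ < ((w - lp : ℚ) : ℝ) := by push_cast; linarith
  refine ⟨(h.wg (w - lp) h4 (by push_cast; linarith)).1, h.wm _ _ h4 (by linarith)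
    (by push_cast; linarith), h.wm _ _ (by push_cast; linarith) (by linarith) hv⟩

theorem exs_tw {n : ℕ} {k : Fin n → Fin m} {T : Fin n → ℝ → ℝ} (hT : ∀ i, TwT S c d sn G (k i) (T i))
    (od : Fin n → ℕ) (D : Fin n → ℝ) {B : ℝ} (hB : B ∈ G) : Exs S (twQ m c d k od T D B) :=
  exs_pi fun i => (hT i).exs hB _ _

/-- The condition. -/
noncomputable def cdT (m : ℕ) (c : ℕ → Fin m) (d : ℕ) (wh : ℚ → ℝ) (sn : ℕ → ℝ → ℝ)
    (N : ℕ → ℝ) {n : ℕ} (k : Fin n → Fin m) (od : Fin n → ℕ) (tl : Fin n → ℚ → ℝ)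
    (D : Fin n → ℝ) (lp : ℚ) {nU : ℕ} (kU : Fin nU → Fin m) (oU : Fin nU → ℕ)
    (TU : Fin nU → ℝ → ℝ) (DU : Fin nU → ℝ) (w : ℚ) :
    Qt m (((Fin d → ℤ) × (Fin n → ℤ)) × (Fin nU → ℤ)) :=
  (cdQ m c d wh sn N k od tl D w).prod (twQ m c d kU oU TU DU (wh (w - lp)))

/-- The jets of the first kind. -/
noncomputable def jtT (m : ℕ) (c : ℕ → Fin m) (d : ℕ) {n : ℕ} (k : Fin n → Fin m)
    (od : Fin n → ℕ) (wh : ℚ → ℝ) (tl : Fin n → ℚ → ℝ) (D : Fin n → ℝ) (lp : ℚ) {nT : ℕ}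
    (kT : Fin nT → Fin m) (oT : Fin nT → ℕ) (TT : Fin nT → ℝ → ℝ) (DT : Fin nT → ℝ) (w : ℚ) :
    Qt m ((Fin n → ℤ) × (Fin nT → ℤ)) :=
  (jtQ m c d k od wh tl D w).prod (twQ m c d kT oT TT DT (wh (w - lp)))

/-- **Change of the charts** for a jet over the chain and the last place, charts before `B`,
record at the index `v`. -/
theorem few_twj (h : VCh S f y c d s a₀ b wh sn G) (hI : TwI S c d sn G kT TT kU TU)
    (lp0 : 0 ≤ lp) (ha : a₀ < a - lp) (hE : EdJ wh sn d N lv σ₀ a b lam G)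
    {w v : ℚ} (hw : a < w) (h1 : w ≤ v) (hv : (v : ℝ) < b) (l1 : (v : ℝ) < w + lam) {j : ℕ}
    (hR : TelR sn d lv σ₀ j (wh (w - lp)) (wh v)) {B : ℝ} (aB : B ∈ G) (hB : wh (w - lp) ≤ B)
    (hBv : B ≤ wh v)
    {k : Fin m} {w₁ w₂ p₁ p₂ N₁ N₂ : ℝ} (b1 : w₁ ≤ B) (b2 : w₂ ≤ B) (hN : N₂ ≤ N₁)
    (hC : N₂ + j * wh v ≤ min p₁ p₂ + (sn d (wh v) - sn d B)) :
    Few S f (vg (wh v)) y ((vlQ m c d wh sn N w).prod
      (qJet m ((range (d + 1)).image c) k j w₁ p₁ N₁))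
      (qJet m ((range (d + 1)).image c) k j w₂ p₂ N₂) := by
  have h1' : (w : ℝ) ≤ v := by exact_mod_cast h1
  have hlp : (0 : ℝ) ≤ lp := by exact_mod_cast lp0
  have hva : a < v := by linarith
  obtain ⟨C₀, htm⟩ := h.tm
  have hc := h.cut (a' := a) (b' := b) (by linarith) le_rfl
  have gv := (hc.wg v hva hv).1
  exact few_stepT htm h.pos hI.ch h.pt h.kn hI.mn gv
    (LvR.of_hi (hE.hi v hva hv) hE.ed.σ0 hE.ed.lv0) (few_vpX hc hE hw h1 hv l1 j)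
    (wlp h lp0 ha hw h1 hv).1 hB aB hBv hR b1 b2 hN hC

/-- **The natural digits**, record at the index `v`. -/
theorem few_owj (h : VCh S f y c d s a₀ b wh sn G) (hI : TwI S c d sn G kT TT kU TU)
    (lp0 : 0 ≤ lp) (ha : a₀ < a - lp) (hE : EdJ wh sn d N lv σ₀ a b lam G)
    {w v : ℚ} (hw : a < w) (h1 : w ≤ v) (hv : (v : ℝ) < b) (l1 : (v : ℝ) < w + lam) {j : ℕ}
    (hR : TelR sn d lv σ₀ j (wh (w - lp)) (wh v)) {k : Fin m} {T : ℝ → ℝ}
    (hT : TwT S c d sn G k T) {P : ℝ} (hP : P + j * wh v ≤ T (wh v))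
    (hB : ∀ N : ℝ, N < P → ∃ (Bs : ℕ → ℝ) (M : ℕ), Bs 0 = wh (w - lp) ∧ Bs M = wh v ∧
      TelC sn d T G Bs M j N (wh v)) :
    Few S f (vg (wh v)) y (vlQ m c d wh sn N w)
      (qJet m ((range (d + 1)).image c) k j (wh (w - lp)) (T (wh (w - lp))) P) := by
  have h1' : (w : ℝ) ≤ v := by exact_mod_cast h1
  have hlp : (0 : ℝ) ≤ lp := by exact_mod_cast lp0
  have hva : a < v := by linarith
  obtain ⟨C₀, htm⟩ := h.tm
  have hc := h.cut (a' := a) (b' := b) (by linarith) le_rfl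
  have gv := (hc.wg v hva hv).1
  exact few_ownT htm h.pos hI.ch h.pt h.kn hI.mn gv
    (LvR.of_hi (hE.hi v hva hv) hE.ed.σ0 hE.ed.lv0) (few_vpX hc hE hw h1 hv l1 j) hT hR hP hB

/-- **Change of the charts of the jets of the second kind**, between two windows `w₁, w₂ ≤ v`. -/
theorem few_twU (h : VCh S f y c d s a₀ b wh sn G) (hI : TwI S c d sn G kT TT kU TU)
    (ha : a₀ < a - lp) (hE : EdJ wh sn d N lv σ₀ a b lam G)
    (hD : TwD wh sn d lv σ₀ lp a b lam oT TT oU TU DU) {w₁ w₂ v : ℚ}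
    (hw₁ : a < w₁) (hw₂ : a < w₂) (h1 : w₁ ≤ v) (h2 : w₂ ≤ v) (hv : (v : ℝ) < b)
    (l1 : (v : ℝ) < w₁ + lam) (l2 : (v : ℝ) < w₂ + lam) {D' : Fin nU → ℝ}
    (hD' : ∀ i, D' i ≤ DU i) :
    Few S f (vg (wh v)) y ((vlQ m c d wh sn N w₁).prod (twQ m c d kU oU TU DU (wh (w₁ - lp))))
      (twQ m c d kU oU TU D' (wh (w₂ - lp))) := by
  have h1' : (w₁ : ℝ) ≤ v := by exact_mod_cast h1
  have hva : a < v := by linarith
  obtain ⟨g1, g2, g3⟩ := wlp h hD.lp0 ha hw₁ h1 hv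
  obtain ⟨g4, g5, g6⟩ := wlp h hD.lp0 ha hw₂ h2 hv
  have gv := (wlp h hD.lp0 ha hva le_rfl hv).1
  refine few_pi h.pos fun i => Few.pre h.pos
    (fun (u : (Fin d → ℤ) × (Fin nU → ℤ)) => (u.1, u.2 i))
    (fun K e J F A u hu => by exact ⟨hu.1, hu.2 i⟩)
    (few_twj h hI hD.lp0 ha hE hw₁ h1 hv l1 (hD.RU w₁ v hw₁ h1 hv l1 i) gv g2 g3
      (p₁ := TU i (wh (w₁ - lp))) (p₂ := TU i (wh (w₂ - lp))) (N₁ := DU i) (N₂ := D' i) g2 g5
      (hD' i) ?_)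
  have e1 := hD.cU w₁ v hw₁ h1 hv l1 i
  have e2 := hD.cU w₂ v hw₂ h2 hv l2 i
  have e3 := hD' i
  rcases min_choice (TU i (wh (w₁ - lp))) (TU i (wh (w₂ - lp))) with e | e <;> rw [e] <;> linarith

section rel

variable {n n' : ℕ} {k : Fin n → Fin m} {od : Fin n → ℕ} {tl : Fin n → ℚ → ℝ}
  {P : Fin n → ℚ → ℝ} {kB : Fin n' → Fin m} {oB : Fin n' → ℕ} {tB : Fin n' → ℚ → ℝ}
  {DB : Fin n' → ℝ} {PT : Fin nT → ℚ → ℝ}

/-- The condition exists. -/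
theorem exs_cdT (h : VCh S f y c d s a₀ b wh sn G) (hI : TwI S c d sn G kT TT kU TU)
    (lp0 : 0 ≤ lp) (ha : a₀ < a - lp) (hB : TgC S c d wh a b kB tB) (oB : Fin n' → ℕ)
    (DB : Fin n' → ℝ) (oU : Fin nU → ℕ) (DU : Fin nU → ℝ)
    {w : ℚ} (hw : a < w) (hwb : (w : ℝ) < b) :
    Exs S (cdT m c d wh sn N kB oB tB DB lp kU oU TU DU w) := by
  have hlp : (0 : ℝ) ≤ lp := by exact_mod_cast lp0
  exact (exs_cd (h.cut (a' := a) (b' := b) (by linarith) le_rfl) hB oB DB hw hwb).prod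
    (exs_tw hI.tU oU DU (wlp h lp0 ha hw le_rfl hwb).1)

/-- **Change of the charts of the condition**, between two windows `w₁, w₂ ≤ v`. -/
theorem few_cdT (h : VCh S f y c d s a₀ b wh sn G) (hI : TwI S c d sn G kT TT kU TU)
    (ha : a₀ < a - lp) (hE : EdJ wh sn d N lv σ₀ a b lam G)
    (hD : TwD wh sn d lv σ₀ lp a b lam oT TT oU TU DU) (hb : BdB wh d lv σ₀ a b lam oB tB DB)
    {w₁ w₂ v : ℚ}
    (hw₁ : a < w₁) (hw₂ : a < w₂) (h1 : w₁ ≤ v) (h2 : w₂ ≤ v) (hv : (v : ℝ) < b)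
    (l1 : (v : ℝ) < w₁ + lam) (l2 : (v : ℝ) < w₂ + lam) :
    Few S f (vg (wh v)) y (cdT m c d wh sn N kB oB tB DB lp kU oU TU DU w₁)
      (cdT m c d wh sn N kB oB tB DB lp kU oU TU DU w₂) := by
  have hlp : (0 : ℝ) ≤ lp := by exact_mod_cast hD.lp0
  refine Few.pair h.pos (few_fstQ h.pos (few_cd (h.cut (a' := a) (b' := b) (by linarith) le_rfl)
    hE hb hw₁ hw₂ h1 h2 hv l1 l2 fun _ => le_rfl)) (Few.pre h.pos
      (fun (u : ((Fin d → ℤ) × (Fin n' → ℤ)) × (Fin nU → ℤ)) => (u.1.1, u.2))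
      (fun K e J F A u hu => by exact ⟨hu.1.1, hu.2⟩)
      (few_twU h hI ha hE hD hw₁ hw₂ h1 h2 hv l1 l2 fun _ => le_rfl))

/-- **The jets of the first kind are a relative two-parameter family** over the condition. -/
theorem rel_T (h : VCh S f y c d s a₀ b wh sn G) (hI : TwI S c d sn G kT TT kU TU)
    (ha : a₀ < a - lp) (hlam : 0 < lam) (hE : EdJ wh sn d N lv σ₀ a b lam G)
    (hT : TgC S c d wh a b k tl) (hS : TgS wh d lv σ₀ a b lam tl) (hP : JtP wh a b od tl P)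
    (hB : TgC S c d wh a b kB tB) (hb : BdB wh d lv σ₀ a b lam oB tB DB)
    (hD : TwD wh sn d lv σ₀ lp a b lam oT TT oU TU DU)
    (hQ : JtT sn d G wh lp a b lam oT TT PT) :
    TwoRelS S f y s (cdT m c d wh sn N kB oB tB DB lp kU oU TU DU)
      (fun w o => jtT m c d k od wh tl (fun i => P i o) lp kT oT TT (fun i => PT i o) w)
      a b lam := by
  have hlp : (0 : ℝ) ≤ lp := by exact_mod_cast hD.lp0
  have hc := h.cut (a' := a) (b' := b) (by linarith) le_rfl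
  have hJ := rel_J hc hlam hE hT hS hP hB hb
  have hPn : ∀ i, ∀ v o : ℚ, a < v → v ≤ o → (o : ℝ) < b → PT i o + oT i * wh v ≤ TT i (wh o) := by
    intro i v o e1 e2 e3
    have e2' : (v : ℝ) ≤ o := by exact_mod_cast e2
    have e5 := hQ.le i o (by linarith) e3
    have e6 := hc.wm v o e1 e2 e3
    have e7 : (oT i : ℝ) * wh v ≤ oT i * wh o := mul_le_mul_of_nonneg_left e6 (Nat.cast_nonneg _)
    linarith
  refine
    { exs₀ := fun w e1 e2 => exs_cdT h hI hD.lp0 ha hB oB DB oU DU e1 e2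
      exs := fun w o e1 e2 e3 e4 => (hJ.exs w o e1 e2 e3 e4).prod (exs_tw hI.tT oT _
        (wlp h hD.lp0 ha e1 le_rfl (lt_of_le_of_lt (by exact_mod_cast e2) e3)).1)
      tr := fun w v e1 e2 e3 e4 => ?_
      row := fun w v o e1 e2 e3 e4 e5 => ?_
      chg := fun w v o e1 e2 e3 e4 e5 => ?_
      own := fun w v e1 e2 e3 e4 => ?_ }
  · have e2' : (w : ℝ) ≤ v := by exact_mod_cast e2
    have va : a < v := by linarith
    exact hc.up va le_rfl e3 (few_cdT h hI ha hE hD hb va e1 le_rfl e2 e3 (by linarith) e4)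
  · have e2' : (w : ℝ) ≤ v := by exact_mod_cast e2
    have e3' : (v : ℝ) ≤ o := by exact_mod_cast e3
    have wb : (w : ℝ) < b := by linarith
    have va : a < v := by linarith
    refine Few.pair h.pos (Few.pre h.pos
      (fun (u : (((Fin d → ℤ) × (Fin n' → ℤ)) × (Fin nU → ℤ)) × ((Fin n → ℤ) × (Fin nT → ℤ))) =>
        (u.1.1, u.2.1)) (fun K e J F A u hu => by exact ⟨hu.1.1, hu.2.1⟩)
      (hJ.row w v o e1 e2 e3 e4 e5)) (hc.up e1 le_rfl wb (few_pi h.pos fun i => Few.pre h.pos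
      (fun (u : (((Fin d → ℤ) × (Fin n' → ℤ)) × (Fin nU → ℤ)) × ((Fin n → ℤ) × (Fin nT → ℤ))) =>
        (u.1.1.1, u.2.2 i)) (fun K e J F A u hu => by exact ⟨hu.1.1.1, hu.2.2 i⟩)
      (few_twj h hI hD.lp0 ha hE e1 le_rfl wb (by linarith)
        (hD.RT w w e1 le_rfl wb (by linarith) i) (wlp h hD.lp0 ha e1 le_rfl wb).1 le_rfl
        (wlp h hD.lp0 ha e1 le_rfl wb).2.2 (p₁ := TT i (wh (w - lp))) (p₂ := TT i (wh (w - lp)))
        (N₁ := PT i o) (N₂ := PT i v) le_rfl le_rfl (hQ.mono i v o va e3 e4) ?_)))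
    rw [min_self]
    linarith [hD.cT w w v e1 le_rfl e2 (by linarith) (by linarith) i,
      hPn i w v e1 e2 (by linarith)]
  · have e2' : (w : ℝ) ≤ v := by exact_mod_cast e2
    have e3' : (v : ℝ) ≤ o := by exact_mod_cast e3
    have vb : (v : ℝ) < b := by linarith
    have va : a < v := by linarith
    obtain ⟨g1, g2, g3⟩ := wlp h hD.lp0 ha e1 e2 vb
    have gv := (wlp h hD.lp0 ha va le_rfl vb).1
    refine Few.pair h.pos (Few.pre h.pos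
      (fun (u : (((Fin d → ℤ) × (Fin n' → ℤ)) × (Fin nU → ℤ)) × ((Fin n → ℤ) × (Fin nT → ℤ))) =>
        (u.1.1, u.2.1)) (fun K e J F A u hu => by exact ⟨hu.1.1, hu.2.1⟩)
      (hJ.chg w v o e1 e2 e3 e4 e5)) (hc.up va le_rfl vb (few_pi h.pos fun i => Few.pre h.pos
      (fun (u : (((Fin d → ℤ) × (Fin n' → ℤ)) × (Fin nU → ℤ)) × ((Fin n → ℤ) × (Fin nT → ℤ))) =>
        (u.1.1.1, u.2.2 i)) (fun K e J F A u hu => by exact ⟨hu.1.1.1, hu.2.2 i⟩)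
      (few_twj h hI hD.lp0 ha hE e1 e2 vb (by linarith)
        (hD.RT w v e1 e2 vb (by linarith) i) gv g2 g3
        (p₁ := TT i (wh (w - lp))) (p₂ := TT i (wh (v - lp)))
        (N₁ := PT i o) (N₂ := PT i o) g2 le_rfl le_rfl ?_)))
    rw [min_eq_left ((hI.tT i).mono _ g1 _ gv g2)]
    linarith [hD.cT w v o e1 e2 e3 e4 e5 i, hPn i v o va e3 e4]
  · have e2' : (w : ℝ) ≤ v := by exact_mod_cast e2
    have va : a < v := by linarith
    refine Few.pair h.pos (few_fstQ h.pos (hJ.own w v e1 e2 e3 e4)) (hc.up va le_rfl e3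
      (few_pi h.pos fun i => few_fstQ h.pos (few_fstQ h.pos
        (few_owj h hI hD.lp0 ha hE e1 e2 e3 e4 (hD.RT w v e1 e2 e3 e4 i) (hI.tT i)
          (hQ.le i v va e3) (hQ.own i w v e1 e2 e3 e4)))))

/-! ### The number of the condition -/

/-- **The number of bits of the condition** behind the natural digits. -/
theorem T_bits (h : VCh S f y c d s a₀ b wh sn G) (hI : TwI S c d sn G kT TT kU TU)
    (ha : a₀ < a - lp) (hlam : 0 < lam) (hE : EdJ wh sn d N lv σ₀ a b lam G)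
    (hb : BdB wh d lv σ₀ a b lam oB tB DB)
    (hD : TwD wh sn d lv σ₀ lp a b lam oT TT oU TU DU) {PU : Fin nU → ℝ}
    (hU : BdT sn d G wh lp a b oU TU DU PU) {w : ℚ} (hw : a < w) (hwb : (w : ℝ) < b) :
    FewC S f (vg ((w : ℝ) + s)) y (tQt m) (cdT m c d wh sn N kB oB tB DB lp kU oU TU DU w)
      ((∑ l : Fin d, Real.log 2 * (N l - (sn l (wh w) - wh w)) +
        ∑ i : Fin n', Real.log 2 * (DB i - (tB i w - oB i * wh w))) +
        ∑ i : Fin nU, Real.log 2 * (DU i - PU i)) := by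
  have hlp : (0 : ℝ) ≤ lp := by exact_mod_cast hD.lp0
  have hc := h.cut (a' := a) (b' := b) (by linarith) le_rfl
  refine FewC.seq h.pos (J_bits hc hE hb hw hwb) ?_
  refine fewC_pi h.pos fun i => few_more h.pos (N := PU i) (N' := DU i) (hU.PD i) ?_
  refine few_sndQ h.pos (few_fstQ h.pos (hc.up hw le_rfl hwb ?_))
  exact few_owj h hI hD.lp0 ha hE hw le_rfl hwb (by linarith)
    (hD.RU w w hw le_rfl hwb (by linarith) i) (hI.tU i) (hU.le i w hw hwb) (hU.own i w hw hwb)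

/-- **The number of the condition decreases.** -/
theorem T_anti (h : VCh S f y c d s a₀ b wh sn G) (hI : TwI S c d sn G kT TT kU TU)
    (ha : a₀ < a - lp) (hlam : 0 < lam) (hE : EdJ wh sn d N lv σ₀ a b lam G)
    (hB : TgC S c d wh a b kB tB) (hb : BdB wh d lv σ₀ a b lam oB tB DB)
    (hD : TwD wh sn d lv σ₀ lp a b lam oT TT oU TU DU) {θ : ℚ → ℝ}
    (hθ : ∀ w : ℚ, a < w → (w : ℝ) < b →
      NN S f (vg ((w : ℝ) + s)) y (cdT m c d wh sn N kB oB tB DB lp kU oU TU DU w) (θ w)) :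
    ∀ w v : ℚ, a < w → w ≤ v → (v : ℝ) < b → θ v ≤ θ w := by
  have hlp : (0 : ℝ) ≤ lp := by exact_mod_cast hD.lp0
  have hc := h.cut (a' := a) (b' := b) (by linarith) le_rfl
  intro w₀ v₀ hw₀ hwv₀ hv₀
  refine rel_steps (R := fun w v => θ v ≤ θ w) (x := (w₀ : ℝ)) (z := (v₀ : ℝ)) (d := lam / 2)
    (half_pos hlam) ?_ (fun w v o _ _ _ _ h1 h2 => h2.trans h1) w₀ v₀ le_rfl hwv₀ le_rfl
  intro w v h1 h2 h3 h4
  have h2' : (w : ℝ) ≤ v := by exact_mod_cast h2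
  have wa : a < w := by linarith
  have va : a < v := by linarith
  have vb : (v : ℝ) < b := by linarith
  obtain ⟨η, hη⟩ := hc.rn w wa (by linarith)
  obtain ⟨η', hη'⟩ := hc.rn v va vb
  exact NN.anti h.ne h.pos (fun J F => ⟨fun x => x, fun _ => rfl⟩)
    (fun J F => vg_mono (by linarith) (by linarith [h.b1]) J F)
    (fun J F => ⟨fun x => x, fun _ => rfl⟩) hη hη' (hθ w wa (by linarith)) (hθ v va vb)
    (exs_cdT h hI hD.lp0 ha hB oB DB oU DU wa (by linarith))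
    (exs_cdT h hI hD.lp0 ha hB oB DB oU DU va vb)
    (hc.up va le_rfl vb (few_cdT h hI ha hE hD hb wa va h2 le_rfl vb (by linarith)
      (by linarith)))

/-- **The number of the condition** is at most the number of bits. -/
theorem T_le (h : VCh S f y c d s a₀ b wh sn G) (hI : TwI S c d sn G kT TT kU TU)
    (ha : a₀ < a - lp) (hlam : 0 < lam) (hE : EdJ wh sn d N lv σ₀ a b lam G)
    (hB : TgC S c d wh a b kB tB) (hb : BdB wh d lv σ₀ a b lam oB tB DB)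
    (hD : TwD wh sn d lv σ₀ lp a b lam oT TT oU TU DU) {PU : Fin nU → ℝ}
    (hU : BdT sn d G wh lp a b oU TU DU PU) {θ : ℝ} {w : ℚ} (hw : a < w) (hwb : (w : ℝ) < b)
    (hθ : NN S f (vg ((w : ℝ) + s)) y (cdT m c d wh sn N kB oB tB DB lp kU oU TU DU w) θ) :
    0 ≤ θ ∧ θ ≤ (∑ l : Fin d, Real.log 2 * (N l - (sn l (wh w) - wh w)) +
        ∑ i : Fin n', Real.log 2 * (DB i - (tB i w - oB i * wh w))) +
        ∑ i : Fin nU, Real.log 2 * (DU i - PU i) := by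
  have hlp : (0 : ℝ) ≤ lp := by exact_mod_cast hD.lp0
  obtain ⟨η, hη⟩ := h.rn w (by linarith) hwb
  have hx := exs_cdT (N := N) h hI hD.lp0 ha hB oB DB oU DU hw hwb
  refine ⟨NN.nonneg h.ne h.pos hη hθ hx, ?_⟩
  have h0 : NN S f (vg ((w : ℝ) + s)) y (tQt m) 0 := by
    intro a ha
    refine ⟨1, one_pos, 1, one_pos, fun K => Bas.mono 0 (pos_bas h.pos) ?_⟩
    rintro J - F A hA V z hz u hu
    have h1 : CH (Pool.Agent.H49.Ent.cond F.p A True) u (fun ω => (z ω, y J F ω)) = 0 :=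
      CH_eq_zero (isLaw_cond F.isLaw hA).nonneg fun _ _ _ _ _ => rfl
    rw [h1, zero_mul, sub_zero, abs_zero]
    positivity
  have h2 := NN.inc h.ne h.pos hη h0 hθ exs_tQt hx
    (T_bits h hI ha hlam hE hb hD hU hw hwb)
  linarith

end rel

end

end Pool.LPT30
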