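import Pool.Agent.H30.LPT.Twb

/-!
# No look-ahead given the near path, jets over the chain and one more place

The jets over the chain and the last place are taken over the charts of a window `bt`; the numbers
belong to the charts of `wh (w - lp)`. `CnT`: the changes of these charts. `few_cdBT`: the near path
and the near jets of the second kind are few bits given the condition. `ni_fixT`: no look-ahead at
given windows.
-/

set_option autoImplicit false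

namespace Pool.LPT30

open Finset Real MvPolynomial
open Pool.Agent.H49.Ent Pool.Agent.H32.Dense Pool.STK Pool.KA Pool.KSAT Pool.K2S Pool.PB Pool.S6C
  Pool.GEN Pool.RCD Pool.LA91
open Pool.OWN83 (TwoRelS TRelS yX kn0_yX)
open Pool.OWN68 (cl2_vg)
open Pool.LP30 Pool.LPJ30

variable {m : ℕ} {U U' : Type} {α β γ : ∀ J : ℕ, Fam m J → Type}
  {f : ∀ (J : ℕ) (F : Fam m J), F.Ω → α J F} {g : ∀ (J : ℕ) (F : Fam m J), F.Ω → β J F}
  {y : ∀ (J : ℕ) (F : Fam m J), F.Ω → γ J F} {S : PCl m}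

/-- A known part. -/
theorem ch_prt {Ω A B C D : Type} [Fintype Ω] {q : Ω → ℝ} (h0 : ∀ ω, 0 ≤ q ω) {u : Ω → D}
    {a : Ω → A} {b : Ω → B} {c : Ω → C} (hu : Det q (fun ω => (a ω, b ω)) u) (hd : Det q c a) :
    CH q u c ≤ CH q b c := by
  have h1 := CH_subadd h0 a b c
  have h2 : CH q a c = 0 := CH_eq_zero h0 hd
  have h3 : CH q u c ≤ CH q (fun ω => (a ω, b ω)) c :=
    CH_mono_left h0 fun ω ω' x y hh => hu ω ω' x y (Prod.ext_iff.mp hh).1
  linarith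

/-- **Other quantities** instead of the second components. -/
theorem la_sw {Ω A B A' B' C C' E V Y Z Z' D D' : Type} [Fintype Ω] {q : Ω → ℝ}
    (h0 : ∀ ω, 0 ≤ q ω) {u : Ω → D} {ua : Ω → A} {ub : Ω → B} {u₁ : Ω → D'} {va : Ω → A'}
    {vb : Ω → B'} {UT : Ω → C} {UT₁ : Ω → C'} {e : Ω → E} {ev : Ω → V}
    {y : Ω → Y} {z : Ω → Z} {z' : Ω → Z'} {A₁ k : ℝ} (hev : Det q e ev)
    (hu : Det q (fun ω => (ua ω, ub ω)) u) (hua : Det q u ua) (hub : Det q u ub)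
    (hva : Det q u₁ va) (hvb : Det q u₁ vb)
    (la : CH q (fun ω => (ua ω, UT ω)) (fun ω => ((va ω, UT₁ ω), (e ω, (z ω, y ω)))) ≤
      CH q (fun ω => (ua ω, UT ω)) (fun ω => (e ω, (z' ω, y ω))) + A₁)
    (s1 : CH q ub (fun ω => ((ev ω, UT ω), (z ω, y ω))) ≤ k)
    (s2 : CH q UT₁ (fun ω => ((ev ω, vb ω), (z ω, y ω))) ≤ k)
    (s3 : CH q UT (fun ω => ((ev ω, ub ω), (z' ω, y ω))) ≤ k) :
    CH q u (fun ω => (u₁ ω, (e ω, (z ω, y ω)))) ≤
      CH q u (fun ω => (e ω, (z' ω, y ω))) + (A₁ + 3 * k) := by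
  obtain ⟨v, hv⟩ : ∃ v : Ω → A × C, v = fun ω => (ua ω, UT ω) := ⟨_, rfl⟩
  obtain ⟨v₁, hv₁⟩ : ∃ v₁ : Ω → A' × C', v₁ = fun ω => (va ω, UT₁ ω) := ⟨_, rfl⟩
  have e1 : ∀ ω, v ω = (ua ω, UT ω) := fun ω => congrFun hv ω
  have e2 : ∀ ω, v₁ ω = (va ω, UT₁ ω) := fun ω => congrFun hv₁ ω
  have la' : CH q v (fun ω => (v₁ ω, (e ω, (z ω, y ω)))) ≤
      CH q v (fun ω => (e ω, (z' ω, y ω))) + A₁ := by
    rw [hv, hv₁]
    exact la
  have t1 : CH q u (fun ω => ((e ω, v ω), (z ω, y ω))) ≤ k := by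
    have a1 : CH q u (fun ω => ((e ω, v ω), (z ω, y ω))) ≤
        CH q ub (fun ω => ((e ω, v ω), (z ω, y ω))) := by
      refine ch_prt h0 hu fun ω ω' _ _ hh => ?_
      have h1 := (Prod.ext_iff.mp (Prod.ext_iff.mp hh).1).2
      have h2 : v ω = v ω' := h1
      rw [e1, e1] at h2
      exact (Prod.ext_iff.mp h2).1
    have a2 : CH q ub (fun ω => ((e ω, v ω), (z ω, y ω))) ≤
        CH q ub (fun ω => ((ev ω, UT ω), (z ω, y ω))) := by
      refine CH_mono_cond h0 fun ω ω' x x' hh => ?_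
      have h1 := Prod.ext_iff.mp hh
      have h2 := Prod.ext_iff.mp h1.1
      have h3 : v ω = v ω' := h2.2
      rw [e1, e1] at h3
      exact Prod.ext (Prod.ext (hev ω ω' x x' h2.1) (Prod.ext_iff.mp h3).2) h1.2
    linarith
  have t2 : CH q v₁ (fun ω => ((e ω, u₁ ω), (z ω, y ω))) ≤ k := by
    have a1 : CH q v₁ (fun ω => ((e ω, u₁ ω), (z ω, y ω))) ≤
        CH q UT₁ (fun ω => ((e ω, u₁ ω), (z ω, y ω))) := by
      refine ch_prt h0 (a := va) (fun ω ω' _ _ hh => ?_) fun ω ω' x x' hh => ?_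
      · rw [e2, e2]
        exact hh
      · exact hva ω ω' x x' (Prod.ext_iff.mp (Prod.ext_iff.mp hh).1).2
    have a2 : CH q UT₁ (fun ω => ((e ω, u₁ ω), (z ω, y ω))) ≤
        CH q UT₁ (fun ω => ((ev ω, vb ω), (z ω, y ω))) := by
      refine CH_mono_cond h0 fun ω ω' x x' hh => ?_
      have h1 := Prod.ext_iff.mp hh
      have h2 := Prod.ext_iff.mp h1.1
      exact Prod.ext (Prod.ext (hev ω ω' x x' h2.1) (hvb ω ω' x x' h2.2)) h1.2
    linarith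
  have t3 : CH q v (fun ω => ((e ω, u ω), (z' ω, y ω))) ≤ k := by
    have a1 : CH q v (fun ω => ((e ω, u ω), (z' ω, y ω))) ≤
        CH q UT (fun ω => ((e ω, u ω), (z' ω, y ω))) := by
      refine ch_prt h0 (a := ua) (fun ω ω' _ _ hh => ?_) fun ω ω' x x' hh => ?_
      · rw [e1, e1]
        exact hh
      · exact hua ω ω' x x' (Prod.ext_iff.mp (Prod.ext_iff.mp hh).1).2
    have a2 : CH q UT (fun ω => ((e ω, u ω), (z' ω, y ω))) ≤
        CH q UT (fun ω => ((ev ω, ub ω), (z' ω, y ω))) := by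
      refine CH_mono_cond h0 fun ω ω' x x' hh => ?_
      have h1 := Prod.ext_iff.mp hh
      have h2 := Prod.ext_iff.mp h1.1
      exact Prod.ext (Prod.ext (hev ω ω' x x' h2.1) (hub ω ω' x x' h2.2)) h1.2
    linarith
  have z1 : CH q e (fun ω => (e ω, (z ω, y ω))) ≤ 0 := by
    have hd : Det q (fun ω => (e ω, (z ω, y ω))) e := fun ω ω' _ _ hh => (Prod.ext_iff.mp hh).1
    exact (CH_eq_zero h0 hd).le
  have z2 : CH q e (fun ω => (e ω, (z' ω, y ω))) ≤ 0 := by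
    have hd : Det q (fun ω => (e ω, (z' ω, y ω))) e := fun ω ω' _ _ hh => (Prod.ext_iff.mp hh).1
    exact (CH_eq_zero h0 hd).le
  have z3 : CH q z z ≤ 0 := by
    have hd : Det q z z := fun ω ω' _ _ hh => hh
    exact (CH_eq_zero h0 hd).le
  have z4 : CH q z' z' ≤ 0 := by
    have hd : Det q z' z' := fun ω ω' _ _ hh => hh
    exact (CH_eq_zero h0 hd).le
  have key := ni_swap h0 (q := q) (u := u) (u₁ := u₁) (v := v) (v₁ := v₁) (pa := e) (pb := e)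
    (w := y) (x := z) (x' := z') (z := z) (z' := z') la' t1 t2 z1 z3 z2 t3 z4
  linarith

/-- **The changes of the charts** between the charts of `wh (w - lp)` and those of `bt`, digits
`PT` and `Du`, `Dv`, `nW`, each at the cost `c₀`. -/
structure CnT (S : PCl m) (c : ℕ → Fin m) (d : ℕ) (wh : ℚ → ℝ) (sn : ℕ → ℝ → ℝ)
    (N nH nV : ℕ → ℝ) (lp : ℚ) {nT nU : ℕ} (kT : Fin nT → Fin m) (oT : Fin nT → ℕ)
    (TT : Fin nT → ℝ → ℝ) (kU : Fin nU → Fin m) (oU : Fin nU → ℕ) (TU : Fin nU → ℝ → ℝ)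
    (DU : Fin nU → ℝ) (PT : Fin nT → ℚ → ℝ) (Du Dv : Fin nT → ℝ) (nW : Fin nU → ℝ)
    (bt c₀ : ℝ) (w v o : ℚ) : Prop where
  k1 : FewC S (fun J F => ptr F J) (vg (wh w)) (yX ((range d).image c))
    ((vlQ m c d wh sn N w).prod (twQ m c d kT oT TT (fun i => PT i o) (wh (w - lp))))
    (twQ m c d kT oT TT Du bt) c₀
  k2 : FewC S (fun J F => ptr F J) (vg (wh w)) (yX ((range d).image c))
    ((vlQ m c d wh sn N w).prod (twQ m c d kT oT TT Dv bt))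
    (twQ m c d kT oT TT (fun i => PT i v) (wh (w - lp))) c₀
  k3 : FewC S (fun J F => ptr F J) (vg (wh v)) (yX ((range d).image c))
    ((vlQ m c d wh sn N w).prod (twQ m c d kT oT TT Du bt))
    (twQ m c d kT oT TT (fun i => PT i o) (wh (w - lp))) c₀
  k4 : Few S (fun J F => ptr F J) (vg (wh w)) (yX ((range d).image c))
    ((vlQ m c d wh sn N w).prod (twQ m c d kU oU TU DU (wh (w - lp))))
    (twQ m c d kU oU TU nW bt)
  k6 : FewC S (fun J F => ptr F J) (vg (wh o)) (fun _ F => F.W)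
    (paQ m c d (wh w) (fun l => sn l (wh w)) nH nV) (twQ m c d kT oT TT Du bt) c₀
  k7 : FewC S (fun J F => ptr F J) (vg (wh o)) (fun _ F => F.W)
    (paQ m c d (wh w) (fun l => sn l (wh w)) nH nV) (twQ m c d kT oT TT Dv bt) c₀

section

variable {c : ℕ → Fin m} {d : ℕ} {s a₀ a b lam : ℝ} {wh : ℚ → ℝ} {sn : ℕ → ℝ → ℝ} {G : Set ℝ}
  {N lv₀ : ℕ → ℝ} {σ₁ : ℝ} {n n' : ℕ} {k : Fin n → Fin m} {od : Fin n → ℕ}
  {tl : Fin n → ℚ → ℝ} {P : Fin n → ℚ → ℝ}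
  {kB : Fin n' → Fin m} {oB : Fin n' → ℕ} {tB : Fin n' → ℚ → ℝ} {DB : Fin n' → ℝ}
  {lp : ℚ} {nT nU : ℕ} {kT : Fin nT → Fin m} {oT : Fin nT → ℕ}
  {TT : Fin nT → ℝ → ℝ} {kU : Fin nU → Fin m} {oU : Fin nU → ℕ} {TU : Fin nU → ℝ → ℝ}
  {DU : Fin nU → ℝ} {PT : Fin nT → ℚ → ℝ}

/-- **The near path and the near jets of the second kind** are few bits given the condition. -/
theorem few_cdBT (h : VCh S f y c d s a b wh sn G) (hlam : 0 < lam)
    (hE : EdJ wh sn d N lv₀ σ₁ a b lam G) (hb : BdB wh d lv₀ σ₁ a b lam oB tB DB)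
    {w : ℚ} (hw : a < w) (hwb : (w : ℝ) < b) {nH nV : ℕ → ℝ} {nB : Fin n' → ℝ}
    {nW : Fin nU → ℝ} {φ bt : ℝ} (hφ : 0 < φ)
    (hH : HtN d (fun l => sn l (wh w)) (wh w) φ (fun l => sn l (wh w)) nH)
    (hV : ∀ l < d, nV l ≤ N l) (hB : ∀ i, nB i ≤ DB i)
    (k4 : Few S f (vg (wh w)) y
      ((vlQ m c d wh sn N w).prod (twQ m c d kU oU TU DU (wh (w - lp))))
      (twQ m c d kU oU TU nW bt)) :
    Few S f (vg ((w : ℝ) + s)) y (cdT m c d wh sn N kB oB tB DB lp kU oU TU DU w)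
      ((paQ m c d (wh w) (fun l => sn l (wh w)) nH nV).prod
        ((jtQ m c d kB oB wh tB nB w).prod (twQ m c d kU oU TU nW bt))) := by
  have h1 := few_cdB (kB := kB) h hlam hE hb hw hwb (nV := nV) (nB := nB) hφ hH hV hB
  have h2 := h.up hw le_rfl hwb k4
  have h3 := Few.pair h.pos (few_fstQ (Q₀ := twQ m c d kU oU TU DU (wh (w - lp))) h.pos h1)
    (Few.pre (Q := cdT m c d wh sn N kB oB tB DB lp kU oU TU DU w) h.pos
      (fun (u : ((Fin d → ℤ) × (Fin n' → ℤ)) × (Fin nU → ℤ)) => (u.1.1, u.2))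
      (fun K e J F A u hu => by exact ⟨hu.1.1, hu.2⟩) h2)
  intro ε hε
  obtain ⟨e, he, H⟩ := h3 ε hε
  refine ⟨e, he, fun K => Bas.mono 0 ((H K).and (pos_bas h.pos)) ?_⟩
  rintro J - F A ⟨H, hA⟩ u u' hu hu'
  obtain ⟨V, z, hz, h4⟩ := H u (fun ω => (((u' ω).1, (u' ω).2.1), (u' ω).2.2)) hu
    ⟨⟨hu'.1, hu'.2.1⟩, hu'.2.2⟩
  refine ⟨V, z, hz, le_trans (CH_mono_left (isLaw_cond F.isLaw hA).nonneg ?_) h4⟩
  intro ω ω' _ _ hh
  simp only [Prod.mk.injEq] at hh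
  exact Prod.ext hh.1.1.1 (Prod.ext hh.1.1.2 hh.1.2)

/-- **No look-ahead given the near path**, at given windows. -/
theorem ni_fixT (h : VCh S (fun J F => ptr F J) (yX ((range d).image c)) c d s a₀ b wh sn G)
    (hI : TwI S c d sn G kT TT kU TU) (ha : a₀ < a - lp)
    (hlam : 0 < lam) (hE : EdJ wh sn d N lv₀ σ₁ a b lam G)
    (hT : TgC S c d wh a b k tl) (hS : TgS wh d lv₀ σ₁ a b lam tl) (hP : JtP wh a b od tl P)
    (hB : TgC S c d wh a b kB tB) (hb : BdB wh d lv₀ σ₁ a b lam oB tB DB)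
    (hD : TwD wh sn d lv₀ σ₁ lp a b lam oT TT oU TU DU)
    (hQ : JtT sn d G wh lp a b lam oT TT PT) {θ₀ : ℚ → ℝ}
    {θ : ℚ → ℚ → ℝ} (hR : TRelS S (fun J F => ptr F J) (yX ((range d).image c)) s
      (cdT m c d wh sn N kB oB tB DB lp kU oU TU DU)
      (fun w o => jtT m c d k od wh tl (fun i => P i o) lp kT oT TT (fun i => PT i o) w)
      a b lam θ₀ θ)
    {w v o : ℚ} (hw : a < w) (hwv : w ≤ v) (hvo : v ≤ o) (ho : (o : ℝ) < b)
    (hl : (o : ℝ) < w + lam) {nH nV lv : ℕ → ℝ} {σ₀ φ : ℝ} {nB : Fin n' → ℝ} {nW : Fin nU → ℝ}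
    {Du Dv : Fin nT → ℝ} {bt c₀ : ℝ}
    (hr : NrD wh sn d nH nV lv σ₀ φ w o) (hi : HiW sn d lv (σ₀ / 2) G (wh o))
    (ht : TgN wh d lv σ₀ tl w o) (hc₀ : 0 ≤ c₀)
    (hCn : CnT S c d wh sn N nH nV lp kT oT TT kU oU TU DU PT Du Dv nW bt c₀ w v o)
    (hNV : ∀ l < d, nV l ≤ N l) (hNB : ∀ i, nB i ≤ DB i)
    (hgap : ∀ x, wh w ≤ x → x ≤ wh o → ∃ v' ∈ G, |v' - x| ≤ φ)
    (hfl : ∀ i < d, ∀ x ∈ G, wh w ≤ x → x ≤ wh o → |(sn i x - x) - (sn i (wh o) - wh o)| ≤ 2 * φ)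
    {x' : ℝ} (hx' : x' ∈ G) (hox' : (o : ℝ) + s ≤ x') :
    ∀ ε : ℝ, 0 < ε → ∃ κ : ℝ, 0 < κ ∧ ∃ e₀ : ℝ, 0 < e₀ ∧ ∀ K : ℕ, Bas S (fun J F A =>
      ∀ (V : Type) (z : F.Ω → V) (V' : Type) (z' : F.Ω → V'),
      Mx (fun J F => ptr F J) (vg ((w : ℝ) + s)) κ F A z →
      Mx (fun J F => ptr F J) (vg ((v : ℝ) + s)) κ F A z' →
      ∀ u u₁ q pa, ((jtQ m c d k od wh tl (fun i => P i o) w).prod
        (twQ m c d kT oT TT Du bt)).P K e₀ J F A u →
      ((jtQ m c d k od wh tl (fun i => P i v) w).prod (twQ m c d kT oT TT Dv bt)).P K e₀ J F A u₁ →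
      ((jtQ m c d kB oB wh tB nB w).prod (twQ m c d kU oU TU nW bt)).P K e₀ J F A q →
      (paQ m c d (wh w) (fun l => sn l (wh w)) nH nV).P K e₀ J F A pa →
      CH (Pool.Agent.H49.Ent.cond F.p A True) q (fun ω => (pa ω, (z ω, F.W ω))) ≤
        CH (Pool.Agent.H49.Ent.cond F.p A True) q (fun ω => (pa ω, (z' ω, F.W ω))) +
          ((θ₀ w - θ₀ o) +
            ∑ i ∈ range d, (sn i x' - sn i (wh o) + 8 * ((i : ℝ) + 1) * φ) * Real.log 2 + ε) * J ∧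
      CH (Pool.Agent.H49.Ent.cond F.p A True) u
          (fun ω => (u₁ ω, ((pa ω, q ω), (z ω, F.W ω)))) ≤
        CH (Pool.Agent.H49.Ent.cond F.p A True) u (fun ω => ((pa ω, q ω), (z' ω, F.W ω))) +
          ((θ w o - θ w v - θ v o) + (θ₀ w - θ₀ o) +
            ∑ i ∈ range d, (sn i x' - sn i (wh o) + 8 * ((i : ℝ) + 1) * φ) * Real.log 2 + ε +
              8 * c₀) * J) := by
  intro cc hcc
  obtain ⟨ε, hε, hεc⟩ : ∃ ε : ℝ, 0 < ε ∧ 30 * ε = cc := ⟨cc / 30, by positivity, by ring⟩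
  have hwv' : (w : ℝ) ≤ v := by exact_mod_cast hwv
  have hvo' : (v : ℝ) ≤ o := by exact_mod_cast hvo
  have hwo := hwv.trans hvo
  have hlp : (0 : ℝ) ≤ lp := by exact_mod_cast hD.lp0
  have h' := h
  replace h := h.cut (a' := a) (b' := b) (by linarith) le_rfl
  have oa : a < o := by linarith
  have va : a < v := by linarith
  have vb : (v : ℝ) < b := by linarith
  have wb : (w : ℝ) < b := by linarith
  have ob1 : (o : ℝ) + s < 1 := by linarith [h.b1]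
  have gβ := (wlp h' hD.lp0 ha hw le_rfl wb).1
  have gw := h.wg w hw wb
  have go := h.wg o oa ho
  have wo := h.wm w o hw hwo ho
  obtain ⟨C₀, htm⟩ := h.tm
  obtain ⟨u₂, rd, hrd, hch⟩ := h.ch.ch _ gw.1
  have hfp : ∀ (J : ℕ) (F : Fam m J), ∃ χ : PtT F → PtT F, ∀ ω, ptr F J ω = χ (ptr F J ω) :=
    fun J F => ⟨fun x => x, fun _ => rfl⟩
  have hHt := hr.htN fun l hl => h.mn l hl w o hw hwo ho
  -- the numbers
  obtain ⟨k1, hk1, e1, he1, H1⟩ := (rel_T h' hI ha hlam hE hT hS hP hB hb hD hQ).la h.pos hR hw hwv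
    hvo ho hl ε hε
  obtain ⟨k2, hk2, e2, he2, H2⟩ := hR.n₀ w hw wb ε hε
  obtain ⟨k3, hk3, e3, he3, H3⟩ := hR.n₀ o oa ho ε hε
  -- the near path
  have q4 := few_cdBT (kB := kB) h hlam hE hb hw wb (nV := nV) (nB := nB) (nW := nW)
    hr.φ0 hHt hNV hNB hCn.k4
  obtain ⟨e4, he4, H4⟩ := q4.mx h.pos ε hε
  have q5 := Few.up h.pos (f' := fun J F => ptr F J) (g' := vg ((v : ℝ) + s))
    (y' := yX ((range d).image c)) (fun J F => ⟨fun x => x, fun _ => rfl⟩)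
    (fun J F => vg_mono (by linarith) (by linarith) J F) (fun J F => ⟨fun x => x, fun _ => rfl⟩) q4
  obtain ⟨e5, he5, H5⟩ := q5.mx h.pos ε hε
  obtain ⟨e6, he6, H6⟩ := (few_jtN h hT hP hw hwo le_rfl ho hr hi ht).mx h.pos ε hε
  obtain ⟨e7, he7, H7⟩ := (few_jtN h hT hP hw hwv hvo ho hr hi ht).mx h.pos ε hε
  -- the jets over the chain and the last place
  have gv := h.wg v va vb
  have up : ∀ {V V' : Type} {Q₁ : Qt m V} {Q₂ : Qt m V'} {p p' c' : ℝ}, p ≤ p' → p' ≤ 1 →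
      FewC S (fun J F => ptr F J) (vg p) (yX ((range d).image c)) Q₁ Q₂ c' →
      FewC S (fun J F => ptr F J) (vg p') (yX ((range d).image c)) Q₁ Q₂ c' := fun h1 h2 h3 =>
    FewC.up h.pos (fun J F => ⟨fun x => x, fun _ => rfl⟩) (fun J F => vg_mono h1 h2 J F)
      (fun J F => ⟨fun x => x, fun _ => rfl⟩) h3
  have upW : ∀ {V V' : Type} {Q₁ : Qt m V} {Q₂ : Qt m V'} {p p' c' : ℝ}, p ≤ p' → p' ≤ 1 →
      FewC S (fun J F => ptr F J) (vg p) (fun _ F => F.W) Q₁ Q₂ c' →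
      FewC S (fun J F => ptr F J) (vg p') (fun _ F => F.W) Q₁ Q₂ c' := fun h1 h2 h3 =>
    FewC.up h.pos (fun J F => ⟨fun x => x, fun _ => rfl⟩) (fun J F => vg_mono h1 h2 J F)
      (fun J F => ⟨fun x => x, fun _ => rfl⟩) h3
  obtain ⟨f1, hf1, L1⟩ := (up gw.2 (by linarith) hCn.k1).mx h.pos ε hε
  obtain ⟨f2, hf2, L2⟩ := (up gw.2 (by linarith) hCn.k2).mx h.pos ε hε
  obtain ⟨f3, hf3, L3⟩ := (up gv.2 (by linarith) hCn.k3).mx h.pos ε hε
  obtain ⟨f6, hf6, L6⟩ := (upW go.2 (by linarith) hCn.k6).mx h.pos ε hε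
  obtain ⟨f7, hf7, L7⟩ := (upW go.2 (by linarith) hCn.k7).mx h.pos ε hε
  -- the positions
  have q8 := FewC.up h.pos (f' := fun J F => ptr F J) (g' := vg ((w : ℝ) + s)) (y' := fun _ F => F.W)
    (fun J F => ⟨fun x => x, fun _ => rfl⟩)
    (fun J F => vg_mono gw.2 (by linarith) J F) (fun J F => ⟨fun x => x, fun _ => rfl⟩)
    (fewC_jPos (f := fun J F => ptr F J) (y := fun _ F => F.W) htm h.pos hfp kn_W hch hr.φ0 hHt
      le_rfl)
  obtain ⟨e8, he8, H8⟩ := q8.mx h.pos ε hε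
  have q9 := fewC_ht (f := fun J F => ptr F J) (y := fun _ F => F.W) htm h.pos h.ch hfp kn_W gw.1
    go.1 wo go.2 (by linarith) hr.φ0 hgap hfl (p := fun l => sn l (wh w)) (n := nH)
    (fun i _ => by linarith [hr.φ0]) (fun i hi => by linarith [hr.h i hi, hr.lv0 i hi, hr.σ0])
  obtain ⟨e9, he9, H9⟩ := q9.mx h.pos ε hε
  have H10 := ful_x h.pos h.ch hx' hox' hε
  -- the condition at the last window
  obtain ⟨e11, he11, H11⟩ := (h.up oa le_rfl ho (few_cdT (kB := kB) h' hI ha hE hD hb hw oa hwo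
    le_rfl ho hl (by linarith))).mx h.pos ε hε
  obtain ⟨e₀', he₀', l1', l2', l3', l4', l5', l6', l7', l8', l9', l11'⟩ :
      ∃ e₀ : ℝ, 0 < e₀ ∧ e₀ ≤ e1 ∧
      e₀ ≤ e2 ∧ e₀ ≤ e3 ∧ e₀ ≤ e4 ∧ e₀ ≤ e5 ∧ e₀ ≤ e6 ∧ e₀ ≤ e7 ∧ e₀ ≤ e8 ∧ e₀ ≤ e9 ∧ e₀ ≤ e11 := by
    refine ⟨min (min (min e1 e2) (min e3 e4)) (min (min (min e5 e6) (min e7 e8)) (min e9 e11)),
      by positivity, ?_, ?_, ?_, ?_, ?_, ?_, ?_, ?_, ?_, ?_⟩ <;> simp
  obtain ⟨e₀, he₀, g0, g1, g2, g3, g6, g7⟩ : ∃ e₀ : ℝ, 0 < e₀ ∧ e₀ ≤ e₀' ∧ e₀ ≤ f1 ∧ e₀ ≤ f2 ∧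
      e₀ ≤ f3 ∧ e₀ ≤ f6 ∧ e₀ ≤ f7 := by
    refine ⟨min (min e₀' (min f1 f2)) (min f3 (min f6 f7)), by positivity, ?_, ?_, ?_, ?_, ?_,
      ?_⟩ <;> simp
  have l1 := g0.trans l1'
  have l2 := g0.trans l2'
  have l3 := g0.trans l3'
  have l4 := g0.trans l4'
  have l5 := g0.trans l5'
  have l6 := g0.trans l6'
  have l7 := g0.trans l7'
  have l8 := g0.trans l8'
  have l9 := g0.trans l9'
  have l11 := g0.trans l11'
  obtain ⟨κ, hκ, m1, m2, m3, m4⟩ : ∃ κ : ℝ, 0 < κ ∧ κ ≤ k1 ∧ κ ≤ k2 ∧ κ ≤ k3 ∧ κ ≤ ε / 2 :=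
    ⟨min (min k1 k2) (min k3 (ε / 2)), by positivity, by simp, by simp, by simp, by simp⟩
  obtain ⟨K₁, M₁, X1⟩ := exs_cdT (N := N) h' hI hD.lp0 ha hB oB DB oU DU hw wb e₀ he₀
  obtain ⟨K₂, M₂, X2⟩ := exs_cdT (N := N) h' hI hD.lp0 ha hB oB DB oU DU oa ho e₀ he₀
  obtain ⟨K₃, M₃, X3⟩ := exs_tw hI.tT oT (fun i => PT i o) gβ e₀ he₀
  obtain ⟨K₄, M₄, X4⟩ := exs_tw hI.tT oT (fun i => PT i v) gβ e₀ he₀
  refine ⟨κ, hκ, e₀, he₀, fun K => ?_⟩
  obtain ⟨L, hL0, hL1, hL2, hL3, hL4⟩ : ∃ L : ℕ, K ≤ L ∧ K₁ ≤ L ∧ K₂ ≤ L ∧ K₃ ≤ L ∧ K₄ ≤ L :=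
    ⟨max (max K (max K₁ K₂)) (max K₃ K₄), by simp, by simp, by simp, by simp, by simp⟩
  obtain ⟨η, hη⟩ := h.rn o oa ho
  refine Bas.mono 0 (((((H1 L).and (H2 L)).and ((H3 L).and (H4 L))).and
    (((H5 L).and (H6 L)).and ((H7 L).and (H8 L)))).and
    ((((H9 L).and H10).and (mx_ex h.pos hη κ hκ)).and
      (((H11 L).and (pos_bas h.pos)).and ((X1.and X2).and ((X3.and X4).and
        (((L1 L).and (L2 L)).and ((L3 L).and ((L6 L).and (L7 L))))))))) ?_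
  rintro J - F A ⟨⟨⟨⟨H1, H2⟩, H3, H4⟩, ⟨H5, H6⟩, H7, H8⟩, ⟨⟨H9, H10⟩, Vo, zo, hzo⟩, ⟨H11, hA⟩,
    ⟨⟨e, he, -⟩, eo, heo, -⟩, ⟨⟨UT, hUT, -⟩, UT₁, hUT₁, -⟩, ⟨L1, L2⟩, L3, L6, L7⟩
    V z V' z' hz hz' u u₁ q pa hu hu₁ hq hpa
  have hcl := isLaw_cond F.isLaw hA
  have hJ0 : (0 : ℝ) ≤ J := Nat.cast_nonneg J
  have he := (cdT m c d wh sn N kB oB tB DB lp kU oU TU DU w).mono hL1 le_rfl he
  have heo := (cdT m c d wh sn N kB oB tB DB lp kU oU TU DU o).mono hL2 le_rfl heo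
  have hu := ((jtQ m c d k od wh tl (fun i => P i o) w).prod
    (twQ m c d kT oT TT Du bt)).mono hL0 le_rfl hu
  have hu₁ := ((jtQ m c d k od wh tl (fun i => P i v) w).prod
    (twQ m c d kT oT TT Dv bt)).mono hL0 le_rfl hu₁
  have hq := ((jtQ m c d kB oB wh tB nB w).prod (twQ m c d kU oU TU nW bt)).mono hL0 le_rfl hq
  have hUT := (twQ m c d kT oT TT (fun i => PT i o) (wh (w - lp))).mono hL3 le_rfl hUT
  have hUT₁ := (twQ m c d kT oT TT (fun i => PT i v) (wh (w - lp))).mono hL4 le_rfl hUT₁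
  have hpa := (paQ m c d (wh w) (fun l => sn l (wh w)) nH nV).mono hL0 le_rfl hpa
  have hht := htO_P hpa
  -- the record at the last window
  have hZ : Mx (fun J F => ptr F J) (vg ((o : ℝ) + s)) κ F A (fun ω => (z ω, zo ω)) :=
    hz.join hA ⟨fun x => x, fun _ => rfl⟩ (vg_mono (by linarith) (by linarith) J F) hzo
  have r1₀ := H1 V z V' z' (hz.le' m1) (hz'.le' m1) e (fun ω => ((u ω).1, UT ω))
    (fun ω => ((u₁ ω).1, UT₁ ω))
    ((cdT m c d wh sn N kB oB tB DB lp kU oU TU DU w).mono le_rfl l1 he)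
    ((jtT m c d k od wh tl (fun i => P i o) lp kT oT TT (fun i => PT i o) w).mono le_rfl l1
      ⟨hu.1, hUT⟩)
    ((jtT m c d k od wh tl (fun i => P i v) lp kT oT TT (fun i => PT i v) w).mono le_rfl l1
      ⟨hu₁.1, hUT₁⟩)
  -- the change of the charts
  have s1 := L1 _ z (hz.le' m4) (fun ω => ((e ω).1.1, UT ω)) (fun ω => (u ω).2)
    ⟨(vlQ m c d wh sn N w).mono le_rfl g1 he.1.1,
      (twQ m c d kT oT TT (fun i => PT i o) (wh (w - lp))).mono le_rfl g1 hUT⟩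
    ((twQ m c d kT oT TT Du bt).mono le_rfl g1 hu.2)
  have s2 := L2 _ z (hz.le' m4) (fun ω => ((e ω).1.1, (u₁ ω).2)) UT₁
    ⟨(vlQ m c d wh sn N w).mono le_rfl g2 he.1.1,
      (twQ m c d kT oT TT Dv bt).mono le_rfl g2 hu₁.2⟩
    ((twQ m c d kT oT TT (fun i => PT i v) (wh (w - lp))).mono le_rfl g2 hUT₁)
  have s3 := L3 _ z' (hz'.le' m4) (fun ω => ((e ω).1.1, (u ω).2)) UT
    ⟨(vlQ m c d wh sn N w).mono le_rfl g3 he.1.1,
      (twQ m c d kT oT TT Du bt).mono le_rfl g3 hu.2⟩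
    ((twQ m c d kT oT TT (fun i => PT i o) (wh (w - lp))).mono le_rfl g3 hUT)
  have r1 := la_sw hcl.nonneg (q := Pool.Agent.H49.Ent.cond F.p A True) (u := u) (u₁ := u₁)
    (UT := UT) (UT₁ := UT₁) (e := e) (ev := fun ω => (e ω).1.1)
    (y := yX ((range d).image c) J F) (z := z) (z' := z') (ua := fun ω => (u ω).1)
    (ub := fun ω => (u ω).2) (va := fun ω => (u₁ ω).1) (vb := fun ω => (u₁ ω).2)
    (fun ω ω' _ _ hh => congrArg (fun t => t.1.1) hh) (fun ω ω' _ _ hh => hh)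
    (fun ω ω' _ _ hh => congrArg Prod.fst hh) (fun ω ω' _ _ hh => congrArg Prod.snd hh)
    (fun ω ω' _ _ hh => congrArg Prod.fst hh) (fun ω ω' _ _ hh => congrArg Prod.snd hh)
    r1₀ s1 s2 s3
  have r2 := (abs_le.1 (H2 V z (hz.le' m2) e
    ((cdT m c d wh sn N kB oB tB DB lp kU oU TU DU w).mono le_rfl l2 he))).2
  have r3 := (abs_le.1 (H3 _ _ (hZ.le' m3) eo
    ((cdT m c d wh sn N kB oB tB DB lp kU oU TU DU o).mono le_rfl l3 heo))).1
  have r4 := H4 V z (hz.le' m4) e (fun ω => (pa ω, q ω))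
    ((cdT m c d wh sn N kB oB tB DB lp kU oU TU DU w).mono le_rfl l4 he)
    ⟨(paQ m c d _ _ nH nV).mono le_rfl l4 hpa, ((jtQ m c d kB oB wh tB nB w).prod
      (twQ m c d kU oU TU nW bt)).mono le_rfl l4 hq⟩
  have r5 := H5 V' z' (hz'.le' m4) e (fun ω => (pa ω, q ω))
    ((cdT m c d wh sn N kB oB tB DB lp kU oU TU DU w).mono le_rfl l5 he)
    ⟨(paQ m c d _ _ nH nV).mono le_rfl l5 hpa, ((jtQ m c d kB oB wh tB nB w).prod
      (twQ m c d kU oU TU nW bt)).mono le_rfl l5 hq⟩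
  have r6₁ := H6 _ _ (hZ.le' m4) pa (fun ω => (u ω).1) ((paQ m c d _ _ nH nV).mono le_rfl l6 hpa)
    ((jtQ m c d k od wh tl (fun i => P i o) w).mono le_rfl l6 hu.1)
  have r7₁ := H7 _ _ (hZ.le' m4) pa (fun ω => (u₁ ω).1)
    ((paQ m c d _ _ nH nV).mono le_rfl l7 hpa)
    ((jtQ m c d k od wh tl (fun i => P i v) w).mono le_rfl l7 hu₁.1)
  have r6₂ := L6 _ _ (hZ.le' m4) pa (fun ω => (u ω).2) ((paQ m c d _ _ nH nV).mono le_rfl g6 hpa)
    ((twQ m c d kT oT TT Du bt).mono le_rfl g6 hu.2)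
  have r7₂ := L7 _ _ (hZ.le' m4) pa (fun ω => (u₁ ω).2)
    ((paQ m c d _ _ nH nV).mono le_rfl g7 hpa)
    ((twQ m c d kT oT TT Dv bt).mono le_rfl g7 hu₁.2)
  have hsp : ∀ {A₁ A₂ : Type} (x : F.Ω → A₁ × A₂),
      CH (Pool.Agent.H49.Ent.cond F.p A True) x (fun ω => (pa ω, ((z ω, zo ω), F.W ω))) ≤
      CH (Pool.Agent.H49.Ent.cond F.p A True) (fun ω => (x ω).1)
        (fun ω => (pa ω, ((z ω, zo ω), F.W ω))) +
      CH (Pool.Agent.H49.Ent.cond F.p A True) (fun ω => (x ω).2)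
        (fun ω => (pa ω, ((z ω, zo ω), F.W ω))) := fun x =>
    CH_subadd hcl.nonneg (fun ω => (x ω).1) (fun ω => (x ω).2)
      (fun ω => (pa ω, ((z ω, zo ω), F.W ω)))
  have hcJ : 0 ≤ (c₀ + ε) * (J : ℝ) := mul_nonneg (by linarith) (Nat.cast_nonneg _)
  have r6 := (hsp u).trans (add_le_add r6₁ r6₂)
  have r7 := (hsp u₁).trans (add_le_add r7₁ r7₂)
  have r8 := H8 V z (hz.le' m4) (fun ω => htO (pa ω)) (fun ω => fun l : Fin d => F.X J ω (c l))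
    ((htQ m c d _ _ nH).mono le_rfl l8 hht) (fun ω _ => rfl)
  have r9 := H9 _ _ (hZ.le' m4) (fun _ => ()) (fun ω => htO (pa ω)) (fun ω _ => rfl)
    ((htQ m c d _ _ nH).mono le_rfl l9 hht)
  have r10 := H10 _ _ hZ.1
  have r11 := H11 _ _ (hZ.le' m4) e eo ((cdT m c d wh sn N kB oB tB DB lp kU oU TU DU w).mono le_rfl l11 he)
    ((cdT m c d wh sn N kB oB tB DB lp kU oU TU DU o).mono le_rfl l11 heo)
  have r9' : CH (Pool.Agent.H49.Ent.cond F.p A True) (fun ω => htO (pa ω))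
      (fun ω => ((z ω, zo ω), F.W ω)) ≤
      CH (Pool.Agent.H49.Ent.cond F.p A True) (fun ω => htO (pa ω))
        (fun ω => ((), ((z ω, zo ω), F.W ω))) :=
    CH_mono_cond hcl.nonneg fun ω ω' _ _ hh => Prod.ext rfl hh
  have t1 : CH (Pool.Agent.H49.Ent.cond F.p A True) e
      (fun ω => (z ω, yX ((range d).image c) J F ω)) ≤ (θ₀ w + ε) * J := by linarith
  have t2 : (θ₀ o - ε) * J ≤ CH (Pool.Agent.H49.Ent.cond F.p A True) eo
      (fun ω => ((z ω, zo ω), yX ((range d).image c) J F ω)) := by linarith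
  have r6' : CH (Pool.Agent.H49.Ent.cond F.p A True) u
      (fun ω => ((pa ω, q ω), ((z ω, zo ω), F.W ω))) ≤
      CH (Pool.Agent.H49.Ent.cond F.p A True) u (fun ω => (pa ω, ((z ω, zo ω), F.W ω))) := by
    refine CH_mono_cond hcl.nonneg fun ω ω' _ _ hh => ?_
    have h1 := Prod.ext_iff.mp hh
    exact Prod.ext (Prod.ext_iff.mp h1.1).1 h1.2
  have r7' : CH (Pool.Agent.H49.Ent.cond F.p A True) u₁
      (fun ω => ((pa ω, q ω), ((z ω, zo ω), F.W ω))) ≤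
      CH (Pool.Agent.H49.Ent.cond F.p A True) u₁ (fun ω => (pa ω, ((z ω, zo ω), F.W ω))) := by
    refine CH_mono_cond hcl.nonneg fun ω ω' _ _ hh => ?_
    have h1 := Prod.ext_iff.mp hh
    exact Prod.ext (Prod.ext_iff.mp h1.1).1 h1.2
  have hy1 : Det (Pool.Agent.H49.Ent.cond F.p A True)
      (fun ω => ((fun l : Fin d => F.X J ω (c l)), F.W ω)) (yX ((range d).image c) J F) := by
    intro ω ω' _ _ hh
    have h1 := Prod.ext_iff.mp hh
    refine Prod.ext (funext fun i => ?_) h1.2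
    show (if i ∈ (range d).image c then F.X J ω i else 0) =
      if i ∈ (range d).image c then F.X J ω' i else 0
    split_ifs with hi
    · obtain ⟨l, hl, rfl⟩ := mem_image.1 hi
      exact congrFun h1.1 ⟨l, mem_range.1 hl⟩
    · rfl
  have hy2 : Det (Pool.Agent.H49.Ent.cond F.p A True) (yX ((range d).image c) J F)
      (fun ω => ((fun l : Fin d => F.X J ω (c l)), F.W ω)) := by
    intro ω ω' _ _ hh
    have h1 := Prod.ext_iff.mp hh
    refine Prod.ext (funext fun l => ?_) h1.2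
    have h2 := congrFun h1.1 (c l)
    have h3 : (if c l ∈ (range d).image c then F.X J ω (c l) else 0) =
      if c l ∈ (range d).image c then F.X J ω' (c l) else 0 := h2
    rw [if_pos (mem_image_of_mem c (mem_range.2 l.2)),
      if_pos (mem_image_of_mem c (mem_range.2 l.2))] at h3
    exact h3
  have key := ni_ent hcl.nonneg (q := Pool.Agent.H49.Ent.cond F.p A True) (u := u) (u₁ := u₁)
    (e := e) (eo := eo) (pa := fun ω => (pa ω, q ω)) (hh := fun ω => htO (pa ω))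
    (x := fun ω => fun l : Fin d => F.X J ω (c l)) (y := yX ((range d).image c) J F) (w := F.W)
    (z := z) (z' := z') (zo := zo)
    (k := ε * J + (c₀ + ε) * J)
    (fun ω ω' _ _ hh => congrArg htO (Prod.ext_iff.mp hh).1) hy1 hy2 r1
    (r4.trans (by linarith only [hcJ])) (r5.trans (by linarith only [hcJ]))
    (r6'.trans r6) (r7'.trans r7) r8 r10 (r9'.trans r9) t1 t2
    (r11.trans (by linarith only [hcJ]))
  -- the quantities of the second kind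
  have r4' : CH (Pool.Agent.H49.Ent.cond F.p A True) (fun ω => (q ω, pa ω))
      (fun ω => (e ω, (z ω, yX ((range d).image c) J F ω))) ≤ ε * J := by
    refine le_trans (CH_mono_left hcl.nonneg fun ω ω' _ _ hh => ?_) r4
    have h1 := Prod.ext_iff.mp (Prod.ext_iff.mp hh).1
    exact Prod.ext h1.2 h1.1
  have key2 := ni_hi hcl.nonneg (q := Pool.Agent.H49.Ent.cond F.p A True)
    (e := e) (eo := eo) (pa := fun ω => (q ω, pa ω)) (hh := fun ω => htO (pa ω))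
    (x := fun ω => fun l : Fin d => F.X J ω (c l)) (y := yX ((range d).image c) J F) (w := F.W)
    (z := z) (zo := zo) hy1 hy2 r4' r8 r10 (r9'.trans r9) t1 t2 r11
  have r12 := hzo.2 _ z' (cl2_vg (f := fun J F => ptr F J) (by linarith : (v : ℝ) + s ≤ o + s)
    ob1.le hz'.1)
  have s1 : (∑ i ∈ range d, (sn i x' - sn i (wh o) + 8 * ((i : ℝ) + 1) * φ) * Real.log 2) * J =
      (∑ i ∈ range d, (1 - nH i) * Real.log 2) * J -
      ∑ i ∈ range d, (1 - sn i x') * Real.log 2 * J +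
      (∑ i ∈ range d, (nH i - sn i (wh o) + 8 * ((i : ℝ) + 1) * φ) * Real.log 2) * J := by
    simp only [Finset.sum_mul]
    rw [← Finset.sum_sub_distrib, ← Finset.sum_add_distrib]
    refine Finset.sum_congr rfl fun i _ => ?_
    ring
  have s2 : 0 ≤ ε * J := by positivity
  have s3 : cc * J = 30 * (ε * J) := by rw [← hεc]; ring
  have s12 : κ * J ≤ ε * J := mul_le_mul_of_nonneg_right (by linarith) hJ0
  rw [add_assoc, add_assoc] at key2
  have key3 := ni_part hcl.nonneg (q := Pool.Agent.H49.Ent.cond F.p A True) (pa := pa) (h := q)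
    (hh := fun ω => htO (pa ω)) (w := F.W) (z := z) (zo := zo) (z' := z')
    (fun ω ω' _ _ hh => congrArg htO hh) key2 (r12.trans s12)
  refine ⟨key3.trans (le_of_sub_nonneg ?_), key.trans (le_of_sub_nonneg ?_)⟩
  · generalize (∑ i ∈ range d, (sn i x' - sn i (wh o) + 8 * ((i : ℝ) + 1) * φ) * Real.log 2) = T at *
    generalize (∑ i ∈ range d, (1 - nH i) * Real.log 2) = T₁ at *
    generalize (∑ i ∈ range d, (1 - sn i x') * Real.log 2 * J) = T₂ at *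
    generalize (∑ i ∈ range d, (nH i - sn i (wh o) + 8 * ((i : ℝ) + 1) * φ) * Real.log 2) = T₃ at *
    have s4 : ((θ₀ w - θ₀ o) + T + cc) * J = θ₀ w * J - θ₀ o * J + T * J + cc * J := by ring
    have s6 : (T₁ + ε) * J = T₁ * J + ε * J := by ring
    have s7 : (T₃ + ε) * J = T₃ * J + ε * J := by ring
    have s8 : (θ₀ w + ε) * J = θ₀ w * J + ε * J := by ring
    have s9 : (θ₀ o - ε) * J = θ₀ o * J - ε * J := by ring
    rw [s4, s6, s7, s8, s9, s1, s3]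
    linarith
  · generalize (∑ i ∈ range d, (sn i x' - sn i (wh o) + 8 * ((i : ℝ) + 1) * φ) * Real.log 2) = T at *
    generalize (∑ i ∈ range d, (1 - nH i) * Real.log 2) = T₁ at *
    generalize (∑ i ∈ range d, (1 - sn i x') * Real.log 2 * J) = T₂ at *
    generalize (∑ i ∈ range d, (nH i - sn i (wh o) + 8 * ((i : ℝ) + 1) * φ) * Real.log 2) = T₃ at *
    have s4 : (θ w o - θ w v - θ v o + (θ₀ w - θ₀ o) + T + cc + 8 * c₀) * J =
      (θ w o - θ w v - θ v o) * J + θ₀ w * J - θ₀ o * J + T * J + cc * J + 8 * (c₀ * J) := by ring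
    have s10 : (c₀ + ε) * J = c₀ * J + ε * J := by ring
    have s5 : (θ w o - θ w v - θ v o + ε) * J = (θ w o - θ w v - θ v o) * J + ε * J := by ring
    have s6 : (T₁ + ε) * J = T₁ * J + ε * J := by ring
    have s7 : (T₃ + ε) * J = T₃ * J + ε * J := by ring
    have s8 : (θ₀ w + ε) * J = θ₀ w * J + ε * J := by ring
    have s9 : (θ₀ o - ε) * J = θ₀ o * J - ε * J := by ring
    rw [s4, s5, s6, s7, s8, s9, s1, s3]
    linarith

end

end Pool.LPT30
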