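import Pool.Agent.H30.LPT.Twc

/-!
# The numbers of the condition and of the jets, the chain and one more place

`OwnI`: digits which are natural at the index `u` over the charts of all earlier indices. `pfT`: the
digits of the jets of the first kind. `EIxT`, `AdmT`: admissible rational data. `ndt_cls`: one
subclass with the numbers for all admissible data. `ndt_ae`: at almost every point with good data of
arbitrarily small intervals, for every `e` there are data for which the numbers of the targets are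
additive and the number of the condition is constant, up to `e r` in the boxes of size `r`.
-/

set_option autoImplicit false

namespace Pool.LPT30

open Finset Real MvPolynomial MeasureTheory Set
open Pool.Agent.H49.Ent Pool.Agent.H32.Dense Pool.STK Pool.KA Pool.KSAT Pool.K2S Pool.PB Pool.S6C
  Pool.GEN Pool.RCD Pool.LA91
open Pool.OWN83 (TwoRelS TRelS rel_clsS)
open Pool.LP30 Pool.LPJ30

variable {m : ℕ} {α γ : ∀ J : ℕ, Fam m J → Type}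
  {f : ∀ (J : ℕ) (F : Fam m J), F.Ω → α J F} {y : ∀ (J : ℕ) (F : Fam m J), F.Ω → γ J F}
  {S : PCl m}

/-- **Natural digits** at the index `u` over the charts of all indices between `a₁` and `u`. -/
def OwnI (wh : ℚ → ℝ) (T T₀ : ℝ → ℝ) (j : ℕ) (a₁ u : ℚ) (x : ℝ) : Prop :=
  ∃ n : ℕ, ∀ w w' : ℚ, a₁ ≤ w → w ≤ w' → w' ≤ u → w' ≤ w + 1 / ((n : ℚ) + 1) →
    x + j * wh u ≤ T (wh w) + (T₀ (wh u) - T₀ (wh w'))

/-- The levels with steps at most `1 / (n + 1)`. -/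
noncomputable def DgT (wh : ℚ → ℝ) (T T₀ : ℝ → ℝ) (a₁ u : ℚ) (n : ℕ) : ℝ :=
  sInf {x | ∃ w w' : ℚ, a₁ ≤ w ∧ w ≤ w' ∧ w' ≤ u ∧ w' ≤ w + 1 / ((n : ℚ) + 1) ∧
    x = T (wh w) - T₀ (wh w')}

/-- The levels. -/
noncomputable def LgT (wh : ℚ → ℝ) (T T₀ : ℝ → ℝ) (a₁ u : ℚ) : ℝ := ⨆ n, DgT wh T T₀ a₁ u n

/-- **The digits of the jets of the first kind** at the index `v`. -/
noncomputable def pfT (wh : ℚ → ℝ) (T T₀ : ℝ → ℝ) (j : ℕ) (a₁ b v : ℚ) : ℝ :=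
  sInf ((fun u : ℚ => LgT wh T T₀ a₁ u + T₀ (wh u) - j * wh u) '' {u : ℚ | v ≤ u ∧ u < b})

section levels

variable {c : ℕ → Fin m} {d : ℕ} {s a b : ℝ} {wh : ℚ → ℝ} {sn : ℕ → ℝ → ℝ} {G : Set ℝ}
  {k : Fin m} {T : ℝ → ℝ} {a₁ : ℚ} {j : ℕ}

/-- **A finite sequence** of windows. -/
theorem tel_of {n : ℕ} {q₀ v : ℚ} {N : ℝ} (h0 : a₁ ≤ q₀) (h1 : q₀ ≤ v)
    (hg : ∀ q, q₀ ≤ q → q ≤ v → wh q ∈ G)
    (hm : ∀ q q', q₀ ≤ q → q ≤ q' → q' ≤ v → wh q ≤ wh q')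
    (hx : ∀ w w' : ℚ, a₁ ≤ w → w ≤ w' → w' ≤ v → w' ≤ w + 1 / ((n : ℚ) + 1) →
      N + j * wh v ≤ T (wh w) + (sn d (wh v) - sn d (wh w'))) :
    ∃ (Bs : ℕ → ℝ) (M : ℕ), Bs 0 = wh q₀ ∧ Bs M = wh v ∧ TelC sn d T G Bs M j N (wh v) := by
  have hn : (0 : ℚ) < 1 / ((n : ℚ) + 1) := by positivity
  obtain ⟨q, hq⟩ : ∃ q : ℕ → ℚ, q = fun i : ℕ =>
    min v (q₀ + (i : ℚ) * (1 / ((n : ℚ) + 1))) := ⟨_, rfl⟩
  have hq0 : q 0 = q₀ := by rw [hq]; simp [h1]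
  have hqm : ∀ i, q i ≤ q (i + 1) := by
    intro i
    rw [hq]
    refine min_le_min le_rfl ?_
    push_cast
    nlinarith
  have hql : ∀ i, q₀ ≤ q i := by
    intro i
    induction i with
    | zero => rw [hq0]
    | succ i ih => exact ih.trans (hqm i)
  have hqv : ∀ i, q i ≤ v := fun i => by rw [hq]; exact min_le_left _ _
  have hqs : ∀ i, q (i + 1) ≤ q i + 1 / ((n : ℚ) + 1) := by
    intro i
    rw [hq]
    simp only
    rcases min_choice v (q₀ + i * (1 / ((n : ℚ) + 1))) with h | h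
    · rw [h]
      exact (min_le_left _ _).trans (by linarith)
    · rw [h]
      refine (min_le_right _ _).trans ?_
      push_cast
      linarith
  obtain ⟨M, hM⟩ := exists_nat_ge ((v - q₀) * ((n : ℚ) + 1))
  have hqM : q M = v := by
    rw [hq]
    refine min_eq_left ?_
    have h3 : (0 : ℚ) < (n : ℚ) + 1 := by positivity
    rw [mul_one_div, ← sub_le_iff_le_add', le_div_iff₀ h3]
    exact hM
  refine ⟨fun i => wh (q i), M, by simp only [hq0], by simp only [hqM],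
    fun i _ => hg _ (hql i) (hqv i), fun i _ => hm _ _ (hql i) (hqm i) (hqv (i + 1)), ?_, ?_,
    fun i _ => ?_⟩
  · simp only [hqM]; exact le_rfl
  · simp only [hq0]
    exact hx _ _ h0 le_rfl h1 (by linarith)
  · exact hx _ _ (h0.trans (hql i)) (hqm i) (hqv (i + 1)) (hqs i)

variable (h : VCh S f y c d s a b wh sn G)
  (mT : ∀ w ∈ G, ∀ v ∈ G, w ≤ v → T w ≤ T v)
  (m0 : ∀ w ∈ G, ∀ v ∈ G, w ≤ v → sn d w ≤ sn d v)

include h mT m0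

theorem dg_low (ha : a < a₁) {u w w' : ℚ} (hub : (u : ℝ) < b) (h1 : a₁ ≤ w) (h2 : w ≤ w')
    (h3 : w' ≤ u) : T (wh a₁) - sn d (wh u) ≤ T (wh w) - sn d (wh w') := by
  have e1 : (a₁ : ℝ) ≤ w := by exact_mod_cast h1
  have e2 : (w : ℝ) ≤ w' := by exact_mod_cast h2
  have e3 : (w' : ℝ) ≤ u := by exact_mod_cast h3
  have g1 := (h.wg a₁ ha (by linarith)).1
  have g2 := (h.wg w (by linarith) (by linarith)).1
  have g3 := (h.wg w' (by linarith) (by linarith)).1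
  have g4 := (h.wg u (by linarith) hub).1
  have e4 := mT _ g1 _ g2 (h.wm a₁ w ha h1 (by linarith))
  have e5 := m0 _ g3 _ g4 (h.wm w' u (by linarith) h3 hub)
  linarith

theorem dg_bdd (ha : a < a₁) {u : ℚ} (hub : (u : ℝ) < b) (n : ℕ) :
    BddBelow {x | ∃ w w' : ℚ, a₁ ≤ w ∧ w ≤ w' ∧ w' ≤ u ∧ w' ≤ w + 1 / ((n : ℚ) + 1) ∧
      x = T (wh w) - sn d (wh w')} := by
  refine ⟨T (wh a₁) - sn d (wh u), ?_⟩
  rintro _ ⟨w, w', h1, h2, h3, -, rfl⟩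
  exact dg_low h mT m0 ha hub h1 h2 h3

theorem dg_le (ha : a < a₁) {u : ℚ} (hu : a₁ ≤ u) (hub : (u : ℝ) < b) (n : ℕ) :
    DgT wh T (sn d) a₁ u n ≤ T (wh u) - sn d (wh u) := by
  have hn : (0 : ℚ) < 1 / ((n : ℚ) + 1) := by positivity
  exact csInf_le (dg_bdd h mT m0 ha hub n) ⟨u, u, hu, le_rfl, le_rfl, by linarith, rfl⟩

theorem lg_bdd (ha : a < a₁) {u : ℚ} (hu : a₁ ≤ u) (hub : (u : ℝ) < b) :
    BddAbove (range (DgT wh T (sn d) a₁ u)) := by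
  refine ⟨T (wh u) - sn d (wh u), ?_⟩
  rintro _ ⟨n, rfl⟩
  exact dg_le h mT m0 ha hu hub n

theorem lg_low (ha : a < a₁) {u : ℚ} (hu : a₁ ≤ u) (hub : (u : ℝ) < b) :
    T (wh a₁) - sn d (wh u) ≤ LgT wh T (sn d) a₁ u := by
  refine le_trans (le_csInf ?_ ?_) (le_ciSup (lg_bdd h mT m0 ha hu hub) 0)
  · exact ⟨_, u, u, hu, le_rfl, le_rfl, by norm_num, rfl⟩
  · rintro _ ⟨w, w', h1, h2, h3, -, rfl⟩
    exact dg_low h mT m0 ha hub h1 h2 h3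

theorem pfT_bdd (ha : a < a₁) {v bq : ℚ} (hv : a₁ ≤ v) (hb : (bq : ℝ) ≤ b) :
    BddBelow ((fun u : ℚ => LgT wh T (sn d) a₁ u + sn d (wh u) - j * wh u) ''
      {u : ℚ | v ≤ u ∧ u < bq}) := by
  refine ⟨T (wh a₁) - j, ?_⟩
  rintro _ ⟨u, ⟨h1, h2⟩, rfl⟩
  have h2' : (u : ℝ) < bq := by exact_mod_cast h2
  have h3 : (a₁ : ℝ) ≤ u := by exact_mod_cast hv.trans h1
  have h4 := lg_low h mT m0 ha (hv.trans h1) (by linarith : (u : ℝ) < b)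
  obtain ⟨u₁, rd, hrd, hch⟩ := h.ch.ch _ (h.wg u (by linarith) (by linarith)).1
  have h5 : (j : ℝ) * wh u ≤ j * 1 := mul_le_mul_of_nonneg_left hch.u0.le (Nat.cast_nonneg _)
  simp only
  linarith

theorem pfT_le (ha : a < a₁) {v bq : ℚ} (hv : a₁ ≤ v) (hvb : v < bq) (hb : (bq : ℝ) ≤ b) :
    pfT wh T (sn d) j a₁ bq v ≤ LgT wh T (sn d) a₁ v + sn d (wh v) - j * wh v :=
  csInf_le (pfT_bdd h mT m0 ha hv hb) ⟨v, ⟨le_rfl, hvb⟩, rfl⟩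

theorem own_of_lt (ha : a < a₁) {v bq : ℚ} (hv : a₁ ≤ v) (hvb : v < bq) (hb : (bq : ℝ) ≤ b)
    {N : ℝ} (hN : N < pfT wh T (sn d) j a₁ bq v) : OwnI wh T (sn d) j a₁ v N := by
  have hvb' : (v : ℝ) < b := lt_of_lt_of_le (by exact_mod_cast hvb) hb
  have h1 := pfT_le (j := j) h mT m0 ha hv hvb hb
  have h2 : N + j * wh v - sn d (wh v) < ⨆ n, DgT wh T (sn d) a₁ v n := by
    have h3 : LgT wh T (sn d) a₁ v = ⨆ n, DgT wh T (sn d) a₁ v n := rfl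
    linarith
  obtain ⟨n, hn⟩ := exists_lt_of_lt_ciSup h2
  refine ⟨n, fun w w' e1 e2 e3 e4 => ?_⟩
  have h4 := csInf_le (dg_bdd h mT m0 ha hvb' n) ⟨w, w', e1, e2, e3, e4, rfl⟩
  have h5 : DgT wh T (sn d) a₁ v n ≤ T (wh w) - sn d (wh w') := h4
  linarith

theorem le_pfT (ha : a < a₁) {v bq : ℚ} (hv : a₁ ≤ v) (hvb : v < bq) (hb : (bq : ℝ) ≤ b)
    {x : ℝ} (hx : ∀ u : ℚ, v ≤ u → u < bq → OwnI wh T (sn d) j a₁ u x) :
    x ≤ pfT wh T (sn d) j a₁ bq v := by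
  refine le_csInf ⟨_, ⟨v, ⟨le_rfl, hvb⟩, rfl⟩⟩ ?_
  rintro _ ⟨u, ⟨u1, u2⟩, rfl⟩
  obtain ⟨n, hn⟩ := hx u u1 u2
  have hub : (u : ℝ) < b := lt_of_lt_of_le (by exact_mod_cast u2) hb
  have h1 : x + j * wh u - sn d (wh u) ≤ DgT wh T (sn d) a₁ u n := by
    refine le_csInf ⟨_, u, u, hv.trans u1, le_rfl, le_rfl, ?_, rfl⟩ ?_
    · have : (0 : ℚ) < 1 / ((n : ℚ) + 1) := by positivity
      linarith
    · rintro _ ⟨w, w', e1, e2, e3, e4, rfl⟩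
      linarith [hn w w' e1 e2 e3 e4]
  have h2 := le_ciSup (lg_bdd h mT m0 ha (hv.trans u1) hub) n
  have h3 : DgT wh T (sn d) a₁ u n ≤ LgT wh T (sn d) a₁ u := h2
  simp only
  linarith

omit mT m0 in
/-- **The sequence of windows** from natural digits. -/
theorem OwnI.tel (ha : a < a₁) {w v lp : ℚ} (hw : a₁ ≤ w - lp) (hwv : w - lp ≤ v)
    (hvb : (v : ℝ) < b) {N : ℝ} (hN : OwnI wh T (sn d) j a₁ v N) :
    ∃ (Bs : ℕ → ℝ) (M : ℕ), Bs 0 = wh (w - lp) ∧ Bs M = wh v ∧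
      TelC sn d T G Bs M j N (wh v) := by
  obtain ⟨n, hn⟩ := hN
  have ha1 : (a₁ : ℝ) ≤ ((w - lp : ℚ) : ℝ) := by exact_mod_cast hw
  refine tel_of hw hwv (fun q e1 e2 => (h.wg q ?_ ?_).1) (fun q q' e1 e2 e3 => h.wm q q' ?_ e2 ?_)
    hn
  · have : ((w - lp : ℚ) : ℝ) ≤ q := by exact_mod_cast e1
    linarith
  · have : (q : ℝ) ≤ v := by exact_mod_cast e2
    linarith
  · have : ((w - lp : ℚ) : ℝ) ≤ q := by exact_mod_cast e1
    linarith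
  · have : (q' : ℝ) ≤ v := by exact_mod_cast e3
    linarith

end levels

/-- Rational data: the digits, the levels, the room, the interval, the step, the charts. -/
structure EIxT (d n' nU : ℕ) where
  N : Fin d → ℚ
  D : Fin n' → ℚ
  DU : Fin nU → ℚ
  lv : Fin d → ℚ
  σ₀ : ℚ
  a : ℚ
  b : ℚ
  lam : ℚ
  lp : ℚ

instance (d n' nU : ℕ) : Countable (EIxT d n' nU) := by
  have h : Function.Injective (fun i : EIxT d n' nU =>
      (i.N, i.D, i.DU, i.lv, i.σ₀, i.a, i.b, i.lam, i.lp)) := by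
    rintro ⟨a1, a2, a3, a4, a5, a6, a7, a8, a9⟩ ⟨b1, b2, b3, b4, b5, b6, b7, b8, b9⟩ h
    simp only [Prod.mk.injEq] at h
    obtain ⟨rfl, rfl, rfl, rfl, rfl, rfl, rfl, rfl, rfl⟩ := h
    rfl
  exact h.countable

/-- The digits of the jets of the second kind. -/
def EIxT.DB {d n' nU : ℕ} (i : EIxT d n' nU) (j : Fin n') : ℝ := i.D j

/-- The digits of the jets of the second kind, the chain and one more place. -/
def EIxT.DV {d n' nU : ℕ} (i : EIxT d n' nU) (j : Fin nU) : ℝ := i.DU j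

/-- **Admissible data.** -/
structure AdmT {n n' nT nU : ℕ} (wh : ℚ → ℝ) (sn : ℕ → ℝ → ℝ) (d : ℕ) (G : Set ℝ)
    (tl : Fin n → ℚ → ℝ) (oB : Fin n' → ℕ) (tB : Fin n' → ℚ → ℝ) (oT : Fin nT → ℕ)
    (TT : Fin nT → ℝ → ℝ) (oU : Fin nU → ℕ) (TU : Fin nU → ℝ → ℝ) (a b : ℝ)
    (i : EIxT d n' nU) : Prop where
  ed : EdJ wh sn d (exN i.N) (exN i.lv) i.σ₀ i.a i.b i.lam G
  tg : TgS wh d (exN i.lv) i.σ₀ i.a i.b i.lam tl
  bd : BdB wh d (exN i.lv) i.σ₀ i.a i.b i.lam oB tB i.DB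
  tw : TwD wh sn d (exN i.lv) i.σ₀ i.lp i.a i.b i.lam oT TT oU TU i.DV
  lam0 : 0 < i.lam
  ha : a < (i.a : ℝ) - i.lp
  hb : (i.b : ℝ) ≤ b
  lp1 : 0 < i.lp
  nu : ∀ j, ∀ w : ℚ, (i.a : ℝ) < w → (w : ℝ) < i.b →
    TU j (wh w) - oU j * wh w + i.σ₀ ≤ i.DV j

section

variable {c : ℕ → Fin m} {d : ℕ} {s a b : ℝ} {wh : ℚ → ℝ} {sn : ℕ → ℝ → ℝ} {G : Set ℝ}
  {n n' nT nU : ℕ} {k : Fin n → Fin m} {od : Fin n → ℕ} {tl : Fin n → ℚ → ℝ}
  {kB : Fin n' → Fin m} {oB : Fin n' → ℕ} {tB : Fin n' → ℚ → ℝ}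
  {kT : Fin nT → Fin m} {oT : Fin nT → ℕ}
  {TT : Fin nT → ℝ → ℝ} {kU : Fin nU → Fin m} {oU : Fin nU → ℕ} {TU : Fin nU → ℝ → ℝ}

/-- **The digits `pfT`.** -/
theorem pfT_jt (h : VCh S f y c d s a b wh sn G) (hI : TwI S c d sn G kT TT kU TU)
    {aq bq lp : ℚ} {lam : ℝ} (lp0 : 0 ≤ lp) (ha : a < (aq : ℝ) - lp) (hb : (bq : ℝ) ≤ b) :
    JtT sn d G wh lp aq bq lam oT TT (fun i => pfT wh (TT i) (sn d) (oT i) (aq - lp) bq) where
  mono := fun i w v h1 h2 h3 => by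
    have h1' : aq < w := by exact_mod_cast h1
    have h3' : v < bq := by exact_mod_cast h3
    have ha' : a < ((aq - lp : ℚ) : ℝ) := by push_cast; exact ha
    refine csInf_le_csInf (pfT_bdd (j := oT i) h (hI.tT i).mono (hI.mn d le_rfl) ha'
      (by linarith) hb) ⟨_, ⟨v, ⟨le_rfl, h3'⟩, rfl⟩⟩ ?_
    rintro _ ⟨u, ⟨u1, u2⟩, rfl⟩
    exact ⟨u, ⟨h2.trans u1, u2⟩, rfl⟩
  le := fun i w h1 h2 => by
    have h1' : aq < w := by exact_mod_cast h1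
    have h2' : w < bq := by exact_mod_cast h2
    have ha' : a < ((aq - lp : ℚ) : ℝ) := by push_cast; exact ha
    have h3 := pfT_le (j := oT i) h (hI.tT i).mono (hI.mn d le_rfl) ha'
      (v := w) (by linarith) h2' hb
    have h4 : LgT wh (TT i) (sn d) (aq - lp) w ≤ TT i (wh w) - sn d (wh w) :=
      ciSup_le fun n => dg_le h (hI.tT i).mono (hI.mn d le_rfl) ha' (by linarith)
        (by linarith) n
    linarith
  own := fun i w v h1 h2 h3 _ N hN => by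
    have h1' : aq < w := by exact_mod_cast h1
    have h3' : v < bq := by exact_mod_cast h3
    have ha' : a < ((aq - lp : ℚ) : ℝ) := by push_cast; exact ha
    exact OwnI.tel h ha' (by linarith) (by linarith) (by linarith)
      (own_of_lt h (hI.tT i).mono (hI.mn d le_rfl) ha' (by linarith) h3' hb hN)

/-- **The numbers** for all admissible data. -/
def NtN (S : PCl m) (f : ∀ (J : ℕ) (F : Fam m J), F.Ω → α J F)
    (y : ∀ (J : ℕ) (F : Fam m J), F.Ω → γ J F) (c : ℕ → Fin m) (d : ℕ) (s a b : ℝ) (wh : ℚ → ℝ)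
    (sn : ℕ → ℝ → ℝ) (G : Set ℝ) {n n' nT nU : ℕ} (k : Fin n → Fin m) (od : Fin n → ℕ)
    (tl : Fin n → ℚ → ℝ) (kB : Fin n' → Fin m) (oB : Fin n' → ℕ) (tB : Fin n' → ℚ → ℝ)
    (kT : Fin nT → Fin m) (oT : Fin nT → ℕ) (TT : Fin nT → ℝ → ℝ)
    (kU : Fin nU → Fin m) (oU : Fin nU → ℕ) (TU : Fin nU → ℝ → ℝ)
    (θ₀ : EIxT d n' nU → ℚ → ℝ) (θ : EIxT d n' nU → ℚ → ℚ → ℝ) : Prop :=
  ∀ i, AdmT wh sn d G tl oB tB oT TT oU TU a b i → TRelS S f y s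
    (cdT m c d wh sn (exN i.N) kB oB tB i.DB i.lp kU oU TU i.DV)
    (fun w o => jtT m c d k od wh tl (fun j => pfQ wh od tl i.b j o) i.lp kT oT TT
      (fun j => pfT wh (TT j) (sn d) (oT j) (i.a - i.lp) i.b o) w)
    i.a i.b i.lam (θ₀ i) (θ i)

/-- The family for admissible data. -/
theorem AdmT.rel (h : VCh S f y c d s a b wh sn G) (hI : TwI S c d sn G kT TT kU TU)
    (hT : TgC S c d wh a b k tl)
    (hB : TgC S c d wh a b kB tB) {i : EIxT d n' nU}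
    (hi : AdmT wh sn d G tl oB tB oT TT oU TU a b i) : TwoRelS S f y s
      (cdT m c d wh sn (exN i.N) kB oB tB i.DB i.lp kU oU TU i.DV)
      (fun w o => jtT m c d k od wh tl (fun j => pfQ wh od tl i.b j o) i.lp kT oT TT
        (fun j => pfT wh (TT j) (sn d) (oT j) (i.a - i.lp) i.b o) w) i.a i.b i.lam := by
  have hlp : (0 : ℝ) ≤ i.lp := by exact_mod_cast hi.tw.lp0
  have ha : a ≤ (i.a : ℝ) := by linarith [hi.ha]
  exact rel_T (h.cut (a' := a) (b' := i.b) le_rfl hi.hb) hI hi.ha (by exact_mod_cast hi.lam0)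
    hi.ed (hT.cut ha hi.hb) hi.tg (pf_jtP h hT ha hi.hb) (hB.cut ha hi.hb) hi.bd hi.tw
    (pfT_jt h hI hi.tw.lp0 hi.ha hi.hb)

/-- **One subclass** with the numbers for all admissible data. -/
theorem ndt_cls (h : VCh S f y c d s a b wh sn G) (hI : TwI S c d sn G kT TT kU TU)
    (hT : TgC S c d wh a b k tl)
    (hB : TgC S c d wh a b kB tB) (od : Fin n → ℕ) (oB : Fin n' → ℕ) (oT : Fin nT → ℕ)
    (oU : Fin nU → ℕ) :
    ∃ S' : PCl m, S'.Ne ∧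
      (∀ (τ : ℝ) (J : ℕ) (F : Fam m J) (A : F.Ω → Prop), S'.St τ J F A → S.St τ J F A) ∧
      ∃ (θ₀ : EIxT d n' nU → ℚ → ℝ) (θ : EIxT d n' nU → ℚ → ℚ → ℝ),
        NtN S' f y c d s a b wh sn G k od tl kB oB tB kT oT TT kU oU TU θ₀ θ := by
  classical
  obtain ⟨S', h1, h2, h3⟩ := rel_clsS
    (ι := {i : EIxT d n' nU // AdmT wh sn d G tl oB tB oT TT oU TU a b i})
    h.ne h.pos (fun _ => ((Fin d → ℤ) × (Fin n' → ℤ)) × (Fin nU → ℤ))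
    (fun _ => (Fin n → ℤ) × (Fin nT → ℤ)) (fun _ => α)
    (fun _ => γ) (fun _ => f) (fun _ => y)
    (fun _ => s) (fun i => cdT m c d wh sn (exN i.1.N) kB oB tB i.1.DB i.1.lp kU oU TU i.1.DV)
    (fun i w o => jtT m c d k od wh tl (fun j => pfQ wh od tl i.1.b j o) i.1.lp kT oT TT
      (fun j => pfT wh (TT j) (sn d) (oT j) (i.1.a - i.1.lp) i.1.b o) w)
    (fun i => i.1.a) (fun i => i.1.b) (fun i => i.1.lam) (fun i => i.2.rel h hI hT hB)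
    (fun i => by exact_mod_cast i.2.lam0)
  choose θ₀ θ hθ using h3
  refine ⟨S', h1, h2, fun i => if hi : AdmT wh sn d G tl oB tB oT TT oU TU a b i then
      θ₀ ⟨i, hi⟩ else fun _ => 0,
    fun i => if hi : AdmT wh sn d G tl oB tB oT TT oU TU a b i then θ ⟨i, hi⟩ else fun _ _ => 0,
    fun i hi => ?_⟩
  simp only [dif_pos hi]
  exact hθ ⟨i, hi⟩

/-- **Good data on arbitrarily small intervals**: few digits compared with the length. -/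
def CrT {n n' nT nU : ℕ} (wh : ℚ → ℝ) (sn : ℕ → ℝ → ℝ) (d : ℕ) (G : Set ℝ) (tl : Fin n → ℚ → ℝ)
    (oB : Fin n' → ℕ) (tB : Fin n' → ℚ → ℝ) (oT : Fin nT → ℕ) (TT : Fin nT → ℝ → ℝ)
    (oU : Fin nU → ℕ) (TU : Fin nU → ℝ → ℝ) (a b g : ℝ) : Prop :=
  ∀ ε : ℝ, 0 < ε → ∀ δ₀ : ℝ, 0 < δ₀ → ∃ δ : ℝ, 0 < δ ∧ δ ≤ δ₀ ∧ ∃ i : EIxT d n' nU,
    AdmT wh sn d G tl oB tB oT TT oU TU a b i ∧ i.a < g - δ ∧ g + δ < i.b ∧
    (i.b : ℝ) - i.a ≤ 4 * δ ∧ (i.lp : ℝ) ≤ δ ∧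
    ∃ PU : Fin nU → ℝ, BdT sn d G wh i.lp i.a i.b oU TU i.DV PU ∧
    ∀ w : ℚ, i.a < w → w < i.b →
      (∑ l : Fin d, Real.log 2 * (exN i.N l - (sn l (wh w) - wh w)) +
        ∑ j : Fin n', Real.log 2 * (i.DB j - (tB j w - oB j * wh w))) +
        ∑ j : Fin nU, Real.log 2 * (i.DV j - PU j) ≤ ε * δ

/-- **The data for `e`** at `g`, an interval of length at most `ρ`. -/
def GdT {n n' nT nU : ℕ} (wh : ℚ → ℝ) (sn : ℕ → ℝ → ℝ) (d : ℕ) (G : Set ℝ) (tl : Fin n → ℚ → ℝ)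
    (oB : Fin n' → ℕ) (tB : Fin n' → ℚ → ℝ) (oT : Fin nT → ℕ) (TT : Fin nT → ℝ → ℝ)
    (oU : Fin nU → ℕ) (TU : Fin nU → ℝ → ℝ) (a b : ℝ)
    (θ₀ : EIxT d n' nU → ℚ → ℝ) (θ : EIxT d n' nU → ℚ → ℚ → ℝ) (g e ρ : ℝ)
    (i : EIxT d n' nU) : Prop :=
  AdmT wh sn d G tl oB tB oT TT oU TU a b i ∧ i.a < g ∧ g < i.b ∧ (i.b : ℝ) - i.a ≤ ρ ∧
  (i.lp : ℝ) ≤ ρ ∧
  ∃ r₀ : ℝ, 0 < r₀ ∧ ∀ r : ℝ, 0 < r → r < r₀ →
    (∀ w v o : ℚ, g - r ≤ w → w ≤ v → v ≤ o → (o : ℝ) ≤ g + r →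
      θ i w o - θ i w v - θ i v o ≤ e * r) ∧
    ∀ w v : ℚ, g - r ≤ w → w ≤ v → (v : ℝ) ≤ g + r → θ₀ i w - θ₀ i v ≤ e * r

/-- **Data for all `e`**, at almost every point. -/
theorem ndt_ae (h : VCh S f y c d s a b wh sn G) (hI : TwI S c d sn G kT TT kU TU)
    (hT : TgC S c d wh a b k tl) (hB : TgC S c d wh a b kB tB)
    {θ₀ : EIxT d n' nU → ℚ → ℝ} {θ : EIxT d n' nU → ℚ → ℚ → ℝ}
    (hN : NtN S f y c d s a b wh sn G k od tl kB oB tB kT oT TT kU oU TU θ₀ θ) :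
    ∀ᵐ g : ℝ, CrT wh sn d G tl oB tB oT TT oU TU a b g → ∀ e : ℝ, 0 < e → ∀ ρ : ℝ, 0 < ρ →
      ∃ i, GdT wh sn d G tl oB tB oT TT oU TU a b θ₀ θ g e ρ i := by
  have hal : ∀ i : EIxT d n' nU, AdmT wh sn d G tl oB tB oT TT oU TU a b i → a ≤ (i.a : ℝ) := by
    intro i hi
    have hlp : (0 : ℝ) ≤ i.lp := by exact_mod_cast hi.tw.lp0
    linarith [hi.ha]
  have hla : ∀ᵐ g : ℝ, ∀ i : {i : EIxT d n' nU // AdmT wh sn d G tl oB tB oT TT oU TU a b i},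
      g ∈ Ioo (i.1.a : ℝ) i.1.b → ∀ e : ℝ, 0 < e →
      ∃ r₀ : ℝ, 0 < r₀ ∧ ∀ r : ℝ, 0 < r → r < r₀ →
      ∀ w v o : ℚ, g - r ≤ w → w ≤ v → v ≤ o → (o : ℝ) ≤ g + r →
        θ i.1 w o - θ i.1 w v - θ i.1 v o ≤ e * r := by
    rw [ae_all_iff]
    intro i
    have hc := h.cut (hal i.1 i.2) i.2.hb
    exact TRelS.ae hc.ne hc.pos hc.b1.le (by exact_mod_cast i.2.lam0) hc.rn
      (i.2.rel h hI hT hB) (hN i.1 i.2)
  have hdr : ∀ᵐ g : ℝ, ∀ ρ : ℚ, 0 < ρ → CrT wh sn d G tl oB tB oT TT oU TU a b g →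
      ∀ e : ℝ, 0 < e →
      ∃ i : {i : EIxT d n' nU // AdmT wh sn d G tl oB tB oT TT oU TU a b i ∧
        ((i.b : ℝ) - i.a ≤ ρ ∧ (i.lp : ℝ) ≤ ρ)},
        i.1.a < g ∧ g < i.1.b ∧ ∃ r₀ : ℝ, 0 < r₀ ∧
        ∀ r : ℝ, 0 < r → r < r₀ → ∀ w v : ℚ, g - r ≤ w → w ≤ v → (v : ℝ) ≤ g + r →
          θ₀ i.1 w - θ₀ i.1 v ≤ e * r := by
    rw [ae_all_iff]
    intro ρ
    by_cases hρ : 0 < ρ
    swap
    · exact Filter.Eventually.of_forall fun g h => absurd h hρ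
    have h1 := drop_ae
      (ι := {i : EIxT d n' nU // AdmT wh sn d G tl oB tB oT TT oU TU a b i ∧
        ((i.b : ℝ) - i.a ≤ ρ ∧ (i.lp : ℝ) ≤ ρ)})
      (fun i => (i.1.a : ℝ))
      (fun i => (i.1.b : ℝ)) (fun i => θ₀ i.1) (fun i w v e1 e2 e3 => by
        exact T_anti (h.cut (a' := a) (b' := i.1.b) le_rfl i.2.1.hb) hI i.2.1.ha
          (by exact_mod_cast i.2.1.lam0) i.2.1.ed
          (hB.cut (hal i.1 i.2.1) i.2.1.hb) i.2.1.bd i.2.1.tw (hN i.1 i.2.1).n₀ w v e1 e2 e3)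
      {g | CrT wh sn d G tl oB tB oT TT oU TU a b g} (by
        intro g hg ε hε δ₀ hδ₀
        have hρ' : (0 : ℝ) < ρ := by exact_mod_cast hρ
        obtain ⟨δ, hδ, hδ1, i, hi, i1, i2, i4, i5, PU, hPU, i3⟩ := hg ε hε (min δ₀ (ρ / 4))
          (lt_min hδ₀ (by positivity))
        have hδρ := hδ1.trans (min_le_right _ _)
        refine ⟨δ, hδ, hδ1.trans (min_le_left _ _), ⟨i, hi, by linarith, by linarith⟩, i1, i2,
          fun w v e1 e2 e3 => ?_⟩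
        have hc := h.cut (a' := a) (b' := i.b) le_rfl hi.hb
        have e2' : (w : ℝ) ≤ v := by exact_mod_cast e2
        have wa : (i.a : ℝ) < w := by linarith
        have wb : (w : ℝ) < i.b := by linarith
        have va : (i.a : ℝ) < v := by linarith
        have vb : (v : ℝ) < i.b := by linarith
        have k1 := T_le hc hI hi.ha (by exact_mod_cast hi.lam0) hi.ed
          (hB.cut (hal i hi) hi.hb) hi.bd hi.tw hPU wa wb ((hN i hi).n₀ w wa wb)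
        have k2 := T_le hc hI hi.ha (by exact_mod_cast hi.lam0) hi.ed
          (hB.cut (hal i hi) hi.hb) hi.bd hi.tw hPU va vb ((hN i hi).n₀ v va vb)
        have k3 := i3 w (by exact_mod_cast wa) (by exact_mod_cast wb)
        simp only
        linarith [k1.2, k2.1])
    filter_upwards [h1] with g h2 _ hg e he
    exact h2 hg e he
  filter_upwards [hla, hdr] with g h1 h2 hg e he ρ hρ
  obtain ⟨ρ', hρ1, hρ2⟩ := exists_rat_btwn hρ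
  obtain ⟨i, i1, i2, r₁, hr₁, H1⟩ := h2 ρ' (by exact_mod_cast hρ1) hg e he
  obtain ⟨r₂, hr₂, H2⟩ := h1 ⟨i.1, i.2.1⟩ ⟨i1, i2⟩ e he
  exact ⟨i.1, i.2.1, i1, i2, by linarith [i.2.2.1], by linarith [i.2.2.2], min r₁ r₂,
    lt_min hr₁ hr₂, fun r hr hrr =>
    ⟨H2 r hr (hrr.trans_le (min_le_right _ _)), H1 r hr (hrr.trans_le (min_le_left _ _))⟩⟩

end

end Pool.LPT30
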