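import Pool.Agent.H30.LPT.Twd

/-!
# Good data near a point, the chain and one more place

`SlE`: exact slope of a level. `TwG`: the slopes at `g`: the last place has the slope `a₀`, the
targets of the first kind have slopes between their orders and `a₀`, the targets of the second kind
have the slopes equal to their orders. `crt_of`: there are good data on arbitrarily small intervals.
-/

set_option autoImplicit false

namespace Pool.LPT30

open Finset Real MvPolynomial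
open Pool.Agent.H49.Ent Pool.Agent.H32.Dense Pool.STK Pool.KA Pool.KSAT Pool.K2S Pool.PB Pool.S6C
  Pool.GEN Pool.RCD Pool.LA91
open Pool.AVG96 (fl fl_mem fl_mono le_fl whG)
open Pool.LP30 Pool.LPJ30

/-- **Exact slope** `b₀` of the level `T` at `g`. -/
def SlE (T : ℝ → ℝ) (b₀ : ℝ) (G : Set ℝ) (g : ℝ) : Prop :=
  ∀ η : ℝ, 0 < η → ∃ ρ : ℝ, 0 < ρ ∧ ∀ t : ℝ, 0 < t → t < ρ → ∀ w ∈ G, ∀ v ∈ G, g - t ≤ w →
    w ≤ v → v ≤ g + t → |T v - T w - b₀ * (v - w)| ≤ η * t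

/-- **The slopes at `g`.** -/
structure TwG (sn : ℕ → ℝ → ℝ) (d : ℕ) {nT nU : ℕ} (oT : Fin nT → ℕ) (TT : Fin nT → ℝ → ℝ)
    (oU : Fin nU → ℕ) (TU : Fin nU → ℝ → ℝ) (G : Set ℝ) (g a₀ : ℝ) (bT : Fin nT → ℝ) : Prop where
  u : SlE (sn d) a₀ G g
  T : ∀ i, SlE (TT i) (bT i) Set.univ g
  U : ∀ i, SlE (TU i) (oU i) G g
  a0 : 0 ≤ a₀
  T1 : ∀ i, (oT i : ℝ) < bT i
  T2 : ∀ i, bT i < a₀
  U2 : ∀ i, (oU i : ℝ) < a₀

/-- The levels in a box. -/
structure BxT (sn : ℕ → ℝ → ℝ) (d : ℕ) {nT nU : ℕ} (TT : Fin nT → ℝ → ℝ)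
    (oU : Fin nU → ℕ) (TU : Fin nU → ℝ → ℝ) (G : Set ℝ) (g a₀ : ℝ) (bT : Fin nT → ℝ)
    (η t : ℝ) : Prop where
  u : ∀ w ∈ G, ∀ v ∈ G, g - t ≤ w → w ≤ v → v ≤ g + t → |sn d v - sn d w - a₀ * (v - w)| ≤ η * t
  T : ∀ i, ∀ w v : ℝ, g - t ≤ w → w ≤ v → v ≤ g + t → |TT i v - TT i w - bT i * (v - w)| ≤ η * t
  U : ∀ i, ∀ w ∈ G, ∀ v ∈ G, g - t ≤ w → w ≤ v → v ≤ g + t →
    |TU i v - TU i w - oU i * (v - w)| ≤ η * t

/-- The constants of the slopes. -/
structure TwK {nT nU : ℕ} (oT : Fin nT → ℕ) (oU : Fin nU → ℕ) (a₀ : ℝ) (bT : Fin nT → ℝ)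
    (Ub γ : ℝ) : Prop where
  γ0 : 0 < γ
  γ1 : γ ≤ 1
  a0 : 0 ≤ a₀
  a : a₀ ≤ Ub
  T1 : ∀ i, (oT i : ℝ) + γ ≤ bT i
  T2 : ∀ i, bT i + γ ≤ a₀
  U2 : ∀ i, (oU i : ℝ) + γ ≤ a₀

theorem fin_low {n : ℕ} {f : Fin n → ℝ} (h : ∀ i, 0 < f i) : ∃ x : ℝ, 0 < x ∧ ∀ i, x ≤ f i := by
  rcases isEmpty_or_nonempty (Fin n) with hn | hn
  · exact ⟨1, one_pos, fun i => (hn.false i).elim⟩
  · exact ⟨Finset.univ.inf' Finset.univ_nonempty f, (Finset.lt_inf'_iff _).2 fun i _ => h i,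
      fun i => Finset.inf'_le _ (Finset.mem_univ i)⟩

section

variable {sn : ℕ → ℝ → ℝ} {d nT nU : ℕ} {oT : Fin nT → ℕ} {TT : Fin nT → ℝ → ℝ}
  {oU : Fin nU → ℕ} {TU : Fin nU → ℝ → ℝ} {G : Set ℝ} {g a₀ : ℝ} {bT : Fin nT → ℝ}

theorem TwG.box (h : TwG sn d oT TT oU TU G g a₀ bT) {η : ℝ} (hη : 0 < η) :
    ∃ ρ : ℝ, 0 < ρ ∧ ∀ t : ℝ, 0 < t → t < ρ → BxT sn d TT oU TU G g a₀ bT η t := by
  obtain ⟨ρ₁, h1, H1⟩ := h.u η hη
  choose ρ₂ h2 H2 using fun i => h.T i η hη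
  choose ρ₃ h3 H3 using fun i => h.U i η hη
  obtain ⟨x₂, hx₂, e2⟩ := fin_low h2
  obtain ⟨x₃, hx₃, e3⟩ := fin_low h3
  refine ⟨min ρ₁ (min x₂ x₃), by positivity, fun t ht htρ => ?_⟩
  have k1 : t < ρ₁ := htρ.trans_le (min_le_left _ _)
  have k2 : t < x₂ := htρ.trans_le ((min_le_right _ _).trans (min_le_left _ _))
  have k3 : t < x₃ := htρ.trans_le ((min_le_right _ _).trans (min_le_right _ _))
  exact ⟨H1 t ht k1, fun i w v a b c => H2 i t ht (k2.trans_le (e2 i)) w trivial v trivial a b c,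
    fun i => H3 i t ht (k3.trans_le (e3 i))⟩

theorem TwG.con (h : TwG sn d oT TT oU TU G g a₀ bT) : ∃ Ub γ : ℝ, TwK oT oU a₀ bT Ub γ := by
  obtain ⟨x₁, hx₁, e1⟩ := fin_low (f := fun i => bT i - oT i) fun i => by linarith [h.T1 i]
  obtain ⟨x₂, hx₂, e2⟩ := fin_low (f := fun i => a₀ - bT i) fun i => by linarith [h.T2 i]
  obtain ⟨x₃, hx₃, e3⟩ := fin_low (f := fun i => a₀ - oU i) fun i => by linarith [h.U2 i]
  refine ⟨a₀, min (min 1 x₁) (min x₂ x₃), by positivity, ?_, h.a0, le_rfl, fun i => ?_,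
    fun i => ?_, fun i => ?_⟩
  · exact (min_le_left _ _).trans (min_le_left _ _)
  · have := e1 i
    have := (min_le_left (min 1 x₁) (min x₂ x₃)).trans (min_le_right _ _)
    linarith
  · have := e2 i
    have := (min_le_right (min 1 x₁) (min x₂ x₃)).trans (min_le_left _ _)
    linarith
  · have := e3 i
    have := (min_le_right (min 1 x₁) (min x₂ x₃)).trans (min_le_right _ _)
    linarith

end

section

variable {sn : ℕ → ℝ → ℝ} {d n n' : ℕ} {T : Fin n → ℝ → ℝ} {G : Set ℝ} {A s g Sg η t : ℝ}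
  {oB : Fin n' → ℕ} {TB : Fin n' → ℝ → ℝ} {nT nU : ℕ} {oT : Fin nT → ℕ} {TT : Fin nT → ℝ → ℝ}
  {oU : Fin nU → ℕ} {TU : Fin nU → ℝ → ℝ} {a₀ : ℝ} {bT : Fin nT → ℝ}

/-- **Good data on arbitrarily small intervals.** -/
theorem crt_of {a b : ℝ} (hG : IsClosed G) (hgG : g ∈ G) (hA : A < g) (g1 : g < 1)
    (mn : ∀ l < d, ∀ w ∈ G, ∀ v ∈ G, w ≤ v → sn l w ≤ sn l v)
    (s1 : ∀ l < d, sn l g < 1) (hSg : 0 ≤ Sg) (h : SlB sn d T G g Sg) (hB : SlK oB TB G g)
    (hTw : TwG sn d oT TT oU TU G g a₀ bT)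
    (ha : a < g - s) (hb : g - s < b) :
    CrT (whG G A s) sn d G (fun i w => T i (whG G A s w)) oB (fun i w => TB i (whG G A s w))
      oT TT oU TU a b (g - s) := by
  intro ε hε δ₀ hδ₀
  have hl2 : 0 < Real.log 2 := Real.log_pos one_lt_two
  have hd0 : (0 : ℝ) ≤ d := Nat.cast_nonneg d
  have hn0 : (0 : ℝ) ≤ n' := Nat.cast_nonneg n'
  obtain ⟨P4, hP4⟩ : ∃ P4 : ℝ, P4 = 4 ^ d := ⟨_, rfl⟩
  have hP41 : 1 ≤ P4 := by rw [hP4]; exact one_le_pow₀ (by norm_num)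
  obtain ⟨Ob, hOb0, hOb⟩ : ∃ Ob : ℝ, 0 ≤ Ob ∧ ∀ i, (oB i : ℝ) ≤ Ob :=
    ⟨∑ i, (oB i : ℝ), Finset.sum_nonneg fun i _ => Nat.cast_nonneg _, fun i =>
      Finset.single_le_sum (f := fun i => (oB i : ℝ)) (fun i _ => Nat.cast_nonneg _)
        (Finset.mem_univ i)⟩
  -- the constants
  have hnU0 : (0 : ℝ) ≤ nU := Nat.cast_nonneg nU
  obtain ⟨Dn, hDn⟩ : ∃ Dn : ℝ, Dn = (d : ℝ) + n' + nU := ⟨_, rfl⟩
  have hDn0 : 0 ≤ Dn := by rw [hDn]; positivity
  obtain ⟨κ, hκ, hκ1, hκ2⟩ : ∃ κ : ℝ, 0 < κ ∧ 16 * (P4 * κ) ≤ 1 ∧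
      Dn * (Real.log 2 * ((P4 + 4) * κ)) ≤ ε := by
    refine ⟨min (1 / (16 * P4)) (ε / (Dn * (Real.log 2 * (P4 + 4)) + 1)),
      by positivity, ?_, ?_⟩
    · have e1 := min_le_left (1 / (16 * P4)) (ε / (Dn * (Real.log 2 * (P4 + 4)) + 1))
      have e2 := mul_le_mul_of_nonneg_left e1 (show (0 : ℝ) ≤ 16 * P4 by positivity)
      rw [mul_one_div_cancel (by positivity)] at e2
      linarith
    have e1 := min_le_right (1 / (16 * P4)) (ε / (Dn * (Real.log 2 * (P4 + 4)) + 1))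
    have e2 : 0 ≤ Dn * (Real.log 2 * (P4 + 4)) := by positivity
    have e3 := mul_le_mul_of_nonneg_left e1 e2
    have e4 : Dn * (Real.log 2 * (P4 + 4)) *
        (ε / (Dn * (Real.log 2 * (P4 + 4)) + 1)) ≤ ε := by
      rw [mul_div_assoc', div_le_iff₀ (by positivity)]
      nlinarith
    calc _ = Dn * (Real.log 2 * (P4 + 4)) *
        min (1 / (16 * P4)) (ε / (Dn * (Real.log 2 * (P4 + 4)) + 1)) := by ring
      _ ≤ _ := e3.trans e4
  have hκ3 : κ ≤ 1 / 16 := by nlinarith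
  obtain ⟨Ub, γ, hK⟩ := hTw.con
  have hγ0 := hK.γ0
  have hγ1 := hK.γ1
  have hUb0 : 0 ≤ Ub := hK.a0.trans hK.a
  obtain ⟨Sb, hSb⟩ : ∃ Sb : ℝ, Sb = Sg + Ob + Ub + 1 := ⟨_, rfl⟩
  have hSb1 : 1 ≤ Sb := by rw [hSb]; linarith
  have hSb0 : 0 < Sb := by linarith
  obtain ⟨η, hη, hηκ⟩ : ∃ η : ℝ, 0 < η ∧ 10000 * (Sb * (Sb * η)) = γ * κ :=
    ⟨γ * κ / (10000 * (Sb * Sb)), by positivity, by field_simp⟩
  have hηS : η ≤ Sb * η := le_mul_of_one_le_left hη.le hSb1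
  have hηS2 : Sb * η ≤ Sb * (Sb * η) := le_mul_of_one_le_left (by positivity) hSb1
  have hγκ : γ * κ ≤ κ := mul_le_of_le_one_left hκ.le hγ1
  have hη1 : η ≤ 1 := by linarith
  obtain ⟨ρ, hρ, H⟩ := h η hη
  obtain ⟨ρ', hρ', H'⟩ := hB η hη
  obtain ⟨ρ'', hρ'', H''⟩ := hTw.box hη
  -- the room at `g`
  obtain ⟨R₁, hR₁, hR₁s⟩ := fin_lb (D := d) (f := fun l => 1 - sn l g) fun l hl => by
    linarith [s1 l hl]
  obtain ⟨δ, hδ, k0, k1, k1', k1'', k2, k3, k4, k5, k6⟩ : ∃ δ : ℝ, 0 < δ ∧ δ ≤ δ₀ ∧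
      4 * δ < ρ ∧ 4 * δ < ρ' ∧ 4 * δ < ρ'' ∧ a ≤ g - s - 3 * δ ∧
      g - s + 2 * δ ≤ b ∧ A ≤ g - 8 * δ ∧ 32 * δ ≤ 1 - g ∧ 32 * δ ≤ R₁ := by
    obtain ⟨δ, h1, h2⟩ := list_lb [δ₀, ρ / 5, ρ' / 5, ρ'' / 5, (g - s - a) / 3,
      (b - (g - s)) / 2, (g - A) / 8, (1 - g) / 32, R₁ / 32] (by
        have x1 : 0 < g - A := by linarith
        have x2 : 0 < g - s - a := by linarith
        have x3 : 0 < b - (g - s) := by linarith
        have x4 : 0 < 1 - g := by linarith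
        simp only [List.mem_cons, List.not_mem_nil, or_false, forall_eq_or_imp, forall_eq]
        refine ⟨?_, ?_, ?_, ?_, ?_, ?_, ?_, ?_, ?_⟩ <;> positivity)
    simp only [List.mem_cons, List.not_mem_nil, or_false, forall_eq_or_imp, forall_eq] at h2
    obtain ⟨a1, a2, a3, a3', a4, a5, a6, a7, a8⟩ := h2
    exact ⟨δ, h1, a1, by linarith, by linarith, by linarith, by linarith, by linarith,
      by linarith, by linarith, by linarith⟩
  have HB := H (4 * δ) (by positivity) k1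
  have HK := H' (4 * δ) (by positivity) k1'
  have HX := H'' (4 * δ) (by positivity) k1''
  obtain ⟨μ, hμ⟩ : ∃ μ : ℝ, μ = κ * δ := ⟨_, rfl⟩
  have hμ0 : 0 < μ := by rw [hμ]; positivity
  have hPμ : 16 * (P4 * μ) ≤ δ := by
    have := mul_le_mul_of_nonneg_right hκ1 hδ.le
    rw [hμ]
    linarith
  have hμP : μ ≤ P4 * μ := le_mul_of_one_le_left hμ0.le hP41
  have hμδ : 16 * μ ≤ δ := by linarith
  obtain ⟨E, hE⟩ : ∃ E : ℝ, E = η * (4 * δ) := ⟨_, rfl⟩
  have hE0 : 0 < E := by rw [hE]; positivity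
  have hSE2 : 10000 * (Sb * (Sb * E)) = 4 * (γ * μ) := by
    have h1 : 10000 * (Sb * (Sb * E)) = 10000 * (Sb * (Sb * η)) * (4 * δ) := by rw [hE]; ring
    rw [h1, hηκ, hμ]
    ring
  have hγμ : γ * μ ≤ μ := mul_le_of_le_one_left hμ0.le hγ1
  have hSbE : Sb * E ≤ Sb * (Sb * E) := le_mul_of_one_le_left (by positivity) hSb1
  have hSbE1 : Sb * E = Sg * E + Ob * E + Ub * E + E := by rw [hSb]; ring
  have hUE : 0 ≤ Ub * E := by positivity
  have hOE : 0 ≤ Ob * E := by positivity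
  have hSE0 : 0 ≤ Sg * E := by positivity
  have hE1 : 1000 * E ≤ 4 * μ := by linarith
  have hSE' : 1000 * (Sg * E) ≤ 4 * μ := by linarith
  have hOE' : 1000 * (Ob * E) ≤ 4 * μ := by linarith
  obtain ⟨lp, lp1, lp2⟩ := exists_rat_btwn
    (show μ / (32 * Sb) < μ / (16 * Sb) from div_lt_div_of_pos_left hμ0 (by positivity)
      (by linarith))
  rw [div_lt_iff₀ (by positivity)] at lp1
  rw [lt_div_iff₀ (by positivity)] at lp2
  have lp0 : (0 : ℝ) < lp := by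
    rcases le_or_gt (lp : ℝ) 0 with h1 | h1
    · have : (lp : ℝ) * (32 * Sb) ≤ 0 := mul_nonpos_of_nonpos_of_nonneg h1 (by positivity)
      linarith
    · exact h1
  have hSlp : 16 * (Sb * lp) ≤ μ := by linarith
  have hSlp1 : (lp : ℝ) ≤ Sb * lp := le_mul_of_one_le_left lp0.le hSb1
  have hγlp : 0 < γ * lp := by positivity
  have hγlp1 : γ * lp ≤ lp := mul_le_of_le_one_left lp0.le hγ1
  have hγμlp : γ * μ ≤ 32 * (Sb * (γ * lp)) := by
    have h1 : γ * μ ≤ γ * (lp * (32 * Sb)) := mul_le_mul_of_nonneg_left lp1.le hγ0.le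
    linarith
  obtain ⟨x, hx, hxμ⟩ : ∃ x : ℝ, 0 < x ∧ 1024 * (Sb * (Sb * x)) = γ * μ :=
    ⟨γ * μ / (1024 * (Sb * Sb)), by positivity, by field_simp⟩
  have hSbx : 32 * (Sb * x) ≤ γ * lp := by
    have h1 : Sb * (32 * (Sb * x)) ≤ Sb * (γ * lp) := by linarith
    exact le_of_mul_le_mul_left h1 hSb0
  have hSbE' : 64 * (Sb * E) ≤ γ * lp := by
    have h1 : Sb * (64 * (Sb * E)) ≤ Sb * (γ * lp) := by
      have h2 : 0 < γ * μ := by positivity
      linarith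
    exact le_of_mul_le_mul_left h1 hSb0
  obtain ⟨lam, lam0, lam1⟩ := exists_rat_btwn hx
  obtain ⟨σ₀, σ00, σ01'⟩ := exists_rat_btwn
    (show (0 : ℝ) < min (μ / 100) (γ * lp / 32) by positivity)
  have σ01 : (σ₀ : ℝ) < μ / 100 := σ01'.trans_le (min_le_left _ _)
  have σ02 : (σ₀ : ℝ) < γ * lp / 32 := σ01'.trans_le (min_le_right _ _)
  obtain ⟨aq, a1, a2⟩ := exists_rat_btwn (show g - s - 2 * δ < g - s - δ by linarith)
  obtain ⟨bq, b1, b2⟩ := exists_rat_btwn (show g - s + δ < g - s + 2 * δ by linarith)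
  have hlv : ∀ l : Fin d, ∃ q : ℚ, (4 : ℝ) ^ (d - (l : ℕ)) * μ < q ∧
      (q : ℝ) < 4 ^ (d - (l : ℕ)) * μ + μ / 8 :=
    fun l => exists_rat_btwn (by linarith)
  choose lv lv1 lv2 using hlv
  have hN : ∀ l : Fin d, ∃ q : ℚ, sn l g - g + lv l + μ / 2 < q ∧ (q : ℝ) < sn l g - g + lv l + μ :=
    fun l => exists_rat_btwn (by linarith)
  choose N N1 N2 using hN
  have hD : ∀ i : Fin n', ∃ q : ℚ, TB i g - oB i * g + μ / 2 < q ∧
      (q : ℝ) < TB i g - oB i * g + μ :=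
    fun l => exists_rat_btwn (by linarith)
  choose DB D1 D2 using hD
  have hDU : ∀ i : Fin nU, ∃ q : ℚ, TU i g - oU i * g + γ * lp / 8 < q ∧
      (q : ℝ) < TU i g - oU i * g + γ * lp / 4 :=
    fun l => exists_rat_btwn (by linarith)
  choose DU DU1 DU2 using hDU
  have hSbl : 32 * (Sb * lam) ≤ γ * lp := by
    have := mul_le_mul_of_nonneg_left lam1.le hSb0.le
    linarith
  have hSbl1 : Sb * lam = Sg * lam + Ob * lam + Ub * lam + lam := by rw [hSb]; ring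
  have hSl0 : 0 ≤ Sg * lam := by positivity
  have hOl0 : 0 ≤ Ob * lam := by positivity
  have hUl0 : 0 ≤ Ub * lam := by positivity
  have hSl : Sg * lam ≤ μ / 8 := by linarith
  have hOl : Ob * lam ≤ μ / 8 := by linarith
  have hlm : (lam : ℝ) ≤ μ / 8 := by linarith
  have hlpδ : 256 * (lp : ℝ) ≤ δ := by linarith
  -- the windows of the charts
  have W' : ∀ w : ℚ, g - s - 5 / 2 * δ < w → (w : ℝ) < bq → whG G A s w ∈ G ∧
      (w : ℝ) + s - E ≤ whG G A s w ∧ whG G A s w ≤ w + s ∧ g - 3 * δ ≤ whG G A s w ∧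
      whG G A s w ≤ g + 3 * δ := by
    intro w h1 h2
    obtain ⟨m1, m2, m3⟩ := bx_fl (A := A) (s := s) hG HB hη1 (by positivity) (by linarith) (w := w)
      (by linarith) (by linarith)
    rw [← hE] at m2
    exact ⟨m1, m2, m3, by linarith, by linarith⟩
  have W : ∀ w : ℚ, (aq : ℝ) < w → (w : ℝ) < bq → whG G A s w ∈ G ∧
      (w : ℝ) + s - E ≤ whG G A s w ∧ whG G A s w ≤ w + s ∧ g - 3 * δ ≤ whG G A s w ∧
      whG G A s w ≤ g + 3 * δ := fun w h1 h2 => W' w (by linarith) h2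
  have WM' : ∀ w v : ℚ, g - s - 5 / 2 * δ < w → w ≤ v → (v : ℝ) < bq →
      whG G A s w ≤ whG G A s v := by
    intro w v h1 h2 h3
    have h2' : (w : ℝ) ≤ v := by exact_mod_cast h2
    exact bx_mono (A := A) (s := s) HB hη1 (by positivity) (by linarith) (w := w) (by linarith)
      (by linarith) h2
  have WM : ∀ w v : ℚ, (aq : ℝ) < w → w ≤ v → (v : ℝ) < bq → whG G A s w ≤ whG G A s v :=
    fun w v h1 h2 h3 => WM' w v (by linarith) h2 h3
  -- the levels of the chain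
  have hsl : ∀ w v : ℚ, (aq : ℝ) < w → w ≤ v → (v : ℝ) < bq → ∀ l < d,
      sn l (whG G A s v) - sn l (whG G A s w) ≤ (whG G A s v - whG G A s w) + E := by
    intro w v h1 h2 h3 l hl
    have h2' : (w : ℝ) ≤ v := by exact_mod_cast h2
    obtain ⟨w1, w2, w3, w4, w5⟩ := W w h1 (by linarith)
    obtain ⟨v1, v2, v3, v4, v5⟩ := W v (by linarith) h3
    have := (abs_le.1 (HB.sl _ w1 _ v1 (by linarith) (WM w v h1 h2 h3) (by linarith) l hl)).2
    rw [← hE] at this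
    linarith
  have hnl : ∀ w : ℚ, (aq : ℝ) < w → (w : ℝ) < bq → ∀ l < d,
      |sn l (whG G A s w) - whG G A s w - (sn l g - g)| ≤ E := by
    intro w h1 h2 l hl
    obtain ⟨w1, w2, w3, w4, w5⟩ := W w h1 h2
    rcases le_total (whG G A s w) g with hle | hle
    · have h4 := abs_le.1 (HB.sl _ w1 _ hgG (by linarith) hle (by linarith) l hl)
      rw [← hE] at h4
      rw [abs_le]
      constructor <;> linarith [h4.1, h4.2]
    · have h4 := abs_le.1 (HB.sl _ hgG _ w1 (by linarith) hle (by linarith) l hl)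
      rw [← hE] at h4
      rw [abs_le]
      constructor <;> linarith [h4.1, h4.2]
  have hnB : ∀ w : ℚ, (aq : ℝ) < w → (w : ℝ) < bq → ∀ i : Fin n',
      |TB i (whG G A s w) - oB i * whG G A s w - (TB i g - oB i * g)| ≤ E := by
    intro w h1 h2 i
    obtain ⟨w1, w2, w3, w4, w5⟩ := W w h1 h2
    rcases le_total (whG G A s w) g with hle | hle
    · have h4 := abs_le.1 (HK _ w1 _ hgG (by linarith) hle (by linarith) i)
      rw [← hE] at h4
      rw [abs_le]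
      constructor <;> linarith [h4.1, h4.2]
    · have h4 := abs_le.1 (HK _ hgG _ w1 (by linarith) hle (by linarith) i)
      rw [← hE] at h4
      rw [abs_le]
      constructor <;> linarith [h4.1, h4.2]
  -- the levels over the chain and the last place
  have hnU : ∀ w : ℚ, g - s - 5 / 2 * δ < w → (w : ℝ) < bq → ∀ i : Fin nU,
      |TU i (whG G A s w) - oU i * whG G A s w - (TU i g - oU i * g)| ≤ E := by
    intro w h1 h2 i
    obtain ⟨w1, w2, w3, w4, w5⟩ := W' w h1 h2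
    rcases le_total (whG G A s w) g with hle | hle
    · have h4 := abs_le.1 (HX.U i _ w1 _ hgG (by linarith) hle (by linarith))
      rw [← hE] at h4
      rw [abs_le]
      constructor <;> linarith [h4.1, h4.2]
    · have h4 := abs_le.1 (HX.U i _ hgG _ w1 (by linarith) hle (by linarith))
      rw [← hE] at h4
      rw [abs_le]
      constructor <;> linarith [h4.1, h4.2]
  have hu : ∀ w v : ℚ, g - s - 5 / 2 * δ < w → w ≤ v → (v : ℝ) < bq →
      |sn d (whG G A s v) - sn d (whG G A s w) - a₀ * (whG G A s v - whG G A s w)| ≤ E := by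
    intro w v h1 h2 h3
    have h2' : (w : ℝ) ≤ v := by exact_mod_cast h2
    obtain ⟨w1, w2, w3, w4, w5⟩ := W' w h1 (by linarith)
    obtain ⟨v1, v2, v3, v4, v5⟩ := W' v (by linarith) h3
    rw [hE]
    exact HX.u _ w1 _ v1 (by linarith) (WM' w v h1 h2 h3) (by linarith)
  have hlpw : ∀ w : ℚ, (aq : ℝ) < w → g - s - 5 / 2 * δ < ((w - lp : ℚ) : ℝ) := by
    intro w h1
    push_cast
    linarith
  -- `x (wh v - wh (w - lp))` is small
  have hxs : ∀ w v : ℚ, (aq : ℝ) < w → w ≤ v → (v : ℝ) < bq → (v : ℝ) < w + lam →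
      0 ≤ whG G A s v - whG G A s (w - lp) ∧
      whG G A s v - whG G A s (w - lp) ≤ lam + lp + E := by
    intro w v h1 h2 h3 h4
    have h2' : (w : ℝ) ≤ v := by exact_mod_cast h2
    obtain ⟨w1, w2, w3, w4, w5⟩ := W' (w - lp) (hlpw w h1) (by push_cast; linarith)
    obtain ⟨v1, v2, v3, v4, v5⟩ := W v (by linarith) h3
    have h5 := WM' (w - lp) v (hlpw w h1) (by
      have h6 : (0 : ℚ) ≤ lp := by exact_mod_cast lp0.le
      linarith) h3
    push_cast at w2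
    exact ⟨by linarith, by linarith⟩
  have hxs' : ∀ w v : ℚ, (aq : ℝ) < w → w ≤ v → (v : ℝ) < bq → (v : ℝ) < w + lam →
      ∀ x : ℝ, 0 ≤ x → x ≤ Ub → x * (whG G A s v - whG G A s (w - lp)) ≤
        x * lp + γ * lp / 16 := by
    intro w v h1 h2 h3 h4 x hx0 hxU
    obtain ⟨h5, h6⟩ := hxs w v h1 h2 h3 h4
    have h7 := mul_le_mul_of_nonneg_left h6 hx0
    have h8 : x * (lam + lp + E) = x * lam + x * lp + x * E := by ring
    have h9 : x * lam ≤ Ub * lam := mul_le_mul_of_nonneg_right hxU (by linarith)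
    have h10 : x * E ≤ Ub * E := mul_le_mul_of_nonneg_right hxU hE0.le
    linarith
  have hUlp : Ub * lp ≤ μ / 16 := by
    have h1 : Sb * lp = Sg * lp + Ob * lp + Ub * lp + lp := by rw [hSb]; ring
    have h2 : 0 ≤ Sg * lp := by positivity
    have h3 : 0 ≤ Ob * lp := by positivity
    linarith
  have hxb : ∀ w v : ℚ, (aq : ℝ) < w → w ≤ v → (v : ℝ) < bq → (v : ℝ) < w + lam →
      ∀ x : ℝ, 0 ≤ x → x ≤ Ub → x * (whG G A s v - whG G A s (w - lp)) ≤ μ / 8 := by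
    intro w v h1 h2 h3 h4 x hx0 hxU
    have h5 := hxs' w v h1 h2 h3 h4 x hx0 hxU
    have h6 : x * lp ≤ Ub * lp := mul_le_mul_of_nonneg_right hxU lp0.le
    linarith
  have hus : ∀ v : ℚ, (aq : ℝ) < v → (v : ℝ) < bq → a₀ * lp - γ * lp / 32 ≤
      sn d (whG G A s v) - sn d (whG G A s (v - lp)) := by
    intro v h1 h3
    have h6 : (0 : ℚ) ≤ lp := by exact_mod_cast lp0.le
    obtain ⟨w1, w2, w3, w4, w5⟩ := W' (v - lp) (hlpw v h1) (by push_cast; linarith)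
    obtain ⟨v1, v2, v3, v4, v5⟩ := W v h1 h3
    have h7 := (abs_le.1 (hu (v - lp) v (hlpw v h1) (by linarith) h3)).1
    push_cast at w3
    have h8 : a₀ * (lp - E) ≤ a₀ * (whG G A s v - whG G A s (v - lp)) :=
      mul_le_mul_of_nonneg_left (by linarith) hK.a0
    have h9 : a₀ * E ≤ Ub * E := mul_le_mul_of_nonneg_right hK.a hE0.le
    linarith
  have hTelR : ∀ w v : ℚ, (aq : ℝ) < w → w ≤ v → (v : ℝ) < bq → (v : ℝ) < w + lam →
      ∀ j : ℕ, (j : ℝ) ≤ Ub → (∀ l < d, μ ≤ exN lv l) →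
      TelR sn d (exN lv) σ₀ j (whG G A s (w - lp)) (whG G A s v) := by
    intro w v h1 h2 h3 h4 j hj hlv
    have h2' : (w : ℝ) ≤ v := by exact_mod_cast h2
    obtain ⟨v1, v2, v3, v4, v5⟩ := W v (by linarith) h3
    have h5 := hxb w v h1 h2 h3 h4 a₀ hK.a0 hK.a
    have h6 := hxb w v h1 h2 h3 h4 j (Nat.cast_nonneg _) hj
    have h8 : (0 : ℚ) ≤ lp := by exact_mod_cast lp0.le
    have h7 := (abs_le.1 (hu (w - lp) v (hlpw w h1) (by linarith) h3)).2
    exact ⟨by linarith, fun l hl => by linarith [hlv l hl], by linarith,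
      fun l hl => by linarith [hlv l hl]⟩
  have hst : ∀ w v : ℚ, (aq : ℝ) < w → w ≤ v → (v : ℝ) < bq → (v : ℝ) < w + lam →
      whG G A s v - whG G A s w ≤ lam + E := by
    intro w v h1 h2 h3 h4
    have h2' : (w : ℝ) ≤ v := by exact_mod_cast h2
    obtain ⟨w1, w2, w3, w4, w5⟩ := W w h1 (by linarith)
    obtain ⟨v1, v2, v3, v4, v5⟩ := W v (by linarith) h3
    linarith
  have hpw : ∀ l : Fin d, (4 : ℝ) ≤ 4 ^ (d - (l : ℕ)) ∧ (4 : ℝ) ^ (d - (l : ℕ)) ≤ P4 := by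
    intro l
    constructor
    · calc (4 : ℝ) = 4 ^ 1 := by norm_num
        _ ≤ _ := pow_le_pow_right₀ (by norm_num) (by omega)
    · rw [hP4]
      exact pow_le_pow_right₀ (by norm_num) (by omega)
  have hlvb : ∀ l : Fin d, 4 * μ < lv l ∧ (lv l : ℝ) ≤ P4 * μ + μ / 8 := by
    intro l
    have e3 := mul_le_mul_of_nonneg_right (hpw l).1 hμ0.le
    have e4 := mul_le_mul_of_nonneg_right (hpw l).2 hμ0.le
    constructor
    · linarith [lv1 l]
    · linarith [lv2 l]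
  have hlvs : ∀ l l' : Fin d, (l' : ℕ) < l → 2 * (lv l : ℝ) + 7 * μ ≤ lv l' := by
    intro l l' hl
    have e1 : (4 : ℝ) * 4 ^ (d - (l : ℕ)) ≤ 4 ^ (d - (l' : ℕ)) := by
      calc (4 : ℝ) * 4 ^ (d - (l : ℕ)) = 4 ^ (d - (l : ℕ) + 1) := by ring
        _ ≤ _ := pow_le_pow_right₀ (by norm_num) (by omega)
    have e2 := mul_le_mul_of_nonneg_right e1 hμ0.le
    have e3 := mul_le_mul_of_nonneg_right (hpw l).1 hμ0.le
    linarith [lv1 l', lv2 l]
  have hlow : ∀ v : ℚ, (aq : ℝ) < v → (v : ℝ) < bq → ∀ l : Fin d,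
      2 * lv l + 3 * δ ≤ 1 - whG G A s v ∧ ∀ l' < d, lv l + 3 * δ ≤ 1 - sn l' (whG G A s v) := by
    intro v h1 h2 l
    obtain ⟨v1, v2, v3, v4, v5⟩ := W v h1 h2
    have e1 := (hlvb l).2
    refine ⟨by linarith, fun l' hl' => ?_⟩
    have e2 := (abs_le.1 (hnl v h1 h2 l' hl')).2
    have e3 := hR₁s l' hl'
    linarith
  have hlvμ : ∀ l < d, μ ≤ exN lv l := fun l hl => by
    rw [exN_lt _ hl]
    linarith [(hlvb ⟨l, hl⟩).1]
  have hoT : ∀ i, (oT i : ℝ) ≤ Ub := fun i => by linarith [hK.T1 i, hK.T2 i, hK.a, hK.γ0]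
  have hoU : ∀ i, (oU i : ℝ) ≤ Ub := fun i => by linarith [hK.U2 i, hK.a, hK.γ0]
  have htw : TwD (whG G A s) sn d (exN lv) σ₀ lp aq bq lam oT TT oU TU
      (fun j => (DU j : ℝ)) := by
    refine ⟨by exact_mod_cast lp0.le, fun w v h1 h2 h3 h4 i => hTelR w v h1 h2 h3 h4 _ (hoT i) hlvμ,
      fun w v h1 h2 h3 h4 i => hTelR w v h1 h2 h3 h4 _ (hoU i) hlvμ,
      fun w v o h1 h2 h3 h4 h5 i => ?_, fun w v h1 h2 h3 h4 i => ?_⟩
    · have h2' : (w : ℝ) ≤ v := by exact_mod_cast h2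
      have h3' : (v : ℝ) ≤ o := by exact_mod_cast h3
      have h8 : (0 : ℚ) ≤ lp := by exact_mod_cast lp0.le
      have hb0 : 0 ≤ bT i := by
        have := hK.T1 i
        have : (0 : ℝ) ≤ oT i := Nat.cast_nonneg _
        linarith
      have hbU : bT i ≤ Ub := by linarith [hK.T2 i, hK.a]
      obtain ⟨w1, w2, w3, w4, w5⟩ := W' (w - lp) (hlpw w h1) (by push_cast; linarith)
      obtain ⟨v1, v2, v3, v4, v5⟩ := W o (by linarith) h4
      have e1 := (abs_le.1 (HX.T i _ _ (by linarith) (WM' (w - lp) o (hlpw w h1) (by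
        have := h2.trans h3
        linarith) h4) (by linarith))).2
      rw [← hE] at e1
      have e2 := hxs' w o h1 (h2.trans h3) h4 h5 (bT i) hb0 hbU
      have e3 := hus v (by linarith) (by linarith)
      have e4 := mul_le_mul_of_nonneg_right (hK.T2 i) lp0.le
      rw [add_mul] at e4
      linarith
    · have h2' : (w : ℝ) ≤ v := by exact_mod_cast h2
      have e1 := (abs_le.1 (hnU (w - lp) (hlpw w h1) (by push_cast; linarith) i)).1
      have e2 := hxs' w v h1 h2 h3 h4 (oU i) (Nat.cast_nonneg _) (hoU i)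
      have e3 := hus v (by linarith) h3
      have e4 := mul_le_mul_of_nonneg_right (hK.U2 i) lp0.le
      rw [add_mul] at e4
      have e5 := DU2 i
      linarith
  have hSbE4 : 4 * (Sb * E) ≤ γ * lp / 16 := by linarith
  have hbt : BdT sn d G (whG G A s) lp aq bq oU TU (fun j => (DU j : ℝ))
      (fun j => TU j g - oU j * g - 4 * (Sb * E)) := by
    refine ⟨fun i => ?_, fun i w h1 h2 => ?_, fun i w h1 h2 N hN => ?_⟩
    · have := DU1 i
      have : 0 ≤ Sb * E := by positivity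
      linarith
    · have e1 := (abs_le.1 (hnU w (by linarith) h2 i)).1
      have : E ≤ Sb * E := le_mul_of_one_le_left hE0.le hSb1
      linarith
    · have h8 : (0 : ℚ) ≤ lp := by exact_mod_cast lp0.le
      have h1' : aq < w := by exact_mod_cast h1
      obtain ⟨n, hn⟩ := exists_nat_gt (Ub / E)
      rw [div_lt_iff₀ hE0] at hn
      have hlo : ∀ q : ℚ, aq - lp ≤ q → g - s - 5 / 2 * δ < (q : ℝ) := by
        intro q hq
        have : ((aq - lp : ℚ) : ℝ) ≤ q := by exact_mod_cast hq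
        push_cast at this
        linarith
      refine tel_of (n := n) (a₁ := aq - lp) (by linarith) (by linarith)
        (fun q e1 e2 => (W' q (hlo q (by linarith)) ?_).1)
        (fun q q' e1 e2 e3 => WM' q q' (hlo q (by linarith)) e2 ?_) (fun q q' e1 e2 e3 e4 => ?_)
      · have : (q : ℝ) ≤ w := by exact_mod_cast e2
        linarith
      · have : (q' : ℝ) ≤ w := by exact_mod_cast e3
        linarith
      · have e3' : (q' : ℝ) ≤ w := by exact_mod_cast e3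
        have e2' : (q : ℝ) ≤ q' := by exact_mod_cast e2
        have e4' : (q' : ℝ) ≤ q + 1 / ((n : ℝ) + 1) := by
          have z : ((q' : ℚ) : ℝ) ≤ ((q + 1 / ((n : ℚ) + 1) : ℚ) : ℝ) := Rat.cast_le.2 e4
          push_cast at z
          exact z
        obtain ⟨w1, w2, w3, w4, w5⟩ := W' q (hlo q e1) (by linarith)
        obtain ⟨x1, x2, x3, x4, x5⟩ := W' q' (hlo q' (e1.trans e2)) (by linarith)
        have y1 := (abs_le.1 (hnU q (hlo q e1) (by linarith) i)).1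
        have y2 := (abs_le.1 (hu q' w (hlo q' (e1.trans e2)) e3 h2)).1
        have y3 := WM' q' w (hlo q' (e1.trans e2)) e3 h2
        have y4 : (oU i : ℝ) * (whG G A s w - whG G A s q') ≤
            a₀ * (whG G A s w - whG G A s q') :=
          mul_le_mul_of_nonneg_right (by linarith [hK.U2 i]) (by linarith)
        have hn1 : (0 : ℝ) < (n : ℝ) + 1 := by positivity
        have y5 : (oU i : ℝ) * (whG G A s q' - whG G A s q) ≤ E + Ub * E := by
          have z1 : (oU i : ℝ) * (whG G A s q' - whG G A s q) ≤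
              oU i * (1 / ((n : ℝ) + 1) + E) :=
            mul_le_mul_of_nonneg_left (by linarith) (Nat.cast_nonneg _)
          have z2 : (oU i : ℝ) * (1 / ((n : ℝ) + 1) + E) ≤ Ub * (1 / ((n : ℝ) + 1) + E) :=
            mul_le_mul_of_nonneg_right (hoU i) (by positivity)
          have z3 : Ub * (1 / ((n : ℝ) + 1)) ≤ E := by
            rw [mul_one_div, div_le_iff₀ hn1]
            linarith
          linarith
        have y6 : E ≤ Sb * E := le_mul_of_one_le_left hE0.le hSb1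
        linarith
  have hnu : ∀ j, ∀ w : ℚ, (aq : ℝ) < w → (w : ℝ) < bq →
      TU j (whG G A s w) - oU j * whG G A s w + σ₀ ≤ (DU j : ℝ) := by
    intro j w h1 h2
    have e1 := (abs_le.1 (hnU w (by linarith) h2 j)).2
    have e2 := DU1 j
    have e3 : E ≤ Sb * E := le_mul_of_one_le_left hE0.le hSb1
    linarith
  have hlp0' : 0 < lp := by exact_mod_cast lp0
  have hDS : γ * lp / 4 + 4 * (Sb * E) ≤ μ := by linarith
  have hlpδ' : (lp : ℝ) ≤ δ := by linarith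
  have haq : a < (aq : ℝ) - lp := by linarith
  clear hxs hxs' hxb hus hTelR hlvμ hoT hoU hu hnU hlpw WM' W' hUlp hSbE4 hSbl hSbl1 hSbE' hSbx
    hγμlp hγlp1 hSlp hSlp1 hSE2 hSbE hSbE1 hηκ hηS hηS2 hγκ
  refine ⟨δ, hδ, k0, ⟨N, DB, DU, lv, σ₀, aq, bq, lam, lp⟩, ⟨⟨⟨by exact_mod_cast σ00,
    fun l hl => ?_,
    fun v h1 h2 l hl => ⟨?_, ?_, fun l' hl' => ?_⟩, fun v h1 h2 l hl => ?_,
    fun w v h1 h2 h3 h4 l hl => ?_, fun w v h1 h2 h3 h4 l hl => ?_,
    fun w v h1 h2 h3 h4 l hl l' hl' => ?_, fun w v h1 h2 h3 h4 l hl l' hl' => ?_⟩,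
    fun v h1 h2 => ?_⟩,
    ⟨fun i w o h1 h2 h3 h4 => ?_, fun i w o h1 h2 h3 h4 l hl => ?_⟩,
    ⟨fun i w h1 h2 => ?_, fun i w v h1 h2 h3 h4 => ?_, fun i w v h1 h2 h3 h4 l hl => ?_⟩,
    htw, by exact_mod_cast lam0,
    haq, by simp only; linarith, hlp0', hnu⟩, a2, b1, by simp only; linarith,
    hlpδ', _, hbt, fun w h1 h2 => ?_⟩
  · simp only [exN_lt _ hl]
    linarith [(hlvb ⟨l, hl⟩).1]
  · simp only [exN_lt _ hl] at *
    have := (hlow v h1 h2 ⟨l, hl⟩).2 l hl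
    linarith
  · simp only [exN_lt _ hl] at *
    have := (hlow v h1 h2 ⟨l, hl⟩).1
    linarith [(hlvb ⟨l, hl⟩).1]
  · simp only [exN_lt _ hl] at *
    have := (hlow v h1 h2 ⟨l, hl⟩).2 l' (by omega)
    linarith
  · simp only [exN_lt _ hl] at *
    have e1 := (abs_le.1 (hnl v h1 h2 l hl)).2
    have e2 := N1 ⟨l, hl⟩
    simp only at e2
    linarith
  · simp only [exN_lt _ hl] at *
    have e1 := hsl w v h1 h2 h3 l hl
    have e2 := hst w v h1 h2 h3 h4
    have e3 := (hlow v (by have : (w : ℝ) ≤ v := by exact_mod_cast h2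
                           linarith) h3 ⟨l, hl⟩).1
    linarith [(hlvb ⟨l, hl⟩).1]
  · simp only [exN_lt _ hl] at *
    have h2' : (w : ℝ) ≤ v := by exact_mod_cast h2
    have e1 := (abs_le.1 (hnl w h1 (by linarith) l hl)).1
    have e2 := hst w v h1 h2 h3 h4
    have e3 := (hlow v (by linarith) h3 ⟨l, hl⟩).1
    have e4 := N2 ⟨l, hl⟩
    simp only at e4
    linarith [(hlvb ⟨l, hl⟩).1]
  · have hl'd : l' < d := by omega
    simp only [exN_lt _ hl, exN_lt _ hl'd] at *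
    have e1 := hsl w v h1 h2 h3 l hl
    have e2 := hst w v h1 h2 h3 h4
    have e3 := hlvs ⟨l, hl⟩ ⟨l', hl'd⟩ hl'
    linarith [(hlvb ⟨l, hl⟩).1]
  · have hl'd : l' < d := by omega
    simp only [exN_lt _ hl, exN_lt _ hl'd] at *
    have h2' : (w : ℝ) ≤ v := by exact_mod_cast h2
    have e1 := (abs_le.1 (hnl w h1 (by linarith) l hl)).1
    have e2 := hst w v h1 h2 h3 h4
    have e3 := hlvs ⟨l, hl⟩ ⟨l', hl'd⟩ hl'
    have e4 := N2 ⟨l, hl⟩
    simp only at e4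
    linarith [(hlvb ⟨l, hl⟩).1]
  · -- the earlier windows
    obtain ⟨v1, v2, v3, v4, v5⟩ := W v h1 h2
    have hl0 : ∀ l < d, 0 < exN lv l ∧ exN lv l ≤ P4 * μ + μ / 8 := fun l hl => by
      rw [exN_lt _ hl]
      exact ⟨by linarith [(hlvb ⟨l, hl⟩).1], (hlvb ⟨l, hl⟩).2⟩
    refine hi_of HB (by rw [← hE]; exact hE0.le) (by exact_mod_cast σ00)
      (fun l hl w hw hwv => mn l hl w hw _ v1 hwv) (fun l hl => (hl0 l hl).1) v1 (by linarith)
      (fun l hl => ?_) (fun l hl => ?_) (fun l hl l' hl' => ?_)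
    · rw [← hE]
      linarith [(hl0 l hl).2]
    · rw [← hE, exN_lt _ hl]
      linarith [(hlow v h1 h2 ⟨l, hl⟩).1]
    · have hl'd : l' < d := by omega
      rw [← hE, exN_lt _ hl, exN_lt _ hl'd]
      linarith [hlvs ⟨l, hl⟩ ⟨l', hl'd⟩ hl']
  · have h2' : (w : ℝ) ≤ o := by exact_mod_cast h2
    obtain ⟨w1, w2, w3, w4, w5⟩ := W w h1 (by linarith)
    obtain ⟨v1, v2, v3, v4, v5⟩ := W o (by linarith) h3
    have e1 := HB.tg _ w1 _ v1 (by linarith) (WM w o h1 h2 h3) (by linarith) i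
    rw [← hE] at e1
    have e2 := hst w o h1 h2 h3 h4
    have e3 := mul_le_mul_of_nonneg_left e2 hSg
    have e4 : Sg * (lam + E) = Sg * lam + Sg * E := by ring
    simp only at *
    linarith
  · simp only [exN_lt _ hl] at *
    have h2' : (w : ℝ) ≤ o := by exact_mod_cast h2
    obtain ⟨w1, w2, w3, w4, w5⟩ := W w h1 (by linarith)
    obtain ⟨v1, v2, v3, v4, v5⟩ := W o (by linarith) h3
    have e1 := HB.tg _ w1 _ v1 (by linarith) (WM w o h1 h2 h3) (by linarith) i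
    rw [← hE] at e1
    have e2 := hst w o h1 h2 h3 h4
    have e3 := mul_le_mul_of_nonneg_left e2 hSg
    have e4 : Sg * (lam + E) = Sg * lam + Sg * E := by ring
    have e5 := (hlvb ⟨l, hl⟩).1
    linarith
  · have e1 := (abs_le.1 (hnB w h1 h2 i)).2
    have e2 := D1 i
    simp only [EIxT.DB]
    linarith
  · have h2' : (w : ℝ) ≤ v := by exact_mod_cast h2
    obtain ⟨v1, v2, v3, v4, v5⟩ := W v (by linarith) h3
    have e1 := (abs_le.1 (hnB w h1 (by linarith) i)).1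
    have e2 := D2 i
    have e3 := hst w v h1 h2 h3 h4
    have e4 : (oB i : ℝ) * (whG G A s v - whG G A s w) ≤ Ob * (lam + E) := by
      have h5 : (oB i : ℝ) * (whG G A s v - whG G A s w) ≤ oB i * (lam + E) :=
        mul_le_mul_of_nonneg_left e3 (Nat.cast_nonneg _)
      have h6 : (oB i : ℝ) * (lam + E) ≤ Ob * (lam + E) :=
        mul_le_mul_of_nonneg_right (hOb i) (by linarith)
      exact h5.trans h6
    have e5 : Ob * (lam + E) = Ob * lam + Ob * E := by ring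
    simp only [EIxT.DB]
    linarith
  · simp only [exN_lt _ hl] at *
    have h2' : (w : ℝ) ≤ v := by exact_mod_cast h2
    obtain ⟨v1, v2, v3, v4, v5⟩ := W v (by linarith) h3
    have e1 := (abs_le.1 (hnB w h1 (by linarith) i)).1
    have e2 := D2 i
    have e3 := hst w v h1 h2 h3 h4
    have e4 : (oB i : ℝ) * (whG G A s v - whG G A s w) ≤ Ob * (lam + E) := by
      have h5 : (oB i : ℝ) * (whG G A s v - whG G A s w) ≤ oB i * (lam + E) :=
        mul_le_mul_of_nonneg_left e3 (Nat.cast_nonneg _)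
      have h6 : (oB i : ℝ) * (lam + E) ≤ Ob * (lam + E) :=
        mul_le_mul_of_nonneg_right (hOb i) (by linarith)
      exact h5.trans h6
    have e5 : Ob * (lam + E) = Ob * lam + Ob * E := by ring
    have e6 := (hlvb ⟨l, hl⟩).1
    simp only [EIxT.DB]
    linarith
  · have e1 : ∀ l : Fin d, Real.log 2 * (exN N l - (sn l (whG G A s w) - whG G A s w)) ≤
        Real.log 2 * ((P4 + 4) * μ) := by
      intro l
      refine mul_le_mul_of_nonneg_left ?_ hl2.le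
      rw [exN_lt _ l.2]
      have e2 := (abs_le.1 (hnl w (by exact_mod_cast h1) (by exact_mod_cast h2) l l.2)).1
      have e3 := (hlvb l).2
      have e4 := N2 l
      have e5 : (⟨(l : ℕ), l.2⟩ : Fin d) = l := rfl
      rw [e5]
      linarith
    have e1' : ∀ j : Fin n', Real.log 2 * (EIxT.DB ⟨N, DB, DU, lv, σ₀, aq, bq, lam, lp⟩ j -
        (TB j (whG G A s w) - oB j * whG G A s w)) ≤ Real.log 2 * ((P4 + 4) * μ) := by
      intro j
      refine mul_le_mul_of_nonneg_left ?_ hl2.le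
      have e2 := (abs_le.1 (hnB w (by exact_mod_cast h1) (by exact_mod_cast h2) j)).1
      have e4 := D2 j
      simp only [EIxT.DB]
      linarith
    have e1'' : ∀ j : Fin nU, Real.log 2 *
        (EIxT.DV ⟨N, DB, DU, lv, σ₀, aq, bq, lam, lp⟩ j - (TU j g - oU j * g - 4 * (Sb * E))) ≤
        Real.log 2 * ((P4 + 4) * μ) := by
      intro j
      refine mul_le_mul_of_nonneg_left ?_ hl2.le
      have e4 := DU2 j
      simp only [EIxT.DV]
      linarith
    refine (add_le_add (add_le_add (Finset.sum_le_sum fun l _ => e1 l)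
      (Finset.sum_le_sum fun j _ => e1' j)) (Finset.sum_le_sum fun j _ => e1'' j)).trans ?_
    rw [Finset.sum_const, Finset.card_univ, Fintype.card_fin, nsmul_eq_mul, Finset.sum_const,
      Finset.card_univ, Fintype.card_fin, nsmul_eq_mul, Finset.sum_const,
      Finset.card_univ, Fintype.card_fin, nsmul_eq_mul, hμ]
    have e6 : (d : ℝ) * (Real.log 2 * ((P4 + 4) * (κ * δ))) +
        n' * (Real.log 2 * ((P4 + 4) * (κ * δ))) + nU * (Real.log 2 * ((P4 + 4) * (κ * δ))) =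
        (Dn * (Real.log 2 * ((P4 + 4) * κ))) * δ := by rw [hDn]; ring
    rw [e6]
    exact mul_le_mul_of_nonneg_right hκ2 hδ.le

end

end Pool.LPT30
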