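import Pool.Agent.H30.LPT.Twe

/-!
# Sequences of windows from slopes, changes of the charts

`tel_fl`: a finite sequence of windows of a closed set with small steps. `tel_slo`: the sequence for
a target whose slope is smaller than the slope of the last place. `TlN`, `cnt_of`: the changes of the
charts `CnT` from sequences of windows.
-/

set_option autoImplicit false

namespace Pool.LPT30

open Finset Real MvPolynomial
open Pool.Agent.H49.Ent Pool.Agent.H32.Dense Pool.STK Pool.KA Pool.KSAT Pool.K2S Pool.PB Pool.S6C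
  Pool.GEN Pool.RCD Pool.LA91
open Pool.OWN83 (TwoRelS TRelS yX kn0_yX)
open Pool.AVG96 (fl fl_mem fl_mono le_fl whG)
open Pool.LP30 Pool.LPJ30

section

variable {sn : ℕ → ℝ → ℝ} {d : ℕ} {T : ℝ → ℝ} {G : Set ℝ} {j : ℕ}

theorem TelC.anti {Bs : ℕ → ℝ} {M : ℕ} {N N' v : ℝ} (h : TelC sn d T G Bs M j N v)
    (hN : N' ≤ N) : TelC sn d T G Bs M j N' v :=
  ⟨h.mem, h.mono, h.le, by linarith [h.c0], fun i hi => by linarith [h.c1 i hi]⟩

/-- **A finite sequence of windows** with small steps. -/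
theorem tel_fl {A p q v N h₀ : ℝ} (hG : IsClosed G) (hp : p ∈ G) (hA : A ≤ p) (hq : q ∈ G)
    (hpq : p ≤ q) (hqv : q ≤ v) (hh : 0 < h₀)
    (hx : ∀ X X' : ℝ, p ≤ X → X ≤ X' → X' ≤ q → X' ≤ X + h₀ →
      N + j * v ≤ T (fl G A X) + (sn d v - sn d (fl G A X'))) :
    ∃ (Bs : ℕ → ℝ) (M : ℕ), Bs 0 = p ∧ Bs M = q ∧ TelC sn d T G Bs M j N v := by
  have hne : ∀ X, p ≤ X → (G ∩ Set.Icc A X).Nonempty := fun X hX => ⟨p, hp, hA, hX⟩
  have hfix : ∀ u ∈ G, A ≤ u → fl G A u = u := fun u hu hAu =>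
    le_antisymm (fl_mem hG ⟨u, hu, hAu, le_rfl⟩).2.2 (le_fl hu hAu le_rfl)
  obtain ⟨X, hX⟩ : ∃ X : ℕ → ℝ, X = fun i : ℕ => min q (p + (i : ℝ) * h₀) := ⟨_, rfl⟩
  have hX0 : X 0 = p := by rw [hX]; simp [hpq]
  have hXm : ∀ i, X i ≤ X (i + 1) := by
    intro i
    rw [hX]
    refine min_le_min le_rfl ?_
    push_cast
    nlinarith
  have hXl : ∀ i, p ≤ X i := by
    intro i
    induction i with
    | zero => rw [hX0]
    | succ i ih => exact ih.trans (hXm i)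
  have hXv : ∀ i, X i ≤ q := fun i => by rw [hX]; exact min_le_left _ _
  have hXs : ∀ i, X (i + 1) ≤ X i + h₀ := by
    intro i
    rw [hX]
    simp only
    rcases min_choice q (p + i * h₀) with h | h
    · rw [h]
      exact (min_le_left _ _).trans (by linarith)
    · rw [h]
      refine (min_le_right _ _).trans ?_
      push_cast
      linarith
  obtain ⟨M, hM⟩ := exists_nat_ge ((q - p) / h₀)
  have hXM : X M = q := by
    rw [hX]
    refine min_eq_left ?_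
    rw [div_le_iff₀ hh] at hM
    linarith
  have g0 : fl G A (X 0) = p := by rw [hX0]; exact hfix p hp hA
  have gM : fl G A (X M) = q := by rw [hXM]; exact hfix q hq (hA.trans hpq)
  refine ⟨fun i => fl G A (X i), M, g0, gM, fun i _ => (fl_mem hG (hne _ (hXl i))).1,
    fun i _ => fl_mono (hne _ (hXl i)) (hXm i), ?_, ?_, fun i _ => ?_⟩
  · simp only [gM]; exact hqv
  · exact hx _ _ (hXl 0) le_rfl (hXv 0) (by linarith)
  · exact hx _ _ (hXl i) (hXm i) (hXv (i + 1)) (hXs i)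

/-- **The sequence from the slopes**: the target has the slope `β`, the last place the slope
`a₀ ≥ β + γ`; the pivot is the last window `p` of the sequence. -/
theorem tel_slo {A g p₀ p v N β a₀ γ Ub η r ρ : ℝ} (hG : IsClosed G)
    (hgap : ∀ t : ℝ, 0 < t → t < ρ → ∀ x, g - t ≤ x → x ≤ g + t → ∃ u ∈ G, x - η * t ≤ u ∧ u ≤ x)
    (hT : ∀ t : ℝ, 0 < t → t < ρ → ∀ w ∈ G, ∀ v ∈ G, g - t ≤ w → w ≤ v → v ≤ g + t →
      |T v - T w - β * (v - w)| ≤ η * t)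
    (hu : ∀ t : ℝ, 0 < t → t < ρ → ∀ w ∈ G, ∀ v ∈ G, g - t ≤ w → w ≤ v → v ≤ g + t →
      |sn d v - sn d w - a₀ * (v - w)| ≤ η * t)
    (hη : 0 < η) (hη1 : η * (8 * Ub + 16) ≤ γ) (hγ1 : γ ≤ 1) (hβ0 : 0 ≤ β) (hβ : β + γ ≤ a₀)
    (ha : a₀ ≤ Ub) (hγ : 0 < γ) (hr : 0 < r) (hrρ : 4 * r < ρ) (hp₀ : p₀ ∈ G) (hA : A ≤ p₀)
    (hgp : 4 * (g - p₀) < ρ) (hp : p ∈ G) (hpp : p₀ ≤ p) (hpv : p ≤ v) (hv : v ∈ G)
    (hp1 : g - r ≤ p) (hv1 : v ≤ g + 2 * r)
    (hN : N + j * v + (2 * Ub + 6) * (η * (2 * r)) ≤ T p + a₀ * (v - p)) :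
    ∃ (Bs : ℕ → ℝ) (M : ℕ), Bs 0 = p₀ ∧ Bs M = p ∧ TelC sn d T G Bs M j N v := by
  have ha0 : 0 < a₀ := by linarith
  have hUb0 : 0 < Ub := by linarith
  obtain ⟨h₀, hh0, hh⟩ : ∃ h₀ : ℝ, 0 < h₀ ∧ a₀ * h₀ ≤ η * (2 * r) :=
    ⟨η * (2 * r) / a₀, by positivity, by rw [mul_div_cancel₀ _ ha0.ne']⟩
  refine tel_fl (A := A) hG hp₀ hA hp hpp hpv hh0 fun X X' h1 h2 h3 h4 => ?_
  have hne : ∀ X, p₀ ≤ X → (G ∩ Set.Icc A X).Nonempty := fun X hX => ⟨p₀, hp₀, hA, hX⟩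
  obtain ⟨x1, x2, x3⟩ := fl_mem hG (hne X h1)
  obtain ⟨y1, y2, y3⟩ := fl_mem hG (hne X' (h1.trans h2))
  have y4 : fl G A X ≤ fl G A X' := fl_mono (hne X h1) h2
  obtain ⟨D, hD⟩ : ∃ D : ℝ, D = max r (g - X) := ⟨_, rfl⟩
  have hDr : r ≤ D := by rw [hD]; exact le_max_left _ _
  have hDX : g - X ≤ D := by rw [hD]; exact le_max_right _ _
  have hD0 : 0 < D := by linarith
  have hDρ : 4 * D < ρ := by
    rw [hD]
    rcases max_choice r (g - X) with h | h <;> rw [h]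
    · exact hrρ
    · linarith
  have hη2 : η ≤ 1 / 16 := by
    have : 0 ≤ η * (8 * Ub) := by positivity
    linarith
  have hηD : η * (2 * D) ≤ D := by nlinarith
  have hXp : X ≤ p := h2.trans h3
  have hXv : X ≤ v := hXp.trans hpv
  obtain ⟨u, hu1, hu2, hu3⟩ := hgap (2 * D) (by positivity) (by linarith) X (by linarith)
    (by linarith)
  have x4 : X - η * (2 * D) ≤ fl G A X := by
    rcases le_total A u with h | h
    · exact hu2.trans (le_fl hu1 h hu3)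
    · linarith
  have t1 := (abs_le.1 (hT (2 * D) (by positivity) (by linarith) _ x1 _ hp (by linarith)
    (x3.trans hXp) (by linarith))).2
  have t2 := (abs_le.1 (hu (2 * D) (by positivity) (by linarith) _ y1 _ hv (by linarith)
    (y3.trans (h3.trans hpv)) (by linarith))).1
  -- the products
  have m1 : a₀ * (v - fl G A X') ≥ a₀ * (v - X) - a₀ * h₀ := by
    have : a₀ * (v - X - h₀) ≤ a₀ * (v - fl G A X') :=
      mul_le_mul_of_nonneg_left (by linarith) ha0.le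
    linarith
  have m2 : β * (p - fl G A X) ≤ β * (p - X) + β * (η * (2 * D)) := by
    have : β * (p - fl G A X) ≤ β * (p - X + η * (2 * D)) :=
      mul_le_mul_of_nonneg_left (by linarith) hβ0
    linarith
  have m3 : β * (η * (2 * D)) ≤ Ub * (η * (2 * D)) :=
    mul_le_mul_of_nonneg_right (by linarith) (by positivity)
  have m4 : γ * (p - X) ≤ (a₀ - β) * (p - X) :=
    mul_le_mul_of_nonneg_right (by linarith) (by linarith)
  have key : (Ub + 2) * (η * (2 * D)) ≤ γ * (p - X) + (2 * Ub + 4) * (η * (2 * r)) := by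
    rcases le_total D (2 * r) with h | h
    · have k1 : (Ub + 2) * (η * (2 * D)) ≤ (Ub + 2) * (η * (2 * (2 * r))) := by gcongr
      have k2 : 0 ≤ γ * (p - X) := mul_nonneg hγ.le (by linarith)
      linarith
    · have k1 : D = g - X := by
        rw [hD] at h ⊢
        rcases max_choice r (g - X) with h' | h' <;> rw [h'] at h ⊢
        linarith
      have k2 : γ * (D / 2) ≤ γ * (p - X) := mul_le_mul_of_nonneg_left (by linarith) hγ.le
      have k3 : η * (8 * Ub + 16) * (D / 4) ≤ γ * (D / 4) :=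
        mul_le_mul_of_nonneg_right hη1 (by linarith)
      have k4 : 0 ≤ γ * D := by positivity
      have k5 : 0 ≤ (2 * Ub + 4) * (η * (2 * r)) := by positivity
      linarith
  have e1 : a₀ * (v - X) = a₀ * (v - p) + (a₀ - β) * (p - X) + β * (p - X) := by ring
  have e2 : (2 * Ub + 6) * (η * (2 * r)) = (2 * Ub + 4) * (η * (2 * r)) + 2 * (η * (2 * r)) := by
    ring
  have e3 : (Ub + 2) * (η * (2 * D)) = Ub * (η * (2 * D)) + 2 * (η * (2 * D)) := by ring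
  have e4 : 0 < η * (2 * r) := by positivity
  linarith

end

/-- **The sequences of windows** for the changes of the charts: `β` is the window of the charts of
the index, `wc ≤ vc ≤ oc` the windows of the records. -/
structure TlN (sn : ℕ → ℝ → ℝ) (d : ℕ) (G : Set ℝ) {nT nU : ℕ} (oT : Fin nT → ℕ)
    (TT : Fin nT → ℝ → ℝ) (oU : Fin nU → ℕ) (TU : Fin nU → ℝ → ℝ) (lv : ℕ → ℝ) (σ : ℝ)
    (Du Dv Pv Po : Fin nT → ℝ) (nW DU : Fin nU → ℝ) (E₂ β bt wc vc oc : ℝ) : Prop where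
  du : ∀ i, Du i ≤ Po i + E₂
  du' : ∀ i, Po i ≤ Du i + E₂
  dv : ∀ i, Pv i ≤ Dv i + E₂
  nw : ∀ i, nW i ≤ DU i
  c1 : ∀ i, ∃ (Bs : ℕ → ℝ) (M : ℕ), Bs 0 = β ∧ Bs M = bt ∧
    TelC sn d (TT i) G Bs M (oT i) (max (Du i) (Dv i)) wc
  c3 : ∀ i, ∃ (Bs : ℕ → ℝ) (M : ℕ), Bs 0 = β ∧ Bs M = bt ∧
    TelC sn d (TT i) G Bs M (oT i) (Du i) vc
  c4 : ∀ i, ∃ (Bs : ℕ → ℝ) (M : ℕ), Bs 0 = β ∧ Bs M = bt ∧
    TelC sn d (TU i) G Bs M (oU i) (nW i) wc
  c6 : ∀ i, ∃ (Bs : ℕ → ℝ) (M : ℕ), Bs 0 = bt ∧ Bs M = oc ∧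
    TelC sn d (TT i) G Bs M (oT i) (max (Du i) (Dv i) - E₂) oc
  p6 : ∀ i, max (Du i) (Dv i) - E₂ + oT i * oc ≤ TT i oc
  r6 : ∀ i, TelR sn d lv σ (oT i) bt oc

section

variable {m : ℕ} {S : PCl m} {c : ℕ → Fin m} {d : ℕ} {s a₀ a b lam : ℝ} {wh : ℚ → ℝ}
  {sn : ℕ → ℝ → ℝ} {G : Set ℝ} {N lv₀ : ℕ → ℝ} {σ₁ : ℝ}
  {lp : ℚ} {nT nU : ℕ} {kT : Fin nT → Fin m} {oT : Fin nT → ℕ}
  {TT : Fin nT → ℝ → ℝ} {kU : Fin nU → Fin m} {oU : Fin nU → ℕ} {TU : Fin nU → ℝ → ℝ}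
  {DU : Fin nU → ℝ} {PT : Fin nT → ℚ → ℝ}

theorem log_le {t E₂ : ℝ} (hE : 0 ≤ E₂) (h : t ≤ E₂) : Real.log 2 * t ≤ E₂ := by
  have hl2 : 0 < Real.log 2 := Real.log_pos one_lt_two
  have hl21 : Real.log 2 ≤ 1 := by
    have := Real.log_two_lt_d9
    linarith
  rcases le_total t 0 with h2 | h2
  · have : Real.log 2 * t ≤ 0 := mul_nonpos_of_nonneg_of_nonpos hl2.le h2
    linarith
  · nlinarith

theorem sum_cst {n : ℕ} (E₂ : ℝ) : ∑ _i : Fin n, E₂ = n * E₂ := by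
  rw [Finset.sum_const, Finset.card_univ, Fintype.card_fin, nsmul_eq_mul]

/-- The natural digits given the near path, record at `oc`, charts of `bt`. -/
theorem few_ownN {C₀ : ℝ} (htm : TmC S C₀)
    (hpos : ∀ (τ : ℝ) (J : ℕ) (F : Fam m J) (A : F.Ω → Prop), S.St τ J F A → 0 < Pe F.p A)
    (hW : ChG S c d sn G) (hI : TwI S c d sn G kT TT kU TU) {oc wc bt σ : ℝ} (ho : oc ∈ G)
    {nH nV lv : ℕ → ℝ} (hr : NrC sn d nH nV lv σ wc oc) (hi : HiW sn d lv (σ / 2) G oc)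
    {D M : Fin nT → ℝ} {E₂ : ℝ} (hE₂ : 0 ≤ E₂) (hD : ∀ i, D i ≤ M i)
    (c6 : ∀ i, ∃ (Bs : ℕ → ℝ) (M' : ℕ), Bs 0 = bt ∧ Bs M' = oc ∧
      TelC sn d (TT i) G Bs M' (oT i) (M i - E₂) oc)
    (p6 : ∀ i, M i - E₂ + oT i * oc ≤ TT i oc)
    (r6 : ∀ i, TelR sn d lv (σ / 2) (oT i) bt oc) :
    FewC S (fun J F => ptr F J) (vg oc) (fun _ F => F.W)
      (paQ m c d wc (fun l => sn l wc) nH nV) (twQ m c d kT oT TT D bt) (nT * E₂) := by
  have hfp : ∀ (J : ℕ) (F : Fam m J), ∃ χ : PtT F → PtT F, ∀ ω, ptr F J ω = χ (ptr F J ω) :=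
    fun J F => ⟨fun x => x, fun _ => rfl⟩
  have key : ∀ i : Fin nT, FewC S (fun J F => ptr F J) (vg oc) (fun _ F => F.W)
      (paQ m c d wc (fun l => sn l wc) nH nV)
      (qJet m ((range (d + 1)).image c) (kT i) (oT i) bt (TT i bt) (D i)) E₂ := by
    intro i
    obtain ⟨Bs, M', h0, hM, hC⟩ := c6 i
    have h3 := few_ownT (f := fun J F => ptr F J) (y := fun _ F => F.W) htm hpos hI.ch hfp kn_W
      hI.mn ho (LvR.of_hi hi (half_pos hr.σ0) hr.lv0)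
      (few_pv (f := fun J F => ptr F J) (y := fun _ F => F.W) htm hpos hW hfp kn_W ho hr hi (oT i))
      (hI.tT i) (B₀ := bt) (P := min (D i) (M i - E₂)) (r6 i)
      (by linarith [min_le_right (D i) (M i - E₂), p6 i])
      (fun N' hN' => ⟨Bs, M', h0, hM, hC.anti (hN'.le.trans (min_le_right _ _))⟩)
    refine (few_more hpos (min_le_left _ _) h3).mono (log_le hE₂ ?_)
    rcases min_choice (D i) (M i - E₂) with h | h <;> rw [h] <;> linarith [hD i]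
  exact (fewC_pi hpos key).mono (sum_cst E₂).le

/-- **The changes of the charts** from the sequences of windows. -/
theorem cnt_of (h : VCh S (fun J F => ptr F J) (yX ((range d).image c)) c d s a₀ b wh sn G)
    (hI : TwI S c d sn G kT TT kU TU) (ha : a₀ < a - lp)
    (hE : EdJ wh sn d N lv₀ σ₁ a b lam G) (hD : TwD wh sn d lv₀ σ₁ lp a b lam oT TT oU TU DU)
    {w v o : ℚ} (hw : a < w) (hwv : w ≤ v) (hvo : v ≤ o) (ho : (o : ℝ) < b)
    (hl : (o : ℝ) < w + lam) {nH nV lv : ℕ → ℝ} {σ bt E₂ : ℝ} {Du Dv : Fin nT → ℝ}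
    {nW : Fin nU → ℝ} (hr : NrC sn d nH nV lv σ (wh w) (wh o))
    (hi : HiW sn d lv (σ / 2) G (wh o)) (hE₂ : 0 ≤ E₂)
    (hT : TlN sn d G oT TT oU TU lv (σ / 2) Du Dv (fun i => PT i v) (fun i => PT i o) nW DU E₂
      (wh (w - lp)) bt (wh w) (wh v) (wh o)) :
    CnT S c d wh sn N nH nV lp kT oT TT kU oU TU DU PT Du Dv nW bt (nT * E₂) w v o := by
  have hwv' : (w : ℝ) ≤ v := by exact_mod_cast hwv
  have hvo' : (v : ℝ) ≤ o := by exact_mod_cast hvo
  have hlp : (0 : ℝ) ≤ lp := by exact_mod_cast hD.lp0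
  have wb : (w : ℝ) < b := by linarith
  have vb : (v : ℝ) < b := by linarith
  have va : a < v := by linarith
  have oa : a < o := by linarith
  obtain ⟨C₀, htm⟩ := h.tm
  have hc := h.cut (a' := a) (b' := b) (by linarith) le_rfl
  have gw := (hc.wg w hw wb).1
  have gv := (hc.wg v va vb).1
  have go := (hc.wg o oa ho).1
  have Lw := LvR.of_hi (hE.hi w hw wb) hE.ed.σ0 hE.ed.lv0
  have Lv := LvR.of_hi (hE.hi v va vb) hE.ed.σ0 hE.ed.lv0
  have hmax : ∀ i, Du i ≤ max (Du i) (Dv i) ∧ Dv i ≤ max (Du i) (Dv i) := fun i =>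
    ⟨le_max_left _ _, le_max_right _ _⟩
  refine
    { k1 := (fewC_pi h.pos fun i => ?_).mono (sum_cst E₂).le
      k2 := (fewC_pi h.pos fun i => ?_).mono (sum_cst E₂).le
      k3 := (fewC_pi h.pos fun i => ?_).mono (sum_cst E₂).le
      k4 := few_pi h.pos fun i => ?_
      k6 := few_ownN htm h.pos h.ch hI go hr hi hE₂ (fun i => (hmax i).1) hT.c6 hT.p6 hT.r6
      k7 := few_ownN htm h.pos h.ch hI go hr hi hE₂ (fun i => (hmax i).2) hT.c6 hT.p6 hT.r6 }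
  · obtain ⟨Bs, M, h0, hM, hC⟩ := hT.c1 i
    have h3 := few_telU htm h.pos hI.ch h.pt h.kn hI.mn gw Lw
      (few_vpX hc hE hw le_rfl wb (by linarith) (oT i)) (hI.tT i) (N₁ := PT i o)
      (N₂ := min (PT i o) (Du i)) (min_le_left _ _)
      (hC.anti ((min_le_right _ _).trans (hmax i).1))
      (by rw [h0]; exact hD.RT w w hw le_rfl wb (by linarith) i)
    rw [h0, hM] at h3
    refine FewC.pre h.pos (fun u : (Fin d → ℤ) × (Fin nT → ℤ) => (u.1, u.2 i))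
      (fun K e J F A u hu => by exact ⟨hu.1, hu.2 i⟩)
      ((few_more h.pos (min_le_right _ _) h3).mono (log_le hE₂ ?_))
    rcases min_choice (PT i o) (Du i) with h | h <;> rw [h] <;> linarith [hT.du i]
  · obtain ⟨Bs, M, h0, hM, hC⟩ := hT.c1 i
    have h3 := few_telD htm h.pos hI.ch h.pt h.kn hI.mn gw Lw
      (few_vpX hc hE hw le_rfl wb (by linarith) (oT i)) (hI.tT i) (N₁ := Dv i)
      (N₂ := min (Dv i) (PT i v)) (min_le_left _ _)
      (hC.anti ((min_le_left _ _).trans (hmax i).2))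
      (by rw [h0]; exact hD.RT w w hw le_rfl wb (by linarith) i)
    rw [h0, hM] at h3
    refine FewC.pre h.pos (fun u : (Fin d → ℤ) × (Fin nT → ℤ) => (u.1, u.2 i))
      (fun K e J F A u hu => by exact ⟨hu.1, hu.2 i⟩)
      ((few_more h.pos (min_le_right _ _) h3).mono (log_le hE₂ ?_))
    rcases min_choice (Dv i) (PT i v) with h | h <;> rw [h] <;> linarith [hT.dv i]
  · obtain ⟨Bs, M, h0, hM, hC⟩ := hT.c3 i
    have h3 := few_telD htm h.pos hI.ch h.pt h.kn hI.mn gv Lv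
      (few_vpX hc hE hw hwv vb (by linarith) (oT i)) (hI.tT i) (N₁ := Du i)
      (N₂ := min (Du i) (PT i o)) (min_le_left _ _)
      (hC.anti (min_le_left _ _))
      (by rw [h0]; exact hD.RT w v hw hwv vb (by linarith) i)
    rw [h0, hM] at h3
    refine FewC.pre h.pos (fun u : (Fin d → ℤ) × (Fin nT → ℤ) => (u.1, u.2 i))
      (fun K e J F A u hu => by exact ⟨hu.1, hu.2 i⟩)
      ((few_more h.pos (min_le_right _ _) h3).mono (log_le hE₂ ?_))
    rcases min_choice (Du i) (PT i o) with h | h <;> rw [h] <;> linarith [hT.du' i]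
  · obtain ⟨Bs, M, h0, hM, hC⟩ := hT.c4 i
    have h3 := few_telU htm h.pos hI.ch h.pt h.kn hI.mn gw Lw
      (few_vpX hc hE hw le_rfl wb (by linarith) (oU i)) (hI.tU i) (N₁ := DU i)
      (N₂ := nW i) (hT.nw i) hC
      (by rw [h0]; exact hD.RU w w hw le_rfl wb (by linarith) i)
    rw [h0, hM] at h3
    exact Few.pre h.pos (fun u : (Fin d → ℤ) × (Fin nU → ℤ) => (u.1, u.2 i))
      (fun K e J F A u hu => by exact ⟨hu.1, hu.2 i⟩) h3

end

end Pool.LPT30
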