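import Pool.Agent.H30.LPT.Twg

/-!
# No look-ahead given the near path, the chain and one more place, almost everywhere

`own_slo`: the digits `pfT` of the jets of the first kind are the natural digits up to a small error.
`tln_box`: the sequences of windows in a box. `nt_box`: `NtG` at a point with good numbers. `nt_ae`:
in a subclass, `NtG` holds at almost every window with good slopes.
-/

set_option autoImplicit false

namespace Pool.LPT30

open Finset Real MvPolynomial MeasureTheory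
open Pool.Agent.H49.Ent Pool.Agent.H32.Dense Pool.STK Pool.KA Pool.KSAT Pool.K2S Pool.PB Pool.S6C
  Pool.GEN Pool.RCD Pool.LA91
open Pool.OWN83 (TwoRelS TRelS yX kn0_yX ae_shift)
open Pool.OWN68 (cl2_vg)
open Pool.AVG96 (fl fl_mem fl_mono le_fl whG)
open Pool.LP30 Pool.LPJ30

section

variable {sn : ℕ → ℝ → ℝ} {d : ℕ} {T : ℝ → ℝ} {G : Set ℝ} {j : ℕ}

/-- **The natural digits** are natural at all later indices. -/
theorem own_slo {A s g x β a₀ γ Ub η r ρ : ℝ} (hG : IsClosed G)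
    (hgap : ∀ t : ℝ, 0 < t → t < ρ → ∀ x, g - t ≤ x → x ≤ g + t → ∃ u ∈ G, x - η * t ≤ u ∧ u ≤ x)
    (hT : ∀ t : ℝ, 0 < t → t < ρ → ∀ w ∈ G, ∀ v ∈ G, g - t ≤ w → w ≤ v → v ≤ g + t →
      |T v - T w - β * (v - w)| ≤ η * t)
    (hu : ∀ t : ℝ, 0 < t → t < ρ → ∀ w ∈ G, ∀ v ∈ G, g - t ≤ w → w ≤ v → v ≤ g + t →
      |sn d v - sn d w - a₀ * (v - w)| ≤ η * t)
    (hη : 0 < η) (hη1 : η * (8 * Ub + 16) ≤ γ) (hγ1 : γ ≤ 1) (hj : j + γ ≤ β) (hβ : β + γ ≤ a₀)
    (ha : a₀ ≤ Ub) (hγ : 0 < γ) (hr : 0 < r) (hrρ : 4 * r < ρ) {a₁ oq u : ℚ}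
    (hne : (G ∩ Set.Icc A ((a₁ : ℝ) + s)).Nonempty) (h1 : a₁ ≤ oq) (h2 : oq ≤ u)
    (ha₁ : 4 * (g - (a₁ + s)) < ρ) (hu1 : 4 * ((u : ℝ) + s - g) < ρ)
    (o1 : g - 2 * r ≤ whG G A s oq) (o2 : whG G A s oq ≤ g + 2 * r)
    (hx : x + j * whG G A s oq + (8 * Ub + 16) * (η * (2 * r)) ≤ T (whG G A s oq)) :
    OwnI (whG G A s) T (sn d) j a₁ u x := by
  have ha0 : 0 < a₀ := by
    have : (0 : ℝ) ≤ j := Nat.cast_nonneg _
    linarith
  have hUb0 : 0 < Ub := by linarith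
  have hE0 : 0 < η * (2 * r) := by positivity
  obtain ⟨n, hn⟩ := exists_nat_gt (Ub / (η * (2 * r)))
  rw [div_lt_iff₀ hE0] at hn
  refine ⟨n, fun w w' e1 e2 e3 e4 => ?_⟩
  have e1' : (a₁ : ℝ) ≤ w := by exact_mod_cast e1
  have e2' : (w : ℝ) ≤ w' := by exact_mod_cast e2
  have e3' : (w' : ℝ) ≤ u := by exact_mod_cast e3
  have h2' : (oq : ℝ) ≤ u := by exact_mod_cast h2
  have h1' : (a₁ : ℝ) ≤ oq := by exact_mod_cast h1
  have e4' : (w' : ℝ) ≤ w + 1 / ((n : ℝ) + 1) := by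
    have z : ((w' : ℚ) : ℝ) ≤ ((w + 1 / ((n : ℚ) + 1) : ℚ) : ℝ) := Rat.cast_le.2 e4
    push_cast at z
    exact z
  have hnn : ∀ q : ℚ, (a₁ : ℝ) ≤ q → (G ∩ Set.Icc A ((q : ℝ) + s)).Nonempty := fun q hq => by
    obtain ⟨p, p1, p2, p3⟩ := hne
    exact ⟨p, p1, p2, by linarith⟩
  obtain ⟨W1, W2, W3⟩ := fl_mem hG (hnn w e1')
  obtain ⟨X1, X2, X3⟩ := fl_mem hG (hnn w' (e1'.trans e2'))
  obtain ⟨Y1, Y2, Y3⟩ := fl_mem hG (hnn u (by linarith))
  obtain ⟨O1, O2, O3⟩ := fl_mem hG (hnn oq h1')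
  have M1 : whG G A s w ≤ whG G A s w' := fl_mono (hnn w e1') (by linarith)
  have M2 : whG G A s w' ≤ whG G A s u := fl_mono (hnn w' (e1'.trans e2')) (by linarith)
  have M3 : whG G A s oq ≤ whG G A s u := fl_mono (hnn oq h1') (by linarith)
  change whG G A s w ∈ G at W1
  change whG G A s w' ∈ G at X1
  change whG G A s u ∈ G at Y1
  change whG G A s oq ∈ G at O1
  change whG G A s w ≤ (w : ℝ) + s at W3
  change whG G A s w' ≤ (w' : ℝ) + s at X3
  change whG G A s u ≤ (u : ℝ) + s at Y3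
  obtain ⟨D, hD⟩ : ∃ D : ℝ, D = max r (max (g - (w + s)) (u + s - g)) := ⟨_, rfl⟩
  have hDr : r ≤ D := by rw [hD]; exact le_max_left _ _
  have hDw : g - (w + s) ≤ D := by
    rw [hD]; exact (le_max_left _ _).trans (le_max_right _ _)
  have hDu : (u : ℝ) + s - g ≤ D := by
    rw [hD]; exact (le_max_right _ _).trans (le_max_right _ _)
  have hD0 : 0 < D := by linarith
  have hDc : D = r ∨ D = g - (w + s) ∨ D = (u : ℝ) + s - g := by
    rw [hD]
    rcases max_choice r (max (g - ((w : ℝ) + s)) (u + s - g)) with h | h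
    · exact Or.inl h
    · rcases max_choice (g - ((w : ℝ) + s)) ((u : ℝ) + s - g) with h' | h'
      · exact Or.inr (Or.inl (h.trans h'))
      · exact Or.inr (Or.inr (h.trans h'))
  have hDρ : 4 * D < ρ := by
    rcases hDc with h | h | h <;> rw [h]
    · exact hrρ
    · linarith
    · exact hu1
  have hη2 : η ≤ 1 / 16 := by
    have : 0 ≤ η * (8 * Ub) := by positivity
    linarith
  have hηD : 8 * (η * (2 * D)) ≤ D := by nlinarith
  have low : ∀ q : ℚ, (a₁ : ℝ) ≤ q → g - D ≤ (q : ℝ) + s → (q : ℝ) + s ≤ g + D →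
      (q : ℝ) + s - η * (2 * D) ≤ whG G A s q := by
    intro q q0 q1 q2
    obtain ⟨p, p1, p2, p3⟩ := hgap (2 * D) (by positivity) (by linarith) ((q : ℝ) + s)
      (by linarith) (by linarith)
    obtain ⟨-, Q2, -⟩ := fl_mem hG (hnn q q0)
    rcases le_total A p with h | h
    · exact p2.trans (le_fl p1 h p3)
    · change A ≤ whG G A s q at Q2
      linarith
  have lw := low w e1' (by linarith) (by linarith)
  have lu := low u (by linarith) (by linarith) (by linarith)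
  -- the slopes
  have t1 : T (whG G A s oq) + β * (whG G A s w - whG G A s oq) - η * (2 * D) ≤
      T (whG G A s w) := by
    rcases le_total (whG G A s w) (whG G A s oq) with h | h
    · have := (abs_le.1 (hT (2 * D) (by positivity) (by linarith) _ W1 _ O1 (by linarith) h
        (by linarith))).2
      linarith
    · have := (abs_le.1 (hT (2 * D) (by positivity) (by linarith) _ O1 _ W1 (by linarith) h
        (by linarith))).1
      linarith
  have t2 := (abs_le.1 (hu (2 * D) (by positivity) (by linarith) _ X1 _ Y1 (by linarith) M2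
    (by linarith))).1
  have hn1 : (0 : ℝ) < (n : ℝ) + 1 := by positivity
  have z3 : a₀ * (1 / ((n : ℝ) + 1)) ≤ η * (2 * r) := by
    rw [mul_one_div, div_le_iff₀ hn1]
    linarith
  have m1 : a₀ * (whG G A s u - whG G A s w) - a₀ * (η * (2 * D)) - a₀ * (1 / ((n : ℝ) + 1)) ≤
      a₀ * (whG G A s u - whG G A s w') := by
    have : a₀ * (whG G A s u - whG G A s w - η * (2 * D) - 1 / ((n : ℝ) + 1)) ≤
        a₀ * (whG G A s u - whG G A s w') := mul_le_mul_of_nonneg_left (by linarith) ha0.le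
    linarith
  have m3 : a₀ * (η * (2 * D)) ≤ Ub * (η * (2 * D)) :=
    mul_le_mul_of_nonneg_right ha (by positivity)
  have m4 : γ * (whG G A s u - whG G A s w) ≤ (a₀ - β) * (whG G A s u - whG G A s w) :=
    mul_le_mul_of_nonneg_right (by linarith) (by linarith)
  have m5 : γ * (whG G A s u - whG G A s oq) ≤ (β - j) * (whG G A s u - whG G A s oq) :=
    mul_le_mul_of_nonneg_right (by linarith) (by linarith)
  have p1 : 0 ≤ γ * (whG G A s u - whG G A s w) := mul_nonneg hγ.le (by linarith)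
  have p2 : 0 ≤ γ * (whG G A s u - whG G A s oq) := mul_nonneg hγ.le (by linarith)
  have key : (Ub + 2) * (η * (2 * D)) ≤ γ * (whG G A s u - whG G A s w) +
      γ * (whG G A s u - whG G A s oq) + (4 * Ub + 8) * (η * (2 * r)) := by
    rcases le_total D (4 * r) with h | h
    · have k1 : (Ub + 2) * (η * (2 * D)) ≤ (Ub + 2) * (η * (2 * (4 * r))) := by gcongr
      linarith
    · have k5 : 0 ≤ (4 * Ub + 8) * (η * (2 * r)) := by positivity
      have k3 : η * (8 * Ub + 16) * (D / 4) ≤ γ * (D / 4) :=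
        mul_le_mul_of_nonneg_right hη1 (by linarith)
      have k4 : 0 ≤ γ * D := by positivity
      rcases hDc with h' | h' | h'
      · linarith
      · have k2 : γ * (D / 4) ≤ γ * (whG G A s u - whG G A s w) :=
          mul_le_mul_of_nonneg_left (by linarith) hγ.le
        linarith
      · have k2 : γ * (D / 4) ≤ γ * (whG G A s u - whG G A s oq) :=
          mul_le_mul_of_nonneg_left (by linarith) hγ.le
        linarith
  have e5 : β * (whG G A s w - whG G A s oq) + a₀ * (whG G A s u - whG G A s w) =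
      (β - j) * (whG G A s u - whG G A s oq) + (a₀ - β) * (whG G A s u - whG G A s w) +
        j * (whG G A s u - whG G A s oq) := by ring
  have e6 : (8 * Ub + 16) * (η * (2 * r)) = (4 * Ub + 8) * (η * (2 * r)) +
    4 * (Ub * (η * (2 * r))) + 8 * (η * (2 * r)) := by ring
  have e7 : (Ub + 2) * (η * (2 * D)) = Ub * (η * (2 * D)) + 2 * (η * (2 * D)) := by ring
  have e8 : 0 ≤ Ub * (η * (2 * r)) := by positivity
  linarith

end

/-- **The sequences of windows in a box.** -/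
theorem tln_box {sn : ℕ → ℝ → ℝ} {d nT nU : ℕ} {G : Set ℝ} {oT : Fin nT → ℕ}
    {TT : Fin nT → ℝ → ℝ} {oU : Fin nU → ℕ} {TU : Fin nU → ℝ → ℝ} {g a₀ : ℝ} {bT : Fin nT → ℝ}
    {Ub γ η r ρ E A X R : ℝ} {lv : ℕ → ℝ} {nW DU : Fin nU → ℝ} {Pv Po : Fin nT → ℝ}
    {β bt wc vc oc x y o : ℝ} (hG : IsClosed G) (hK : TwK oT oU a₀ bT Ub γ)
    (hgap : ∀ t : ℝ, 0 < t → t < ρ → ∀ x, g - t ≤ x → x ≤ g + t → ∃ u ∈ G, x - η * t ≤ u ∧ u ≤ x)
    (HX : ∀ t : ℝ, 0 < t → t < ρ → BxT sn d TT oU TU G g a₀ bT η t)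
    (hη : 0 < η) (hη1 : η * (8 * Ub + 16) ≤ γ) (hr : 0 < r) (hrρ : 4 * r < ρ)
    (hE : E = η * (2 * r)) (hβ : β ∈ G) (hAβ : A ≤ β) (hgβ : 4 * (g - β) < ρ) (hβb : β ≤ bt)
    (gb : bt ∈ G) (gw : wc ∈ G) (gv : vc ∈ G) (go : oc ∈ G) (b1 : g - r ≤ bt)
    (b2 : bt + X ≤ x) (xy : x ≤ y) (yo : y ≤ o) (og : o ≤ g + r)
    (w1 : wc ≤ x) (w2 : x ≤ wc + 2 * E) (v1 : vc ≤ y + E) (v2 : y ≤ vc + E)
    (o1 : oc ≤ o + 2 * E) (o2 : o ≤ oc + E) (wv : wc ≤ vc) (vo : vc ≤ oc)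
    (hX : 64 * ((Ub + 2) * E) ≤ X) (hEr : 100 * E ≤ r)
    (R1 : 8 * (Ub + 1) * r ≤ R) (R2 : X ≤ R) (R3 : 16 * R ≤ 1 - oc)
    (hu : ∀ l < d, a₀ * (o - bt) + X ≤ lv l)
    (hT : ∀ i, TT i o - oT i * o + oT i * x + X ≤ TT i bt + a₀ * (x - bt))
    (hU : ∀ i, nW i + oU i * x + X ≤ TU i bt + a₀ * (x - bt))
    (P1 : ∀ i, Po i ≤ TT i oc - oT i * oc)
    (P2 : ∀ i, TT i oc - oT i * oc - (8 * Ub + 16) * E ≤ Po i)
    (P3 : ∀ i, Pv i ≤ TT i vc - oT i * vc) (hnw : ∀ i, nW i ≤ DU i) :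
    TlN sn d G oT TT oU TU lv (X / 2 / 2) (fun i => TT i o - oT i * o)
      (fun i => TT i y - oT i * y) Pv Po nW DU ((12 * Ub + 20) * E) β bt wc vc oc := by
  have ha0 := hK.a0
  have haU := hK.a
  have hγ := hK.γ0
  have hUb0 : 0 ≤ Ub := ha0.trans haU
  have hE0 : 0 < E := by rw [hE]; positivity
  have hUE : 0 ≤ Ub * E := by positivity
  have hX0 : 0 < X := by
    have : 0 < (Ub + 2) * E := by positivity
    linarith
  have hex1 : (Ub + 2) * E = Ub * E + 2 * E := by ring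
  have hex2 : (12 * Ub + 20) * E = 12 * (Ub * E) + 20 * E := by ring
  have hex3 : (8 * Ub + 16) * E = 8 * (Ub * E) + 16 * E := by ring
  have hex4 : (2 * Ub + 6) * E = 2 * (Ub * E) + 6 * E := by ring
  have hUr : 0 ≤ Ub * r := by positivity
  -- the slopes in the box
  have B := HX (2 * r) (by positivity) (by linarith)
  have hSl : ∀ i, ∀ t : ℝ, 0 < t → t < ρ → ∀ w ∈ G, ∀ v ∈ G, g - t ≤ w → w ≤ v → v ≤ g + t →
      |TT i v - TT i w - bT i * (v - w)| ≤ η * t := fun i t t0 t1 w _ v _ e1 e2 e3 =>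
    (HX t t0 t1).T i w v e1 e2 e3
  have hSu : ∀ t : ℝ, 0 < t → t < ρ → ∀ w ∈ G, ∀ v ∈ G, g - t ≤ w → w ≤ v → v ≤ g + t →
      |sn d v - sn d w - a₀ * (v - w)| ≤ η * t := fun t t0 t1 => (HX t t0 t1).u
  have hSU : ∀ i, ∀ t : ℝ, 0 < t → t < ρ → ∀ w ∈ G, ∀ v ∈ G, g - t ≤ w → w ≤ v → v ≤ g + t →
      |TU i v - TU i w - oU i * (v - w)| ≤ η * t := fun i t t0 t1 => (HX t t0 t1).U i
  have hj0 : ∀ i, (0 : ℝ) ≤ oT i := fun i => Nat.cast_nonneg _
  have hjU0 : ∀ i, (0 : ℝ) ≤ oU i := fun i => Nat.cast_nonneg _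
  have hjT : ∀ i, (oT i : ℝ) ≤ Ub := fun i => by linarith [hK.T1 i, hK.T2 i]
  have hjT' : ∀ i, (oT i : ℝ) ≤ a₀ := fun i => by linarith [hK.T1 i, hK.T2 i]
  have hjU : ∀ i, (oU i : ℝ) ≤ Ub := fun i => by linarith [hK.U2 i]
  have hbT : ∀ i, bT i ≤ Ub := fun i => by linarith [hK.T2 i]
  have hbT0 : ∀ i, 0 ≤ bT i := fun i => by linarith [hK.T1 i, hj0 i]
  -- natural digits at two windows of the box
  have nat : ∀ i, ∀ p q : ℝ, g - 2 * r ≤ p → g - 2 * r ≤ q → p ≤ g + 2 * r → q ≤ g + 2 * r →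
      p ≤ q + 2 * E → TT i p - oT i * p ≤ TT i q - oT i * q + (4 * (Ub * E) + E) := by
    intro i p q p1 q1 p2 q2 hpq
    rcases le_total p q with h | h
    · have e1 := (abs_le.1 (B.T i p q p1 h q2)).1
      rw [← hE] at e1
      have e2 : (oT i : ℝ) * (q - p) ≤ bT i * (q - p) :=
        mul_le_mul_of_nonneg_right (by linarith [hK.T1 i]) (by linarith)
      linarith
    · have e1 := (abs_le.1 (B.T i q p q1 h p2)).2
      rw [← hE] at e1
      have e2 : bT i * (p - q) ≤ bT i * (2 * E) :=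
        mul_le_mul_of_nonneg_left (by linarith) (hbT0 i)
      have e3 : bT i * (2 * E) ≤ Ub * (2 * E) :=
        mul_le_mul_of_nonneg_right (hbT i) (by positivity)
      have e4 : 0 ≤ (oT i : ℝ) * (p - q) := mul_nonneg (hj0 i) (by linarith)
      linarith
  have hDv : ∀ i, TT i y - oT i * y ≤ TT i o - oT i * o + (4 * (Ub * E) + E) := fun i =>
    nat i y o (by linarith) (by linarith) (by linarith) (by linarith) (by linarith)
  have hDo : ∀ i, TT i o - oT i * o ≤ TT i oc - oT i * oc + (4 * (Ub * E) + E) := fun i =>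
    nat i o oc (by linarith) (by linarith) (by linarith) (by linarith) (by linarith)
  have hDo' : ∀ i, TT i oc - oT i * oc ≤ TT i o - oT i * o + (4 * (Ub * E) + E) := fun i =>
    nat i oc o (by linarith) (by linarith) (by linarith) (by linarith) (by linarith)
  have hDc : ∀ i, TT i vc - oT i * vc ≤ TT i y - oT i * y + (4 * (Ub * E) + E) := fun i =>
    nat i vc y (by linarith) (by linarith) (by linarith) (by linarith) (by linarith)
  have hmax : ∀ i, max (TT i o - oT i * o) (TT i y - oT i * y) ≤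
      TT i o - oT i * o + (4 * (Ub * E) + E) := fun i => max_le (by linarith) (hDv i)
  have haw : a₀ * (x - bt) - 2 * (Ub * E) ≤ a₀ * (wc - bt) := by
    have e1 : a₀ * (x - bt - 2 * E) ≤ a₀ * (wc - bt) :=
      mul_le_mul_of_nonneg_left (by linarith) ha0
    have e2 : a₀ * (2 * E) ≤ Ub * (2 * E) := mul_le_mul_of_nonneg_right haU (by positivity)
    linarith
  have cw : ∀ i, TT i o - oT i * o + (4 * (Ub * E) + E) + oT i * wc + (2 * Ub + 6) * E ≤
      TT i bt + a₀ * (wc - bt) := by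
    intro i
    have e1 : (oT i : ℝ) * wc ≤ oT i * x := mul_le_mul_of_nonneg_left w1 (hj0 i)
    linarith [hT i]
  have boc : ∀ z : ℝ, 0 ≤ z → z ≤ a₀ → z * (oc - bt) ≤ a₀ * (o - bt) + 2 * (Ub * E) := by
    intro z z0 z1
    have e1 : z * (oc - bt) ≤ a₀ * (oc - bt) := mul_le_mul_of_nonneg_right z1 (by linarith)
    have e2 : a₀ * (oc - bt) ≤ a₀ * (o + 2 * E - bt) :=
      mul_le_mul_of_nonneg_left (by linarith) ha0
    have e3 : a₀ * (2 * E) ≤ Ub * (2 * E) := mul_le_mul_of_nonneg_right haU (by positivity)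
    linarith
  have bor : a₀ * (o - bt) ≤ 2 * (Ub * r) := by
    have e1 : a₀ * (o - bt) ≤ a₀ * (2 * r) := mul_le_mul_of_nonneg_left (by linarith) ha0
    have e2 : a₀ * (2 * r) ≤ Ub * (2 * r) := mul_le_mul_of_nonneg_right haU (by positivity)
    linarith
  have hex5 : 8 * (Ub + 1) * r = 8 * (Ub * r) + 8 * r := by ring
  refine
    { du := fun i => by linarith [hDo i, P2 i]
      du' := fun i => by linarith [hDo' i, P1 i]
      dv := fun i => by linarith [hDc i, P3 i]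
      nw := hnw
      c1 := fun i => ?_
      c3 := fun i => ?_
      c4 := fun i => ?_
      c6 := fun i => ?_
      p6 := fun i => by linarith [hmax i, hDo i]
      r6 := fun i => ?_ }
  · refine tel_slo hG hgap (hSl i) hSu hη hη1 hK.γ1 (hbT0 i) (hK.T2 i) haU hγ hr hrρ hβ hAβ hgβ gb
      hβb (by linarith) gw b1 (by linarith) ?_
    rw [← hE]
    linarith [hmax i, cw i]
  · refine tel_slo hG hgap (hSl i) hSu hη hη1 hK.γ1 (hbT0 i) (hK.T2 i) haU hγ hr hrρ hβ hAβ hgβ gb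
      hβb (by linarith) gv b1 (by linarith) ?_
    rw [← hE]
    have e1 : (oT i : ℝ) * (vc - wc) ≤ a₀ * (vc - wc) :=
      mul_le_mul_of_nonneg_right (hjT' i) (by linarith)
    linarith [cw i]
  · refine tel_slo hG hgap (hSU i) hSu hη hη1 hK.γ1 (hjU0 i) (hK.U2 i) haU hγ hr hrρ hβ hAβ hgβ
      gb hβb (by linarith) gw b1 (by linarith) ?_
    rw [← hE]
    have e1 : (oU i : ℝ) * wc ≤ oU i * x := mul_le_mul_of_nonneg_left w1 (hjU0 i)
    linarith [hU i]
  · refine tel_slo hG hgap (hSl i) hSu hη hη1 hK.γ1 (hbT0 i) (hK.T2 i) haU hγ hr hrρ gb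
      (hAβ.trans hβb) (by linarith) go (by linarith) le_rfl go (by linarith) (by linarith) ?_
    rw [← hE]
    have e1 : a₀ * (oc - oc) = 0 := by ring
    linarith [hmax i, hDo i]
  · have e1 := (abs_le.1 (B.u bt gb oc go (by linarith) (by linarith) (by linarith))).2
    rw [← hE] at e1
    have e2 := boc a₀ ha0 le_rfl
    have e3 := boc (oT i) (hj0 i) (hjT' i)
    exact ⟨by linarith, fun l hl => by linarith [hu l hl], by linarith,
      fun l hl => by linarith [hu l hl]⟩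

variable {m : ℕ} {S : PCl m} {c : ℕ → Fin m} {d : ℕ} {s a A B g Sg : ℝ} {sn : ℕ → ℝ → ℝ}
  {G : Set ℝ} {n n' nT nU : ℕ} {k : Fin n → Fin m} {od : Fin n → ℕ} {kB : Fin n' → Fin m}
  {oB : Fin n' → ℕ} {T : Fin n → ℝ → ℝ} {TB : Fin n' → ℝ → ℝ} {kT : Fin nT → Fin m}
  {oT : Fin nT → ℕ} {TT : Fin nT → ℝ → ℝ} {kU : Fin nU → Fin m} {oU : Fin nU → ℕ}
  {TU : Fin nU → ℝ → ℝ} {a₀ : ℝ} {bT : Fin nT → ℝ}

/-- **The sequences of windows**, from the data of an index. -/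
theorem tln_idx (hcl : IsClosed G)
    (hv : VCh S (fun J F => ptr F J) (yX ((range d).image c)) c d s a (B - s) (whG G A s) sn G)
    (hI : TwI S c d sn G kT TT kU TU) (hA : ∃ u ∈ G, A ≤ u ∧ u ≤ a + s)
    {tl : Fin n → ℚ → ℝ} {tB : Fin n' → ℚ → ℝ} {i : EIxT d n' nU}
    (hadm : AdmT (whG G A s) sn d G tl oB tB oT TT oU TU a (B - s) i) {Ub γ η r ρ E X R : ℝ}
    (hK : TwK oT oU a₀ bT Ub γ)
    (hgap : ∀ t : ℝ, 0 < t → t < ρ → ∀ x, g - t ≤ x → x ≤ g + t → ∃ u ∈ G, x - η * t ≤ u ∧ u ≤ x)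
    (HX : ∀ t : ℝ, 0 < t → t < ρ → BxT sn d TT oU TU G g a₀ bT η t)
    (hη : 0 < η) (hη0 : 400 * η ≤ 1) (hη1 : η * (8 * Ub + 16) ≤ γ) (hr : 0 < r)
    (hrρ : 16 * r ≤ ρ) (hE : E = η * (2 * r)) (ia : (i.a : ℝ) < g - s) (ib : g - s < (i.b : ℝ))
    (il : (i.b : ℝ) - i.a ≤ ρ / 16) (ilp : (i.lp : ℝ) ≤ ρ / 16)
    (hσ : 16 * ((Ub + 2) * r) ≤ i.σ₀) (hlp : 16 * ((Ub + 2) * r) ≤ i.lp)
    {lv : ℕ → ℝ} {nW : Fin nU → ℝ} {bt x y o : ℝ} {w v oq : ℚ}
    (gb : bt ∈ G) (b1 : g - r ≤ bt)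
    (b2 : bt + X ≤ x) (xy : x ≤ y) (yo : y ≤ o) (og : o ≤ g + r)
    (iw : (i.a : ℝ) < w) (w1 : x - s - E < w) (w2 : (w : ℝ) < x - s) (v1 : y - s < v)
    (v2 : (v : ℝ) < y - s + E) (o1 : o - s < oq) (o2 : (oq : ℝ) < o - s + 2 * E)
    (oi : (oq : ℝ) < i.b) (wv : w ≤ v) (vo : v ≤ oq)
    (cw : whG G A s w ∈ G ∧ (w : ℝ) + s - E ≤ whG G A s w ∧ whG G A s w ≤ w + s)
    (cv : whG G A s v ∈ G ∧ (v : ℝ) + s - E ≤ whG G A s v ∧ whG G A s v ≤ v + s)
    (co : whG G A s oq ∈ G ∧ (oq : ℝ) + s - E ≤ whG G A s oq ∧ whG G A s oq ≤ oq + s)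
    (cwv : whG G A s w ≤ whG G A s v) (cvo : whG G A s v ≤ whG G A s oq)
    (hX : 64 * ((Ub + 2) * E) ≤ X) (hX0 : 0 < X) (hEr : 100 * E ≤ r)
    (R1 : 8 * (Ub + 1) * r ≤ R) (R2 : X ≤ R) (R3 : 16 * R ≤ 1 - whG G A s oq)
    (hu : ∀ l < d, a₀ * (o - bt) + X ≤ lv l)
    (hT : ∀ i, TT i o - oT i * o + oT i * x + X ≤ TT i bt + a₀ * (x - bt))
    (hU : ∀ i, nW i + oU i * x + X ≤ TU i bt + a₀ * (x - bt)) :
    TlN sn d G oT TT oU TU lv (X / 2 / 2) (fun j => TT j o - oT j * o)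
      (fun j => TT j y - oT j * y)
      (fun j => pfT (whG G A s) (TT j) (sn d) (oT j) (i.a - i.lp) i.b v)
      (fun j => pfT (whG G A s) (TT j) (sn d) (oT j) (i.a - i.lp) i.b oq) nW i.DV
      ((12 * Ub + 20) * E) (whG G A s (w - i.lp)) bt (whG G A s w) (whG G A s v)
      (whG G A s oq) := by
  have hUb0 : 0 ≤ Ub := hK.a0.trans hK.a
  have hE0 : 0 < E := by rw [hE]; positivity
  have hUr0 : 0 ≤ Ub * r := by positivity
  have hex : (Ub + 2) * r = Ub * r + 2 * r := by ring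
  have hib := hadm.hb
  have hia := hadm.ha
  have wvr : (w : ℝ) ≤ v := by exact_mod_cast wv
  have vor : (v : ℝ) ≤ oq := by exact_mod_cast vo
  have hPt := pfT_jt (lam := i.lam) (oT := oT) hv hI hadm.tw.lp0 hia hib
  have waL : a < ((w - i.lp : ℚ) : ℝ) := by push_cast; linarith
  obtain ⟨gβ, -, -⟩ := wlp hv hadm.tw.lp0 hia iw le_rfl (show (w : ℝ) < B - s by linarith)
  obtain ⟨p₀, p₁, p₂, p₃⟩ := hA
  have hAβ : A ≤ whG G A s (w - i.lp) := (fl_mem hcl ⟨p₀, p₁, p₂, by linarith⟩).2.1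
  have hβ2 : whG G A s (w - i.lp) ≤ (w : ℝ) - i.lp + s := by
    have := (hv.wg _ waL (by push_cast; linarith)).2
    push_cast at this
    exact this
  have hβ1 : g - (2 * i.lp + 3 * r) ≤ whG G A s (w - i.lp) := by
    obtain ⟨p, p1, p2, p3⟩ := hgap (i.lp + 2 * r) (by linarith) (by linarith)
      ((w : ℝ) - i.lp + s) (by linarith) (by linarith)
    have hη5 : 400 * (η * (i.lp + 2 * r)) ≤ i.lp + 2 * r := by
      have : 400 * η * (i.lp + 2 * r) ≤ 1 * (i.lp + 2 * r) :=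
        mul_le_mul_of_nonneg_right hη0 (by linarith)
      linarith
    have hp : p ≤ whG G A s (w - i.lp) := by
      rcases le_total A p with h | h
      · refine le_fl p1 h ?_
        push_cast
        exact p3
      · exact h.trans hAβ
    linarith
  refine tln_box (x := x) (R := R) hcl hK hgap HX hη hη1 hr (by linarith) hE gβ hAβ (by linarith)
    (by linarith) gb cw.1 cv.1 co.1 b1 b2 xy yo og (by linarith) (by linarith) (by linarith)
    (by linarith) (by linarith) (by linarith) cwv cvo hX hEr R1 R2 R3 hu hT hU (fun j => ?_)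
    (fun j => ?_) (fun j => ?_) fun j => ?_
  · linarith [hPt.le j oq (by linarith) oi]
  · refine le_pfT hv (hI.tT j).mono (hI.mn d le_rfl) (by push_cast; exact hia) ?_
      (by exact_mod_cast oi) hib fun u hu1 hu2 => ?_
    · have h1 : ((i.a - i.lp : ℚ) : ℝ) ≤ oq := by push_cast; linarith
      exact_mod_cast h1
    · have hu2' : (u : ℝ) < i.b := by exact_mod_cast hu2
      refine own_slo (g := g) (β := bT j) (a₀ := a₀) (γ := γ) (Ub := Ub) (η := η) (r := r)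
        (ρ := ρ) (oq := oq) hcl hgap
        (fun t t0 t1 w _ v _ e1 e2 e3 => (HX t t0 t1).T j w v e1 e2 e3)
        (fun t t0 t1 => (HX t t0 t1).u) hη hη1 hK.γ1 (hK.T1 j) (hK.T2 j) hK.a hK.γ0 hr
        (by linarith) ⟨p₀, p₁, p₂, by push_cast; linarith⟩ ?_ hu1 (by push_cast; linarith)
        (by linarith) (by linarith [co.2.1]) (by linarith [co.2.2]) (by rw [← hE]; linarith)
      have h1 : ((i.a - i.lp : ℚ) : ℝ) ≤ oq := by push_cast; linarith
      exact_mod_cast h1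
  · linarith [hPt.le j v (by linarith) (by linarith)]
  · have h1 := hadm.nu j w iw (by linarith)
    have h2 := (abs_le.1 ((HX (2 * r) (by linarith) (by linarith)).U j bt gb _ cw.1 (by linarith)
      (by
        have : (0 : ℝ) ≤ (Ub + 2) * E := by positivity
        have h3 : (Ub + 2) * E = Ub * E + 2 * E := by ring
        have h4 : 0 ≤ Ub * E := by positivity
        linarith [cw.2.1]) (by linarith [cw.2.2]))).1
    rw [← hE] at h2
    have h3 : (a₀ - oU j) * (x - bt) ≤ Ub * (2 * r) := by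
      have h5 : (a₀ - oU j) * (x - bt) ≤ (a₀ - oU j) * (2 * r) :=
        mul_le_mul_of_nonneg_left (by linarith) (by linarith [hK.U2 j, hK.γ0])
      have h6 : (a₀ - oU j) * (2 * r) ≤ Ub * (2 * r) := by
        refine mul_le_mul_of_nonneg_right ?_ (by linarith)
        have : (0 : ℝ) ≤ oU j := Nat.cast_nonneg _
        linarith [hK.a]
      exact h5.trans h6
    linarith [hU j]

/-- The constant of the errors. -/
theorem cst_D (d n : ℕ) {Sg Ob : ℝ} (hSg : 0 ≤ Sg) (hOb : 0 ≤ Ob) :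
    Sg + Ob + 1 ≤ ((d : ℝ) + 1) ^ 2 * (n + 1) * (Sg + Ob + 1) ∧
    (d : ℝ) ≤ ((d : ℝ) + 1) ^ 2 * (n + 1) * (Sg + Ob + 1) ∧
    (n : ℝ) * (Sg + Ob + 1) ≤ ((d : ℝ) + 1) ^ 2 * (n + 1) * (Sg + Ob + 1) ∧
    ((d : ℝ) + 1) ^ 2 ≤ ((d : ℝ) + 1) ^ 2 * (n + 1) * (Sg + Ob + 1) := by
  have hd0 : (0 : ℝ) ≤ d := Nat.cast_nonneg d
  have hn0 : (0 : ℝ) ≤ n := Nat.cast_nonneg n
  have h1 : (1 : ℝ) ≤ ((d : ℝ) + 1) ^ 2 := by nlinarith [sq_nonneg (d : ℝ)]
  have h2 : (1 : ℝ) ≤ Sg + Ob + 1 := by linarith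
  have h3 : (d : ℝ) ≤ ((d : ℝ) + 1) ^ 2 := by nlinarith [sq_nonneg (d : ℝ)]
  have h4 : (1 : ℝ) ≤ (n : ℝ) + 1 := by linarith
  have h5 : (1 : ℝ) ≤ ((d : ℝ) + 1) ^ 2 * (n + 1) := one_le_mul_of_one_le_of_one_le h1 h4
  have h6 : ((d : ℝ) + 1) ^ 2 ≤ ((d : ℝ) + 1) ^ 2 * (n + 1) :=
    le_mul_of_one_le_right (by positivity) h4
  have h7 : ((d : ℝ) + 1) ^ 2 * (n + 1) ≤ ((d : ℝ) + 1) ^ 2 * (n + 1) * (Sg + Ob + 1) :=
    le_mul_of_one_le_right (by positivity) h2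
  have h8 : (n : ℝ) ≤ ((d : ℝ) + 1) ^ 2 * (n + 1) := by
    have : (n : ℝ) + 1 ≤ ((d : ℝ) + 1) ^ 2 * (n + 1) := le_mul_of_one_le_left (by positivity) h1
    linarith
  exact ⟨le_mul_of_one_le_left (by positivity) h5, by linarith,
    mul_le_mul_of_nonneg_right h8 (by positivity), by linarith⟩

/-- **No look-ahead given the near path**, at a point with good numbers. -/
theorem nt_box (h : NiC S c d k sn T G s A B) (h' : NiC S c d kB sn TB G s A B)
    (hI : TwI S c d sn G kT TT kU TU) (hA : ∃ u ∈ G, A ≤ u ∧ u ≤ a + s)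
    {θ₀ : EIxT d n' nU → ℚ → ℝ} {θ : EIxT d n' nU → ℚ → ℚ → ℝ}
    (hN : NtN S (fun J F => ptr F J) (yX ((range d).image c)) c d s a (B - s) (whG G A s) sn G k od
      (fun i w => T i (whG G A s w)) kB oB (fun i w => TB i (whG G A s w)) kT oT TT kU oU TU θ₀ θ)
    (hgG : g ∈ G) (hAg : A < g) (hgB : g < B) (s1 : ∀ l < d, sn l g < 1) (hSg : 0 ≤ Sg)
    (hsl : SlB sn d T G g Sg) (htg : TgB T g Sg) (hlo : LoB od T G g) (hsk : SlK oB TB G g)
    (hTw : TwG sn d oT TT oU TU G g a₀ bT)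
    (hgd : ∀ e : ℝ, 0 < e → ∀ ρ : ℝ, 0 < ρ → ∃ i, GdT (whG G A s) sn d G
      (fun i w => T i (whG G A s w)) oB (fun i w => TB i (whG G A s w)) oT TT oU TU a (B - s)
      θ₀ θ (g - s) e ρ i) :
    NtG S c d k od kB oB sn T TB kT oT TT kU oU TU a₀ G g := by
  intro e he
  have hl2 : 0 < Real.log 2 := Real.log_pos one_lt_two
  have hl21 : Real.log 2 ≤ 1 := by
    have := Real.log_two_lt_d9
    linarith
  have hd0 : (0 : ℝ) ≤ d := Nat.cast_nonneg d
  have hn0 : (0 : ℝ) ≤ n := Nat.cast_nonneg n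
  have hB1 := h.B1
  obtain ⟨Ob, hOb0, hOA, hOB⟩ : ∃ Ob : ℝ, 0 ≤ Ob ∧ (∀ i, (od i : ℝ) ≤ Ob) ∧
      ∀ i, (oB i : ℝ) ≤ Ob := by
    refine ⟨∑ i, (od i : ℝ) + ∑ i, (oB i : ℝ), add_nonneg
      (Finset.sum_nonneg fun i _ => Nat.cast_nonneg _)
      (Finset.sum_nonneg fun i _ => Nat.cast_nonneg _), fun i => ?_, fun i => ?_⟩
    · have e1 := Finset.single_le_sum (f := fun i => (od i : ℝ)) (fun i _ => Nat.cast_nonneg _)
        (Finset.mem_univ i)
      have e2 : (0 : ℝ) ≤ ∑ i, (oB i : ℝ) := Finset.sum_nonneg fun i _ => Nat.cast_nonneg _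
      linarith
    · have e1 := Finset.single_le_sum (f := fun i => (oB i : ℝ)) (fun i _ => Nat.cast_nonneg _)
        (Finset.mem_univ i)
      have e2 : (0 : ℝ) ≤ ∑ i, (od i : ℝ) := Finset.sum_nonneg fun i _ => Nat.cast_nonneg _
      linarith
  obtain ⟨ρc, hρc, hlo⟩ := hlo
  obtain ⟨Ub, γ, hK⟩ := hTw.con
  have hγ0 := hK.γ0
  have hUb0 : 0 ≤ Ub := hK.a0.trans hK.a
  have hnT0 : (0 : ℝ) ≤ nT := Nat.cast_nonneg nT
  -- the error of the levels
  obtain ⟨D, hD⟩ : ∃ D : ℝ, D = ((d : ℝ) + 1) ^ 2 * (n + 1) * (Sg + Ob + 1) := ⟨_, rfl⟩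
  have hD0 : 0 < D := by rw [hD]; positivity
  obtain ⟨Dt, hDt⟩ : ∃ Dt : ℝ, Dt = ((nT : ℝ) + 1) * (Ub + 2) := ⟨_, rfl⟩
  have hDt0 : 0 < Dt := by rw [hDt]; positivity
  obtain ⟨η, hη, hη1, hη2, hη3, hη4⟩ : ∃ η : ℝ, 0 < η ∧ 400 * η ≤ 1 ∧ 4000 * (D * η) ≤ e ∧
      100000 * (Dt * η) ≤ e ∧ η * (8 * Ub + 16) ≤ γ := by
    refine ⟨min (min (1 / 400) (e / (4000 * D))) (min (e / (100000 * Dt)) (γ / (8 * Ub + 16))),
      by positivity, ?_, ?_, ?_, ?_⟩
    · have := (min_le_left (min (1 / 400) (e / (4000 * D)))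
        (min (e / (100000 * Dt)) (γ / (8 * Ub + 16)))).trans (min_le_left _ _)
      linarith
    · have := (min_le_left (min (1 / 400) (e / (4000 * D)))
        (min (e / (100000 * Dt)) (γ / (8 * Ub + 16)))).trans (min_le_right _ _)
      have h2 := mul_le_mul_of_nonneg_left this (show (0 : ℝ) ≤ 4000 * D by positivity)
      rw [mul_div_cancel₀ _ (by positivity)] at h2
      linarith
    · have := (min_le_right (min (1 / 400) (e / (4000 * D)))
        (min (e / (100000 * Dt)) (γ / (8 * Ub + 16)))).trans (min_le_left _ _)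
      have h2 := mul_le_mul_of_nonneg_left this (show (0 : ℝ) ≤ 100000 * Dt by positivity)
      rw [mul_div_cancel₀ _ (by positivity)] at h2
      linarith
    · have := (min_le_right (min (1 / 400) (e / (4000 * D)))
        (min (e / (100000 * Dt)) (γ / (8 * Ub + 16)))).trans (min_le_right _ _)
      rwa [le_div_iff₀ (by positivity)] at this
  obtain ⟨ρ₁, hρ₁, H1⟩ := hsl η hη
  obtain ⟨ρ₂, hρ₂, H2⟩ := htg η hη
  obtain ⟨ρ₃, hρ₃, H3⟩ := hlo η hη
  obtain ⟨ρ₄, hρ₄, H4⟩ := hsk η hη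
  obtain ⟨ρ₅, hρ₅, H5⟩ := hTw.box hη
  obtain ⟨ρt, hρt, hρt1, hρt2⟩ : ∃ ρt : ℝ, 0 < ρt ∧ ρt ≤ ρ₁ ∧ ρt ≤ ρ₅ :=
    ⟨min ρ₁ ρ₅, lt_min hρ₁ hρ₅, min_le_left _ _, min_le_right _ _⟩
  obtain ⟨i, hadm, ia, ib, il, ilp, r₁, hr₁, hgr⟩ := hgd (e / 16) (by positivity)
    (min (ρc / 2) (ρt / 16)) (by positivity)
  have il1 := il.trans (min_le_left _ _)
  have il2 := il.trans (min_le_right _ _)
  have ilp2 := ilp.trans (min_le_right _ _)
  have lp0 : (0 : ℝ) < i.lp := by exact_mod_cast hadm.lp1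
  have hal : a ≤ (i.a : ℝ) := by linarith [hadm.ha]
  -- the rooms
  obtain ⟨R₁, hR₁, hR₁s⟩ := fin_lb (D := d) (f := fun l => 1 - sn l g) fun l hl => by
    linarith [s1 l hl]
  obtain ⟨Lv, hLv, hLvl⟩ := fin_lb (D := d) (f := exN i.lv) hadm.ed.ed.lv0
  have hσd := hadm.ed.ed.σ0
  obtain ⟨R, hR, hRg, hRs⟩ : ∃ R : ℝ, 0 < R ∧ 32 * R ≤ 1 - g ∧ 32 * R ≤ R₁ :=
    ⟨min ((1 - g) / 32) (R₁ / 32), lt_min (by linarith) (by positivity), by
      have := min_le_left ((1 - g) / 32) (R₁ / 32)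
      linarith, by
      have := min_le_right ((1 - g) / 32) (R₁ / 32)
      linarith⟩
  have lam0 : (0 : ℝ) < i.lam := by exact_mod_cast hadm.lam0
  obtain ⟨κ₀, hκ₀, hκR, hκL, hκσ, hκρ⟩ : ∃ κ₀ : ℝ, 0 < κ₀ ∧ κ₀ ≤ R ∧ κ₀ ≤ Lv / 2 ∧
      κ₀ ≤ (i.σ₀ : ℝ) / 2 ∧ κ₀ ≤ ρ₁ / 32 :=
    ⟨min (min R (Lv / 2)) (min ((i.σ₀ : ℝ) / 2) (ρ₁ / 32)), by positivity, by simp, by simp,
      by simp, by simp⟩
  obtain ⟨r₀, hr₀, k1, k2, k3, k4, k5, k6, k7, k8, k9, k10, k11, k12, k13, k14, k15, k16, k17,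
      k18, k19⟩ :
      ∃ r₀ : ℝ, 0 < r₀ ∧ 2 * r₀ ≤ ρ₁ ∧
      2 * r₀ ≤ ρ₂ ∧ 2 * r₀ ≤ r₁ ∧ 8 * r₀ ≤ g - A ∧ 8 * r₀ ≤ B - g ∧ 8 * r₀ ≤ i.lam ∧
      8 * r₀ ≤ g - s - i.a ∧ 8 * r₀ ≤ i.b - (g - s) ∧ 8 * ((Sg + Ob + 1) * r₀) ≤ R ∧
      8 * (e * r₀) ≤ R ∧ 8 * r₀ ≤ Lv ∧ 2 * r₀ ≤ ρ₃ ∧ 2 * r₀ ≤ ρ₄ ∧ 8 * r₀ ≤ i.σ₀ ∧
      32 * r₀ ≤ ρ₁ ∧ 32 * (e * r₀) ≤ ρ₁ ∧ 16 * r₀ ≤ ρt ∧ 16 * ((Ub + 2) * r₀) ≤ i.σ₀ ∧
      16 * ((Ub + 2) * r₀) ≤ min R i.lp := by
    obtain ⟨r₀, h1, h2⟩ := list_lb [ρ₁ / 2, ρ₂ / 2, r₁ / 2, (g - A) / 8, (B - g) / 8, i.lam / 8,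
      (g - s - i.a) / 8, (i.b - (g - s)) / 8, R / (8 * (Sg + Ob + 1)), R / (8 * e), Lv / 8,
      ρ₃ / 2, ρ₄ / 2, (i.σ₀ : ℝ) / 8, ρ₁ / 32, ρ₁ / (32 * e), ρt / 16,
      (i.σ₀ : ℝ) / (16 * (Ub + 2)), min R i.lp / (16 * (Ub + 2))] (by
        have x1 : 0 < g - A := by linarith
        have x2 : 0 < B - g := by linarith
        have x3 : 0 < g - s - i.a := by linarith
        have x4 : 0 < i.b - (g - s) := by linarith
        simp only [List.mem_cons, List.not_mem_nil, or_false, forall_eq_or_imp, forall_eq]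
        refine ⟨?_, ?_, ?_, ?_, ?_, ?_, ?_, ?_, ?_, ?_, ?_, ?_, ?_, ?_, ?_, ?_, ?_, ?_, ?_⟩ <;>
          positivity)
    simp only [List.mem_cons, List.not_mem_nil, or_false, forall_eq_or_imp, forall_eq] at h2
    obtain ⟨a1, a2, a3, a4, a5, a6, a7, a8, a9, a10, a11, a12, a13, a14, a15, a16, a17, a18,
      a19⟩ := h2
    refine ⟨r₀, h1, by linarith, by linarith, by linarith, by linarith, by linarith, by linarith,
      by linarith, by linarith, ?_, ?_, by linarith, by linarith, by linarith, by linarith,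
      by linarith, ?_, by linarith, ?_, ?_⟩
    · rw [le_div_iff₀ (by positivity)] at a9
      linarith
    · rw [le_div_iff₀ (by positivity)] at a10
      linarith
    · rw [le_div_iff₀ (by positivity)] at a16
      linarith
    · rw [le_div_iff₀ (by positivity)] at a18
      linarith
    · rw [le_div_iff₀ (by positivity)] at a19
      linarith
  refine ⟨κ₀, hκ₀, r₀, hr₀, fun r hr hrr b hb bt hbt x y o a1 a1' a2 a3 a4 a5 nH nV lv nB nW
    hNt => ?_⟩
  have hNr := hNt.nr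
  have HB := H1 (2 * r) (by positivity) (by linarith)
  have HT := H2 (2 * r) (by positivity) (by linarith)
  have HL := H3 (2 * r) (by positivity) (by linarith)
  have HK := H4 (2 * r) (by positivity) (by linarith)
  obtain ⟨X, hX⟩ : ∃ X : ℝ, X = e * r := ⟨_, rfl⟩
  obtain ⟨E, hE⟩ : ∃ E : ℝ, E = η * (2 * r) := ⟨_, rfl⟩
  rw [← hX] at hNr hNt ⊢
  rw [← hE] at HT HL
  have hX0 : 0 < X := by rw [hX]; positivity
  have hE0 : 0 < E := by rw [hE]; positivity
  have hEr : 100 * E ≤ r := by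
    have h1 : 400 * η * r ≤ 1 * r := mul_le_mul_of_nonneg_right hη1 hr.le
    rw [hE]
    linarith only [h1, hr]
  have hDE : 2000 * (D * E) ≤ X := by
    have h1 := mul_le_mul_of_nonneg_right hη2 hr.le
    have h2 : 2000 * (D * E) = 4000 * (D * η) * r := by rw [hE]; ring
    rw [h2, hX]
    exact h1
  have hXR : 8 * X ≤ R := by
    have h1 : e * r ≤ e * r₀ := mul_le_mul_of_nonneg_left hrr.le he.le
    rw [hX]
    linarith
  have hXρ : 32 * X ≤ ρ₁ := by
    have h1 : e * r ≤ e * r₀ := mul_le_mul_of_nonneg_left hrr.le he.le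
    rw [hX]
    linarith
  have hSr' : 8 * ((Sg + Ob + 1) * r) ≤ R := by
    have h1 : (Sg + Ob + 1) * r ≤ (Sg + Ob + 1) * r₀ :=
      mul_le_mul_of_nonneg_left hrr.le (by linarith)
    linarith
  have hObr : 0 ≤ Ob * r := by positivity
  have hSgr : 0 ≤ Sg * r := by positivity
  have hSOr : (Sg + Ob + 1) * r = Sg * r + Ob * r + r := by ring
  have hSr1 : (Sg + 1) * r = Sg * r + r := by ring
  have hSr : 8 * ((Sg + 1) * r) ≤ R := by linarith only [hSOr, hSr1, hSr', hObr]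
  have hrR : 8 * r ≤ R := by linarith only [hSOr, hSr', hObr, hSgr]
  obtain ⟨φ, hφe⟩ : ∃ φ : ℝ, φ = X / (64 * ((d : ℝ) + 1) ^ 2) := ⟨_, rfl⟩
  have hφ : 64 * (((d : ℝ) + 1) ^ 2 * φ) = X := by
    rw [hφe]
    field_simp
  have hφ0 : 0 < φ := by rw [hφe]; positivity
  have hdφ : 20 * ((d : ℝ) + 1) * φ ≤ X := by
    have h1 : ((d : ℝ) + 1) * φ ≤ ((d : ℝ) + 1) ^ 2 * φ := by
      refine mul_le_mul_of_nonneg_right ?_ hφ0.le
      rw [sq]
      exact le_mul_of_one_le_left (by linarith only [hd0]) (by linarith only [hd0])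
    linarith only [h1, hφ, hφ0, hX0]
  obtain ⟨cD1, cD2, cD3, cD4⟩ := cst_D d n hSg hOb0
  rw [← hD] at cD1 cD2 cD3 cD4
  have hD1 : (Sg + Ob + 1) * E ≤ D * E := mul_le_mul_of_nonneg_right cD1 hE0.le
  have hObE : 0 ≤ Ob * E := by positivity
  have hSgE : 0 ≤ Sg * E := by positivity
  have hSbE : (Sg + Ob + 1) * E = Sg * E + Ob * E + E := by ring
  have hD2 : (d : ℝ) * E ≤ D * E := mul_le_mul_of_nonneg_right cD2 hE0.le
  have hD3 : (n : ℝ) * ((Sg + Ob + 1) * E) ≤ D * E := by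
    have h1 : (n : ℝ) * ((Sg + Ob + 1) * E) = (n * (Sg + Ob + 1)) * E := by ring
    rw [h1]
    exact mul_le_mul_of_nonneg_right cD3 hE0.le
  have hD4 : ((d : ℝ) + 1) ^ 2 * E ≤ D * E := mul_le_mul_of_nonneg_right cD4 hE0.le
  clear cD1 cD2 cD3 cD4
  obtain ⟨w, v, oq, w1, w2, v1, v2, o3, o5, wv, vo, ⟨cw, cw1, cw2⟩, ⟨cv, cv1, cv2⟩,
    ⟨co, co1, co2⟩, cwv, cvo, x', hx', x1', x2'⟩ := idx_ex (s := s) (A := A) (x := x) (y := y)
      (o := o) h.cl HB hr (by linarith) hE hE0 hEr (by linarith) (by linarith) a3 a4 a5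
  have hbox := mk_box (κ₀ := κ₀) (φ := φ) (X := X) (b := b) (x := x) (y := y) (o := o)
    (wc := whG G A s w) (vc := whG G A s v) (oc := whG G A s oq) h.mn HB HT hr hE hE0 hEr hX0 hφ0
    hSg hgG hb a1 a2 a3 a4 a5 cw co (by linarith) (by linarith) (by linarith) (by linarith)
    (by linarith) (by linarith) cwv cvo (by linarith) (by linarith) hSr hκR hRg hRs hR₁s hdφ hNr.nr
  -- the earlier windows
  have hi : ∀ p ∈ ({b, whG G A s w, whG G A s oq} : Set ℝ), HiW sn d lv (X / 4) G p :=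
    hi_box hbox H1 hη1 hη.le hr.le (by
      have h1 : 40 * (η * r) = 20 * E := by rw [hE]; ring
      have h2 : E ≤ D * E := by linarith
      linarith) h.mn
      (by
        rintro p (rfl | rfl | rfl)
        · exact ⟨hb, by linarith, by linarith⟩
        · exact ⟨cw, by linarith, by linarith⟩
        · exact ⟨co, by linarith, by linarith⟩) hNr.g (by linarith) (by linarith) (by linarith)
  have htB : ∀ j, |TB j b - TB j (whG G A s w) - oB j * (b - whG G A s w)| ≤ E := by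
    intro j
    rw [hE]
    rcases le_total b (whG G A s w) with hle | hle
    · have := HK b hb _ cw (by linarith) hle (by linarith) j
      rw [abs_le] at this ⊢
      constructor <;> linarith [this.1, this.2]
    · exact HK _ cw b hb (by linarith) hle (by linarith) j
  have hbj : BoxJ sn d T od oB TB G nH nV lv nB b x y o (whG G A s w) (whG G A s v)
      (whG G A s oq) E X Sg Ob φ R κ₀ :=
    { bx := hbox
      hi := hi
      Ob0 := hOb0
      oA := hOA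
      oB' := hOB
      ob := by
        have h1 : Ob * (o - b) ≤ Ob * (2 * r) := mul_le_mul_of_nonneg_left (by linarith) hOb0
        linarith
      OX := by linarith
      tB := htB
      B1 := hNr.B1
      B2 := hNr.B2 }
  obtain ⟨hdef, hdrop⟩ := hgr (2 * r) (by positivity) (by linarith)
  obtain ⟨C₀, htm⟩ := h.tm
  have hEφ : E ≤ φ := by
    have h4 : ((d : ℝ) + 1) ^ 2 * E ≤ ((d : ℝ) + 1) ^ 2 * φ := by
      have h5 : 0 < D * E := by positivity
      linarith only [hD4, hφ, hDE, h5]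
    exact le_of_mul_le_mul_left h4 (by positivity)
  have ww : (i.a : ℝ) < w := by linarith
  have ob : (oq : ℝ) < i.b := by linarith
  have hx1 : ∀ l < d, sn l x' - sn l (whG G A s oq) ≤ 3 * E := by
    intro l hl
    have h1 := (abs_le.1 (HB.sl _ co _ hx' (by linarith) (by linarith) (by linarith) l hl)).2
    rw [← hE] at h1
    linarith
  have hsum := sum_lo (sn := sn) (d := d) hE0.le hφ0.le hx1
  -- the digits of the jets of the first kind
  have hPj := pf_jtP (od := od) (h.vch hA) (h.tgc hA) hal hadm.hb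
  have hPt := pfT_jt (lam := i.lam) (oT := oT) (h.vch hA) hI hadm.tw.lp0 hadm.ha hadm.hb
  have wvr : (w : ℝ) ≤ v := by exact_mod_cast wv
  have vor : (v : ℝ) ≤ oq := by exact_mod_cast vo
  have hPo : ∀ j, pfQ (whG G A s) od (fun i w => T i (whG G A s w)) i.b j oq ≤
        T j (whG G A s oq) - od j * whG G A s oq ∧
      T j (whG G A s oq) - od j * whG G A s oq - E ≤
        pfQ (whG G A s) od (fun i w => T i (whG G A s w)) i.b j oq := by
    intro j
    refine ⟨by linarith [hPj.le j oq (by linarith) ob], ?_⟩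
    refine le_pf j (by exact_mod_cast ob) fun u hu1 hu2 => ?_
    have hu1' : (oq : ℝ) ≤ u := by exact_mod_cast hu1
    have hu2' : (u : ℝ) < i.b := by exact_mod_cast hu2
    have hvc := h.vch hA
    have hub : (u : ℝ) < B - s := by linarith [hadm.hb]
    have hua : a < (u : ℝ) := by linarith
    have h3 := hvc.wg u hua hub
    have h4 := hvc.wm oq u (by linarith) hu1 hub
    have h5 := HL j _ co _ h3.1 (by linarith) (by linarith) h4 (by linarith [h3.2])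
    linarith
  have hPv : ∀ j, pfQ (whG G A s) od (fun i w => T i (whG G A s w)) i.b j v ≤
      T j (whG G A s v) - od j * whG G A s v := fun j => by
    linarith [hPj.le j v (by linarith) (by linarith)]
  -- the jets over the chain and the last place
  have hgap : ∀ t : ℝ, 0 < t → t < ρt → ∀ x, g - t ≤ x → x ≤ g + t →
      ∃ u ∈ G, x - η * t ≤ u ∧ u ≤ x := fun t t0 t1 => (H1 t t0 (t1.trans_le hρt1)).gap
  have HX : ∀ t : ℝ, 0 < t → t < ρt → BxT sn d TT oU TU G g a₀ bT η t := fun t t0 t1 =>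
    H5 t t0 (t1.trans_le hρt2)
  have hDtE : 50000 * (Dt * E) ≤ X := by
    have h1 := mul_le_mul_of_nonneg_right hη3 hr.le
    have h2 : 50000 * (Dt * E) = 100000 * (Dt * η) * r := by rw [hE]; ring
    rw [h2, hX]
    exact h1
  have hUbE : (Ub + 2) * E ≤ Dt * E := by
    refine mul_le_mul_of_nonneg_right ?_ hE0.le
    rw [hDt]
    exact le_mul_of_one_le_left (by linarith only [hUb0]) (by linarith only [hnT0])
  have hnTE : (nT : ℝ) * ((12 * Ub + 20) * E) ≤ 12 * (Dt * E) := by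
    have h1 : (nT : ℝ) * ((12 * Ub + 20) * E) ≤ nT * (12 * (Ub + 2) * E) := by
      refine mul_le_mul_of_nonneg_left (mul_le_mul_of_nonneg_right ?_ hE0.le) hnT0
      linarith
    have h2 : (nT : ℝ) * (12 * (Ub + 2) * E) = 12 * ((nT * (Ub + 2)) * E) := by ring
    have h3 : (nT * (Ub + 2)) * E ≤ Dt * E := by
      refine mul_le_mul_of_nonneg_right ?_ hE0.le
      rw [hDt]
      exact mul_le_mul_of_nonneg_right (by linarith only [hnT0]) (by linarith only [hUb0])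
    linarith
  have hUbr : 16 * ((Ub + 2) * r) ≤ i.σ₀ ∧ 16 * ((Ub + 2) * r) ≤ min R i.lp := by
    have h1 : (Ub + 2) * r ≤ (Ub + 2) * r₀ := mul_le_mul_of_nonneg_left hrr.le (by linarith)
    constructor <;> linarith
  have hUbR := hUbr.2.trans (min_le_left _ _)
  have hUbl := hUbr.2.trans (min_le_right _ _)
  have hR1 : 8 * (Ub + 1) * r ≤ R := by
    have h1 : 8 * (Ub + 1) * r = 8 * (Ub * r) + 8 * r := by ring
    have h2 : 16 * ((Ub + 2) * r) = 16 * (Ub * r) + 32 * r := by ring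
    have h3 : 0 ≤ Ub * r := by positivity
    linarith
  have hTln := tln_idx (R := R) h.cl (h.vch hA) hI hA hadm hK hgap HX hη hη1 hη4 hr
    (by linarith) hE ia ib il2 ilp2 hUbr.1 hUbl hbt a1' hNt.x0 a3 a4 a5 ww w1 w2 v1 v2 o3 o5 ob
    wv vo ⟨cw, cw1, cw2⟩ ⟨cv, cv1, cv2⟩ ⟨co, co1, co2⟩ cwv cvo (by linarith) hX0 hEr hR1
    (by linarith) (hbox.R1 _ (by simp)) hNt.u hNt.T hNt.U
  have nif := ni_fixT ((h.vch hA).cut le_rfl hadm.hb) hI hadm.ha lam0 hadm.ed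
    ((h.tgc hA).cut hal hadm.hb) hadm.tg hPj ((h'.tgc hA).cut hal hadm.hb) hadm.bd hadm.tw hPt
    (hN i hadm) (w := w) (v := v) (o := oq) ww wv vo ob
    (by linarith) (hbox.nrD rfl rfl) (by
      have h2 : X / 2 / 2 = X / 4 := by ring
      rw [h2]
      exact hi _ (by simp)) (hbox.tgN rfl rfl) (c₀ := nT * ((12 * Ub + 20) * E)) (by positivity)
    (cnt_of ((h.vch hA).cut le_rfl hadm.hb) hI hadm.ha hadm.ed hadm.tw ww wv vo ob (by linarith)
      (NrD.nrC (hbox.nrD rfl rfl) (cwv.trans cvo) fun l hl =>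
        h.mn l hl _ cw _ co (cwv.trans cvo)) (by
      have h2 : X / 2 / 2 = X / 4 := by ring
      rw [h2]
      exact hi _ (by simp)) (by positivity) hTln) (fun l hl => ?_) (nB := nB) (fun j => ?_)
    (fun p p1 p2 => ?_)
    (fun l hl p hp p1 p2 => ?_) hx' x1'
  · have hnix : NgX S c d k od kB oB sn T TB nH nV nB
        (twQ m c d kT oT TT (fun j => TT j o - oT j * o) bt)
        (twQ m c d kT oT TT (fun j => TT j y - oT j * y) bt)
        (twQ m c d kU oU TU nW bt) (whG G A s w) ((w : ℝ) + s) ((v : ℝ) + s)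
        (fun j => pfQ (whG G A s) od (fun i w => T i (whG G A s w)) i.b j v)
        (fun j => pfQ (whG G A s) od (fun i w => T i (whG G A s w)) i.b j oq) (X / 2) := by
      intro ε hε
      obtain ⟨κ₁, hκ₁, e₀, he₀, H⟩ := nif ε hε
      refine ⟨κ₁, hκ₁, e₀, he₀, fun K => Bas.mono 0 (H K) ?_⟩
      intro J _ F A' H V z V' z' hz hz' u u₁ q pa hu hu₁ hq hpa
      have hH := H V z V' z' hz hz' u u₁ q pa hu hu₁ hq hpa
      have h1 := hdef w v oq (by linarith) wv vo (by linarith)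
      have h2 := hdrop w oq (by linarith) (wv.trans vo) (by linarith)
      have h3 : e / 16 * (2 * r) = X / 8 := by rw [hX]; ring
      rw [h3] at h1 h2
      refine ⟨hH.1.trans ?_, hH.2.trans ?_⟩
      · refine add_le_add le_rfl (mul_le_mul_of_nonneg_right ?_ (Nat.cast_nonneg J))
        linarith
      · refine add_le_add le_rfl (mul_le_mul_of_nonneg_right ?_ (Nat.cast_nonneg J))
        linarith
    have mem_v : whG G A s v ∈ ({b, whG G A s w, whG G A s v, whG G A s oq, y, o} : Set ℝ) := by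
      simp
    have mem_oc : whG G A s oq ∈ ({b, whG G A s w, whG G A s v, whG G A s oq, y, o} : Set ℝ) := by
      simp
    have mem_y : y ∈ ({b, whG G A s w, whG G A s v, whG G A s oq, y, o} : Set ℝ) := by simp
    have mem_o : o ∈ ({b, whG G A s w, whG G A s v, whG G A s oq, y, o} : Set ℝ) := by simp
    have hod : ∀ j, ∀ t : ℝ, t ≤ 2 * E → (od j : ℝ) * t ≤ 2 * (Ob * E) := by
      intro j t ht
      rcases le_total t 0 with h1 | h1
      · have : (od j : ℝ) * t ≤ 0 := mul_nonpos_of_nonneg_of_nonpos (Nat.cast_nonneg _) h1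
        linarith
      · calc (od j : ℝ) * t ≤ Ob * t := mul_le_mul_of_nonneg_right (hOA j) h1
          _ ≤ Ob * (2 * E) := mul_le_mul_of_nonneg_left ht hOb0
          _ = 2 * (Ob * E) := by ring
    have t1 : ∀ j, T j o ≤ T j (whG G A s oq) + (2 * (Sg * E) + E) := fun j =>
      (hbox.tc j mem_oc mem_o (by linarith)).2
    have t2 : ∀ j, T j (whG G A s oq) ≤ T j o + (2 * (Sg * E) + E) := fun j =>
      (hbox.tc j mem_o mem_oc (by linarith)).2
    have t3 : ∀ j, T j (whG G A s v) ≤ T j y + (2 * (Sg * E) + E) := fun j =>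
      (hbox.tc j mem_y mem_v (by linarith)).2
    refine NgW.mono ?_ (ng_real (E₂ := 2 * ((Sg + Ob) * E) + 2 * E) htm h.pos
      h.ch h.att h'.att hbj (zw := (w : ℝ) + s) (zv := (v : ℝ) + s) (by linarith) (by linarith)
      (by linarith) (by positivity) (h.rn w (by linarith) (by linarith))
      (h.rn v (by linarith) (by linarith)) (fun j => ?_) (fun j => ?_) (fun j => ?_) hnix
      (ε := X / 4) (by linarith))
    · have h5 : (n : ℝ) * (2 * ((Sg + Ob) * E) + 2 * E) = 2 * (n * ((Sg + Ob + 1) * E)) := by ring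
      linarith
    · have h6 := hod j (o - whG G A s oq) (by linarith)
      linarith [(hPo j).1, t2 j]
    · have h6 := hod j (whG G A s oq - o) (by linarith)
      linarith [(hPo j).2, t1 j]
    · have h6 := hod j (y - whG G A s v) (by linarith)
      linarith [hPv j, t3 j]
  · have h1 := hadm.ed.ed.nat w ww (by linarith) l hl
    have h2 := hNr.nr.kv l hl
    have h3 := hbox.fl l hl _ (show whG G A s w ∈ ({b, whG G A s w, whG G A s oq} : Set ℝ) by simp)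
      b (by simp)
    have h4 := hLvl l hl
    have h5 := hadm.ed.ed.σ0
    linarith
  · have h1 := hadm.bd.nat j w ww (by linarith)
    have h2 := hNr.B1 j
    have h3 := (abs_le.1 (htB j)).2
    linarith
  · obtain ⟨u, hu, u1, u2⟩ := HB.gap p (by linarith) (by linarith)
    rw [← hE] at u1
    refine ⟨u, hu, ?_⟩
    rw [abs_le]
    constructor <;> linarith
  · have h1 := abs_le.1 (HB.sl p hp _ co (by linarith) p2 (by linarith) l hl)
    rw [← hE] at h1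
    rw [abs_le]
    constructor <;> linarith [h1.1, h1.2]

/-- **No look-ahead given the near path, jets over the chain and over the chain and one more place,
at almost every window**, in a subclass. -/
theorem nt_ae (h : NiC S c d k sn T G s A B) (hK : NiC S c d kB sn TB G s A B)
    (hI : TwI S c d sn G kT TT kU TU) (od : Fin n → ℕ) (oB : Fin n' → ℕ) (oT : Fin nT → ℕ)
    (oU : Fin nU → ℕ) :
    ∃ S' : PCl m, S'.Ne ∧
      (∀ (τ : ℝ) (J : ℕ) (F : Fam m J) (A : F.Ω → Prop), S'.St τ J F A → S.St τ J F A) ∧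
      ∀ᵐ g : ℝ, g ∈ G → A < g → g < B → (∀ l < d, sn l g < 1) → ∀ Sg : ℝ, 0 ≤ Sg →
        SlB sn d T G g Sg → TgB T g Sg → LoB od T G g → SlK oB TB G g →
        ∀ (a₀ : ℝ) (bT : Fin nT → ℝ), TwG sn d oT TT oU TU G g a₀ bT →
          NtG S' c d k od kB oB sn T TB kT oT TT kU oU TU a₀ G g := by
  by_cases hne : (G ∩ Set.Icc A B).Nonempty
  swap
  · refine ⟨S, h.ne, fun _ _ _ _ h => h, Filter.Eventually.of_forall fun g h1 h2 h3 => ?_⟩
    exact absurd ⟨g, h1, h2.le, h3.le⟩ hne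
  obtain ⟨u₀, hu₀⟩ : ∃ u₀, u₀ = sInf (G ∩ Set.Icc A B) := ⟨_, rfl⟩
  have hbd : BddBelow (G ∩ Set.Icc A B) := ⟨A, fun x hx => hx.2.1⟩
  have hum : u₀ ∈ G ∩ Set.Icc A B := by
    rw [hu₀]
    exact (h.cl.inter isClosed_Icc).csInf_mem hne hbd
  obtain ⟨a, ha⟩ : ∃ a, a = u₀ - s := ⟨_, rfl⟩
  have hA : ∃ u ∈ G, A ≤ u ∧ u ≤ a + s := ⟨u₀, hum.1, hum.2.1, by rw [ha]; linarith⟩
  obtain ⟨S', g1, g2, θ₀, θ, hN⟩ := ndt_cls (h.vch hA) hI (h.tgc hA) (hK.tgc hA) od oB oT oU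
  refine ⟨S', g1, g2, ?_⟩
  have h' := h.sub g1 g2
  have hK' := hK.sub g1 g2
  have hI' := hI.sub g2
  have h3 := ndt_ae (h'.vch hA) hI' (h'.tgc hA) (hK'.tgc hA) hN
  have h4 := ae_shift h3 s
  have h5 : ∀ᵐ g : ℝ, g ≠ u₀ := (measure_eq_zero_iff_ae_notMem.1 (measure_singleton u₀)).mono
    fun g hg he => hg (by rw [he]; exact Set.mem_singleton u₀)
  filter_upwards [h4, h5] with g h6 h7 hgG hAg hgB s1 Sg hSg hsl htg hlo hsk a₀ bT hTw
  have h8 : u₀ < g := lt_of_le_of_ne (by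
    rw [hu₀]
    exact csInf_le hbd ⟨hgG, hAg.le, hgB.le⟩) (Ne.symm h7)
  exact nt_box h' hK' hI' hA hN hgG hAg hgB s1 hSg hsl htg hlo hsk hTw fun e he ρ hρ =>
    h6 (crt_of h.cl hgG hAg (hgB.trans h.B1) h.mn s1 hSg hsl hsk hTw (by rw [ha]; linarith)
      (by linarith)) e he ρ hρ

end Pool.LPT30
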