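import Pool.Agent.H30.LPT.Twh

/-!
# No look-ahead given the near path, for countably many data at once

`TwD0`: the data of one statement. `nt_fam`: one subclass in which `NtG` holds for countably many data,
at almost every window.
-/

set_option autoImplicit false

namespace Pool.LPT30

open Finset Real MvPolynomial MeasureTheory
open Pool.Agent.H49.Ent Pool.Agent.H32.Dense Pool.STK Pool.KA Pool.KSAT Pool.K2S Pool.PB Pool.S6C
  Pool.GEN Pool.RCD Pool.LA91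
open Pool.OWN83 (TwoRelS TRelS yX kn0_yX ae_shift rel_clsS)
open Pool.OWN68 (cl2_vg)
open Pool.AVG96 (fl fl_mem fl_mono le_fl whG)
open Pool.LP30 Pool.LPJ30

/-- **The data of one statement**: the number of places, the jets over the chain (first and second
kind), the jets over the chain and one more place (first and second kind), the windows. -/
structure TwY (m : ℕ) where
  d : ℕ
  n : ℕ
  n' : ℕ
  nT : ℕ
  nU : ℕ
  sn : ℕ → ℝ → ℝ
  G : Set ℝ
  s : ℝ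
  A : ℝ
  B : ℝ
  k : Fin n → Fin m
  T : Fin n → ℝ → ℝ
  od : Fin n → ℕ
  kB : Fin n' → Fin m
  TB : Fin n' → ℝ → ℝ
  oB : Fin n' → ℕ
  kT : Fin nT → Fin m
  TT : Fin nT → ℝ → ℝ
  oT : Fin nT → ℕ
  kU : Fin nU → Fin m
  TU : Fin nU → ℝ → ℝ
  oU : Fin nU → ℕ

/-- **The hypotheses on the class** for one datum. -/
structure TwH {m : ℕ} (S : PCl m) (c : ℕ → Fin m) (x : TwY m) : Prop where
  h : NiC S c x.d x.k x.sn x.T x.G x.s x.A x.B
  hK : NiC S c x.d x.kB x.sn x.TB x.G x.s x.A x.B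
  hI : TwI S c x.d x.sn x.G x.kT x.TT x.kU x.TU

variable {m : ℕ} {S : PCl m} {c : ℕ → Fin m}

/-- The first window. -/
noncomputable def TwY.a (x : TwY m) : ℝ := sInf (x.G ∩ Set.Icc x.A x.B) - x.s

theorem TwY.hA {x : TwY m} (h : IsClosed x.G) (hne : (x.G ∩ Set.Icc x.A x.B).Nonempty) :
    ∃ u ∈ x.G, x.A ≤ u ∧ u ≤ x.a + x.s := by
  have hbd : BddBelow (x.G ∩ Set.Icc x.A x.B) := ⟨x.A, fun y hy => hy.2.1⟩
  have hum : sInf (x.G ∩ Set.Icc x.A x.B) ∈ x.G ∩ Set.Icc x.A x.B :=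
    (h.inter isClosed_Icc).csInf_mem hne hbd
  exact ⟨_, hum.1, hum.2.1, by rw [TwY.a]; linarith⟩

/-- Admissible data of an index. -/
def TwY.Ad (x : TwY m) (i : EIxT x.d x.n' x.nU) : Prop :=
  AdmT (whG x.G x.A x.s) x.sn x.d x.G (fun j w => x.T j (whG x.G x.A x.s w)) x.oB
    (fun j w => x.TB j (whG x.G x.A x.s w)) x.oT x.TT x.oU x.TU x.a (x.B - x.s) i

/-- **One subclass** for countably many data. -/
theorem nt_fam {X : Type} [Countable X] (D : X → TwY m) (hne : S.Ne)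
    (hpos : ∀ (τ : ℝ) (J : ℕ) (F : Fam m J) (A : F.Ω → Prop), S.St τ J F A → 0 < Pe F.p A)
    (H : ∀ x, TwH S c (D x)) :
    ∃ S' : PCl m, S'.Ne ∧
      (∀ (τ : ℝ) (J : ℕ) (F : Fam m J) (A : F.Ω → Prop), S'.St τ J F A → S.St τ J F A) ∧
      ∀ᵐ g : ℝ, ∀ x : X, g ∈ (D x).G → (D x).A < g → g < (D x).B →
        (∀ l < (D x).d, (D x).sn l g < 1) → ∀ Sg : ℝ, 0 ≤ Sg →
        SlB (D x).sn (D x).d (D x).T (D x).G g Sg → TgB (D x).T g Sg →
        LoB (D x).od (D x).T (D x).G g → SlK (D x).oB (D x).TB (D x).G g →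
        ∀ (a₀ : ℝ) (bT : Fin (D x).nT → ℝ),
          TwG (D x).sn (D x).d (D x).oT (D x).TT (D x).oU (D x).TU (D x).G g a₀ bT →
          NtG S' c (D x).d (D x).k (D x).od (D x).kB (D x).oB (D x).sn (D x).T (D x).TB (D x).kT
            (D x).oT (D x).TT (D x).kU (D x).oU (D x).TU a₀ (D x).G g := by
  classical
  obtain ⟨S', g1, g2, h3⟩ := rel_clsS
    (ι := Σ x : {x : X // ((D x).G ∩ Set.Icc (D x).A (D x).B).Nonempty},
      {i : EIxT (D x.1).d (D x.1).n' (D x.1).nU // (D x.1).Ad i})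
    hne hpos (fun i => ((Fin (D i.1.1).d → ℤ) × (Fin (D i.1.1).n' → ℤ)) × (Fin (D i.1.1).nU → ℤ))
    (fun i => (Fin (D i.1.1).n → ℤ) × (Fin (D i.1.1).nT → ℤ)) (fun _ J F => PtT F)
    (fun _ J F => (Fin m → ℤ) × (ℕ × F.ζ)) (fun _ J F => ptr F J)
    (fun i => yX ((range (D i.1.1).d).image c))
    (fun i => (D i.1.1).s)
    (fun i => cdT m c (D i.1.1).d (whG (D i.1.1).G (D i.1.1).A (D i.1.1).s) (D i.1.1).sn
      (exN i.2.1.N) (D i.1.1).kB (D i.1.1).oB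
      (fun j w => (D i.1.1).TB j (whG (D i.1.1).G (D i.1.1).A (D i.1.1).s w)) i.2.1.DB i.2.1.lp
      (D i.1.1).kU (D i.1.1).oU (D i.1.1).TU i.2.1.DV)
    (fun i w o => jtT m c (D i.1.1).d (D i.1.1).k (D i.1.1).od
      (whG (D i.1.1).G (D i.1.1).A (D i.1.1).s)
      (fun j w => (D i.1.1).T j (whG (D i.1.1).G (D i.1.1).A (D i.1.1).s w))
      (fun j => pfQ (whG (D i.1.1).G (D i.1.1).A (D i.1.1).s) (D i.1.1).od
        (fun j w => (D i.1.1).T j (whG (D i.1.1).G (D i.1.1).A (D i.1.1).s w)) i.2.1.b j o)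
      i.2.1.lp (D i.1.1).kT (D i.1.1).oT (D i.1.1).TT
      (fun j => pfT (whG (D i.1.1).G (D i.1.1).A (D i.1.1).s) ((D i.1.1).TT j) ((D i.1.1).sn
        (D i.1.1).d) ((D i.1.1).oT j) (i.2.1.a - i.2.1.lp) i.2.1.b o) w)
    (fun i => i.2.1.a) (fun i => i.2.1.b) (fun i => i.2.1.lam)
    (fun i => i.2.2.rel ((H i.1.1).h.vch (TwY.hA (H i.1.1).h.cl i.1.2)) (H i.1.1).hI
      ((H i.1.1).h.tgc (TwY.hA (H i.1.1).h.cl i.1.2))
      ((H i.1.1).hK.tgc (TwY.hA (H i.1.1).h.cl i.1.2)))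
    (fun i => by exact_mod_cast i.2.2.lam0)
  choose θ₀ θ hθ using h3
  have hpos' : ∀ (τ : ℝ) (J : ℕ) (F : Fam m J) (A : F.Ω → Prop), S'.St τ J F A → 0 < Pe F.p A :=
    fun τ J F A h => hpos τ J F A (g2 τ J F A h)
  refine ⟨S', g1, g2, ae_all_iff.2 fun x => ?_⟩
  by_cases hx : ((D x).G ∩ Set.Icc (D x).A (D x).B).Nonempty
  swap
  · refine Filter.Eventually.of_forall fun g h1 h2 h3 => ?_
    exact absurd ⟨g, h1, h2.le, h3.le⟩ hx
  have hA := TwY.hA (H x).h.cl hx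
  have h' := (H x).h.sub g1 g2
  have hK' := (H x).hK.sub g1 g2
  have hI' := (H x).hI.sub g2
  have hN : NtN S' (fun J F => ptr F J) (yX ((range (D x).d).image c)) c (D x).d (D x).s (D x).a
      ((D x).B - (D x).s) (whG (D x).G (D x).A (D x).s) (D x).sn (D x).G (D x).k (D x).od
      (fun j w => (D x).T j (whG (D x).G (D x).A (D x).s w)) (D x).kB (D x).oB
      (fun j w => (D x).TB j (whG (D x).G (D x).A (D x).s w)) (D x).kT (D x).oT (D x).TT
      (D x).kU (D x).oU (D x).TU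
      (fun i => if hi : (D x).Ad i then θ₀ ⟨⟨x, hx⟩, ⟨i, hi⟩⟩ else fun _ => 0)
      (fun i => if hi : (D x).Ad i then θ ⟨⟨x, hx⟩, ⟨i, hi⟩⟩ else fun _ _ => 0) := by
    intro i hi
    have hi' : (D x).Ad i := hi
    simp only [dif_pos hi']
    exact hθ ⟨⟨x, hx⟩, ⟨i, hi'⟩⟩
  have h3 := ndt_ae (h'.vch hA) hI' (h'.tgc hA) (hK'.tgc hA) hN
  have h4 := ae_shift h3 (D x).s
  have h5 : ∀ᵐ g : ℝ, g ≠ (D x).a + (D x).s :=
    (measure_eq_zero_iff_ae_notMem.1 (measure_singleton ((D x).a + (D x).s))).mono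
    fun g hg he => hg (by rw [he]; exact Set.mem_singleton _)
  filter_upwards [h4, h5] with g h6 h7 hgG hAg hgB s1 Sg hSg hsl htg hlo hsk a₀ bT hTw
  have h8 : (D x).a + (D x).s < g := lt_of_le_of_ne (by
    rw [TwY.a, sub_add_cancel]
    exact csInf_le ⟨(D x).A, fun y hy => hy.2.1⟩ ⟨hgG, hAg.le, hgB.le⟩) (Ne.symm h7)
  exact nt_box h' hK' hI' hA hN hgG hAg hgB s1 hSg hsl htg hlo hsk hTw fun e he ρ hρ =>
    h6 (crt_of h'.cl hgG hAg (hgB.trans h'.B1) h'.mn s1 hSg hsl hsk hTw (by linarith)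
      (by linarith)) e he ρ hρ

end Pool.LPT30
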