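import Pool.Agent.H30.LPT.Twj
import Pool.Agent.H28.RV.Pkg
import Pool.Agent.H3.V0F.Attu

/-!
# No look-ahead given the near path, the chain and one more place, as a property of the windows

`TwX`: the index. `TwQ`: the property of a window. `aePG_tw`: it holds at almost every window, in a
subclass; the last coordinate is allowed.
-/

set_option autoImplicit false

namespace Pool.LPT30

open Finset Real MvPolynomial MeasureTheory
open Pool.Agent.H49.Ent Pool.Agent.H32.Dense Pool.STK Pool.KA Pool.KSAT Pool.K2S Pool.PB Pool.S6C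
  Pool.GEN Pool.RCD Pool.LA91 Pool.LP30 Pool.LPJ30 Pool.PKG Pool.CHT Pool.GRW
open Pool.AVG96 (gap_ae)
open Pool.TOP (TopS)
open Pool.V0F (LbU AttUQ aePG_attU exs_jetE)

/-- **The index**: the place `r`; orders of jets of the coordinate `r` over the places below `r`, of
the first kind (natural digits) and of the second kind (free digits); orders of jets of the coordinate
`r + 1` over the places up to `r`, of the first and of the second kind; the error. -/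
structure TwX where
  /-- The place. -/
  r : ℕ
  /-- Jets of the coordinate `r`, first kind. -/
  nA : ℕ
  /-- Their orders. -/
  oA : Fin nA → ℕ
  /-- Jets of the coordinate `r`, second kind. -/
  nB : ℕ
  /-- Their orders. -/
  oB : Fin nB → ℕ
  /-- Jets of the coordinate `r + 1`, first kind. -/
  nT : ℕ
  /-- Their orders. -/
  oT : Fin nT → ℕ
  /-- Jets of the coordinate `r + 1`, second kind. -/
  nU : ℕ
  /-- Their orders. -/
  oU : Fin nU → ℕ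
  /-- The error. -/
  e : ℚ

instance : Countable TwX := by
  have h : Function.Injective (fun p : TwX =>
      ((p.r, p.e), (⟨p.nA, p.oA⟩ : Σ n : ℕ, Fin n → ℕ), (⟨p.nB, p.oB⟩ : Σ n : ℕ, Fin n → ℕ),
        (⟨p.nT, p.oT⟩ : Σ n : ℕ, Fin n → ℕ), (⟨p.nU, p.oU⟩ : Σ n : ℕ, Fin n → ℕ))) := by
    rintro ⟨a1, a2, a3, a4, a5, a6, a7, a8, a9, a10⟩ ⟨b1, b2, b3, b4, b5, b6, b7, b8, b9, b10⟩ h
    simp only [Prod.mk.injEq, Sigma.mk.injEq] at h
    obtain ⟨⟨rfl, rfl⟩, ⟨rfl, h1⟩, ⟨rfl, h2⟩, ⟨rfl, h3⟩, ⟨rfl, h4⟩⟩ := h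
    cases h1
    cases h2
    cases h3
    cases h4
    rfl
  exact h.countable

/-- **No look-ahead given the near path**, jets of the coordinate `p.r` over the places below and of
the coordinate `p.r + 1` over the places up to `p.r`, in the boxes around the window `x`; scales
smaller than `1 / (k₀ + 1)`. -/
structure TwQ {n : ℕ} (p : TwX) (k₀ : ℕ) (S : PCl n)
    (P : List (Fin n) × Fin n → ℝ → ℝ → ℝ) (θ : ℝ) (c : ℕ → Fin n) (Pt : ℝ → ℝ → ℝ)
    (r : ℝ → ℝ) (L T : ℕ → ℝ → ℝ → ℝ) (κ : ℕ → Kg) (G : Set ℝ) (x : ℝ) : Prop where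
  /-- The numbers of the records exist. -/
  rn : ∃ η : ℚ → ℝ, ∀ w : ℚ, RNum S (fun J F => ptr F J) (vg (w : ℝ)) (η w)
  /-- The chains at the windows of `G`. -/
  ch : ∀ d < n, ChG S c d (fun l w => L l w w) G
  /-- The slopes are derivatives. -/
  dv : ∀ l < n, HasDerivAt (fun a => L l a a) (deriv (fun a => L l a a) x) x
  /-- **The statement**: `a`, `b` the slopes of the places `p.r` and `p.r + 1` at `x`. -/
  tw : ∀ a b : ℝ, a = deriv (fun a => L p.r a a) x → b = deriv (fun a => L (p.r + 1) a a) x →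
    p.r + 1 < n → (∀ l < p.r, κ l = .one) → 0 < p.e →
    (∀ i, (p.oA i : ℝ) < a ∨ p.oA i ≤ 1) → (∀ i, (p.oB i : ℝ) = a) →
    (∀ i, (p.oT i : ℝ) < b ∧ b < a) → (∀ i, (p.oU i : ℝ) = b ∧ b < a) →
    ∀ ρ : ℝ, 0 < ρ → ((k₀ : ℝ) + 1) * ρ < 1 →
    ∀ v ∈ G, ∀ vt ∈ G, ∀ w y o : ℝ, x - ρ ≤ v → x - ρ ≤ vt → v ≤ w → w ≤ y → y ≤ o → o ≤ x + ρ →
    ∀ (nH nV lv : ℕ → ℝ) (nB : Fin p.nB → ℝ) (nW : Fin p.nU → ℝ),
      NrT (fun l w => L l w w) p.r (fun (_ : Fin p.nA) w => L p.r w w) p.oB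
        (fun _ w => L p.r w w) p.oT (fun _ w => L (p.r + 1) w w) p.oU
        (fun _ w => L (p.r + 1) w w) a nH nV lv nB nW v vt w o (p.e * ρ) (1 / ((k₀ : ℝ) + 1)) →
      NtW S c p.r (fun _ : Fin p.nA => c p.r) p.oA (fun _ : Fin p.nB => c p.r) p.oB
        (fun l w => L l w w) (fun _ w => L p.r w w) (fun _ w => L p.r w w)
        (fun _ : Fin p.nT => c (p.r + 1)) p.oT (fun _ w => L (p.r + 1) w w)
        (fun _ : Fin p.nU => c (p.r + 1)) p.oU (fun _ w => L (p.r + 1) w w) nH nV nB nW v vt w y o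
        (p.e * ρ)

/-- The property passes to subclasses. -/
theorem TwQ.sub {n : ℕ} {p : TwX} {k₀ : ℕ} {S S' : PCl n}
    {P : List (Fin n) × Fin n → ℝ → ℝ → ℝ} {θ : ℝ} {c : ℕ → Fin n} {Pt : ℝ → ℝ → ℝ}
    {r : ℝ → ℝ} {L T : ℕ → ℝ → ℝ → ℝ} {κ : ℕ → Kg} {G : Set ℝ} {x : ℝ}
    (hs : ∀ (τ : ℝ) (J : ℕ) (F : Fam n J) (A : F.Ω → Prop), S'.St τ J F A → S.St τ J F A)
    (h : TwQ p k₀ S P θ c Pt r L T κ G x) : TwQ p k₀ S' P θ c Pt r L T κ G x where
  rn := by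
    obtain ⟨η, hη⟩ := h.rn
    exact ⟨η, fun w => (hη w).sub hs⟩
  ch := fun d hd => (h.ch d hd).sub hs
  dv := h.dv
  tw := fun a b ha hb e1 e2 e3 e4 e5 e6 e7 ρ h1 h2 v hv vt hvt w y o a1 a2 a3 a4 a5 a6 nH nV lv nB
      nW hN =>
    NgW.sub hs (h.tw a b ha hb e1 e2 e3 e4 e5 e6 e7 ρ h1 h2 v hv vt hvt w y o a1 a2 a3 a4 a5 a6 nH
      nV lv nB nW hN)

theorem her_tw (n : ℕ) : HerQ (TwQ : PropG n TwX) :=
  fun _ _ _ _ _ _ _ _ _ _ _ _ _ _ hs h => h.sub hs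

/-- The data of an index. -/
noncomputable def twy {n : ℕ} (c : ℕ → Fin n) (L : ℕ → ℝ → ℝ → ℝ) (G : Set ℝ)
    (x : TwX × ℚ × ℚ) : TwY n where
  d := x.1.r
  n := x.1.nA
  n' := x.1.nB
  nT := x.1.nT
  nU := x.1.nU
  sn := fun l w => L l w w
  G := G ∩ Set.Icc (x.2.1 : ℝ) x.2.2
  s := 0
  A := 0
  B := x.2.2
  k := fun _ => c x.1.r
  T := fun _ w => L x.1.r w w
  od := x.1.oA
  kB := fun _ => c x.1.r
  TB := fun _ w => L x.1.r w w
  oB := x.1.oB
  kT := fun _ => c (x.1.r + 1)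
  TT := fun _ w => L (x.1.r + 1) w w
  oT := x.1.oT
  kU := fun _ => c (x.1.r + 1)
  TU := fun _ w => L (x.1.r + 1) w w
  oU := x.1.oU

/-- Jets of the coordinate `r + 1` exist at all windows of a small interval. -/
def LabOk {n : ℕ} (S : PCl n) (c : ℕ → Fin n) (L : ℕ → ℝ → ℝ → ℝ) (G : Set ℝ) (r : ℕ)
    (α β : ℝ) : Prop :=
  ∀ w ∈ G ∩ Set.Icc α β, ∀ (j : ℕ) (N : ℝ),
    Exs S (qJet n ((range (r + 1)).image c) (c (r + 1)) j w (L (r + 1) w w) N)

/-- The constants do not matter. -/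
theorem nrT_le {sn : ℕ → ℝ → ℝ} {d n n' nT nU : ℕ} {T : Fin n → ℝ → ℝ} {oB : Fin n' → ℕ}
    {TB : Fin n' → ℝ → ℝ} {oT : Fin nT → ℕ} {TT : Fin nT → ℝ → ℝ} {oU : Fin nU → ℕ}
    {TU : Fin nU → ℝ → ℝ} {a₀ : ℝ} {nH nV lv : ℕ → ℝ} {nB : Fin n' → ℝ} {nW : Fin nU → ℝ}
    {b bt x o τ κ₀ κ₁ : ℝ}
    (h : NrT sn d T oB TB oT TT oU TU a₀ nH nV lv nB nW b bt x o τ κ₀) (hκ : κ₀ ≤ κ₁) :
    NrT sn d T oB TB oT TT oU TU a₀ nH nV lv nB nW b bt x o τ κ₁ where
  nr :=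
    { nr := Pool.RV28.nrW_le h.nr.nr hκ
      g := h.nr.g
      B1 := fun i => by linarith [h.nr.B1 i]
      B2 := h.nr.B2 }
  u := h.u
  x0 := h.x0
  T := h.T
  U := h.U

/-- **The property `TwQ` holds at almost every window**, in a subclass. -/
theorem aePG_tw (n : ℕ) : AePG n (TwQ : PropG n TwX) := by
  intro hn S P r P' Λ PB PQ H hTop hF o G hG hGs
  obtain ⟨S₀, z1, z2, z3⟩ := aePG_attU n hn S P r P' Λ PB PQ H hTop hF o G hG hGs
  have H₀ := H.sub z1 z2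
  obtain ⟨al, g₀, s, d', e', K₁, N₁, hal, hg₀, hC⟩ := H₀.cl
  have htm : TmC S₀ 6 := Pool.GEN.N83.clx_tmc hC
  have hM : Bas S₀ (fun J F A => (cnt F.p (ptr F J) A : ℝ) ≤ Real.exp ((4 * n + 1) * J)) :=
    Bas.mono 0 hC.cnt fun J _ F A h => h J le_rfl
  have hW : ∀ d < n, ChG S₀ (cc hn o.1.1) d (fun l w => LvL hn P P' o l w w) G :=
    fun d hd => gs_chG H₀.toPk hTop hF hGs (by omega)
  obtain ⟨S₁, a1, a2, η, hη⟩ := rnum_ptr hC.ne hC.pos hM
  have hW1 : ∀ d < n, ChG S₁ (cc hn o.1.1) d (fun l w => LvL hn P P' o l w w) G :=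
    fun d hd => (hW d hd).sub a2
  have hpos1 : ∀ (τ : ℝ) (J : ℕ) (F : Fam n J) (A : F.Ω → Prop), S₁.St τ J F A → 0 < Pe F.p A :=
    fun τ J F A h => hC.pos τ J F A (a2 τ J F A h)
  have hmon : ∀ l ≤ n - 1, ∀ w ∈ G, ∀ v ∈ G, w ≤ v → LvL hn P P' o l w w - w ≤
      LvL hn P P' o l v v - v := fun l hl w hw v hv hwv =>
    law_gap (H₀.lawL o l) (hGs hw).1.1.1.le hwv (hGs hv).1.1.2.1.le
      (lev_lt' H₀.toPk hTop hF (hGs hv) hl)
  obtain ⟨S₂, b1, b2, b3⟩ := nt_fam (c := cc hn o.1.1)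
    (X := {x : TwX × ℚ × ℚ // x.1.r + 1 < n ∧ (x.2.2 : ℝ) < 1 ∧
      LabOk S₁ (cc hn o.1.1) (LvL hn P P' o) G x.1.r x.2.1 x.2.2})
    (fun x => twy (cc hn o.1.1) (LvL hn P P' o) G x.1) a1 hpos1 (fun x => by
      obtain ⟨⟨p, α, β⟩, h1, h2, h3⟩ := x
      simp only at h1 h2 h3
      have hcl : IsClosed (G ∩ Set.Icc (α : ℝ) β) := hG.inter isClosed_Icc
      have hch : ∀ d < n, ChG S₁ (cc hn o.1.1) d (fun l w => LvL hn P P' o l w w)
          (G ∩ Set.Icc (α : ℝ) β) := fun d hd => ⟨fun w hw => (hW1 d hd).ch w hw.1⟩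
      have hn1 : ∀ N : ℕ, NiC S₁ (cc hn o.1.1) p.r (fun _ : Fin N => cc hn o.1.1 p.r)
          (fun l w => LvL hn P P' o l w w) (fun _ w => LvL hn P P' o p.r w w)
          (G ∩ Set.Icc (α : ℝ) β) 0 0 β := fun N =>
        { ne := a1
          pos := hpos1
          tm := ⟨6, fun τ J F A hτ h => htm τ J F A hτ (a2 τ J F A h)⟩
          rn := fun w _ _ => ⟨η w, by
            rw [add_zero]
            exact hη w⟩
          cl := hcl
          ch := hch p.r (by omega)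
          mn := fun l hl w hw v hv hwv => by
            have := hmon l (by omega) w hw.1 v hv.1 hwv
            linarith
          att := fun _ w hw => by
            obtain ⟨u₁, rd, h1, h2⟩ := (hW1 (p.r + 1) (by omega)).ch w hw.1
            exact ⟨rd p.r, h1 p.r (by omega), h2.att p.r (Nat.zero_le _) (by omega)⟩
          mT := fun _ w hw v hv hwv => hmon p.r (by omega) w hw.1 v hv.1 hwv
          B1 := h2 }
      have htt : TwT S₁ (cc hn o.1.1) p.r (fun l w => LvL hn P P' o l w w)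
          (G ∩ Set.Icc (α : ℝ) β) (cc hn o.1.1 (p.r + 1))
          (fun w => LvL hn P P' o (p.r + 1) w w) :=
        { ex := fun w hw j N => h3 w hw j N
          mono := fun w hw v hv hwv => by
            have := hmon (p.r + 1) (by omega) w hw.1 v hv.1 hwv
            linarith }
      have hti : TwI S₁ (cc hn o.1.1) p.r (fun l w => LvL hn P P' o l w w)
          (G ∩ Set.Icc (α : ℝ) β) (fun _ : Fin p.nT => cc hn o.1.1 (p.r + 1))
          (fun _ w => LvL hn P P' o (p.r + 1) w w) (fun _ : Fin p.nU => cc hn o.1.1 (p.r + 1))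
          (fun _ w => LvL hn P P' o (p.r + 1) w w) :=
        { ch := hch (p.r + 1) (by omega)
          mn := fun l hl w hw v hv hwv => by
            have := hmon l (by omega) w hw.1 v hv.1 hwv
            linarith
          tT := fun _ => htt
          tU := fun _ => htt }
      exact ⟨hn1 p.nA, hn1 p.nB, hti⟩)
  refine ⟨S₂, b1, fun τ J F A h => z2 τ J F A (a2 τ J F A (b2 τ J F A h)), ?_⟩
  filter_upwards [z3, b3, H.toPkT.dia_all H.pble hTop hF, gap_ae hG] with g h0 h1 hdia hgap hg κ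
    hκ p
  have ho := hGs hg
  have g0 : 0 < g := ho.1.1.1
  have g1 : g < 1 := ho.1.1.2.1
  have hdv : ∀ l < n, HasDerivAt (fun a => LvL hn P P' o l a a)
      (deriv (fun a => LvL hn P P' o l a a) g) g := fun l hl =>
    (hdia o ho l (by omega)).1.hasDerivAt
  have hch : ∀ d < n, ChG S₂ (cc hn o.1.1) d (fun l w => LvL hn P P' o l w w) G :=
    fun d hd => (hW1 d hd).sub b2
  by_cases hall : p.r + 1 < n ∧ (∀ l < p.r, κ l = .one) ∧ 0 < p.e ∧
    (∀ i, (p.oA i : ℝ) < deriv (fun a => LvL hn P P' o p.r a a) g ∨ p.oA i ≤ 1) ∧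
    (∀ i, (p.oB i : ℝ) = deriv (fun a => LvL hn P P' o p.r a a) g) ∧
    (∀ i, (p.oT i : ℝ) < deriv (fun a => LvL hn P P' o (p.r + 1) a a) g ∧
      deriv (fun a => LvL hn P P' o (p.r + 1) a a) g <
        deriv (fun a => LvL hn P P' o p.r a a) g) ∧
    (∀ i, (p.oU i : ℝ) = deriv (fun a => LvL hn P P' o (p.r + 1) a a) g ∧
      deriv (fun a => LvL hn P P' o (p.r + 1) a a) g < deriv (fun a => LvL hn P P' o p.r a a) g)
  swap
  · refine ⟨0, ⟨η, fun w => (hη w).sub b2⟩, hch, hdv, fun a b ha hb e1 e2 e3 e4 e5 e6 e7 => ?_⟩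
    subst ha
    subst hb
    exact absurd ⟨e1, e2, e3, e4, e5, e6, e7⟩ hall
  obtain ⟨e1, e2, e3, e4, e5, e6, e7⟩ := hall
  -- a small interval with labels
  obtain ⟨α, β, hα, hβ, hβ1, hlab⟩ : ∃ α β : ℚ, (α : ℝ) < g ∧ g < (β : ℝ) ∧ (β : ℝ) < 1 ∧
      LabOk S₁ (cc hn o.1.1) (LvL hn P P' o) G p.r α β := by
    rcases Nat.lt_or_ge (p.r + 2) n with h5 | h5
    · obtain ⟨α, -, hα⟩ := exists_rat_btwn (show g - 1 < g by linarith)
      obtain ⟨β, h6, h7⟩ := exists_rat_btwn g1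
      refine ⟨α, β, hα, h6, h7, fun w hw j N => ?_⟩
      obtain ⟨u₁, rd, k1, k2⟩ := (hW1 (p.r + 2) h5).ch w hw.1
      exact exs_jet (k1 (p.r + 1) (by omega)) (k2.att (p.r + 1) (Nat.zero_le _) (by omega))
    · obtain ⟨k₁, hk₁⟩ := h0 hg κ hκ ()
      have hp : (0 : ℝ) < (1 / 2) ^ k₁ := by positivity
      obtain ⟨α, k1, k2⟩ := exists_rat_btwn (show g - (1 / 2) ^ k₁ < g by linarith)
      obtain ⟨β, k3, k4⟩ := exists_rat_btwn (show g < min 1 (g + (1 / 2) ^ k₁) from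
        lt_min g1 (by linarith))
      refine ⟨α, β, k2, k3, k4.trans_le (min_le_left _ _), fun w hw j N => ?_⟩
      have hr : p.r + 1 = n - 1 := by omega
      have hwg : |w - g| ≤ (1 / 2) ^ k₁ := by
        have := hw.2.1
        have := hw.2.2
        have := k4.le.trans (min_le_right _ _)
        rw [abs_le]
        constructor <;> linarith
      obtain ⟨rk, E, m1, -, m3, -, m5⟩ := hk₁ w hw.1 hwg
      rw [hr]
      exact exs_jetE m1 m3 (m5.sub a2)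
  have hdl : ∀ l < p.r, HasDerivAt (fun x => LvL hn P P' o l x x) 1 g := by
    intro l hl
    have h2 := hκ l (by omega)
    rw [e2 l hl] at h2
    have h3 : deriv (fun a => LvL hn P P' o l a a) g = 1 := h2
    have h4 := hdv l (by omega)
    rw [h3] at h4
    exact h4
  have hdT := hdv p.r (by omega)
  have hdN := hdv (p.r + 1) e1
  have hs1 := Pool.RV28.slope_ge (H₀.lawL o p.r) g0 g1
    (lev_lt' H₀.toPk hTop hF ho (by omega)) hdT
  have hgp : GpB (G ∩ Set.Icc (α : ℝ) β) g := GpB.icc (hgap hg) hα hβ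
  have hmr : ∀ u ∈ G ∩ Set.Icc (α : ℝ) β, ∀ v ∈ G ∩ Set.Icc (α : ℝ) β, u ≤ v →
      LvL hn P P' o p.r u u - u ≤ LvL hn P P' o p.r v v - v := fun u hu v hv huv =>
    hmon p.r (by omega) u hu.1 v hv.1 huv
  have hR := h1 ⟨⟨p, α, β⟩, e1, hβ1, hlab⟩ ⟨hg, hα.le, hβ.le⟩ g0 hβ
    (fun l hl => lev_lt' H₀.toPk hTop hF ho (by
      have : l < p.r := hl
      omega)) _ (by linarith : (0 : ℝ) ≤ deriv (fun a => LvL hn P P' o p.r a a) g)
    (slB_der hdl hdT le_rfl hgp) (tgB_der hdT hs1 le_rfl) (loB_der hdT hmr e4)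
    (slK_der hdT e5) _ _ (twG_der hdT hdN (by linarith) e6 e7)
  obtain ⟨κ₀, hκ₀, r₀, hr₀, Hf⟩ := NtG.of_icc hα hβ hR p.e (by exact_mod_cast e3)
  obtain ⟨k, hk⟩ := exists_nat_one_div_lt (lt_min hκ₀ hr₀)
  refine ⟨k, ⟨η, fun w => (hη w).sub b2⟩, hch, hdv, fun a b ha hb _ _ _ _ _ _ _ ρ hρ hkρ v hv vt
    hvt w y o a1 a2 a3 a4 a5 a6 nH nV lv nB nW hN => ?_⟩
  have hk0 : (0 : ℝ) < (k : ℝ) + 1 := by positivity
  have hρr : ρ < r₀ := by
    have h2 : ρ < 1 / ((k : ℝ) + 1) := by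
      rw [lt_div_iff₀ hk0]
      linarith
    exact h2.trans (hk.trans_le (min_le_right _ _))
  subst ha
  exact Hf ρ hρ hρr v hv vt hvt w y o a1 a2 a3 a4 a5 a6 nH nV lv nB nW
    (nrT_le hN (hk.le.trans (min_le_left _ _)))

end Pool.LPT30
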